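import Pool.Agent.H42.RM.Defs
import Pool.Agent.H42.PCM.E1
import Pool.Agent.H42.PCM.B1

/-! Rational maps (project RM): global definitions. The map is `p / q` with `deg q < deg p`, so the
point at infinity is fixed; at the zeros of `q` we use the value `p β / q β`, which is never in the
backward orbit of `β` unless `β` is periodic. -/

set_option autoImplicit false

namespace Pool.Agent.H42.RM

open Pool.Agent.H42.PC Polynomial NumberField IsDedekindDomain

open scoped Classical

/-- The value used at the poles. -/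
noncomputable def ro {K : Type} [Field K] (p q : K[X]) (β : K) : K := p.eval β / q.eval β

/-- The map `p / q` on a `K`-algebra `A`. -/
noncomputable abbrev RA {K : Type} [Field K] (p q : K[X]) (β : K) (A : Type) [Field A]
    [Algebra K A] : A → A :=
  fr (p.map (algebraMap K A)) (q.map (algebraMap K A)) (algebraMap K A (ro p q β))

/-- infinite forward orbit which does not meet a pole -/
def Wan {K : Type} [Field K] (p q : K[X]) (β : K) {A : Type} [Field A] [Algebra K A] (c : A) :
    Prop :=
  (∀ n : ℕ, aeval ((RA p q β A)^[n] c) q ≠ 0) ∧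
    (Set.range fun n : ℕ => (RA p q β A)^[n] c).Infinite

/-- The multiplicity of `p / q` at `c`. -/
noncomputable def mlt {L : Type} [Field L] (p q : L[X]) (c : L) : ℕ :=
  rootMultiplicity c (C (q.eval c) * p - C (p.eval c) * q)

/-- `P`-`Q`-homogenisation of `f` in degree `D`. -/
noncomputable def hom2 {K : Type} [Field K] (D : ℕ) (f P Q : K[X]) : K[X] :=
  ∑ i ∈ Finset.range (D + 1), C (f.coeff i) * P ^ i * Q ^ (D - i)

/-- Numerator and denominator of the iterates of `p / q`. -/
noncomputable def PQ {K : Type} [Field K] (p q : K[X]) : ℕ → K[X] × K[X]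
  | 0 => (X, 1)
  | n + 1 => (hom2 p.natDegree p (PQ p q n).1 (PQ p q n).2,
      hom2 p.natDegree q (PQ p q n).1 (PQ p q n).2)

/-- The polynomial whose roots are the points `x` with `(p/q)^n x = β`. -/
noncomputable def RP {K : Type} [Field K] (p q : K[X]) (β : K) (n : ℕ) : K[X] :=
  (PQ p q n).1 - C β * (PQ p q n).2

/-- Basic hypotheses: `p / q` is a rational map of degree `p.natDegree ≥ 2` fixing infinity and `β` is
a critical point with infinite orbit. -/
structure RB {K : Type} [Field K] (p q : K[X]) (β : K) : Prop where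
  cop : IsCoprime p q
  deg : 2 ≤ p.natDegree
  qdeg : q.natDegree < p.natDegree
  crit : (wr p q).eval β = 0
  wan : Wan p q β β

/-- The forward orbits of different wandering critical points in `A` are disjoint. -/
def Disj {K : Type} [Field K] (p q : K[X]) (β : K) (A : Type) [Field A] [Algebra K A] : Prop :=
  ∀ c c' : A, aeval c (wr p q) = 0 → aeval c' (wr p q) = 0 → Wan p q β c → Wan p q β c' →
    c ≠ c' → ∀ i j : ℕ, (RA p q β A)^[i] c ≠ (RA p q β A)^[j] c'

/-- the wandering critical points in `M` -/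
noncomputable def Wr {K : Type} [Field K] (p q : K[X]) (β : K) (M : Type) [Field M]
    [Algebra K M] : Finset M :=
  (((wr p q).map (algebraMap K M)).roots.toFinset).filter fun c => Wan p q β c

/-- the multiplicity at a point of `M` -/
noncomputable abbrev mu {K : Type} [Field K] (p q : K[X]) (M : Type) [Field M] [Algebra K M]
    (c : M) : ℕ :=
  mlt (p.map (algebraMap K M)) (q.map (algebraMap K M)) c

/-- `v` is a good prime up to `J` iterations; the critical points live in `M`. -/
structure GoodR {K : Type} [Field K] [NumberField K] (p q : K[X]) (β : K) (M : Type) [Field M]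
    [NumberField M] [Algebra K M] (J : ℕ) (v : HeightOneSpectrum (𝓞 K)) : Prop where
  pint : ∀ i, v.valuation K (p.coeff i) ≤ 1
  qint : ∀ i, v.valuation K (q.coeff i) ≤ 1
  plead : v.valuation K p.leadingCoeff = 1
  bez : ∃ r s : K[X], (∀ i, v.valuation K (r.coeff i) ≤ 1) ∧
    (∀ i, v.valuation K (s.coeff i) ≤ 1) ∧ r * p + s * q = 1
  wlead : v.valuation K (wr p q).leadingCoeff = 1
  bint : v.valuation K β ≤ 1
  Wmu : ∀ c ∈ Wr p q β M, v.valuation K (mu p q M c : K) = 1
  Wg : ∀ w : HeightOneSpectrum (𝓞 M), w.asIdeal.LiesOver v.asIdeal → ∀ c ∈ Wr p q β M,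
    ∃ g : M[X], C (aeval c q) * p.map (algebraMap K M) - C (aeval c p) * q.map (algebraMap K M) =
      (X - C c) ^ mu p q M c * g ∧ w.valuation M (g.eval c) = 1
  Wreg : ∀ w : HeightOneSpectrum (𝓞 M), w.asIdeal.LiesOver v.asIdeal → ∀ c ∈ Wr p q β M,
    ∀ i ≤ J, w.valuation M ((RA p q β M)^[i] c) ≤ 1 ∧
      w.valuation M (aeval ((RA p q β M)^[i] c) q) = 1
  G2 : ∀ w : HeightOneSpectrum (𝓞 M), w.asIdeal.LiesOver v.asIdeal → ∀ c ∈ Wr p q β M,
    ∀ c' ∈ Wr p q β M, ∀ i ≤ J, ∀ j ≤ J,
    w.valuation M ((RA p q β M)^[i] c - (RA p q β M)^[j] c') < 1 → c = c' ∧ i = j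
  G3 : ∀ w : HeightOneSpectrum (𝓞 M), w.asIdeal.LiesOver v.asIdeal → ∀ c : M,
    aeval c (wr p q) = 0 → c ∉ Wr p q β M → ∀ t : ℕ,
    (∀ i ≤ t, aeval ((RA p q β M)^[i] c) q ≠ 0) →
    ¬ w.valuation M ((RA p q β M)^[t] c - algebraMap K M β) < 1

/-- The orbit of level `t` belonging to the factor `h` of level `n0`. -/
def OR {K : Type} [Field K] (p q : K[X]) (β : K) (h : K[X]) (n0 : ℕ) (L : Type) [Field L]
    [Algebra K L] (t : ℕ) : Set L :=
  {x | ∃ y : L, aeval y h = 0 ∧ ((n0 ≤ t ∧ (RA p q β L)^[t - n0] x = y) ∨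
    (t < n0 ∧ (RA p q β L)^[n0 - t] y = x))}

/-- Primes modulo which `β` is periodic and some iterate of `β` is a root of `h`. -/
def SR {K : Type} [Field K] [NumberField K] (p q h : K[X]) (β : K) :
    Set (HeightOneSpectrum (𝓞 K)) :=
  {v | (∃ n, 1 ≤ n ∧ v.valuation K ((RA p q β K)^[n] β - β) < 1) ∧
    ∃ k, v.valuation K (h.eval ((RA p q β K)^[k] β)) < 1}

/-- The proportion of elements of the Galois group of level `t` fixing a point of the orbit. -/
noncomputable def qr {K : Type} [Field K] (p q h : K[X]) (β : K) (n0 t : ℕ) : ℝ :=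
  PC.q (((RP p q β t).SplittingField) ≃ₐ[K] ((RP p q β t).SplittingField))
    (OR p q β h n0 ((RP p q β t).SplittingField)) t

/-- Eventual stability. -/
def ESR {K : Type} [Field K] (p q : K[X]) (β : K) : Prop :=
  ∃ B : ℕ, ∀ n, {g : K[X] | g.Monic ∧ Irreducible g ∧ g ∣ RP p q β n}.ncard ≤ B

/-- From level `n0` the fibres of conjugate points consist of conjugate points. -/
def StabR {K : Type} [Field K] (p q : K[X]) (β : K) (n0 : ℕ) : Prop :=
  ∀ n, n0 ≤ n → ∀ x x' : AlgebraicClosure K,
    (RA p q β (AlgebraicClosure K))^[n + 1] x = algebraMap K (AlgebraicClosure K) β →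
    (RA p q β (AlgebraicClosure K))^[n + 1] x' = algebraMap K (AlgebraicClosure K) β →
    minpoly K (RA p q β (AlgebraicClosure K) x) = minpoly K (RA p q β (AlgebraicClosure K) x') →
    minpoly K x = minpoly K x'

end Pool.Agent.H42.RM
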