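/-
ROW EAa. Numerators and denominators of the iterates. Let `d = p.natDegree`, `(P_n, Q_n) = PQ p q n`.
PROOFS.
* hom2_eval: `aeval x (hom2 D f P Q) = ∑ i ∈ range (D+1), a_i P^i Q^(D-i)` (values at `x`)
  `= Q^D ∑ a_i (P/Q)^i`, and the last sum is `aeval (P/Q) f` (aeval_eq_sum_range' with
  `f.natDegree < D + 1`); `P^i Q^(D-i) = Q^D (P/Q)^i` for `i ≤ D`, `Q ≠ 0`.
* hom2_zero: only the term `i = D` survives.
* pq_nocommon: induction on `n`. `n = 0`: `Q_0 = 1`. Step: if `Q_n(x) = 0` then `P_n(x) ≠ 0` (induction) and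
  `P_{n+1}(x) = lc(p) P_n(x)^d ≠ 0` (hom2_zero). If `Q_n(x) ≠ 0`, `z = P_n(x)/Q_n(x)`:
  `P_{n+1}(x) = Q_n(x)^d p(z)`, `Q_{n+1}(x) = Q_n(x)^d q(z)`, not both zero because `u p + v q = 1`.
* pq_deg: induction on `n`. `n = 0`: `X`, `1` (`d^0 = 1`). Step: in `P_{n+1} = ∑ p_i P^i Q^(d-i)` the term
  `i = d` has degree `d * d^n` (leading coefficient `lc(p) * lc(P)^d ≠ 0`), the terms with `i < d` have
  degree `≤ i d^n + (d-i) natDegree Q_n < d * d^n`. In `Q_{n+1}` only `i ≤ natDegree q < d` occur, so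
  all terms have degree `< d^(n+1)` (natDegree_sum_le_of_forall_le or degree_sum_lt style lemmas;
  `d^(n+1) ≥ 1`).
* rp_deg: natDegree_sub_eq_left_of_natDegree_lt (natDegree (C β * Q_n) ≤ natDegree Q_n < d^n).
* pq_coprime: a common factor of positive degree would have a root in the algebraic closure
  (Polynomial.isCoprime_iff_aeval_ne_zero... or isCoprime_of_... ; the ideal `(P_n, Q_n)` is generated by
  `gcd`; if the gcd is not a unit it has a root in `AlgebraicClosure K`, contradicting pq_nocommon).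
-/
import Pool.Agent.H42.RM.EDefs

set_option autoImplicit false

namespace Pool.Agent.H42.RM

open Polynomial

variable {K : Type} [Field K] {p q : K[X]} {β : K} {A : Type} [Field A] [Algebra K A]

theorem hom2_eval {D : ℕ} {f P Q : K[X]} (hf : f.natDegree ≤ D) {x : A} (hQ : aeval x Q ≠ 0) :
    aeval x (hom2 D f P Q) = aeval x Q ^ D * aeval (aeval x P / aeval x Q) f := by
  rw [hom2, map_sum, aeval_eq_sum_range' (Nat.lt_succ_of_le hf), Finset.mul_sum]
  refine Finset.sum_congr rfl fun i hi => ?_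
  have hi' : i ≤ D := Nat.lt_succ_iff.1 (Finset.mem_range.1 hi)
  rw [map_mul, map_mul, map_pow, map_pow, aeval_C, Algebra.smul_def, div_pow]
  have h1 : aeval x Q ^ D = aeval x Q ^ (D - i) * aeval x Q ^ i := by
    rw [← pow_add, Nat.sub_add_cancel hi']
  rw [h1]
  have h2 : aeval x Q ^ i ≠ 0 := pow_ne_zero _ hQ
  field_simp

theorem hom2_zero {D : ℕ} {f P Q : K[X]} {x : A} (hQ : aeval x Q = 0) :
    aeval x (hom2 D f P Q) = algebraMap K A (f.coeff D) * aeval x P ^ D := by
  rw [hom2, map_sum, Finset.sum_eq_single D]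
  · rw [Nat.sub_self, pow_zero, mul_one, map_mul, map_pow, aeval_C]
  · intro i hi hne
    have hi' : i ≤ D := Nat.lt_succ_iff.1 (Finset.mem_range.1 hi)
    rw [map_mul, map_pow, hQ, zero_pow (by omega), mul_zero]
  · intro h
    exact absurd (Finset.mem_range.2 (Nat.lt_succ_self D)) h

theorem pq_nocommon (hcop : IsCoprime p q) (hqd : q.natDegree < p.natDegree) (n : ℕ) (x : A) :
    ¬ (aeval x (PQ p q n).1 = 0 ∧ aeval x (PQ p q n).2 = 0) := by
  induction n with
  | zero =>
    rintro ⟨-, h⟩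
    have h1 : aeval x (1 : K[X]) = (0 : A) := h
    rw [map_one] at h1
    exact one_ne_zero h1
  | succ n ih =>
    rintro ⟨h1, h2⟩
    have h1' : aeval x (hom2 p.natDegree p (PQ p q n).1 (PQ p q n).2) = 0 := h1
    have h2' : aeval x (hom2 p.natDegree q (PQ p q n).1 (PQ p q n).2) = 0 := h2
    by_cases hQ : aeval x (PQ p q n).2 = 0
    · rw [hom2_zero hQ] at h1'
      have hp : p ≠ 0 := by
        rintro rfl
        rw [natDegree_zero] at hqd
        omega
      rcases mul_eq_zero.1 h1' with h | h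
      · have h3 : p.coeff p.natDegree = 0 := (map_eq_zero (algebraMap K A)).1 h
        exact hp (leadingCoeff_eq_zero.1 h3)
      · exact ih ⟨eq_zero_of_pow_eq_zero h, hQ⟩
    · rw [hom2_eval le_rfl hQ] at h1'
      rw [hom2_eval hqd.le hQ] at h2'
      have h3 := (mul_eq_zero.1 h1').resolve_left (pow_ne_zero _ hQ)
      have h4 := (mul_eq_zero.1 h2').resolve_left (pow_ne_zero _ hQ)
      obtain ⟨u, v, huv⟩ := hcop
      have h5 := congrArg (aeval (aeval x (PQ p q n).1 / aeval x (PQ p q n).2)) huv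
      rw [map_add, map_mul, map_mul, h3, h4, mul_zero, mul_zero, add_zero, map_one] at h5
      exact zero_ne_one h5

private theorem pq_term {P Q : K[X]} {D m i : ℕ} (hP : P.natDegree ≤ m) (hQ : Q.natDegree < m)
    (hi : i < D) (a : K) : (C a * P ^ i * Q ^ (D - i)).natDegree ≤ D * m - 1 := by
  have h1 : (C a * P ^ i * Q ^ (D - i)).natDegree ≤ i * m + (D - i) * (m - 1) := by
    refine natDegree_mul_le.trans (add_le_add ?_ ?_)
    · refine (natDegree_C_mul_le _ _).trans (natDegree_pow_le.trans ?_)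
      gcongr
    · refine natDegree_pow_le.trans ?_
      have : Q.natDegree ≤ m - 1 := by omega
      gcongr
  obtain ⟨m', rfl⟩ : ∃ m', m = m' + 1 := ⟨m - 1, by omega⟩
  obtain ⟨k, rfl⟩ : ∃ k, D = i + k + 1 := ⟨D - i - 1, by omega⟩
  have e1 : i + k + 1 - i = k + 1 := by omega
  rw [e1, Nat.add_sub_cancel] at h1
  rw [e1]
  have e2 : i * (m' + 1) + (k + 1) * m' + (k + 1) = (i + k + 1) * (m' + 1) := by ring
  refine h1.trans ?_
  rw [← e2]
  omega

theorem pq_deg (hqd : q.natDegree < p.natDegree) (n : ℕ) :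
    (PQ p q n).1.natDegree = p.natDegree ^ n ∧ (PQ p q n).2.natDegree < p.natDegree ^ n := by
  induction n with
  | zero =>
    constructor
    · show (X : K[X]).natDegree = _
      rw [natDegree_X, pow_zero]
    · show (1 : K[X]).natDegree < _
      rw [natDegree_one, pow_zero]
      exact Nat.one_pos
  | succ n ih =>
    obtain ⟨ih1, ih2⟩ := ih
    have hp : p ≠ 0 := by
      rintro rfl
      rw [natDegree_zero] at hqd
      omega
    have hd : 1 ≤ p.natDegree := by omega
    have hpos : 1 ≤ p.natDegree ^ (n + 1) := Nat.one_le_pow _ _ hd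
    have e0 : p.natDegree * p.natDegree ^ n = p.natDegree ^ (n + 1) := by
      rw [pow_succ, mul_comm]
    have hsum : ∀ f : K[X], (∑ i ∈ Finset.range p.natDegree,
        C (f.coeff i) * (PQ p q n).1 ^ i * (PQ p q n).2 ^ (p.natDegree - i)).natDegree ≤
          p.natDegree ^ (n + 1) - 1 := by
      intro f
      refine natDegree_sum_le_of_forall_le _ _ fun i hi => ?_
      rw [← e0]
      exact pq_term ih1.le ih2 (Finset.mem_range.1 hi) _
    constructor
    · show (hom2 p.natDegree p (PQ p q n).1 (PQ p q n).2).natDegree = _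
      rw [hom2, Finset.sum_range_succ, Nat.sub_self, pow_zero, mul_one]
      have h1 : (C (p.coeff p.natDegree) * (PQ p q n).1 ^ p.natDegree).natDegree =
          p.natDegree ^ (n + 1) := by
        rw [natDegree_C_mul (by rw [← leadingCoeff]; exact leadingCoeff_ne_zero.2 hp),
          natDegree_pow, ih1, e0]
      rw [natDegree_add_eq_right_of_natDegree_lt, h1]
      rw [h1]
      have := hsum p
      omega
    · show (hom2 p.natDegree q (PQ p q n).1 (PQ p q n).2).natDegree < _
      rw [hom2, Finset.sum_range_succ, coeff_eq_zero_of_natDegree_lt hqd, map_zero, zero_mul,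
        zero_mul, add_zero]
      have := hsum q
      omega

theorem rp_deg (hqd : q.natDegree < p.natDegree) (n : ℕ) :
    (RP p q β n).natDegree = p.natDegree ^ n := by
  obtain ⟨h1, h2⟩ := pq_deg (p := p) (q := q) hqd n
  rw [RP, natDegree_sub_eq_left_of_natDegree_lt, h1]
  rw [h1]
  exact (natDegree_C_mul_le _ _).trans_lt h2

theorem rp_ne (hqd : q.natDegree < p.natDegree) (n : ℕ) : RP p q β n ≠ 0 := by
  intro h
  have h1 := rp_deg (β := β) hqd n
  rw [h, natDegree_zero] at h1
  have h2 : 0 < p.natDegree ^ n := Nat.pow_pos (by omega)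
  omega

theorem pq_coprime (hcop : IsCoprime p q) (hqd : q.natDegree < p.natDegree) (n : ℕ) :
    IsCoprime (PQ p q n).1 (PQ p q n).2 := by
  rw [isCoprime_iff_aeval_ne_zero_of_isAlgClosed K (AlgebraicClosure K)]
  intro a
  have h := pq_nocommon hcop hqd n a
  rw [not_and_or] at h
  exact h

end Pool.Agent.H42.RM
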