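/-
ROW EAb. The map `RA` and its iterates. Let `F = RA p q β A`. PROOFS.
* ra_ne, ra_zero: unfold fr, eval_map_algebraMap.
* ra_hom: if `aeval x q = 0` then `aeval (ι x) q = ι 0 = 0` and both sides are the image of `ro`;
  otherwise map_div₀ and aeval_algHom_apply. ra_iter: induction. ra_base: ra_iter for
  `Algebra.ofId K A`. ra_smul: ra_iter for `g : A →ₐ[K] A`.
* pq_iter: induction on `n` with hom2_eval (row EAa; `natDegree p ≤ d`, `natDegree q ≤ d`):
  `P_{n+1}(x)/Q_{n+1}(x) = p(z)/q(z)`, `z = P_n(x)/Q_n(x) = F^[n] x`, and `Q_{n+1}(x) = Q_n(x)^d q(z) ≠ 0`.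
* pq_pole: induction on `n`: if `Q_n(x) = 0` then `Q_{n+1}(x) = q.coeff d * .. = 0` (hom2_zero,
  `natDegree q < d`), contradiction; so `Q_n(x) ≠ 0`, there are no poles before `n`,
  `F^[n] x = P_n(x)/Q_n(x)` (pq_iter) and `Q_{n+1}(x) = Q_n(x)^d q(F^[n] x) ≠ 0` (hom2_eval).
-/
import Pool.Agent.H42.RM.EAa

set_option autoImplicit false

namespace Pool.Agent.H42.RM

open Polynomial

variable {K : Type} [Field K] {p q : K[X]} {β : K} {A B : Type} [Field A] [Algebra K A] [Field B]
  [Algebra K B]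

theorem ra_ne {x : A} (h : aeval x q ≠ 0) : RA p q β A x = aeval x p / aeval x q := by
  unfold RA fr
  rw [eval_map_algebraMap, eval_map_algebraMap, if_neg h]

theorem ra_zero {x : A} (h : aeval x q = 0) : RA p q β A x = algebraMap K A (ro p q β) := by
  unfold RA fr
  rw [eval_map_algebraMap, if_pos h]

theorem ra_hom (ι : A →ₐ[K] B) (x : A) : ι (RA p q β A x) = RA p q β B (ι x) := by
  by_cases h : aeval x q = 0
  · have h' : aeval (ι x) q = 0 := by rw [aeval_algHom_apply, h, map_zero]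
    rw [ra_zero h, ra_zero h', AlgHom.commutes]
  · have h' : aeval (ι x) q ≠ 0 := by
      rw [aeval_algHom_apply]
      exact fun h0 => h ((map_eq_zero ι).1 h0)
    rw [ra_ne h, ra_ne h', map_div₀, aeval_algHom_apply, aeval_algHom_apply]

theorem ra_iter (ι : A →ₐ[K] B) (x : A) (n : ℕ) :
    ι ((RA p q β A)^[n] x) = (RA p q β B)^[n] (ι x) := by
  induction n with
  | zero => rfl
  | succ n ih => rw [Function.iterate_succ_apply', Function.iterate_succ_apply', ra_hom, ih]

theorem ra_base (x : K) (n : ℕ) :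
    algebraMap K A ((RA p q β K)^[n] x) = (RA p q β A)^[n] (algebraMap K A x) :=
  ra_iter (Algebra.ofId K A) x n

theorem ra_smul (g : A ≃ₐ[K] A) (x : A) (n : ℕ) :
    g • (RA p q β A)^[n] x = (RA p q β A)^[n] (g • x) :=
  ra_iter (g : A →ₐ[K] A) x n

theorem pq_iter (hqd : q.natDegree < p.natDegree) {x : A} {n : ℕ}
    (h : ∀ i < n, aeval ((RA p q β A)^[i] x) q ≠ 0) :
    aeval x (PQ p q n).2 ≠ 0 ∧
      (RA p q β A)^[n] x = aeval x (PQ p q n).1 / aeval x (PQ p q n).2 := by
  induction n with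
  | zero => simp [PQ]
  | succ n ih =>
    obtain ⟨h1, h2⟩ := ih (fun i hi => h i (by omega))
    have h3 := h n (Nat.lt_succ_self n)
    rw [h2] at h3
    have e1 : aeval x (PQ p q (n + 1)).1 = aeval x (PQ p q n).2 ^ p.natDegree *
        aeval (aeval x (PQ p q n).1 / aeval x (PQ p q n).2) p := hom2_eval le_rfl h1
    have e2 : aeval x (PQ p q (n + 1)).2 = aeval x (PQ p q n).2 ^ p.natDegree *
        aeval (aeval x (PQ p q n).1 / aeval x (PQ p q n).2) q := hom2_eval hqd.le h1
    rw [e1, e2, Function.iterate_succ_apply', h2, ra_ne h3]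
    refine ⟨mul_ne_zero (pow_ne_zero _ h1) h3, ?_⟩
    rw [mul_div_mul_left _ _ (pow_ne_zero _ h1)]

theorem pq_pole (hqd : q.natDegree < p.natDegree) {x : A} {n : ℕ}
    (h : aeval x (PQ p q n).2 ≠ 0) : ∀ i < n, aeval ((RA p q β A)^[i] x) q ≠ 0 := by
  induction n with
  | zero =>
    intro i hi
    exact absurd hi (Nat.not_lt_zero i)
  | succ n ih =>
    have h1 : aeval x (PQ p q n).2 ≠ 0 := by
      intro h0
      apply h
      have e : aeval x (PQ p q (n + 1)).2 = algebraMap K A (q.coeff p.natDegree) *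
        aeval x (PQ p q n).1 ^ p.natDegree := hom2_zero h0
      rw [e, coeff_eq_zero_of_natDegree_lt hqd, map_zero, zero_mul]
    have h2 := ih h1
    have h3 := (pq_iter hqd h2).2
    have e2 : aeval x (PQ p q (n + 1)).2 = aeval x (PQ p q n).2 ^ p.natDegree *
        aeval (aeval x (PQ p q n).1 / aeval x (PQ p q n).2) q := hom2_eval hqd.le h1
    intro i hi
    rcases Nat.lt_succ_iff_lt_or_eq.1 hi with hi' | rfl
    · exact h2 i hi'
    · rw [h3]
      rw [e2] at h
      exact right_ne_zero_of_mul h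

end Pool.Agent.H42.RM
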