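/-
ROW EAc. Wandering points. Let `F = RA p q β A`, `b = algebraMap K A β`, `o = ro p q β`. PROOFS.
* ro_eq: `RA p q β K β = ro p q β` (ra_ne; `aeval β q ≠ 0` is `hB.wan.1 0`).
* wan_hom: `aeval (ι y) q = ι (aeval y q)`, ra_iter; the range is the image under the injective `ι`
  (Set.infinite_image_iff or as in wand_hom of PCM/E1). wan_base: wan_hom for `Algebra.ofId K A`.
* wan_inj: as in wand_inj (PCM/E1): if `F^[i] c = F^[j] c` with `i < j` then the range is finite.
* r_aper: `F^[t] b = b` with `t ≥ 1` contradicts injectivity (`F^[t] b = F^[0] b`).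
* r_onl: `F^[t] o = F^[t+1] b`, never `b`.
* reach_reg: let `F^[t] x = b` and suppose `aeval (F^[i] x) q = 0`. If `i < t` then `F^[i+1] x = o` (ra_zero)
  and `F^[t] x = F^[t-i-1] o = b`, contradicting r_onl. If `i ≥ t`, `F^[i] x = F^[i-t] b` is not a pole
  by `wan_base` (first part).
* wan_reach: first part reach_reg; the range of the orbit of `x` contains the range of the orbit of `b`
  (`F^[n] b = F^[n+t] x`), which is infinite.
* rp_root: (→) `P_n(x) = b Q_n(x)`; if `Q_n(x) = 0` then also `P_n(x) = 0`, contradicting pq_nocommon. So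
  `Q_n(x) ≠ 0`, no poles before `n` (pq_pole), `F^[n] x = P_n(x)/Q_n(x) = b` (pq_iter). (←) no poles
  (reach_reg), pq_iter, so `P_n(x) = b Q_n(x)`.
* disj_hom: transport with ra_iter, wan_hom and `aeval (ι c) (wr p q) = ι (aeval c (wr p q))`.
* no_crit: `z` is wandering (wan_reach), `b` is a wandering critical point (wan_base, hB.crit), `z ≠ b`
  (r_aper), so `F^[t] z ≠ F^[0] b` by hD.
-/
import Pool.Agent.H42.RM.EAb

set_option autoImplicit false

namespace Pool.Agent.H42.RM

open Polynomial

variable {K : Type} [Field K] {p q : K[X]} {β : K} {A B : Type} [Field A] [Algebra K A] [Field B]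
  [Algebra K B]

theorem ro_eq (hB : RB p q β) : RA p q β K β = ro p q β := by
  have h : aeval β q ≠ 0 := hB.wan.1 0
  rw [ra_ne h, coe_aeval_eq_eval]
  rfl

theorem wan_hom (ι : A →ₐ[K] B) (c : A) : Wan p q β (ι c) ↔ Wan p q β c := by
  have h1 : ∀ n : ℕ, aeval ((RA p q β B)^[n] (ι c)) q = ι (aeval ((RA p q β A)^[n] c) q) := by
    intro n
    rw [← ra_iter, aeval_algHom_apply]
  have h2 : (Set.range fun n : ℕ => (RA p q β B)^[n] (ι c)) =
      ι '' (Set.range fun n : ℕ => (RA p q β A)^[n] c) := by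
    rw [← Set.range_comp]
    congr 1
    funext n
    exact (ra_iter ι c n).symm
  have h3 : (Set.range fun n : ℕ => (RA p q β B)^[n] (ι c)).Infinite ↔
      (Set.range fun n : ℕ => (RA p q β A)^[n] c).Infinite := by
    rw [h2]
    exact Set.infinite_image_iff ι.injective.injOn
  unfold Wan
  rw [h3]
  refine and_congr_left fun _ => forall_congr' fun n => ?_
  rw [h1 n]
  exact not_congr (map_eq_zero_iff ι ι.injective)

theorem wan_base (hB : RB p q β) : Wan p q β (algebraMap K A β) :=
  (wan_hom (Algebra.ofId K A) β).2 hB.wan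

theorem wan_inj {c : A} (h : Wan p q β c) : Function.Injective fun n : ℕ => (RA p q β A)^[n] c := by
  by_contra hinj
  obtain ⟨i, j, hlt, hij⟩ : ∃ i j : ℕ, i < j ∧ (RA p q β A)^[i] c = (RA p q β A)^[j] c := by
    unfold Function.Injective at hinj
    push Not at hinj
    obtain ⟨a, b, hab, hne⟩ := hinj
    rcases lt_or_gt_of_ne hne with h1 | h1
    · exact ⟨a, b, h1, hab⟩
    · exact ⟨b, a, h1, hab.symm⟩
  apply h.2
  refine (Set.finite_range fun k : Fin j => (RA p q β A)^[(k : ℕ)] c).subset ?_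
  rintro _ ⟨n, rfl⟩
  induction n using Nat.strong_induction_on with
  | _ n ih =>
    rcases lt_or_ge n j with h1 | h1
    · exact ⟨⟨n, h1⟩, rfl⟩
    · have h2 := ih (n - j + i) (by omega)
      have h3 : (RA p q β A)^[n - j + i] c = (RA p q β A)^[n] c := by
        rw [Function.iterate_add_apply, hij, ← Function.iterate_add_apply, Nat.sub_add_cancel h1]
      change (RA p q β A)^[n - j + i] c ∈ _ at h2
      change (RA p q β A)^[n] c ∈ _
      rwa [h3] at h2

theorem r_aper (hB : RB p q β) {t : ℕ} (ht : 1 ≤ t) :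
    (RA p q β A)^[t] (algebraMap K A β) ≠ algebraMap K A β := by
  intro heq
  have h2 : t = 0 := wan_inj (wan_base hB) heq
  omega

theorem r_onl (hB : RB p q β) (t : ℕ) :
    (RA p q β A)^[t] (algebraMap K A (ro p q β)) ≠ algebraMap K A β := by
  have h1 : algebraMap K A (ro p q β) = RA p q β A (algebraMap K A β) := by
    rw [← ro_eq hB]
    exact ra_base β 1
  rw [h1, ← Function.iterate_succ_apply]
  exact r_aper hB (by omega)

theorem reach_reg (hB : RB p q β) {x : A} {t : ℕ}
    (h : (RA p q β A)^[t] x = algebraMap K A β) (i : ℕ) : aeval ((RA p q β A)^[i] x) q ≠ 0 := by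
  intro h0
  rcases lt_or_ge i t with hi | hi
  · have h1 : (RA p q β A)^[i + 1] x = algebraMap K A (ro p q β) := by
      rw [Function.iterate_succ_apply']
      exact ra_zero h0
    have h2 : (RA p q β A)^[t - (i + 1)] ((RA p q β A)^[i + 1] x) = algebraMap K A β := by
      rw [← Function.iterate_add_apply, Nat.sub_add_cancel (by omega : i + 1 ≤ t)]
      exact h
    rw [h1] at h2
    exact r_onl hB _ h2
  · have h1 : (RA p q β A)^[i] x = (RA p q β A)^[i - t] (algebraMap K A β) := by
      rw [← h, ← Function.iterate_add_apply, Nat.sub_add_cancel hi]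
    rw [h1] at h0
    exact (wan_base hB).1 (i - t) h0

theorem wan_reach (hB : RB p q β) {x : A} {t : ℕ}
    (h : (RA p q β A)^[t] x = algebraMap K A β) : Wan p q β x := by
  refine ⟨reach_reg hB h, (wan_base (A := A) hB).2.mono ?_⟩
  rintro _ ⟨n, rfl⟩
  refine ⟨n + t, ?_⟩
  change (RA p q β A)^[n + t] x = (RA p q β A)^[n] (algebraMap K A β)
  rw [Function.iterate_add_apply, h]

theorem rp_root (hB : RB p q β) (n : ℕ) (x : A) :
    aeval x (RP p q β n) = 0 ↔ (RA p q β A)^[n] x = algebraMap K A β := by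
  have h0 : aeval x (RP p q β n) =
      aeval x (PQ p q n).1 - algebraMap K A β * aeval x (PQ p q n).2 := by
    unfold RP
    rw [map_sub, map_mul, aeval_C]
  rw [h0, sub_eq_zero]
  constructor
  · intro h1
    have h2 : aeval x (PQ p q n).2 ≠ 0 := by
      intro h3
      rw [h3, mul_zero] at h1
      exact pq_nocommon hB.cop hB.qdeg n x ⟨h1, h3⟩
    have h3 := (pq_iter hB.qdeg (β := β) (pq_pole hB.qdeg (β := β) h2)).2
    rw [h3, h1, mul_div_cancel_right₀ _ h2]
  · intro h1
    obtain ⟨h2, h3⟩ := pq_iter hB.qdeg (β := β) (x := x) (n := n) fun i _ => reach_reg hB h1 i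
    rw [h1] at h3
    rw [h3, div_mul_cancel₀ _ h2]

theorem disj_hom (ι : A →ₐ[K] B) (h : Disj p q β B) : Disj p q β A := by
  intro c c' hc hc' hw hw' hne i j hij
  refine h (ι c) (ι c') ?_ ?_ ((wan_hom ι c).2 hw) ((wan_hom ι c').2 hw')
    (fun h1 => hne (ι.injective h1)) i j ?_
  · rw [aeval_algHom_apply, hc, map_zero]
  · rw [aeval_algHom_apply, hc', map_zero]
  · rw [← ra_iter, ← ra_iter, hij]

theorem no_crit (hB : RB p q β) (hD : Disj p q β A) {z : A} (hz : aeval z (wr p q) = 0) {t : ℕ}
    (ht : 1 ≤ t) : (RA p q β A)^[t] z ≠ algebraMap K A β := by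
  intro heq
  have hb : aeval (algebraMap K A β) (wr p q) = 0 := by
    rw [aeval_algebraMap_apply, coe_aeval_eq_eval, hB.crit, map_zero]
  have hne : z ≠ algebraMap K A β := by
    intro h1
    rw [h1] at heq
    exact r_aper hB ht heq
  exact hD z _ hz hb (wan_reach hB heq) (wan_base hB) hne t 0 heq

end Pool.Agent.H42.RM
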