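/-
ROW EAd. The polynomial `wr p q = p' q - p q'` and multiplicities. Let `d = natDegree p`,
`e = natDegree q < d`. PROOFS.
* wr_map: derivative_map, map_sub, map_mul.
* wr_lead: the coefficient of `X^(d+e-1)` in `p' q` is `d lc(p) lc(q)` and in `p q'` it is
  `e lc(p) lc(q)`, both products have degree `≤ d + e - 1`; the difference `(d - e) lc(p) lc(q)` is not
  zero in characteristic 0 (`q ≠ 0` by hq).
  (coeff_mul_degree_add_degree-type lemmas: `(derivative p).natDegree ≤ d - 1`,
  `coeff_mul_add_eq_of_natDegree_le`; if `e = 0` then `derivative q = 0`.)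
* mem_Wr: mem_roots with `(wr p q).map ≠ 0` (wr_lead), Finset.mem_filter.
* mlt_fac: let `h = C (q.eval c) * p - C (p.eval c) * q ≠ 0` (its coefficient of `X^d` is
  `q(c) lc(p) ≠ 0`). `exists_eq_pow_rootMultiplicity_mul_and_not_dvd` gives `g` with
  `h = (X - C c)^(mlt) * g` and `g.eval c ≠ 0`.
* mlt_two: `h.eval c = 0` and `h.derivative.eval c = (wr p q).eval c = 0`, so `2 ≤ rootMultiplicity c h`
  (one_lt_rootMultiplicity_iff_isRoot, `h ≠ 0`).
* mu_map: `Polynomial.eq_rootMultiplicity_map (algebraMap M L).injective`; the polynomial over `L` is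
  the image of the polynomial over `M` (map_map, IsScalarTower.algebraMap_eq; eval of the mapped
  polynomials at `algebraMap M L c` is the image).
-/
import Pool.Agent.H42.RM.EDefs

set_option autoImplicit false

namespace Pool.Agent.H42.RM

open Polynomial

theorem wr_map {K A : Type} [Field K] [Field A] (φ : K →+* A) (p q : K[X]) :
    (wr p q).map φ = wr (p.map φ) (q.map φ) := by
  unfold wr
  rw [Polynomial.map_sub, Polynomial.map_mul, Polynomial.map_mul, derivative_map, derivative_map]

theorem EAd_coeff {K : Type} [Field K] {p q : K[X]}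
    (hqd : q.natDegree < p.natDegree) : (wr p q).natDegree ≤ p.natDegree + q.natDegree - 1 ∧
      (wr p q).coeff (p.natDegree + q.natDegree - 1) =
        ((p.natDegree - q.natDegree : ℕ) : K) * p.leadingCoeff * q.leadingCoeff := by
  have hp' : (derivative p).natDegree ≤ p.natDegree - 1 := natDegree_derivative_le p
  have e1 : ((derivative p) * q).coeff (p.natDegree + q.natDegree - 1) =
      (p.natDegree : K) * p.leadingCoeff * q.leadingCoeff := by
    have h1 : p.natDegree + q.natDegree - 1 = (p.natDegree - 1) + q.natDegree := by omega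
    rw [h1, coeff_mul_add_eq_of_natDegree_le hp' le_rfl, coeff_derivative]
    have h2 : p.natDegree - 1 + 1 = p.natDegree := by omega
    rw [h2, coeff_natDegree, coeff_natDegree]
    have h3 : ((p.natDegree - 1 : ℕ) : K) + 1 = (p.natDegree : K) := by
      rw [← Nat.cast_add_one, h2]
    rw [h3]
    ring
  have e2 : (p * derivative q).coeff (p.natDegree + q.natDegree - 1) =
      (q.natDegree : K) * p.leadingCoeff * q.leadingCoeff := by
    rcases Nat.eq_zero_or_pos q.natDegree with h0 | h0
    · have h1 : derivative q = 0 := derivative_of_natDegree_zero h0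
      rw [h1, mul_zero, coeff_zero, h0, Nat.cast_zero, zero_mul, zero_mul]
    · have h1 : p.natDegree + q.natDegree - 1 = p.natDegree + (q.natDegree - 1) := by omega
      rw [h1, coeff_mul_add_eq_of_natDegree_le le_rfl (natDegree_derivative_le q),
        coeff_derivative]
      have h2 : q.natDegree - 1 + 1 = q.natDegree := by omega
      rw [h2, coeff_natDegree, coeff_natDegree]
      have h3 : ((q.natDegree - 1 : ℕ) : K) + 1 = (q.natDegree : K) := by
        rw [← Nat.cast_add_one, h2]
      rw [h3]
      ring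
  have d1 : ((derivative p) * q).natDegree ≤ p.natDegree + q.natDegree - 1 := by
    refine le_trans natDegree_mul_le ?_
    omega
  have d2 : (p * derivative q).natDegree ≤ p.natDegree + q.natDegree - 1 := by
    rcases Nat.eq_zero_or_pos q.natDegree with h0 | h0
    · have h1 : derivative q = 0 := derivative_of_natDegree_zero h0
      rw [h1, mul_zero, natDegree_zero]
      exact Nat.zero_le _
    · refine le_trans natDegree_mul_le ?_
      have h3 := natDegree_derivative_le q
      omega
  constructor
  · unfold wr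
    exact le_trans (natDegree_sub_le _ _) (max_le d1 d2)
  · unfold wr
    rw [coeff_sub, e1, e2, Nat.cast_sub hqd.le]
    ring

theorem wr_lead {K : Type} [Field K] [CharZero K] {p q : K[X]} (hq : q ≠ 0)
    (hqd : q.natDegree < p.natDegree) : wr p q ≠ 0 ∧
      (wr p q).natDegree = p.natDegree + q.natDegree - 1 ∧
      (wr p q).leadingCoeff =
        ((p.natDegree - q.natDegree : ℕ) : K) * p.leadingCoeff * q.leadingCoeff := by
  obtain ⟨h1, h2⟩ := EAd_coeff hqd
  have hp : p ≠ 0 := by
    rintro rfl
    simp at hqd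
  have h3 : ((p.natDegree - q.natDegree : ℕ) : K) * p.leadingCoeff * q.leadingCoeff ≠ 0 := by
    refine mul_ne_zero (mul_ne_zero ?_ (leadingCoeff_ne_zero.2 hp)) (leadingCoeff_ne_zero.2 hq)
    rw [Nat.cast_ne_zero]
    omega
  have h4 : (wr p q).coeff (p.natDegree + q.natDegree - 1) ≠ 0 := by
    rw [h2]
    exact h3
  have h5 := natDegree_eq_of_le_of_coeff_ne_zero h1 h4
  refine ⟨?_, h5, ?_⟩
  · intro h6
    rw [h6, coeff_zero] at h4
    exact h4 rfl
  · rw [leadingCoeff, h5, h2]

theorem mem_Wr {K : Type} [Field K] [CharZero K] {p q : K[X]} {β : K} (hq : q ≠ 0)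
    (hqd : q.natDegree < p.natDegree) {M : Type} [Field M] [Algebra K M] (c : M) :
    c ∈ Wr p q β M ↔ aeval c (wr p q) = 0 ∧ Wan p q β c := by
  classical
  have h1 : (wr p q).map (algebraMap K M) ≠ 0 := by
    rw [Polynomial.map_ne_zero_iff (algebraMap K M).injective]
    exact (wr_lead hq hqd).1
  unfold Wr
  rw [Finset.mem_filter, Multiset.mem_toFinset, mem_roots h1, IsRoot, eval_map_algebraMap]

theorem EAd_ne {L : Type} [Field L] {p q : L[X]} (hqd : q.natDegree < p.natDegree) {c : L}
    (hc : q.eval c ≠ 0) : C (q.eval c) * p - C (p.eval c) * q ≠ 0 := by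
  intro h0
  have h1 := congrArg (fun f => f.coeff p.natDegree) h0
  simp only [coeff_sub, coeff_C_mul, coeff_zero] at h1
  rw [coeff_eq_zero_of_natDegree_lt hqd, mul_zero, sub_zero, coeff_natDegree] at h1
  have hp : p ≠ 0 := by
    rintro rfl
    simp at hqd
  exact mul_ne_zero hc (leadingCoeff_ne_zero.2 hp) h1

theorem mlt_fac {L : Type} [Field L] {p q : L[X]} (hqd : q.natDegree < p.natDegree) {c : L}
    (hc : q.eval c ≠ 0) : ∃ g : L[X],
      C (q.eval c) * p - C (p.eval c) * q = (X - C c) ^ mlt p q c * g ∧ g.eval c ≠ 0 := by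
  obtain ⟨g, h1, h2⟩ := exists_eq_pow_rootMultiplicity_mul_and_not_dvd
    (C (q.eval c) * p - C (p.eval c) * q) (EAd_ne hqd hc) c
  refine ⟨g, h1, fun h3 => h2 ?_⟩
  exact dvd_iff_isRoot.2 h3

theorem mlt_two {L : Type} [Field L] {p q : L[X]} (hqd : q.natDegree < p.natDegree) {c : L}
    (hc : q.eval c ≠ 0) (hw : (wr p q).eval c = 0) : 2 ≤ mlt p q c := by
  have h1 := (one_lt_rootMultiplicity_iff_isRoot (t := c) (EAd_ne hqd hc)).2
  refine h1 ⟨?_, ?_⟩
  · rw [IsRoot, eval_sub, eval_mul, eval_mul, eval_C, eval_C]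
    ring
  · unfold wr at hw
    rw [eval_sub, eval_mul, eval_mul] at hw
    rw [IsRoot, derivative_sub, derivative_C_mul, derivative_C_mul, eval_sub, eval_mul,
      eval_mul, eval_C, eval_C]
    linear_combination hw

theorem mu_map {K M L : Type} [Field K] [Field M] [Field L] [Algebra K M] [Algebra M L]
    [Algebra K L] [IsScalarTower K M L] (p q : K[X]) (c : M) :
    mu p q L (algebraMap M L c) = mu p q M c := by
  have hm : ∀ f : K[X], f.map (algebraMap K L) = (f.map (algebraMap K M)).map (algebraMap M L) := by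
    intro f
    rw [Polynomial.map_map, ← IsScalarTower.algebraMap_eq]
  unfold mu mlt
  rw [eq_rootMultiplicity_map (algebraMap M L).injective c]
  congr 1
  rw [hm p, hm q, Polynomial.map_sub, Polynomial.map_mul, Polynomial.map_mul, map_C, map_C,
    eval_map_apply, eval_map_apply]

end Pool.Agent.H42.RM
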