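/-
ROW ECa. Tools for finite exceptional sets. PROOFS.
* bad_K: finite union over the elements `z ≠ 0` of `S` of `{v | v z ≠ 1}` (val_ne_one_finite,
  PCM/E1).
* bad_M: the set of `w` with `w z ≠ 1` for some `z ∈ S`, `z ≠ 0` is finite; the primes `v` below them are
  finitely many (see hdown in the proof of goodK_finite, PCM/E1, section EGk: the map
  `w ↦ w.asIdeal.under (𝓞 K)` has finite image).
* nw_vals: let `c` be a root of `wr p q` which is not in `Wr`, so `¬ Wan p q β c` (mem_Wr, row EAd). If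
  no `F^[i] c` is a pole, then by definition of `Wan` the range of the orbit is finite, and so is the
  set. Otherwise let `j` be minimal with `aeval (F^[j] c) q = 0`; then only `t < j` occur.
* nw_ne: if `F^[t] c = algebraMap K M β` then `Wan p q β c` (wan_reach, row EAc) so `c ∈ Wr`.
-/
import Pool.Agent.H42.RM.EAc
import Pool.Agent.H42.RM.EAd

set_option autoImplicit false

namespace Pool.Agent.H42.RM

open Pool.Agent.H42.PC Polynomial NumberField IsDedekindDomain

theorem bad_K {K : Type} [Field K] [NumberField K] {S : Set K} (hS : S.Finite) :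
    {v : HeightOneSpectrum (𝓞 K) | ∃ z ∈ S, z ≠ 0 ∧ v.valuation K z ≠ 1}.Finite := by
  have h : (⋃ z ∈ S \ {0}, {v : HeightOneSpectrum (𝓞 K) | v.valuation K z ≠ 1}).Finite :=
    Set.Finite.biUnion (hS.subset Set.sdiff_subset) fun z hz =>
      val_ne_one_finite hz.2
  refine h.subset ?_
  rintro v ⟨z, hz, hz0, hv⟩
  simp only [Set.mem_iUnion, exists_prop]
  exact ⟨z, ⟨hz, hz0⟩, hv⟩

theorem bad_M {K M : Type} [Field K] [NumberField K] [Field M] [NumberField M] [Algebra K M]
    {S : Set M} (hS : S.Finite) :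
    {v : HeightOneSpectrum (𝓞 K) | ∃ w : HeightOneSpectrum (𝓞 M),
      w.asIdeal.LiesOver v.asIdeal ∧ ∃ z ∈ S, z ≠ 0 ∧ w.valuation M z ≠ 1}.Finite := by
  have hB := bad_K hS
  refine Set.Finite.of_finite_image (f := fun v : HeightOneSpectrum (𝓞 K) => v.asIdeal) ?_ ?_
  · refine (hB.image fun q => q.asIdeal.under (𝓞 K)).subset ?_
    rintro _ ⟨v, ⟨q, hqv, hq⟩, rfl⟩
    exact ⟨q, hq, hqv.over.symm⟩
  · intro v _ v' _ h
    exact HeightOneSpectrum.ext h

theorem ECa_q0 {K : Type} [Field K] {p q : K[X]} {β : K} (hB : RB p q β) : q ≠ 0 := by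
  intro h
  have h1 := hB.wan.1 0
  rw [h, map_zero] at h1
  exact h1 rfl

theorem nw_vals {K M : Type} [Field K] [CharZero K] [Field M] [Algebra K M] {p q : K[X]} {β : K}
    (hB : RB p q β) {c : M} (hc : aeval c (wr p q) = 0) (hW : c ∉ Wr p q β M) :
    {y : M | ∃ t : ℕ, (∀ i ≤ t, aeval ((RA p q β M)^[i] c) q ≠ 0) ∧
      y = (RA p q β M)^[t] c}.Finite := by
  classical
  have hW' : ¬ Wan p q β c := fun h => hW ((mem_Wr (ECa_q0 hB) hB.qdeg c).2 ⟨hc, h⟩)
  by_cases hp : ∃ j, aeval ((RA p q β M)^[j] c) q = 0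
  · obtain ⟨j, hj⟩ := hp
    refine ((Set.finite_Iio j).image fun t => (RA p q β M)^[t] c).subset ?_
    rintro y ⟨t, ht, rfl⟩
    refine ⟨t, ?_, rfl⟩
    by_contra hlt
    exact ht j (not_lt.1 hlt) hj
  · push Not at hp
    have hfin : (Set.range fun n : ℕ => (RA p q β M)^[n] c).Finite := by
      by_contra hinf
      exact hW' ⟨hp, hinf⟩
    refine hfin.subset ?_
    rintro y ⟨t, -, rfl⟩
    exact ⟨t, rfl⟩

theorem nw_ne {K M : Type} [Field K] [CharZero K] [Field M] [Algebra K M] {p q : K[X]} {β : K}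
    (hB : RB p q β) {c : M} (hc : aeval c (wr p q) = 0) (hW : c ∉ Wr p q β M) (t : ℕ) :
    (RA p q β M)^[t] c ≠ algebraMap K M β := fun h =>
  hW ((mem_Wr (ECa_q0 hB) hB.qdeg c).2 ⟨hc, wan_reach hB h⟩)

end Pool.Agent.H42.RM
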