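/-
ROW ECb. All but finitely many primes are good. PROOF. Let `F = RA p q β M`. Write `r * p + s * q = 1`
(hB.cop). `q ≠ 0` (aeval β q ≠ 0 by hB.wan). Exceptional sets:
(K) by bad_K (row ECa) for the finite set of the coefficients of `p, q, r, s` (images of
  `Finset.range (natDegree + 1)` or of the supports), `p.leadingCoeff`, `(wr p q).leadingCoeff`
  (nonzero: wr_lead, row EAd), `β`, `(mu p q M c : K)` for `c ∈ Wr p q β M` (nonzero because
  `mu ≥ 2` by mlt_two, row EAd; characteristic 0). An element `z` of the set has value `1` or `z = 0`;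
  in both cases the value is `≤ 1`.
(M) by bad_M for the finite set consisting, for `c ∈ Wr p q β M` and `i ≤ J`, of `F^[i] c`,
  `aeval (F^[i] c) q` (nonzero by mem_Wr, Wan), `g_c.eval c` (mlt_fac, row EAd: for the mapped
  polynomials; `g_c` chosen once), the differences `F^[i] c - F^[j] c'` (`c, c' ∈ Wr`, `i, j ≤ J`), and,
  for the roots `c ∉ Wr p q β M` of `wr p q` in `M` (finitely many) the elements
  `y - algebraMap K M β` with `y` in the finite set of nw_vals (row ECa).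
Outside both sets all fields hold: Wg with `g = g_c` (`aeval c q = (q.map _).eval c` etc.). G2: if
`(c, i) ≠ (c', j)` then `F^[i] c ≠ F^[j] c'`: for `c = c'` by wan_inj (row EAc), for `c ≠ c'` by hD;
so the difference is nonzero and has value `1`. G3: `y = F^[t] c` is in the set of nw_vals and
`y ≠ algebraMap K M β` by nw_ne, so the value of the difference is `1`. (See goodK_finite in
PCM/E1, section EGk.)
-/
import Pool.Agent.H42.RM.ECa

set_option autoImplicit false

namespace Pool.Agent.H42.RM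

open Pool.Agent.H42.PC Polynomial NumberField IsDedekindDomain

theorem ECb_coeff {K : Type} [Field K] (f : K[X]) : (Set.range fun i => f.coeff i).Finite := by
  refine (((Set.finite_Iic f.natDegree).image fun i => f.coeff i).union
    (Set.finite_singleton (0 : K))).subset ?_
  rintro _ ⟨i, rfl⟩
  by_cases hi : i ≤ f.natDegree
  · exact Or.inl ⟨i, hi, rfl⟩
  · exact Or.inr (coeff_eq_zero_of_natDegree_lt (not_le.1 hi))

theorem goodR_finite {K : Type} [Field K] [NumberField K] {p q : K[X]} {β : K} {M : Type}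
    [Field M] [NumberField M] [Algebra K M] (hB : RB p q β) (hD : Disj p q β M) (J : ℕ) :
    {v : HeightOneSpectrum (𝓞 K) | ¬ GoodR p q β M J v}.Finite := by
  classical
  obtain ⟨r, s, hrs⟩ := hB.cop
  have hq : q ≠ 0 := by
    intro h0
    apply hB.wan.1 0
    rw [h0, map_zero]
  have hqd := hB.qdeg
  have hp : p ≠ 0 := by
    intro h0
    rw [h0, natDegree_zero] at hqd
    omega
  obtain ⟨hw0, -, -⟩ := wr_lead hq hqd
  have hqd' : (q.map (algebraMap K M)).natDegree < (p.map (algebraMap K M)).natDegree := by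
    rw [natDegree_map, natDegree_map]
    exact hqd
  have hWr : ∀ c : M, c ∈ Wr p q β M → aeval c (wr p q) = 0 ∧ Wan p q β c := fun c hc =>
    (mem_Wr hq hqd c).1 hc
  have hqc : ∀ c : M, c ∈ Wr p q β M → (q.map (algebraMap K M)).eval c ≠ 0 := by
    intro c hc
    rw [eval_map_algebraMap]
    exact (hWr c hc).2.1 0
  -- elements of K
  obtain ⟨SK, hSKdef⟩ : ∃ SK : Set K, SK = (Set.range fun i => p.coeff i) ∪
      (Set.range fun i => q.coeff i) ∪ (Set.range fun i => r.coeff i) ∪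
      (Set.range fun i => s.coeff i) ∪ {p.leadingCoeff, (wr p q).leadingCoeff, β} ∪
      ((fun c => ((mu p q M c : ℕ) : K)) '' (Wr p q β M : Set M)) := ⟨_, rfl⟩
  have hSK : SK.Finite := by
    rw [hSKdef]
    exact ((((((ECb_coeff p).union (ECb_coeff q)).union (ECb_coeff r)).union
      (ECb_coeff s)).union (Set.toFinite _)).union ((Finset.finite_toSet _).image _))
  -- elements of M
  have hgex : ∀ c : M, ∃ g : M[X], c ∈ Wr p q β M →
      C ((q.map (algebraMap K M)).eval c) * p.map (algebraMap K M) -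
        C ((p.map (algebraMap K M)).eval c) * q.map (algebraMap K M) =
          (X - C c) ^ mlt (p.map (algebraMap K M)) (q.map (algebraMap K M)) c * g ∧
        g.eval c ≠ 0 := by
    intro c
    by_cases hc : c ∈ Wr p q β M
    · obtain ⟨g, hg⟩ := mlt_fac hqd' (hqc c hc)
      exact ⟨g, fun _ => hg⟩
    · exact ⟨0, fun h => absurd h hc⟩
  choose gg hgg using hgex
  obtain ⟨F, hF⟩ : ∃ F : M → M, F = RA p q β M := ⟨_, rfl⟩
  obtain ⟨S1, hS1⟩ : ∃ S : Set M, S = (fun x : M × ℕ => F^[x.2] x.1) ''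
    ((Wr p q β M : Set M) ×ˢ Set.Iic J) := ⟨_, rfl⟩
  obtain ⟨S2, hS2⟩ : ∃ S : Set M, S = (fun x : M × ℕ => aeval (F^[x.2] x.1) q) ''
    ((Wr p q β M : Set M) ×ˢ Set.Iic J) := ⟨_, rfl⟩
  obtain ⟨S3, hS3⟩ : ∃ S : Set M, S = (fun c : M => (gg c).eval c) '' (Wr p q β M : Set M) := ⟨_, rfl⟩
  obtain ⟨S4, hS4⟩ : ∃ S : Set M, S = (fun x : (M × ℕ) × (M × ℕ) => F^[x.1.2] x.1.1 - F^[x.2.2] x.2.1) ''
    (((Wr p q β M : Set M) ×ˢ Set.Iic J) ×ˢ ((Wr p q β M : Set M) ×ˢ Set.Iic J)) := ⟨_, rfl⟩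
  obtain ⟨S5, hS5⟩ : ∃ S : Set M, S = ⋃ c ∈ {c : M | aeval c (wr p q) = 0 ∧ c ∉ Wr p q β M},
    (fun y => y - algebraMap K M β) '' {y : M | ∃ t : ℕ, (∀ i ≤ t, aeval (F^[i] c) q ≠ 0) ∧
      y = F^[t] c} := ⟨_, rfl⟩
  have hWJ : ((Wr p q β M : Set M) ×ˢ Set.Iic J).Finite :=
    (Finset.finite_toSet _).prod (Set.finite_Iic J)
  have hSM : (S1 ∪ S2 ∪ S3 ∪ S4 ∪ S5).Finite := by
    refine ((((?_ : S1.Finite).union (?_ : S2.Finite)).union (?_ : S3.Finite)).union
      (?_ : S4.Finite)).union (?_ : S5.Finite)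
    · rw [hS1]
      exact hWJ.image _
    · rw [hS2]
      exact hWJ.image _
    · rw [hS3]
      exact (Finset.finite_toSet _).image _
    · rw [hS4]
      exact (hWJ.prod hWJ).image _
    · rw [hS5]
      refine Set.Finite.biUnion ?_ ?_
      · refine ((wr p q).rootSet_finite M).subset ?_
        rintro c ⟨hc, -⟩
        rw [mem_rootSet]
        exact ⟨hw0, hc⟩
      · rintro c ⟨hc, hcW⟩
        rw [hF]
        exact (nw_vals hB hc hcW).image _
  refine ((bad_K hSK).union (bad_M (K := K) hSM)).subset ?_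
  intro v hv
  by_contra hcon
  rw [Set.mem_union, not_or] at hcon
  obtain ⟨hcK, hcM⟩ := hcon
  have hK1 : ∀ z ∈ SK, z ≠ 0 → v.valuation K z = 1 := by
    intro z hz hz0
    by_contra h
    exact hcK ⟨z, hz, hz0, h⟩
  have hK2 : ∀ z ∈ SK, v.valuation K z ≤ 1 := by
    intro z hz
    by_cases h0 : z = 0
    · rw [h0, map_zero]
      exact zero_le_one
    · exact (hK1 z hz h0).le
  have hM1 : ∀ w : HeightOneSpectrum (𝓞 M), w.asIdeal.LiesOver v.asIdeal →
      ∀ z ∈ S1 ∪ S2 ∪ S3 ∪ S4 ∪ S5, z ≠ 0 → w.valuation M z = 1 := by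
    intro w hw z hz hz0
    by_contra h
    exact hcM ⟨w, hw, z, hz, hz0, h⟩
  have hM2 : ∀ w : HeightOneSpectrum (𝓞 M), w.asIdeal.LiesOver v.asIdeal →
      ∀ z ∈ S1 ∪ S2 ∪ S3 ∪ S4 ∪ S5, w.valuation M z ≤ 1 := by
    intro w hw z hz
    by_cases h0 : z = 0
    · rw [h0, map_zero]
      exact zero_le_one
    · exact (hM1 w hw z hz h0).le
  apply hv
  constructor
  · intro i
    apply hK2
    rw [hSKdef]
    exact Or.inl (Or.inl (Or.inl (Or.inl (Or.inl ⟨i, rfl⟩))))
  · intro i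
    apply hK2
    rw [hSKdef]
    exact Or.inl (Or.inl (Or.inl (Or.inl (Or.inr ⟨i, rfl⟩))))
  · refine hK1 _ ?_ (leadingCoeff_ne_zero.2 hp)
    rw [hSKdef]
    exact Or.inl (Or.inr (Or.inl rfl))
  · refine ⟨r, s, fun i => ?_, fun i => ?_, hrs⟩
    · apply hK2
      rw [hSKdef]
      exact Or.inl (Or.inl (Or.inl (Or.inr ⟨i, rfl⟩)))
    · apply hK2
      rw [hSKdef]
      exact Or.inl (Or.inl (Or.inr ⟨i, rfl⟩))
  · refine hK1 _ ?_ (leadingCoeff_ne_zero.2 hw0)
    rw [hSKdef]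
    exact Or.inl (Or.inr (Or.inr (Or.inl rfl)))
  · apply hK2
    rw [hSKdef]
    exact Or.inl (Or.inr (Or.inr (Or.inr rfl)))
  · intro c hc
    refine hK1 _ ?_ ?_
    · rw [hSKdef]
      exact Or.inr ⟨c, hc, rfl⟩
    · have h1 : (wr (p.map (algebraMap K M)) (q.map (algebraMap K M))).eval c = 0 := by
        rw [← wr_map, eval_map_algebraMap]
        exact (hWr c hc).1
      have h2 := mlt_two hqd' (hqc c hc) h1
      exact Nat.cast_ne_zero.2 (by
        show mlt (p.map (algebraMap K M)) (q.map (algebraMap K M)) c ≠ 0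
        omega)
  · intro w hw c hc
    obtain ⟨h1, h2⟩ := hgg c hc
    refine ⟨gg c, ?_, hM1 w hw _ ?_ h2⟩
    · rw [eval_map_algebraMap, eval_map_algebraMap] at h1
      exact h1
    · rw [hS3]
      exact Or.inl (Or.inl (Or.inr ⟨c, hc, rfl⟩))
  · intro w hw c hc i hi
    rw [← hF]
    refine ⟨hM2 w hw _ ?_, hM1 w hw _ ?_ ?_⟩
    · rw [hS1]
      exact Or.inl (Or.inl (Or.inl (Or.inl ⟨(c, i), ⟨hc, hi⟩, rfl⟩)))
    · rw [hS2]
      exact Or.inl (Or.inl (Or.inl (Or.inr ⟨(c, i), ⟨hc, hi⟩, rfl⟩)))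
    · rw [hF]
      exact (hWr c hc).2.1 i
  · intro w hw c hc c' hc' i hi j hj hlt
    rw [← hF] at hlt
    by_contra hcon
    have hne : F^[i] c - F^[j] c' ≠ 0 := by
      rw [sub_ne_zero, hF]
      by_cases hcc : c = c'
      · subst hcc
        intro h
        exact hcon ⟨rfl, wan_inj (hWr c hc).2 h⟩
      · exact hD c c' (hWr c hc).1 (hWr c' hc').1 (hWr c hc).2 (hWr c' hc').2 hcc i j
    refine hlt.ne (hM1 w hw _ ?_ hne)
    rw [hS4]
    exact Or.inl (Or.inr ⟨((c, i), (c', j)), ⟨⟨hc, hi⟩, ⟨hc', hj⟩⟩, rfl⟩)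
  · intro w hw c hc hcW t hreg hlt
    have hne : F^[t] c - algebraMap K M β ≠ 0 := by
      rw [sub_ne_zero, hF]
      exact nw_ne hB hc hcW t
    rw [← hF] at hlt
    refine hlt.ne (hM1 w hw _ (Or.inr ?_) hne)
    rw [hS5]
    refine Set.mem_iUnion₂.2 ⟨c, ⟨hc, hcW⟩, F^[t] c, ⟨t, ?_, rfl⟩, rfl⟩
    intro i hi
    rw [hF]
    exact hreg i hi

end Pool.Agent.H42.RM
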