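import Pool.Agent.H42.AD.Defs
import Pool.Agent.H42.PCM.D2

/-! Rational maps (project RM): local definitions. `Loc` (valuation with inertia group), `lev`, `ball`
are those of PCM/G1 and PCM/D1. -/

set_option autoImplicit false

namespace Pool.Agent.H42.RM

open Pool.Agent.H42.PC Polynomial WithZero

section loc

variable {G L : Type} [Group G] [Field L] [MulSemiringAction G L]

/-- The reduced map on balls. -/
def FRg (Λ : Loc G L) (F : L → L) (B : Set L) : Set L := {z | ∃ x ∈ B, Λ.V (z - F x) < 1}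

/-- `x` is near a point of `W`. -/
def NW (Λ : Loc G L) (W : Finset L) (x : L) : Prop := ∃ c ∈ W, Λ.V (x - c) < 1

/-- The stabiliser of `x` in the inertia group. -/
def lst (Λ : Loc G L) (x : L) : Subgroup G := Λ.I ⊓ MulAction.stabilizer G x

/-- The residue of `x` lies on the forward orbit of `b`. -/
def LOn (Λ : Loc G L) (F : L → L) (b x : L) : Prop := ∃ k : ℕ, Λ.V (x - F^[k] b) < 1

/-- The local properties of a map `F` with good reduction at `Λ.V`: `W` is the set of wandering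
critical points, `mu` the multiplicity, `RI` a set of regular integral points which contains the
backward tree of `b` (up to level `N`) and the forward orbit of `b`. -/
structure LSys (Λ : Loc G L) (F : L → L) (b : L) (W : Finset L) (mu : L → ℕ) (RI : Set L)
    (J N : ℕ) : Prop where
  Fsmul : ∀ (g : G) (x : L), F (g • x) = g • F x
  fixb : ∀ g : G, g • b = b
  Wfix : ∀ g ∈ Λ.I, ∀ c ∈ W, g • c = c
  ri_int : ∀ x ∈ RI, Λ.V x ≤ 1
  ri_near : ∀ x ∈ RI, ∀ y, Λ.V (y - x) < 1 → y ∈ RI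
  ri_sub : ∀ x ∈ RI, ∀ y, Λ.V (y - x) < 1 → Λ.V (F y - F x) ≤ Λ.V (y - x)
  ri_lev : ∀ t ≤ N, ∀ x ∈ lev F b t, x ∈ RI
  ri_orb : ∀ i : ℕ, F^[i] b ∈ RI
  bW : b ∈ W
  mu2 : ∀ c ∈ W, 2 ≤ mu c
  muV : ∀ c ∈ W, Λ.V (mu c : L) = 1
  form : ∀ c ∈ W, ∃ g : L → L,
    (∀ x, Λ.V (x - c) < 1 → F x - F c = (x - c) ^ mu c * g x ∧ Λ.V (g x) = 1) ∧
    ∀ x x', Λ.V (x - c) < 1 → Λ.V (x' - c) < 1 → Λ.V (g x - g x') ≤ Λ.V (x - x')
  ncr : ∀ t ≤ N, ∀ x ∈ lev F b t, ¬ NW Λ W x → ∀ y, Λ.V (y - x) < 1 →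
    Λ.V (F y - F x) = Λ.V (y - x)
  root : ∀ t < N, ∀ w ∈ lev F b t, ∀ y ∈ RI, Λ.V (F y - w) < 1 → ∃ z, F z = w ∧ Λ.V (y - z) < 1
  hJ : ∀ c ∈ W, ∀ c' ∈ W, ∀ i ≤ J, ∀ j ≤ J,
    (FRg Λ F)^[i] (ball Λ c) = (FRg Λ F)^[j] (ball Λ c') → c = c' ∧ i = j

end loc

section rat

/-- The map `p / q`, with the value `o` at the zeros of `q`. -/
noncomputable def fr {L : Type} [Field L] (p q : L[X]) (o x : L) : L :=
  open scoped Classical in if q.eval x = 0 then o else p.eval x / q.eval x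

/-- The numerator of the derivative of `p / q`. -/
noncomputable def wr {L : Type} [Field L] (p q : L[X]) : L[X] :=
  derivative p * q - p * derivative q

variable {G L : Type} [Group G] [Field L] [MulSemiringAction G L]

/-- `p / q` and `b` are in good position at `Λ.V`; `W` is the set of wandering critical points. -/
structure QGood (Λ : Loc G L) (p q : L[X]) (o b : L) (W : Finset L) (mu : L → ℕ) (J : ℕ) :
    Prop where
  pc : ∀ (g : G) (i : ℕ), g • p.coeff i = p.coeff i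
  qc : ∀ (g : G) (i : ℕ), g • q.coeff i = q.coeff i
  oc : ∀ g : G, g • o = o
  fixb : ∀ g : G, g • b = b
  deg : 2 ≤ p.natDegree
  qdeg : q.natDegree < p.natDegree
  pint : ∀ i, Λ.V (p.coeff i) ≤ 1
  qint : ∀ i, Λ.V (q.coeff i) ≤ 1
  plead : Λ.V p.leadingCoeff = 1
  bez : ∃ u v : L[X], (∀ i, Λ.V (u.coeff i) ≤ 1) ∧ (∀ i, Λ.V (v.coeff i) ≤ 1) ∧ u * p + v * q = 1
  wlead : Λ.V (wr p q).leadingCoeff = 1
  wspl : (wr p q).Splits
  bint : Λ.V b ≤ 1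
  breg : ∀ i : ℕ, q.eval ((fr p q o)^[i] b) ≠ 0
  onl : ∀ t : ℕ, (fr p q o)^[t] o ≠ b
  bW : b ∈ W
  Wsmul : ∀ (g : G), ∀ c ∈ W, g • c ∈ W
  Wmu : ∀ c ∈ W, 2 ≤ mu c ∧ Λ.V (mu c : L) = 1
  Wg : ∀ c ∈ W, ∃ g : L[X], C (q.eval c) * p - C (p.eval c) * q = (X - C c) ^ mu c * g ∧
    Λ.V (g.eval c) = 1
  Wreg : ∀ c ∈ W, ∀ i ≤ J, Λ.V ((fr p q o)^[i] c) ≤ 1 ∧ Λ.V (q.eval ((fr p q o)^[i] c)) = 1
  G2 : ∀ c ∈ W, ∀ c' ∈ W, ∀ i ≤ J, ∀ j ≤ J,
    Λ.V ((fr p q o)^[i] c - (fr p q o)^[j] c') < 1 → c = c' ∧ i = j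
  G3 : ∀ c, (wr p q).eval c = 0 → c ∉ W → ∀ t : ℕ, (∀ i ≤ t, q.eval ((fr p q o)^[i] c) ≠ 0) →
    ¬ Λ.V ((fr p q o)^[t] c - b) < 1

/-- The regular integral points. -/
def RIQ (Λ : Loc G L) (q : L[X]) : Set L := {x | Λ.V x ≤ 1 ∧ Λ.V (q.eval x) = 1}

end rat

end Pool.Agent.H42.RM
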