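/-
ROW LAb. The map near a critical point. Let `m = mu c ≥ 2`, `V (m : L) = 1`, and `g` the function of
hS.form for `c`. PROOFS.
* c_val: `F x - F c = (x-c)^m * g x`, `V (g x) = 1`.
* c_ratio: `(x-c)^m * g x = F x - F c = F x' - F c = (x'-c)^m * g x'`. If `x' = c` the right side is
  `0` (m ≠ 0), `g x ≠ 0`, so `x = c = x'`, contradiction. Similarly `x ≠ c`. Taking values,
  `V (x-c)^m = V (x'-c)^m`, hence `V (x-c) = V (x'-c)` (pow_left_injective₀ or similar; these are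
  nonzero elements of ℤᵐ⁰). Let `r = (x-c)/(x'-c)`, `V r = 1`, `r^m = g x' / g x`, so
  `V (r^m - 1) = V (g x' - g x) ≤ V (x' - x) < 1` (form, second part; `x' - x = (x'-c) - (x-c)`).
  Suppose `V (r - 1) < 1`. Then `r^m - 1 = (r - 1) * ∑ i ∈ range m, r^i` (mul_geom_sum) and
  `V (∑ i ∈ range m, r^i) = 1` because `∑ r^i = m + ∑ (r^i - 1)`, each `V (r^i - 1) < 1` (`r^i - 1` is a
  multiple of `r - 1` with integral cofactor) and `V m = 1`. So
  `V (r^m - 1) = V (r - 1) = V (x - x') / V (x' - c)`, which is `> V (x - x')` since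
  `0 < V (x'-c) < 1` and `V (x-x') ≠ 0`. This contradicts `V (r^m - 1) ≤ V (x - x')`.
  Hence `V (r - 1) = 1` (it is `≤ 1`), i.e. `V (x - x') = V (x' - c)`.
* c_sub_le: put `M = max (V (x-c)) (V (x'-c)) < 1`.
  `F x - F x' = ((x-c)^m - (x'-c)^m) * g x + (x'-c)^m * (g x - g x')`. The second term has value
  `≤ M * V (x-x')`. For the first, `a^m - b^m = (a-b) * ∑ i ∈ range m, a^i b^(m-1-i)`
  (Commute.geom_sum₂_mul or (Commute.all a b).mul_geom_sum₂) with `a - b = x - x'`, and each term of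
  the sum has value `≤ M^(m-1) ≤ M` as `m - 1 ≥ 1`.
-/
import Pool.Agent.H42.RM.Defs

set_option autoImplicit false

namespace Pool.Agent.H42.RM

open Pool.Agent.H42.PC WithZero

variable {G L : Type} [Group G] [Field L] [MulSemiringAction G L] {Λ : Loc G L} {F : L → L}
  {b : L} {W : Finset L} {mu : L → ℕ} {RI : Set L} {J N : ℕ}

theorem c_val (hS : LSys Λ F b W mu RI J N) {c : L} (hc : c ∈ W) {x : L} (hx : Λ.V (x - c) < 1) :
    Λ.V (F x - F c) = Λ.V (x - c) ^ mu c := by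
  obtain ⟨g, h1, -⟩ := hS.form c hc
  rw [(h1 x hx).1, map_mul, map_pow, (h1 x hx).2, mul_one]

theorem LAb_geom (V : Valuation L ℤᵐ⁰) {r : L} (hr : V r ≤ 1) (i : ℕ) :
    V (∑ j ∈ Finset.range i, r ^ j) ≤ 1 :=
  V.map_sum_le fun j _ => by
    rw [map_pow]
    exact pow_le_one' hr j

theorem c_ratio (hS : LSys Λ F b W mu RI J N) {c : L} (hc : c ∈ W) {x x' : L}
    (hx : Λ.V (x - c) < 1) (hx' : Λ.V (x' - c) < 1) (he : F x = F x') (hne : x ≠ x') :
    x' ≠ c ∧ Λ.V (x - c) = Λ.V (x' - c) ∧ Λ.V (x - x') = Λ.V (x' - c) ∧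
      Λ.V (((x - c) / (x' - c)) ^ mu c - 1) < 1 ∧ ¬ Λ.V ((x - c) / (x' - c) - 1) < 1 := by
  obtain ⟨g, h1, h2⟩ := hS.form c hc
  have hm2 := hS.mu2 c hc
  have hmV := hS.muV c hc
  set m := mu c with hm
  have hm0 : m ≠ 0 := by omega
  obtain ⟨e1, v1⟩ := h1 x hx
  obtain ⟨e2, v2⟩ := h1 x' hx'
  have heq : (x - c) ^ m * g x = (x' - c) ^ m * g x' := by rw [← e1, ← e2, he]
  have hgx : g x ≠ 0 := by
    intro h
    rw [h, map_zero] at v1
    exact zero_ne_one v1
  have hgx' : g x' ≠ 0 := by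
    intro h
    rw [h, map_zero] at v2
    exact zero_ne_one v2
  have hx'c : x' ≠ c := by
    intro h
    rw [h, sub_self, zero_pow hm0, zero_mul] at heq
    rcases mul_eq_zero.1 heq with h3 | h3
    · have h4 := sub_eq_zero.1 (pow_eq_zero_iff hm0 |>.1 h3)
      exact hne (h4.trans h.symm)
    · exact hgx h3
  have hxc : x ≠ c := by
    intro h
    rw [h, sub_self, zero_pow hm0, zero_mul] at heq
    rcases mul_eq_zero.1 heq.symm with h3 | h3
    · exact hx'c (sub_eq_zero.1 (pow_eq_zero_iff hm0 |>.1 h3))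
    · exact hgx' h3
  have ha0 : x - c ≠ 0 := sub_ne_zero.2 hxc
  have hb0 : x' - c ≠ 0 := sub_ne_zero.2 hx'c
  have hVb0 : Λ.V (x' - c) ≠ 0 := (Valuation.ne_zero_iff _).2 hb0
  have hV : Λ.V (x - c) = Λ.V (x' - c) := by
    have h3 := congrArg Λ.V heq
    rw [map_mul, map_mul, map_pow, map_pow, v1, v2, mul_one, mul_one] at h3
    exact (pow_left_inj₀ zero_le zero_le hm0).1 h3
  set r : L := (x - c) / (x' - c) with hr
  have hVr : Λ.V r = 1 := by rw [hr, map_div₀, hV, div_self hVb0]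
  have hrm : r ^ m = g x' / g x := by
    rw [hr, div_pow, div_eq_div_iff (pow_ne_zero m hb0) hgx, heq]
    ring
  have hr1 : Λ.V (r ^ m - 1) ≤ Λ.V (x - x') := by
    have h3 : r ^ m - 1 = (g x' - g x) / g x := by
      rw [hrm]
      field_simp
    rw [h3, map_div₀, v1, div_one]
    have h4 := h2 x' x hx' hx
    rw [Valuation.map_sub_swap _ x x']
    exact h4
  have hxx' : Λ.V (x - x') < 1 := by
    have h3 : x - x' = (x - c) - (x' - c) := by ring
    rw [h3]
    exact lt_of_le_of_lt (Λ.V.map_sub _ _) (max_lt hx hx')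
  have hr1' : Λ.V (r ^ m - 1) < 1 := lt_of_le_of_lt hr1 hxx'
  have hrne : r ≠ 1 := by
    intro h
    rw [hr, div_eq_one_iff_eq hb0] at h
    exact hne (sub_left_injective h)
  have hmul : (r - 1) * (x' - c) = x - x' := by
    rw [hr]
    field_simp
    ring
  have hmulV : Λ.V (r - 1) * Λ.V (x' - c) = Λ.V (x - x') := by
    rw [← map_mul, hmul]
  have hnlt : ¬ Λ.V (r - 1) < 1 := by
    intro hlt
    have hS1 : Λ.V (∑ i ∈ Finset.range m, r ^ i) = 1 := by
      have h3 : Λ.V (∑ i ∈ Finset.range m, r ^ i - (m : L)) < 1 := by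
        have h4 : ∑ i ∈ Finset.range m, r ^ i - (m : L) =
            ∑ i ∈ Finset.range m, (r ^ i - 1) := by
          rw [Finset.sum_sub_distrib]
          simp
        rw [h4]
        refine Λ.V.map_sum_lt one_ne_zero fun i _ => ?_
        rw [← mul_geom_sum, map_mul]
        calc Λ.V (r - 1) * Λ.V (∑ j ∈ Finset.range i, r ^ j) ≤ Λ.V (r - 1) * 1 :=
              mul_le_mul_right (LAb_geom Λ.V hVr.le i) _
          _ < 1 := by rw [mul_one]; exact hlt
      rw [← hmV]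
      refine Valuation.map_eq_of_sub_lt _ ?_
      rw [hmV]
      exact h3
    have h5 : Λ.V (r ^ m - 1) = Λ.V (r - 1) := by
      rw [← mul_geom_sum, map_mul, hS1, mul_one]
    rw [h5, ← hmulV] at hr1
    have hr10 : Λ.V (r - 1) ≠ 0 := (Valuation.ne_zero_iff _).2 (sub_ne_zero.2 hrne)
    have h6 : Λ.V (r - 1) * Λ.V (x' - c) < Λ.V (r - 1) := by
      have h7 : Λ.V (r - 1) * Λ.V (x' - c) < Λ.V (r - 1) * 1 :=
        mul_lt_mul_of_pos_left hx' (zero_lt_iff.2 hr10)
      rwa [mul_one] at h7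
    exact absurd hr1 (not_le.2 h6)
  have hVr1 : Λ.V (r - 1) = 1 := by
    refine le_antisymm ?_ (not_lt.1 hnlt)
    refine le_trans (Λ.V.map_sub _ _) ?_
    rw [hVr, map_one, max_self]
  refine ⟨hx'c, hV, ?_, hr1', hnlt⟩
  rw [← hmulV, hVr1, one_mul]

theorem c_sub_le (hS : LSys Λ F b W mu RI J N) {c : L} (hc : c ∈ W) {x x' : L}
    (hx : Λ.V (x - c) < 1) (hx' : Λ.V (x' - c) < 1) :
    Λ.V (F x - F x') ≤ Λ.V (x - x') * max (Λ.V (x - c)) (Λ.V (x' - c)) := by
  obtain ⟨g, h1, h2⟩ := hS.form c hc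
  have hm2 := hS.mu2 c hc
  set m := mu c with hm
  obtain ⟨e1, v1⟩ := h1 x hx
  obtain ⟨e2, v2⟩ := h1 x' hx'
  set M := max (Λ.V (x - c)) (Λ.V (x' - c)) with hM
  have hM1 : M ≤ 1 := (max_lt hx hx').le
  have ha : Λ.V (x - c) ≤ M := le_max_left _ _
  have hb : Λ.V (x' - c) ≤ M := le_max_right _ _
  have hd : F x - F x' = ((x - c) ^ m - (x' - c) ^ m) * g x + (x' - c) ^ m * (g x - g x') := by
    have h3 : F x - F x' = (F x - F c) - (F x' - F c) := by ring
    rw [h3, e1, e2]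
    ring
  rw [hd]
  refine le_trans (Λ.V.map_add _ _) (max_le ?_ ?_)
  · rw [map_mul, v1, mul_one, ← (Commute.all (x - c) (x' - c)).mul_geom_sum₂ m, map_mul]
    have h4 : x - c - (x' - c) = x - x' := by ring
    rw [h4]
    refine mul_le_mul_right ?_ _
    refine Λ.V.map_sum_le fun i hi => ?_
    have hi' : i < m := Finset.mem_range.1 hi
    rw [map_mul, map_pow, map_pow]
    calc Λ.V (x - c) ^ i * Λ.V (x' - c) ^ (m - 1 - i) ≤ M ^ i * M ^ (m - 1 - i) :=
          mul_le_mul' (pow_le_pow_left' ha _) (pow_le_pow_left' hb _)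
      _ = M ^ (m - 1) := by rw [← pow_add]; congr 1; omega
      _ ≤ M ^ 1 := pow_le_pow_right_of_le_one' hM1 (by omega)
      _ = M := pow_one M
  · rw [map_mul, map_pow, mul_comm]
    refine mul_le_mul' (h2 x x' hx hx') ?_
    calc Λ.V (x' - c) ^ m ≤ M ^ m := pow_le_pow_left' hb _
      _ ≤ M ^ 1 := pow_le_pow_right_of_le_one' hM1 (by omega)
      _ = M := pow_one M

end Pool.Agent.H42.RM
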