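/-
ROW LBa. The characters `g ↦ g D / D` of the inertia group with values in the residue field.
PROOF. `k = IsLocalRing.ResidueField Λ.V.valuationSubring`. For `D : Lˣ` and `g ∈ Λ.I` the element
`g • D / D` has value `1` (Λ.inv), so it is a unit of the valuation ring; `th D g` is (the unit
given by) its residue. Multiplicativity in `g`: `(g h) D / D = g (h D / D) * (g D / D)` and
`y = h D / D` is integral, so `V (g y - y) < 1` (Λ.inert) and `g y`, `y` have the same residue.
First property: two integral elements have the same residue iff the value of their difference is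
`< 1` (residue of `x` is `0` iff `V x < 1`, see ELoc_res in PCM/E4 or
IsLocalRing.residue_eq_zero_iff). Second: `g (D D') / (D D') = (g D / D) (g D' / D')`. Third:
`V (g u / u - 1) = V (g u - u) / V u = V (g u - u) < 1`, so the residue is `1`.
(Compare the proof of cyc_gen in AD/DAb.lean.)
-/
import Pool.Agent.H42.RM.Defs

set_option autoImplicit false

namespace Pool.Agent.H42.RM

open Pool.Agent.H42.PC WithZero

theorem exists_th {G L : Type} [Group G] [Field L] [MulSemiringAction G L] (Λ : Loc G L) :
    ∃ (k : Type) (_ : Field k) (th : Lˣ → Λ.I →* kˣ),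
      (∀ (D : Lˣ) (g h : Λ.I), th D g = th D h ↔
        Λ.V ((g : G) • (D : L) / (D : L) - (h : G) • (D : L) / (D : L)) < 1) ∧
      (∀ D D' : Lˣ, th (D * D') = th D * th D') ∧
      ∀ u : Lˣ, Λ.V (u : L) = 1 → th u = 1 := by
  have hc1 : ∀ (D : Lˣ) (g : Λ.I), Λ.V ((g : G) • (D : L) / (D : L)) = 1 := by
    intro D g
    have hD : Λ.V (D : L) ≠ 0 := (Valuation.ne_zero_iff _).2 D.ne_zero
    rw [map_div₀, Λ.inv g g.2, div_self hD]
  have hcoc : ∀ (D : Lˣ) (g h : G), (g * h) • (D : L) / (D : L) =
      g • (h • (D : L) / (D : L)) * (g • (D : L) / (D : L)) := by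
    intro D g h
    have hg0 : g • (D : L) ≠ 0 := fun h => D.ne_zero ((smul_eq_zero_iff_eq g).1 h)
    rw [mul_smul, smul_div₀', div_mul_div_comm, mul_comm (g • (D : L)) (D : L),
      mul_div_mul_right _ _ hg0]
  let O := Λ.V.valuationSubring
  let c : Lˣ → Λ.I → O := fun D g => ⟨(g : G) • (D : L) / (D : L), (hc1 D g).le⟩
  have hres : ∀ x y : O, IsLocalRing.residue O x = IsLocalRing.residue O y ↔
      Λ.V ((x : L) - y) < 1 := by
    intro x y
    rw [← sub_eq_zero, ← map_sub, IsLocalRing.residue_eq_zero_iff]
    exact Valuation.mem_maximalIdeal_iff (v := Λ.V) (a := x - y)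
  let θ : Lˣ → Λ.I →* IsLocalRing.ResidueField O := fun D =>
    { toFun := fun g => IsLocalRing.residue O (c D g)
      map_one' := by
        rw [← map_one (IsLocalRing.residue O)]
        congr 1
        apply Subtype.ext
        show ((1 : Λ.I) : G) • (D : L) / (D : L) = 1
        rw [Subgroup.coe_one, one_smul, div_self D.ne_zero]
      map_mul' := by
        intro g h
        rw [← map_mul, hres]
        show Λ.V (((g * h : Λ.I) : G) • (D : L) / (D : L) -
          ((g : G) • (D : L) / (D : L)) * ((h : G) • (D : L) / (D : L))) < 1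
        rw [Subgroup.coe_mul, hcoc, mul_comm ((g : G) • (D : L) / (D : L))
          ((h : G) • (D : L) / (D : L)), ← sub_mul, map_mul, hc1 D g, mul_one]
        exact Λ.inert g g.2 _ (hc1 D h).le }
  refine ⟨IsLocalRing.ResidueField O, inferInstance, fun D => (θ D).toHomUnits, ?_, ?_, ?_⟩
  · intro D g h
    rw [← hres (c D g) (c D h), Units.ext_iff]
    exact Iff.rfl
  · intro D D'
    refine MonoidHom.ext fun g => Units.ext ?_
    show IsLocalRing.residue O (c (D * D') g) =
      IsLocalRing.residue O (c D g) * IsLocalRing.residue O (c D' g)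
    rw [← map_mul]
    congr 1
    apply Subtype.ext
    show (g : G) • ((D * D' : Lˣ) : L) / ((D * D' : Lˣ) : L) =
      ((g : G) • (D : L) / (D : L)) * ((g : G) • (D' : L) / (D' : L))
    rw [Units.val_mul, smul_mul', mul_div_mul_comm]
  · intro u hu
    refine MonoidHom.ext fun g => Units.ext ?_
    show IsLocalRing.residue O (c u g) = 1
    rw [← map_one (IsLocalRing.residue O), hres]
    show Λ.V ((g : G) • (u : L) / (u : L) - 1) < 1
    have h1 : (g : G) • (u : L) / (u : L) - 1 = ((g : G) • (u : L) - (u : L)) / (u : L) := by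
      rw [sub_div, div_self u.ne_zero]
    rw [h1, map_div₀, hu, div_one]
    exact Λ.inert g g.2 _ hu.le

end Pool.Agent.H42.RM
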