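/-
ROW LBb. Tameness: inertia acts on the tree through a cyclic group.
PROOF of ker_tree. Like ker_trivial in AD/DAa.lean. Induction on `t`; level 0 is `{b}` (hS.fixb).
Let `x ∈ lev (t+1)`, `t+1 ≤ N`; `g` fixes `F x`, so `F (g • x) = g • F x = F x` (Fsmul). Suppose
`g • x ≠ x`. `V (g • x - x) < 1` (Λ.inert, ri_lev, ri_int). If `¬ NW x` then ncr gives
`V (F (g•x) - F x) = V (g•x - x) ≠ 0`, contradiction. So there is `c ∈ W` with `V (x - c) < 1`;
`V (g•x - c) < 1`; `g • c = c` (Wfix). c_ratio (row LAb) for `g•x, x`: `x ≠ c` and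
`¬ V ((g•x - c)/(x - c) - 1) < 1`. Let `D = x - c ≠ 0`, `g • D = g•x - c`. `V D = exp (-e)` with
`e : ℕ` (`V D < 1` nonzero), so `D = ϖ^e * u` with `V u = 1` and
`g D / D = (g ϖ / ϖ)^e * (g u / u)` is congruent to `1` modulo elements of value `< 1` (powers and
products of elements `≡ 1`; `V (g u / u - 1) = V (g u - u) < 1` by Λ.inert). Contradiction.
PROOF of cyc_tree. Like cyc_gen in AD/DAb.lean: `Λ.unif ⊥ bot_le` gives `ϖ` with `V ϖ = exp (-1)`.
exists_th (row LBa) gives `θ = th ϖ : Λ.I →* kˣ`; its range is a finite subgroup of `kˣ`, hence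
cyclic; let `θ σ` be a generator. For `g ∈ Λ.I`, `θ g = θ σ ^ j` with `j : ℕ`, so
`r = (σ^j)⁻¹ * g` satisfies `θ r = 1 = θ 1`, i.e. `V (r ϖ / ϖ - 1) < 1`; by ker_tree `r` acts
trivially, so `g • x = σ^j • x`.
-/
import Pool.Agent.H42.RM.LAb
import Pool.Agent.H42.RM.LBa

set_option autoImplicit false

namespace Pool.Agent.H42.RM

open Pool.Agent.H42.PC WithZero

variable {G L : Type} [Group G] [Field L] [MulSemiringAction G L] {Λ : Loc G L} {F : L → L}
  {b : L} {W : Finset L} {mu : L → ℕ} {RI : Set L} {J N : ℕ}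

theorem lbb_unit_mul {V : Valuation L ℤᵐ⁰} {x y : L} (hx : V (x - 1) < 1) (hy : V (y - 1) < 1) :
    V (x * y - 1) < 1 := by
  rw [show x * y - 1 = (x - 1) * (y - 1) + (x - 1) + (y - 1) by ring]
  refine V.map_add_lt (V.map_add_lt ?_ hx) hy
  rw [map_mul]
  exact lt_of_le_of_lt (mul_le_of_le_one_right' hy.le) hx

theorem lbb_pow {V : Valuation L ℤᵐ⁰} {r : L} (hr : V (r - 1) < 1) (e : ℕ) :
    V (r ^ e - 1) < 1 := by
  induction e with
  | zero =>
    rw [pow_zero, sub_self, map_zero]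
    exact zero_lt_one
  | succ e ih =>
    rw [pow_succ]
    exact lbb_unit_mul ih hr

theorem ker_tree (hS : LSys Λ F b W mu RI J N) {ϖ : L} (hϖ : Λ.V ϖ = exp (-1)) {g : G}
    (hg : g ∈ Λ.I) (h1 : Λ.V (g • ϖ / ϖ - 1) < 1) : ∀ t ≤ N, ∀ x ∈ lev F b t, g • x = x := by
  intro t
  induction t with
  | zero =>
    intro _ x hx
    have hxb : x = b := hx
    rw [hxb]
    exact hS.fixb g
  | succ t ih =>
    intro ht x hx
    have hx1 : F x ∈ lev F b t := by
      have h2 : F^[t + 1] x = b := hx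
      rw [Function.iterate_succ_apply] at h2
      exact h2
    have hfx := ih (by omega) _ hx1
    by_contra hne
    have he : F (g • x) = F x := by rw [hS.Fsmul, hfx]
    have hxi : Λ.V x ≤ 1 := hS.ri_int x (hS.ri_lev (t + 1) ht x hx)
    have hgx : Λ.V (g • x - x) < 1 := Λ.inert g hg x hxi
    by_cases hN : NW Λ W x
    · obtain ⟨c, hc, hxc⟩ := hN
      have hgc : Λ.V (g • x - c) < 1 := by
        rw [show g • x - c = (g • x - x) + (x - c) by ring]
        exact Λ.V.map_add_lt hgx hxc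
      have hcf : g • c = c := hS.Wfix g hg c hc
      obtain ⟨hxc0, -, -, -, hcr⟩ := c_ratio hS hc hgc hxc he hne
      have hgD : g • (x - c) = g • x - c := by rw [smul_sub, hcf]
      have hD0 : x - c ≠ 0 := sub_ne_zero.2 hxc0
      have hVD : Λ.V (x - c) ≠ 0 := by
        rw [Ne, map_eq_zero]
        exact hD0
      obtain ⟨e, he'⟩ : ∃ e : ℕ, Λ.V (x - c) = exp (-(e : ℤ)) := by
        have h4 : exp (log (Λ.V (x - c))) = Λ.V (x - c) := exp_log hVD
        have h5 : log (Λ.V (x - c)) < 0 := by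
          rw [← h4, ← exp_zero, exp_lt_exp] at hxc
          exact hxc
        refine ⟨(-log (Λ.V (x - c))).toNat, ?_⟩
        rw [Int.toNat_of_nonneg (by omega), neg_neg, h4]
      have hϖ0 : ϖ ≠ 0 := by
        intro h0
        rw [h0, map_zero] at hϖ
        exact exp_ne_zero hϖ.symm
      have hVe : Λ.V (ϖ ^ e) = Λ.V (x - c) := by
        rw [map_pow, hϖ, he', ← exp_nsmul]
        congr 1
        rw [nsmul_eq_mul]
        ring
      have hu : Λ.V ((x - c) / ϖ ^ e) = 1 := by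
        rw [map_div₀, hVe, div_self hVD]
      have hu0 : (x - c) / ϖ ^ e ≠ 0 := div_ne_zero hD0 (pow_ne_zero _ hϖ0)
      have hgu : Λ.V (g • ((x - c) / ϖ ^ e) / ((x - c) / ϖ ^ e) - 1) < 1 := by
        have h6 : g • ((x - c) / ϖ ^ e) / ((x - c) / ϖ ^ e) - 1 =
            (g • ((x - c) / ϖ ^ e) - (x - c) / ϖ ^ e) / ((x - c) / ϖ ^ e) := by
          rw [sub_div (g • ((x - c) / ϖ ^ e)), div_self hu0]
        rw [h6, map_div₀, hu, div_one]
        exact Λ.inert g hg _ hu.le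
      have hprod : g • (x - c) / (x - c) =
          (g • ((x - c) / ϖ ^ e) / ((x - c) / ϖ ^ e)) * (g • ϖ / ϖ) ^ e := by
        have h7 : x - c = (x - c) / ϖ ^ e * ϖ ^ e := by
          rw [div_mul_cancel₀ _ (pow_ne_zero _ hϖ0)]
        conv_lhs => rw [h7]
        rw [smul_mul', smul_pow', div_pow, mul_div_mul_comm]
      apply hcr
      rw [← hgD, hprod]
      exact lbb_unit_mul hgu (lbb_pow h1 e)
    · have h2 := hS.ncr (t + 1) ht x hx hN (g • x) hgx
      rw [he, sub_self, map_zero] at h2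
      have h3 : g • x - x = 0 := (map_eq_zero Λ.V).1 h2.symm
      exact hne (sub_eq_zero.1 h3)

theorem cyc_tree [Finite G] (hS : LSys Λ F b W mu RI J N) :
    ∃ σ ∈ Λ.I, ∀ g ∈ Λ.I, ∃ j : ℕ, ∀ t ≤ N, ∀ x ∈ lev F b t, g • x = σ ^ j • x := by
  obtain ⟨ϖ, -, hϖ⟩ := Λ.unif ⊥ bot_le
  have hϖ' : Λ.V ϖ = exp (-1) := by
    rw [hϖ]; simp
  have hϖ0 : ϖ ≠ 0 := by
    intro h0
    rw [h0, map_zero] at hϖ'
    exact exp_ne_zero hϖ'.symm
  obtain ⟨k, instk, th, hth, -, -⟩ := exists_th Λ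
  let D : Lˣ := Units.mk0 ϖ hϖ0
  let θ : Λ.I →* kˣ := th D
  haveI hfinI : Finite θ.range :=
    Finite.of_surjective _ (MonoidHom.rangeRestrict_surjective θ)
  have hcyc : IsCyclic θ.range := isCyclic_subgroup_units _
  obtain ⟨⟨s, σ, hσ⟩, hs⟩ := hcyc.exists_generator
  refine ⟨σ, σ.2, fun g hg => ?_⟩
  have h1 : (⟨θ ⟨g, hg⟩, ⟨g, hg⟩, rfl⟩ : θ.range) ∈
      Submonoid.powers (⟨s, σ, hσ⟩ : θ.range) := by
    rw [mem_powers_iff_mem_zpowers]
    exact hs _
  obtain ⟨j, hj⟩ := h1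
  have hj' : s ^ j = θ ⟨g, hg⟩ := congrArg Subtype.val hj
  rw [← hσ, ← map_pow] at hj'
  refine ⟨j, ?_⟩
  set r : Λ.I := (σ ^ j)⁻¹ * ⟨g, hg⟩ with hr
  have hr1 : θ r = θ 1 := by
    rw [hr, map_mul, ← hj', ← map_mul, inv_mul_cancel]
  have hr2 : Λ.V ((r : G) • ϖ / ϖ - 1) < 1 := by
    have h3 := (hth D r 1).1 hr1
    have e : ((1 : Λ.I) : G) • (D : L) / (D : L) = 1 := by
      rw [Subgroup.coe_one, one_smul]
      exact div_self hϖ0
    rw [e] at h3
    exact h3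
  have hk := ker_tree hS hϖ' r.2 hr2
  intro t ht x hx
  have := hk t ht x hx
  have hgr : g = (σ : G) ^ j * (r : G) := by
    rw [hr]
    simp
  rw [hgr, mul_smul, this]

end Pool.Agent.H42.RM
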