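/-
ROW LAa. Iterates, residues, fixed points.
PROOFS.
* it_ri: if `i ≤ t` then `F^[i] x ∈ lev F b (t - i)` (lev_iter) and ri_lev; if `i > t` then
  `F^[i] x = F^[i - t] (F^[t] x) = F^[i - t] b` and ri_orb.
* it_sub: induction on `k` (iterate_succ_apply'): `F^[k] x ∈ RI` and
  `V (F^[k] y - F^[k] x) ≤ V (y - x) < 1`, so ri_sub applies.
* it_smul, it_b, it_c: induction with Fsmul, fixb, Wfix.
* fr_ball: `z ∈ FRg (ball x)` iff there is `y` with `V (y - x) < 1` and `V (z - F y) < 1`; as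
  `V (F y - F x) ≤ V (y - x) < 1` (ri_sub) this is equivalent to `V (z - F x) < 1` (for the
  converse take `y = x`).
* fr_iter: induction on `k` (iterate_succ_apply'), fr_ball for `F^[k] x`.
* w_sep: hJ with `i = j = 0` and ball_eq (PCM/D1: `ball Λ x = ball Λ y ↔ Λ.V (x - y) < 1`).
* nw_iff: ball_eq. * nw_near: `x - c = (x - y) + (y - c)`, Valuation.map_add_lt.
-/
import Pool.Agent.H42.RM.Defs

set_option autoImplicit false

namespace Pool.Agent.H42.RM

open Pool.Agent.H42.PC WithZero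

variable {G L : Type} [Group G] [Field L] [MulSemiringAction G L] {Λ : Loc G L} {F : L → L}
  {b : L} {W : Finset L} {mu : L → ℕ} {RI : Set L} {J N : ℕ}

theorem it_ri (hS : LSys Λ F b W mu RI J N) {t : ℕ} (ht : t ≤ N) {x : L} (hx : x ∈ lev F b t)
    (i : ℕ) : F^[i] x ∈ RI := by
  rcases le_or_gt i t with h | h
  · exact hS.ri_lev (t - i) (by omega) _ (lev_iter hx h)
  · have h1 : F^[i] x = F^[i - t] (F^[t] x) := by
      rw [← Function.iterate_add_apply, Nat.sub_add_cancel h.le]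
    have h2 : F^[t] x = b := hx
    rw [h1, h2]
    exact hS.ri_orb _

theorem it_sub (hS : LSys Λ F b W mu RI J N) {x y : L} {k : ℕ} (hx : ∀ i < k, F^[i] x ∈ RI)
    (h : Λ.V (y - x) < 1) : Λ.V (F^[k] y - F^[k] x) ≤ Λ.V (y - x) := by
  induction k with
  | zero => exact le_rfl
  | succ k ih =>
    have h1 := ih fun i hi => hx i (by omega)
    rw [Function.iterate_succ_apply', Function.iterate_succ_apply']
    exact (hS.ri_sub _ (hx k (Nat.lt_succ_self k)) _ (h1.trans_lt h)).trans h1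

theorem it_smul (hS : LSys Λ F b W mu RI J N) (g : G) (x : L) (i : ℕ) :
    F^[i] (g • x) = g • F^[i] x := by
  induction i with
  | zero => rfl
  | succ i ih => rw [Function.iterate_succ_apply', Function.iterate_succ_apply', ih, hS.Fsmul]

theorem it_b (hS : LSys Λ F b W mu RI J N) (g : G) (i : ℕ) : g • F^[i] b = F^[i] b := by
  rw [← it_smul hS, hS.fixb]

theorem it_c (hS : LSys Λ F b W mu RI J N) {g : G} (hg : g ∈ Λ.I) {c : L} (hc : c ∈ W) (i : ℕ) :
    g • F^[i] c = F^[i] c := by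
  rw [← it_smul hS, hS.Wfix g hg c hc]

theorem fr_ball (hS : LSys Λ F b W mu RI J N) {x : L} (hx : x ∈ RI) :
    FRg Λ F (ball Λ x) = ball Λ (F x) := by
  ext z
  constructor
  · rintro ⟨y, hy, hz⟩
    have hy' : Λ.V (y - x) < 1 := hy
    show Λ.V (z - F x) < 1
    rw [show z - F x = (z - F y) + (F y - F x) by ring]
    exact Λ.V.map_add_lt hz ((hS.ri_sub x hx y hy').trans_lt hy')
  · intro hz
    refine ⟨x, ?_, hz⟩
    show Λ.V (x - x) < 1
    rw [sub_self, map_zero]
    exact zero_lt_one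

theorem fr_iter (hS : LSys Λ F b W mu RI J N) {x : L} {k : ℕ} (hx : ∀ i < k, F^[i] x ∈ RI) :
    (FRg Λ F)^[k] (ball Λ x) = ball Λ (F^[k] x) := by
  induction k with
  | zero => rfl
  | succ k ih =>
    rw [Function.iterate_succ_apply', Function.iterate_succ_apply', ih fun i hi => hx i (by omega),
      fr_ball hS (hx k (Nat.lt_succ_self k))]

theorem w_sep (hS : LSys Λ F b W mu RI J N) {c c' : L} (hc : c ∈ W) (hc' : c' ∈ W)
    (h : Λ.V (c - c') < 1) : c = c' :=
  (hS.hJ c hc c' hc' 0 (Nat.zero_le _) 0 (Nat.zero_le _) (ball_eq.2 h)).1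

theorem nw_iff (Λ : Loc G L) (W : Finset L) (x : L) :
    NW Λ W x ↔ ball Λ x ∈ ball Λ '' (W : Set L) := by
  constructor
  · rintro ⟨c, hc, h⟩
    exact ⟨c, hc, (ball_eq.2 h).symm⟩
  · rintro ⟨c, hc, h⟩
    exact ⟨c, hc, ball_eq.1 h.symm⟩

theorem nw_near {x y : L} (h : Λ.V (x - y) < 1) (hy : NW Λ W y) : NW Λ W x := by
  obtain ⟨c, hc, h1⟩ := hy
  refine ⟨c, hc, ?_⟩
  rw [show x - c = (x - y) + (y - c) by ring]
  exact Λ.V.map_add_lt h h1

end Pool.Agent.H42.RM
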