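/-
ROW LAc. Counting by roots of unity in the residue field. PROOFS.
* unit_count: every `u ∈ T` has `V u = 1` (from `V (u^m - 1) < 1`: `V (u^m) = 1`, `m ≥ 1`). Let
  `k = IsLocalRing.ResidueField V.valuationSubring`. The map sending `u ∈ T` to the residue of
  `⟨u, _⟩` is injective on `T` by h2 (residue of `x` is `0` iff `V x < 1`: `ELoc_res` in PCM/E4, or
  IsLocalRing.residue_eq_zero_iff and Valuation.valuationSubring / mem_maximalIdeal) and its image
  consists of roots of `X^m - 1` (h1); `(Polynomial.nthRoots m (1:k)).card ≤ m`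
  (Polynomial.card_nthRoots).
* c_card: let `S` be the set. If `S` is empty: trivial. Let `x0 ∈ S`. If `x0 = c` then every `x ∈ S`
  equals `c` (c_ratio of row LAb with `x' = c` gives `x' ≠ c`), so `S = {c}`, card `1 ≤ mu c`. Let
  `x0 ≠ c`. For every finite `T0 ⊆ S` the image of `T0` under the injective map
  `x ↦ (x - c)/(x0 - c)` satisfies the hypotheses of unit_count with `m = mu c`: h1 by c_ratio
  (for `x = x0` the ratio is `1`), h2 because the difference of the images of `x ≠ x'` is
  `(x - x')/(x0 - c)` and `V (x - x') = V (x' - c) = V (x0 - c)` by c_ratio. So `T0.card ≤ mu c`.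
  Hence `S` is finite (otherwise it has a finite subset with `mu c + 1` elements:
  Set.Infinite.exists_subset_card_eq) and `S.ncard ≤ mu c`.
-/
import Pool.Agent.H42.RM.LAb

set_option autoImplicit false

namespace Pool.Agent.H42.RM

open Pool.Agent.H42.PC WithZero

theorem unit_res {L : Type} [Field L] (V : Valuation L ℤᵐ⁰) {x : V.valuationSubring} :
    IsLocalRing.residue V.valuationSubring x = 0 ↔ V (x : L) < 1 := by
  rw [IsLocalRing.residue_eq_zero_iff, IsLocalRing.mem_maximalIdeal, mem_nonunits_iff]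
  have h := (Valuation.valuationSubring.integers V).isUnit_iff_valuation_eq_one (x := x)
  rw [h]
  have h1 : V (x : L) ≤ 1 := x.2
  constructor
  · intro h2
    exact lt_of_le_of_ne h1 h2
  · intro h2 h3
    exact h2.ne h3

theorem unit_count {L : Type} [Field L] (V : Valuation L ℤᵐ⁰) (T : Finset L) {m : ℕ}
    (hm : 1 ≤ m) (h1 : ∀ u ∈ T, V (u ^ m - 1) < 1)
    (h2 : ∀ u ∈ T, ∀ u' ∈ T, u ≠ u' → ¬ V (u - u') < 1) : T.card ≤ m := by
  classical
  have hV : ∀ u ∈ T, V u ≤ 1 := by
    intro u hu
    have h3 : V (u ^ m) ≤ 1 := by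
      have h4 : u ^ m = (u ^ m - 1) + 1 := by ring
      rw [h4]
      exact V.map_add_le (h1 u hu).le (by rw [map_one])
    by_contra h5
    rw [not_le] at h5
    rw [map_pow] at h3
    exact absurd h3 (not_le.2 (one_lt_pow₀ h5 (by omega)))
  let f : L → IsLocalRing.ResidueField V.valuationSubring := fun u =>
    if h : V u ≤ 1 then IsLocalRing.residue V.valuationSubring ⟨u, h⟩ else 0
  have hf : ∀ u (h : V u ≤ 1), f u = IsLocalRing.residue V.valuationSubring ⟨u, h⟩ := fun u h =>
    dif_pos h
  have hmaps : ∀ u ∈ T, f u ∈ (Polynomial.nthRoots m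
      (1 : IsLocalRing.ResidueField V.valuationSubring)).toFinset := by
    intro u hu
    rw [Multiset.mem_toFinset, Polynomial.mem_nthRoots (by omega), hf u (hV u hu), ← map_pow,
      ← sub_eq_zero, ← map_one (IsLocalRing.residue V.valuationSubring), ← map_sub, unit_res]
    exact h1 u hu
  have hinj : Set.InjOn f T := by
    intro u hu u' hu' he
    by_contra hne
    refine h2 u hu u' hu' hne ?_
    rw [hf u (hV u hu), hf u' (hV u' hu'), ← sub_eq_zero, ← map_sub, unit_res] at he
    exact he
  calc T.card ≤ (Polynomial.nthRoots m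
      (1 : IsLocalRing.ResidueField V.valuationSubring)).toFinset.card :=
        Finset.card_le_card_of_injOn f hmaps hinj
    _ ≤ Multiset.card (Polynomial.nthRoots m
      (1 : IsLocalRing.ResidueField V.valuationSubring)) := Multiset.toFinset_card_le _
    _ ≤ m := Polynomial.card_nthRoots m _

variable {G L : Type} [Group G] [Field L] [MulSemiringAction G L] {Λ : Loc G L} {F : L → L}
  {b : L} {W : Finset L} {mu : L → ℕ} {RI : Set L} {J N : ℕ}

theorem c_card_fin (hS : LSys Λ F b W mu RI J N) {c : L} (hc : c ∈ W) (w : L) (T0 : Finset L)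
    (hT0 : ∀ x ∈ T0, Λ.V (x - c) < 1 ∧ F x = w) : T0.card ≤ mu c := by
  classical
  have hmu := hS.mu2 c hc
  rcases T0.eq_empty_or_nonempty with h0 | ⟨x0, hx0⟩
  · rw [h0, Finset.card_empty]
    exact Nat.zero_le _
  by_cases hx0c : x0 = c
  · have hall : ∀ x ∈ T0, x = c := by
      intro x hx
      by_contra hne
      have h1 := c_ratio hS hc (hT0 x hx).1 (x' := x0) (hT0 x0 hx0).1
        ((hT0 x hx).2.trans (hT0 x0 hx0).2.symm) (by rw [hx0c]; exact hne)
      exact h1.1 hx0c
    have h2 : T0 ⊆ {c} := fun x hx => Finset.mem_singleton.2 (hall x hx)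
    have h3 := Finset.card_le_card h2
    rw [Finset.card_singleton] at h3
    omega
  · have hd : x0 - c ≠ 0 := sub_ne_zero.2 hx0c
    let g : L → L := fun x => (x - c) / (x0 - c)
    have hg : Function.Injective g := by
      intro x x' h
      have h1 : x - c = x' - c := (div_left_inj' hd).1 h
      exact sub_left_injective h1
    have key := unit_count Λ.V (T0.image g) (m := mu c) (by omega) (by
      intro u hu
      obtain ⟨x, hx, rfl⟩ := Finset.mem_image.1 hu
      by_cases hxx : x = x0
      · have h1 : g x = 1 := by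
          rw [hxx]
          exact div_self hd
        rw [h1, one_pow, sub_self, map_zero]
        exact zero_lt_one
      · exact (c_ratio hS hc (hT0 x hx).1 (hT0 x0 hx0).1
          ((hT0 x hx).2.trans (hT0 x0 hx0).2.symm) hxx).2.2.2.1) (by
      intro u hu u' hu' hne
      obtain ⟨x, hx, rfl⟩ := Finset.mem_image.1 hu
      obtain ⟨x', hx', rfl⟩ := Finset.mem_image.1 hu'
      have hxx : x ≠ x' := fun h => hne (by rw [h])
      have h1 := c_ratio hS hc (hT0 x hx).1 (hT0 x' hx').1
        ((hT0 x hx).2.trans (hT0 x' hx').2.symm) hxx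
      have h2 : g x - g x' = (x - x') / (x0 - c) := by
        change (x - c) / (x0 - c) - (x' - c) / (x0 - c) = _
        rw [← sub_div]
        congr 1
        ring
      have h3 : Λ.V (x' - c) = Λ.V (x0 - c) := by
        by_cases hx0' : x' = x0
        · rw [hx0']
        · exact (c_ratio hS hc (hT0 x' hx').1 (hT0 x0 hx0).1
            ((hT0 x' hx').2.trans (hT0 x0 hx0).2.symm) hx0').2.1
      rw [h2, map_div₀, h1.2.2.1, h3, div_self ((Valuation.ne_zero_iff _).2 hd)]
      exact lt_irrefl _)
    rwa [Finset.card_image_of_injective _ hg] at key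

theorem c_card (hS : LSys Λ F b W mu RI J N) {c : L} (hc : c ∈ W) (w : L) :
    {x | Λ.V (x - c) < 1 ∧ F x = w}.Finite ∧ {x | Λ.V (x - c) < 1 ∧ F x = w}.ncard ≤ mu c := by
  have hfin : {x | Λ.V (x - c) < 1 ∧ F x = w}.Finite := by
    by_contra hinf
    obtain ⟨t, ht, hcard⟩ := Set.Infinite.exists_subset_card_eq hinf (mu c + 1)
    have h1 := c_card_fin hS hc w t fun x hx => ht hx
    omega
  refine ⟨hfin, ?_⟩
  rw [Set.ncard_eq_toFinset_card _ hfin]
  exact c_card_fin hS hc w _ fun x hx => hfin.mem_toFinset.1 hx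

end Pool.Agent.H42.RM
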