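/-
ROW LDa. The place (in the sense of PCM/G1) of an LSys all of whose multiplicities are 2.
PROOFS of the fields of lPlace (replace the sorries; the data are fixed).
* hA: Set.ncard_image_le, Set.ncard_coe_finset.
* hred: `x ∈ lev (t+1)`, `t + 1 ≤ N`, so `x ∈ RI` and fr_ball (row LAa).
* hI: `V (g • x - x) < 1` (Λ.inert, ri_lev, ri_int), ball_eq.
* hone: `V (x - x') < 1` (ball_eq), `x` is not near `W` (nw_iff), ncr: `V (F x' - F x) = V (x' - x)`;
  the left side is `0`.
* htwo: suppose the three points are distinct. As in hone the first is near some `c ∈ W`, hence all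
  three are near `c`, and `{x | V (x - c) < 1 ∧ F x = F x₁}` has at most `mu c = 2` elements (c_card
  of row LAc), but contains three.
* hJ: hS.hJ.
onC_iff: `(FRg Λ F)^[k] (ball Λ b) = ball Λ (F^[k] b)` (fr_iter, ri_orb) and ball_eq.
-/
import Pool.Agent.H42.RM.LAa
import Pool.Agent.H42.RM.LAc

set_option autoImplicit false

namespace Pool.Agent.H42.RM

open Pool.Agent.H42.PC WithZero

variable {G L : Type} [Group G] [Field L] [MulSemiringAction G L] {Λ : Loc G L} {F : L → L}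
  {b : L} {W : Finset L} {mu : L → ℕ} {RI : Set L} {J N : ℕ}

private theorem lda_tri {x y z : L} (h1 : Λ.V (x - y) < 1) (h2 : Λ.V (y - z) < 1) :
    Λ.V (x - z) < 1 := by
  rw [show x - z = (x - y) + (y - z) by ring]
  exact Λ.V.map_add_lt h1 h2

private theorem lda_one (hS : LSys Λ F b W mu RI J N) {t : ℕ} (ht : t < N) {x x' : L}
    (hx : x ∈ lev F b (t + 1)) (he : F x = F x') (hr : ball Λ x = ball Λ x')
    (hA : ¬ NW Λ W x) : x = x' := by
  have h1 : Λ.V (x' - x) < 1 := ball_eq.1 hr.symm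
  have h2 := hS.ncr (t + 1) ht x hx hA x' h1
  rw [he, sub_self, map_zero] at h2
  have h3 : x' - x = 0 := (map_eq_zero Λ.V).1 h2.symm
  exact (sub_eq_zero.1 h3).symm

/-- The place of a local system with simple critical points. -/
def lPlace (hS : LSys Λ F b W mu RI J N) (hmu : ∀ c ∈ W, mu c = 2) {s : ℕ} (hs : W.card ≤ s) :
    Place G F b s J N where
  R := Set L
  FR := FRg Λ F
  red := ball Λ
  I := Λ.I
  A := ball Λ '' W
  hAfin := W.finite_toSet.image _
  hA := by
    refine (Set.ncard_image_le W.finite_toSet).trans ?_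
    rw [Set.ncard_coe_finset]
    exact hs
  hred := by
    intro t ht x hx
    exact (fr_ball hS (hS.ri_lev (t + 1) ht x hx)).symm
  hI := by
    intro g hg t ht x hx
    exact ball_eq.2 (Λ.inert g hg x (hS.ri_int x (hS.ri_lev t ht x hx)))
  hone := by
    intro t ht x hx x' _ he hr hA
    exact lda_one hS ht hx he hr fun h => hA ((nw_iff Λ W x).1 h)
  htwo := by
    intro t ht x₁ hx₁ x₂ hx₂ x₃ hx₃ h12 h23 r12 r23
    by_cases hA : NW Λ W x₁
    · obtain ⟨c, hc, hc1⟩ := hA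
      by_contra hcon
      push Not at hcon
      obtain ⟨n12, n13, n23⟩ := hcon
      have hc2 : Λ.V (x₂ - c) < 1 := lda_tri (ball_eq.1 r12.symm) hc1
      have hc3 : Λ.V (x₃ - c) < 1 := lda_tri (ball_eq.1 r23.symm) hc2
      obtain ⟨hfin, hcard⟩ := c_card hS hc (F x₁)
      have hsub : ({x₁, x₂, x₃} : Set L) ⊆ {x | Λ.V (x - c) < 1 ∧ F x = F x₁} := by
        rintro x (rfl | rfl | rfl)
        · exact ⟨hc1, rfl⟩
        · exact ⟨hc2, h12.symm⟩
        · exact ⟨hc3, (h12.trans h23).symm⟩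
      have h3 : ({x₁, x₂, x₃} : Set L).ncard = 3 := Set.ncard_eq_three.2 ⟨x₁, x₂, x₃, n12, n13, n23, rfl⟩
      have h4 := Set.ncard_le_ncard hsub hfin
      rw [h3] at h4
      have h5 := hmu c hc
      omega
    · exact Or.inl (lda_one hS ht hx₁ h12 r12 hA)
  hJ := by
    rintro _ ⟨c, hc, rfl⟩ _ ⟨c', hc', rfl⟩ i hi j hj h
    obtain ⟨h1, h2⟩ := hS.hJ c hc c' hc' i hi j hj h
    exact ⟨by rw [h1], h2⟩

theorem onC_iff (hS : LSys Λ F b W mu RI J N) (hmu : ∀ c ∈ W, mu c = 2) {s : ℕ}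
    (hs : W.card ≤ s) (x : L) : (lPlace hS hmu hs).OnC x ↔ LOn Λ F b x := by
  have key : ∀ k : ℕ, (FRg Λ F)^[k] (ball Λ b) = ball Λ (F^[k] b) := fun k =>
    fr_iter hS fun i _ => hS.ri_orb i
  constructor
  · rintro ⟨k, hk⟩
    refine ⟨k, ?_⟩
    have hk' : ball Λ x = (FRg Λ F)^[k] (ball Λ b) := hk
    rw [key] at hk'
    exact ball_eq.1 hk'
  · rintro ⟨k, hk⟩
    refine ⟨k, ?_⟩
    show ball Λ x = (FRg Λ F)^[k] (ball Λ b)
    rw [key]
    exact ball_eq.2 hk

end Pool.Agent.H42.RM
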