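/-
ROW EBa. The backward tree. PROOF. As tree_of_splits (PCM/E2.lean, section ETr). Let `F = RA p q β L`,
`b = algebraMap K L β`, `d = p.natDegree`. key: for `t < N`, `x ∈ lev F b t` there is a Finset `s` with
`{z | F z = x} = s`, `s.card = d`. Let `h = p.map _ - C x * q.map _`, `natDegree h = d` (the degree of
`q` is smaller), `h ≠ 0`.
(1) for every field `A` with `Algebra L A`, `Algebra K A`, tower, and `z : A`: `h(z) = 0` iff
  `RA p q β A z = algebraMap L A x`. If `h(z) = 0`: `q z ≠ 0` (otherwise `p z = 0` too, contradicting
  coprimality), so `F z = p z / q z = x`. Conversely if `F z = x` then `q z ≠ 0` (otherwise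
  `x = o` and `F^[t] o = b`, contradicting r_onl of row EAc). Use it for `A = L` and for
  `A = AlgebraicClosure L`.
(2) `h` splits in `L`: let `z : AlgebraicClosure L` be a root of `h`. By (1) and ra_iter,
  `(RA p q β A)^[t+1] z = b`, so `z` is a root of `RP p q β (t+1)` (rp_root), which splits in `L` (hs); so
  `z` is in the image of `L`. Hence all roots of `h` are in `L` (Polynomial.Splits.of_splits_map or
  a similar lemma: a polynomial which splits in an extension and whose roots there come from `L`
  splits in `L`).
(3) the roots are simple: if `h(z) = 0 = h'(z)` then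
  `wr p q (z) = p' q - p q' = q(z) (p'(z) - x q'(z)) = q(z) h'(z) = 0`, so `z` is critical,
  `F^[t+1] z = b`, contradicting no_crit (row EAc).
So `h.roots` is a Nodup multiset of cardinality `d` (as in the old proof). The five fields as in
tree_of_splits, with ra_smul, r_aper.
-/
import Pool.Agent.H42.RM.EAc
import Pool.Agent.H42.RM.EAd
import Pool.Agent.H42.PCM.E2

set_option autoImplicit false

namespace Pool.Agent.H42.RM

open Pool.Agent.H42.PC Polynomial

/-- the roots of `p - x q` are the preimages of `x` -/
theorem r_tree_root {K A : Type} [Field K] [Field A] [Algebra K A] {p q : K[X]}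
    {β : K} (hB : RB p q β) {t : ℕ} {x : A} (hx : (RA p q β A)^[t] x = algebraMap K A β) (z : A) :
    aeval z p - x * aeval z q = 0 ↔ RA p q β A z = x := by
  constructor
  · intro h
    by_cases hq : aeval z q = 0
    · exfalso
      rw [hq, mul_zero, sub_zero] at h
      obtain ⟨u, v, huv⟩ := hB.cop
      have h1 := congrArg (aeval z) huv
      rw [map_add, map_mul, map_mul, h, hq, mul_zero, mul_zero, add_zero, map_one] at h1
      exact zero_ne_one h1
    · rw [ra_ne hq, div_eq_iff hq]
      exact sub_eq_zero.1 h
  · intro h
    by_cases hq : aeval z q = 0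
    · exfalso
      rw [ra_zero hq] at h
      exact r_onl hB t (by rw [h]; exact hx)
    · rw [ra_ne hq, div_eq_iff hq] at h
      exact sub_eq_zero.2 h

theorem r_tree {K L : Type} [Field K] [CharZero K] [Field L] [Algebra K L] {p q : K[X]}
    {β : K} (hB : RB p q β) (hD : Disj p q β L) {N : ℕ}
    (hs : ∀ t ≤ N, ((RP p q β t).map (algebraMap K L)).Splits) :
    Tree (L ≃ₐ[K] L) (RA p q β L) (algebraMap K L β) p.natDegree N := by
  classical
  have hqd := hB.qdeg
  have key : ∀ t, t < N → ∀ x ∈ lev (RA p q β L) (algebraMap K L β) t,
      ∃ s : Finset L, {z | RA p q β L z = x} = ↑s ∧ s.card = p.natDegree := by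
    intro t ht x hx
    have hx' : (RA p q β L)^[t] x = algebraMap K L β := hx
    obtain ⟨h, hh⟩ : ∃ h : L[X], h = p.map (algebraMap K L) - C x * q.map (algebraMap K L) :=
      ⟨_, rfl⟩
    have hlt : (C x * q.map (algebraMap K L)).natDegree < (p.map (algebraMap K L)).natDegree := by
      refine lt_of_le_of_lt (natDegree_C_mul_le _ _) ?_
      rw [natDegree_map, natDegree_map]
      exact hqd
    have hdeg : h.natDegree = p.natDegree := by
      rw [hh, natDegree_sub_eq_left_of_natDegree_lt hlt, natDegree_map]
    have hh0 : h ≠ 0 := by
      intro h0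
      rw [h0, natDegree_zero] at hdeg
      have := hB.deg
      omega
    have hev : ∀ z : L, h.eval z = aeval z p - x * aeval z q := by
      intro z
      rw [hh, Polynomial.eval_sub, eval_mul, eval_C, eval_map_algebraMap, eval_map_algebraMap]
    have hroot : ∀ z, z ∈ h.roots ↔ RA p q β L z = x := by
      intro z
      rw [mem_roots hh0, IsRoot, hev]
      exact r_tree_root hB hx' z
    have hsp : h.Splits := by
      refine Splits.of_splits_map (algebraMap L (AlgebraicClosure L)) (IsAlgClosed.splits _) ?_
      intro z hz
      have hz1 : (h.map (algebraMap L (AlgebraicClosure L))).eval z = 0 :=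
        (mem_roots'.1 hz).2
      let ι : L →ₐ[K] AlgebraicClosure L := IsScalarTower.toAlgHom K L (AlgebraicClosure L)
      have hι : ∀ y : L, ι y = algebraMap L (AlgebraicClosure L) y := fun y => rfl
      have hx2 : (RA p q β (AlgebraicClosure L))^[t] (algebraMap L (AlgebraicClosure L) x) =
          algebraMap K (AlgebraicClosure L) β := by
        rw [← hι, ← ra_iter ι x t, hx', AlgHom.commutes]
      have hz2 : aeval z p - algebraMap L (AlgebraicClosure L) x * aeval z q = 0 := by
        rw [hh, Polynomial.map_sub, Polynomial.map_mul, map_C, map_map, map_map,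
          ← IsScalarTower.algebraMap_eq, Polynomial.eval_sub, eval_mul, eval_C,
          eval_map_algebraMap, eval_map_algebraMap] at hz1
        exact hz1
      have hz3 := (r_tree_root hB hx2 z).1 hz2
      have hz4 : (RA p q β (AlgebraicClosure L))^[t + 1] z = algebraMap K (AlgebraicClosure L) β := by
        rw [Function.iterate_succ_apply, hz3, hx2]
      have hz5 := (rp_root hB (t + 1) z).2 hz4
      have hne : (RP p q β (t + 1)).map (algebraMap K L) ≠ 0 := by
        rw [Ne, Polynomial.map_eq_zero]
        exact rp_ne hqd (t + 1)
      refine (hs (t + 1) ht).mem_range_of_isRoot hne ?_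
      rw [map_map, ← IsScalarTower.algebraMap_eq, IsRoot, eval_map_algebraMap]
      exact hz5
    have hnd : h.roots.Nodup := by
      rw [Multiset.nodup_iff_count_le_one]
      intro z
      rw [count_roots]
      by_contra hcon
      push Not at hcon
      rw [one_lt_rootMultiplicity_iff_isRoot hh0] at hcon
      obtain ⟨h1, h2⟩ := hcon
      have h3 : RA p q β L z = x := (hroot z).mp ((mem_roots hh0).mpr h1)
      have h1' : aeval z p - x * aeval z q = 0 := by
        rw [← hev]
        exact h1
      have h2' : aeval z (derivative p) - x * aeval z (derivative q) = 0 := by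
        have h2'' : (derivative h).eval z = 0 := h2
        rw [hh, derivative_sub, derivative_C_mul, derivative_map, derivative_map,
          Polynomial.eval_sub, eval_mul, eval_C, eval_map_algebraMap, eval_map_algebraMap] at h2''
        exact h2''
      have h4 : aeval z (wr p q) = 0 := by
        unfold wr
        rw [map_sub, map_mul, map_mul]
        have e1 : aeval z p = x * aeval z q := sub_eq_zero.1 h1'
        have e2 : aeval z (derivative p) = x * aeval z (derivative q) := sub_eq_zero.1 h2'
        rw [e1, e2]
        ring
      refine no_crit hB hD h4 (t := t + 1) (by omega) ?_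
      rw [Function.iterate_succ_apply, h3, hx']
    refine ⟨h.roots.toFinset, ?_, ?_⟩
    · ext z
      simp only [Set.mem_ofPred_eq, Finset.mem_coe, Multiset.mem_toFinset]
      exact (hroot z).symm
    · rw [Multiset.toFinset_card_of_nodup hnd, ← hsp.natDegree_eq_card_roots, hdeg]
  refine ⟨?_, ?_, ?_, ?_, ?_⟩
  · intro g x
    have := ra_smul (p := p) (q := q) (β := β) g x 1
    rw [Function.iterate_one] at this
    exact this.symm
  · intro g
    rw [AlgEquiv.smul_def, AlgEquiv.commutes]
  · intro t ht
    exact r_aper hB ht
  · intro t ht x hx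
    obtain ⟨s, hs1, -⟩ := key t ht x hx
    rw [hs1]
    exact s.finite_toSet
  · intro t ht x hx
    obtain ⟨s, hs1, hs2⟩ := key t ht x hx
    rw [hs1, Set.ncard_coe_finset, hs2]

end Pool.Agent.H42.RM
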