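/-
ROW EBb. PROOF of r_field: copy exists_field (PCM/E2.lean, section ETr) with `derivative f` replaced
by `wr p q` and `f.comp^[t] X - C β` by `RP p q β t`.
PROOF of r_stab: as exists_stab (PCM/E2.lean, section ESt), with `F = RA p q β A`,
`A = AlgebraicClosure K`, `R n = {x | F^[n] x = b}`. Changes: the roots of `RP p q β n` in `A` are the
elements of `R n` (rp_root, row EAc), `RP p q β n ≠ 0` (rp_ne, row EAa). hsurj: for `y ∈ R n` the
polynomial `p.map _ - C y * q.map _` has degree `p.natDegree ≥ 2` and a root `x`; `q x ≠ 0`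
(coprimality), so `F x = y` (ra_ne, row EAb). hwd (`minpoly x = minpoly x'` implies
`minpoly (F x) = minpoly (F x')`): there is `σ : A ≃ₐ[K] A` with `σ x = x'`
(Normal.minpoly_eq_iff_mem_orbit, as in EOr_conj of PCM/E2; `A` is normal over `K`), so
`σ (F x) = F x'` (ra_hom) and minpoly.algEquiv_eq.
-/
import Pool.Agent.H42.RM.EAc
import Pool.Agent.H42.PCM.E2

set_option autoImplicit false

namespace Pool.Agent.H42.RM

open Pool.Agent.H42.PC Polynomial NumberField

theorem r_field {K M : Type} [Field K] [NumberField K] [Field M] [NumberField M]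
    [Algebra K M] (p q : K[X]) (β : K) [IsSplittingField K M (wr p q)] (N : ℕ) :
    ∃ (L : Type) (_ : Field L) (_ : NumberField L) (_ : Algebra K L) (_ : Algebra M L)
      (_ : IsScalarTower K M L) (_ : IsGalois K L),
      ∀ t ≤ N, ((RP p q β t).map (algebraMap K L)).Splits := by
  classical
  obtain ⟨f', hf', hsf⟩ : ∃ f' : K[X], f' ≠ 0 ∧ IsSplittingField K M f' := by
    by_cases h0 : wr p q = 0
    · refine ⟨1, one_ne_zero, ?_⟩
      have hs : IsSplittingField K M (wr p q) := inferInstance
      have h1 := IsSplittingField.adjoin_rootSet M (wr p q)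
      refine ⟨?_, ?_⟩
      · rw [Polynomial.map_one]
        exact Splits.one
      · rw [h0, rootSet_zero] at h1
        rw [rootSet_one]
        exact h1
    · exact ⟨wr p q, h0, inferInstance⟩
  set g : K[X] := ∏ t ∈ (Finset.range (N + 1)).filter (fun t => RP p q β t ≠ 0),
    (RP p q β t) with hg
  have hg0 : g ≠ 0 := by
    rw [hg, Finset.prod_ne_zero_iff]
    intro t ht
    exact (Finset.mem_filter.mp ht).2
  let L : Type := (g.map (algebraMap K M)).SplittingField
  have : IsScalarTower K M L := inferInstance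
  have : IsSplittingField M L (g.map (algebraMap K M)) :=
    Polynomial.IsSplittingField.splittingField _
  have : IsSplittingField K L (f' * g) := IsSplittingField.mul (K := M) L f' g hf' hg0
  have : Normal K L := Normal.of_isSplittingField (f' * g)
  have : NumberField L := NumberField.of_module_finite M L
  have : IsGalois K L := IsGalois.mk
  refine ⟨L, inferInstance, inferInstance, inferInstance, inferInstance, inferInstance,
    inferInstance, ?_⟩
  intro t ht
  by_cases h0 : RP p q β t = 0
  · rw [h0, Polynomial.map_zero]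
    exact Splits.zero
  · have hdvd : (RP p q β t) ∣ g := by
      rw [hg]
      refine Finset.dvd_prod_of_mem _ ?_
      rw [Finset.mem_filter, Finset.mem_range]
      exact ⟨by omega, h0⟩
    have h1 : (g.map (algebraMap K L)).Splits := by
      have := IsSplittingField.splits L (g.map (algebraMap K M))
      rw [map_map, ← IsScalarTower.algebraMap_eq] at this
      exact this
    refine h1.of_dvd ?_ (Polynomial.map_dvd _ hdvd)
    rwa [Ne, Polynomial.map_eq_zero]

theorem EBb_surj {K : Type} [Field K] {p q : K[X]} {β : K} (hB : RB p q β)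
    (y : AlgebraicClosure K) :
    ∃ x : AlgebraicClosure K, RA p q β (AlgebraicClosure K) x = y := by
  have hlt : (C y * q.map (algebraMap K (AlgebraicClosure K))).natDegree <
      (p.map (algebraMap K (AlgebraicClosure K))).natDegree := by
    refine (natDegree_C_mul_le _ _).trans_lt ?_
    rw [natDegree_map, natDegree_map]
    exact hB.qdeg
  have hnd : (p.map (algebraMap K (AlgebraicClosure K)) -
      C y * q.map (algebraMap K (AlgebraicClosure K))).natDegree = p.natDegree := by
    rw [natDegree_sub_eq_left_of_natDegree_lt hlt, natDegree_map]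
  obtain ⟨x, hx⟩ := IsAlgClosed.exists_root (p.map (algebraMap K (AlgebraicClosure K)) -
      C y * q.map (algebraMap K (AlgebraicClosure K))) (by
    intro h0
    have h2 := natDegree_eq_zero_iff_degree_le_zero.2 h0.le
    have h3 := hB.deg
    omega)
  have h1 : aeval x p - y * aeval x q = 0 := by
    have h2 := hx
    rwa [IsRoot.def, Polynomial.eval_sub, eval_mul, eval_C, eval_map_algebraMap,
      eval_map_algebraMap] at h2
  have hq : aeval x q ≠ 0 := by
    intro h0
    rw [h0, mul_zero, sub_zero] at h1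
    obtain ⟨u, v, huv⟩ := hB.cop
    have h2 := congrArg (aeval x) huv
    rw [map_add, map_mul, map_mul, h0, h1, mul_zero, mul_zero, add_zero, map_one] at h2
    exact zero_ne_one h2
  refine ⟨x, ?_⟩
  rw [ra_ne hq, div_eq_iff hq]
  exact sub_eq_zero.1 h1

theorem r_stab {K : Type} [Field K] [CharZero K] {p q : K[X]} {β : K} (hB : RB p q β)
    (h : ESR p q β) : ∃ n0, StabR p q β n0 := by
  classical
  obtain ⟨B, hBd⟩ := h
  set A := AlgebraicClosure K with hA
  set F : A → A := RA p q β A with hF
  set b : A := algebraMap K A β with hb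
  set R : ℕ → Set A := fun n => {x | F^[n] x = b} with hR
  have hP : ∀ n, RP p q β n ≠ 0 := fun n => rp_ne hB.qdeg n
  have hroot : ∀ n (x : A), aeval x (RP p q β n) = 0 ↔ x ∈ R n := fun n x => rp_root hB n x
  have hRfin : ∀ n, (R n).Finite := by
    intro n
    refine ((RP p q β n).rootSet_finite A).subset ?_
    intro x hx
    rw [mem_rootSet]
    exact ⟨hP n, (hroot n x).2 hx⟩
  have hint : ∀ x : A, IsIntegral K x := fun x => Algebra.IsIntegral.isIntegral x
  have hS : ∀ n, {g : K[X] | g.Monic ∧ Irreducible g ∧ g ∣ RP p q β n} =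
      minpoly K '' R n := by
    intro n
    ext g
    constructor
    · rintro ⟨h1, h2, h3⟩
      obtain ⟨x, hx⟩ := IsAlgClosed.exists_aeval_eq_zero A g (by
        intro h0
        exact h2.not_isUnit (isUnit_iff_degree_eq_zero.2 h0))
      refine ⟨x, ?_, (minpoly.eq_of_irreducible_of_monic h2 hx h1).symm⟩
      have h4 : aeval x (RP p q β n) = 0 := by
        obtain ⟨w, hw⟩ := h3
        rw [hw, map_mul, hx, zero_mul]
      exact (hroot n x).1 h4
    · rintro ⟨x, hx, rfl⟩
      exact ⟨minpoly.monic (hint x), minpoly.irreducible (hint x), minpoly.dvd K x ((hroot n x).2 hx)⟩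
  have hFR : ∀ n x, x ∈ R (n + 1) → F x ∈ R n := by
    intro n x hx
    have hx' : F^[n + 1] x = b := hx
    rw [Function.iterate_succ_apply] at hx'
    exact hx'
  have hsurj : ∀ n y, y ∈ R n → ∃ x ∈ R (n + 1), F x = y := by
    intro n y hy
    obtain ⟨x, h3⟩ := EBb_surj hB y
    have h3' : F x = y := h3
    refine ⟨x, ?_, h3'⟩
    show F^[n + 1] x = b
    rw [Function.iterate_succ_apply, h3']
    exact hy
  have hwd : ∀ x x' : A, minpoly K x = minpoly K x' → minpoly K (F x) = minpoly K (F x') := by
    intro x x' hxx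
    obtain ⟨σ, hσ⟩ := (Normal.minpoly_eq_iff_mem_orbit (F := K) A).1 hxx.symm
    have h1 : σ x = x' := hσ
    have h2 : σ (F x) = F x' := by
      rw [← h1]
      exact ra_hom (σ : A →ₐ[K] A) x
    rw [← h2]
    exact (minpoly.algEquiv_eq σ (F x)).symm
  -- the map on factors
  set φ : ℕ → K[X] → K[X] := fun n g =>
    if h : ∃ x ∈ R (n + 1), minpoly K x = g then minpoly K (F h.choose) else 0 with hφ
  have hφx : ∀ n x, x ∈ R (n + 1) → φ n (minpoly K x) = minpoly K (F x) := by
    intro n x hx
    have hex : ∃ y ∈ R (n + 1), minpoly K y = minpoly K x := ⟨x, hx, rfl⟩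
    show (if h : ∃ y ∈ R (n + 1), minpoly K y = minpoly K x then minpoly K (F h.choose) else 0) = _
    rw [dif_pos hex]
    exact hwd _ _ hex.choose_spec.2
  have himg : ∀ n, φ n '' (minpoly K '' R (n + 1)) = minpoly K '' R n := by
    intro n
    ext g
    constructor
    · rintro ⟨_, ⟨x, hx, rfl⟩, rfl⟩
      exact ⟨F x, hFR n x hx, (hφx n x hx).symm⟩
    · rintro ⟨y, hy, rfl⟩
      obtain ⟨x, hx, hxy⟩ := hsurj n y hy
      refine ⟨minpoly K x, ⟨x, hx, rfl⟩, ?_⟩
      rw [hφx n x hx, hxy]
  set r : ℕ → ℕ := fun n => (minpoly K '' R n).ncard with hr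
  have hfin : ∀ n, (minpoly K '' R n).Finite := fun n => (hRfin n).image _
  have hrB : ∀ n, r n ≤ B := fun n => by
    have := hBd n
    rw [hS n] at this
    exact this
  have hstep : ∀ n, r n ≤ r (n + 1) := by
    intro n
    show (minpoly K '' R n).ncard ≤ _
    rw [← himg n]
    exact Set.ncard_image_le (hfin (n + 1))
  have hmono : Monotone r := monotone_nat_of_le_succ hstep
  obtain ⟨n0, hn0⟩ : ∃ n0, ∀ n, r n ≤ r n0 := by
    have hne : (Set.range r).Nonempty := Set.range_nonempty r
    have hbdd : BddAbove (Set.range r) := ⟨B, by rintro _ ⟨n, rfl⟩; exact hrB n⟩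
    obtain ⟨n0, h1⟩ := Nat.sSup_mem hne hbdd
    exact ⟨n0, fun n => h1 ▸ le_csSup hbdd ⟨n, rfl⟩⟩
  refine ⟨n0, fun n hn x x' hx hx' hm => ?_⟩
  have heq : r (n + 1) = r n :=
    le_antisymm ((hn0 _).trans (hmono hn)) (hstep n)
  have hinj : Set.InjOn (φ n) (minpoly K '' R (n + 1)) := by
    rw [← Set.ncard_image_iff (hfin (n + 1)), himg n]
    exact heq.symm
  refine hinj ⟨x, hx, rfl⟩ ⟨x', hx', rfl⟩ ?_
  rw [hφx n x hx, hφx n x' hx']
  exact hm

end Pool.Agent.H42.RM
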