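/-
ROW EBd. PROOFS: copy section EOr of PCM/E2.lean (EOr_root, EOr_sub, EOr_full, EOr_inv, orb_of_stab)
with `FA f L` replaced by `RA p q β L`, `OO f h n0 L` by `OR p q β h n0 L`, `itp_aeval` by rp_root
(row EAc: `aeval y (RP p q β n0) = 0 ↔ F^[n0] y = b`), `itp_natDegree` by rp_ne (row EAa), `FA_smul`,
`FA_iter`, `FA_hom` by ra_smul, ra_iter, ra_hom (row EAb); EOr_conj, EOr_min, EOr_roots of PCM/E2
can be used as they are.
-/
import Pool.Agent.H42.RM.EAc
import Pool.Agent.H42.PCM.E2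

set_option autoImplicit false

namespace Pool.Agent.H42.RM

open Pool.Agent.H42.PC Polynomial

theorem EBd_root {K L : Type} [Field K] [Field L] [Algebra K L] {p q h : K[X]} {β : K} {n0 : ℕ}
    (hB : RB p q β) (hdvd : h ∣ RP p q β n0) {y : L} (hy : aeval y h = 0) :
    (RA p q β L)^[n0] y = algebraMap K L β := by
  rw [← rp_root hB]
  obtain ⟨r, hr⟩ := hdvd
  rw [hr, map_mul, hy, zero_mul]

theorem r_sub {K L : Type} [Field K] [Field L] [Algebra K L] {p q h : K[X]} {β : K} {n0 : ℕ}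
    (hB : RB p q β) (hdvd : h ∣ RP p q β n0) (t : ℕ) :
    OR p q β h n0 L t ⊆ lev (RA p q β L) (algebraMap K L β) t := by
  rintro x ⟨y, hy, h1 | h1⟩
  · obtain ⟨h2, h3⟩ := h1
    show (RA p q β L)^[t] x = algebraMap K L β
    have : t = n0 + (t - n0) := by omega
    rw [this, Function.iterate_add_apply, h3]
    exact EBd_root hB hdvd hy
  · obtain ⟨h2, h3⟩ := h1
    show (RA p q β L)^[t] x = algebraMap K L β
    rw [← h3, ← Function.iterate_add_apply, show t + (n0 - t) = n0 by omega]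
    exact EBd_root hB hdvd hy

theorem EBd_full {K L : Type} [Field K] [Field L] [Algebra K L] {p q h : K[X]} {β : K} {n0 : ℕ}
    {t : ℕ} (h0 : n0 ≤ t) {x : L} (hx : RA p q β L x ∈ OR p q β h n0 L t) :
    x ∈ OR p q β h n0 L (t + 1) := by
  obtain ⟨y, hy, h1 | h1⟩ := hx
  · refine ⟨y, hy, Or.inl ⟨by omega, ?_⟩⟩
    rw [show t + 1 - n0 = (t - n0) + 1 by omega, Function.iterate_succ_apply]
    exact h1.2
  · omega

theorem EBd_inv {K L : Type} [Field K] [Field L] [Algebra K L] {p q h : K[X]} {β : K} {n0 : ℕ}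
    (t : ℕ) (g : L ≃ₐ[K] L) {x : L} (hx : x ∈ OR p q β h n0 L t) :
    g • x ∈ OR p q β h n0 L t := by
  obtain ⟨y, hy, h1⟩ := hx
  have hgy : aeval (g • y) h = 0 := by
    change aeval (g y) h = 0
    have h2 := Polynomial.aeval_algHom_apply (g : L →ₐ[K] L) y h
    change aeval (g y) h = g (aeval y h) at h2
    rw [h2, hy, map_zero]
  refine ⟨g • y, hgy, ?_⟩
  rcases h1 with h1 | h1
  · refine Or.inl ⟨h1.1, ?_⟩
    rw [← ra_smul, h1.2]
  · refine Or.inr ⟨h1.1, ?_⟩
    rw [← ra_smul, h1.2]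

theorem r_orb {K L : Type} [Field K] [CharZero K] [Field L] [Algebra K L] [IsGalois K L]
    {p q h : K[X]} {β : K} (hB : RB p q β) {n0 N : ℕ} (hN : n0 ≤ N)
    (hT : Tree (L ≃ₐ[K] L) (RA p q β L) (algebraMap K L β) p.natDegree N)
    (hs : ∀ t ≤ N, ((RP p q β t).map (algebraMap K L)).Splits)
    (hst : StabR p q β n0) (hm : h.Monic) (hi : Irreducible h) (hdvd : h ∣ RP p q β n0) :
    Orb (L ≃ₐ[K] L) (RA p q β L) (algebraMap K L β) n0 N (OR p q β h n0 L) := by
  have hpar : ∀ t < N, ∀ x ∈ OR p q β h n0 L (t + 1), RA p q β L x ∈ OR p q β h n0 L t := by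
    rintro t ht x ⟨y, hy, h1 | h1⟩
    · obtain ⟨h2, h3⟩ := h1
      rcases Nat.lt_or_ge t n0 with h4 | h4
      · have h5 : t + 1 = n0 := by omega
        have h6 : t + 1 - n0 = 0 := by omega
        rw [h6, Function.iterate_zero, id] at h3
        refine ⟨y, hy, Or.inr ⟨h4, ?_⟩⟩
        rw [show n0 - t = 1 by omega, Function.iterate_one, h3]
      · refine ⟨y, hy, Or.inl ⟨h4, ?_⟩⟩
        rw [← Function.iterate_succ_apply, show (t - n0).succ = t + 1 - n0 by omega]
        exact h3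
    · obtain ⟨h2, h3⟩ := h1
      refine ⟨y, hy, Or.inr ⟨by omega, ?_⟩⟩
      rw [← h3, ← Function.iterate_succ_apply' (RA p q β L),
        show (n0 - (t + 1)).succ = n0 - t by omega]
  have hroot : ∃ y : L, aeval y h = 0 := by
    have hdeg : RP p q β n0 ≠ 0 := rp_ne hB.qdeg n0
    have h1 : (h.map (algebraMap K L)).Splits := by
      refine (hs n0 hN).of_dvd ?_ (Polynomial.map_dvd _ hdvd)
      rw [Ne, Polynomial.map_eq_zero_iff (algebraMap K L).injective]
      exact hdeg
    obtain ⟨y, hy⟩ := h1.exists_eval_eq_zero (by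
      rw [degree_map]
      exact hi.degree_pos.ne')
    exact ⟨y, by rwa [eval_map_algebraMap] at hy⟩
  have hne : ∀ t ≤ N, (OR p q β h n0 L t).Nonempty := by
    intro t
    induction t with
    | zero =>
      intro _
      obtain ⟨y, hy⟩ := hroot
      rcases Nat.eq_zero_or_pos n0 with h0 | h0
      · exact ⟨y, y, hy, Or.inl ⟨by omega, by rw [h0]; rfl⟩⟩
      · exact ⟨(RA p q β L)^[n0 - 0] y, y, hy, Or.inr ⟨h0, rfl⟩⟩
    | succ t ih =>
      intro ht
      rcases Nat.lt_or_ge t n0 with h4 | h4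
      · obtain ⟨y, hy⟩ := hroot
        rcases Nat.lt_or_ge (t + 1) n0 with h5 | h5
        · exact ⟨(RA p q β L)^[n0 - (t + 1)] y, y, hy, Or.inr ⟨h5, rfl⟩⟩
        · exact ⟨y, y, hy, Or.inl ⟨h5, by rw [show t + 1 - n0 = 0 by omega]; rfl⟩⟩
      · obtain ⟨x, hx⟩ := ih (by omega)
        have h6 := hT.fib t (by omega) x (r_sub hB hdvd t hx)
        have h8 := hB.deg
        have h7 : {z | RA p q β L z = x}.ncard ≠ 0 := by omega
        obtain ⟨z, hz⟩ := Set.nonempty_of_ncard_ne_zero h7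
        exact ⟨z, EBd_full h4 (by rw [show RA p q β L z = x from hz]; exact hx)⟩
  have htrge : ∀ j, n0 + j ≤ N → ∀ x ∈ OR p q β h n0 L (n0 + j),
      ∀ x' ∈ OR p q β h n0 L (n0 + j), ∃ g : L ≃ₐ[K] L, g • x = x' := by
    intro j
    induction j with
    | zero =>
      rintro _ x ⟨y, hy, h1 | h1⟩ x' ⟨y', hy', h1' | h1'⟩
      · have e1 := h1.2
        have e2 := h1'.2
        rw [show n0 + 0 - n0 = 0 by omega, Function.iterate_zero, id] at e1 e2
        rw [e1, e2]
        exact EOr_roots hm hi hy hy'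
      · omega
      · omega
      · omega
    | succ j ih =>
      intro hj x hx x' hx'
      have hFx := hpar (n0 + j) (by omega) x hx
      have hFx' := hpar (n0 + j) (by omega) x' hx'
      obtain ⟨g, hg⟩ := ih (by omega) _ hFx _ hFx'
      have hmp : minpoly K (RA p q β L x) = minpoly K (RA p q β L x') := by
        rw [← hg, EOr_min]
      let ι : L →ₐ[K] AlgebraicClosure K := IsAlgClosed.lift
      have hlx : (RA p q β L)^[n0 + j + 1] x = algebraMap K L β := r_sub hB hdvd _ hx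
      have hlx' : (RA p q β L)^[n0 + j + 1] x' = algebraMap K L β := r_sub hB hdvd _ hx'
      have h1 := hst (n0 + j) (by omega) (ι x) (ι x')
        (by rw [← ra_iter, hlx, AlgHom.commutes]) (by rw [← ra_iter, hlx', AlgHom.commutes])
        (by rw [← ra_hom, ← ra_hom, minpoly.algHom_eq ι ι.injective,
              minpoly.algHom_eq ι ι.injective, hmp])
      rw [minpoly.algHom_eq ι ι.injective, minpoly.algHom_eq ι ι.injective] at h1
      exact EOr_conj h1
  refine ⟨fun t _ => r_sub hB hdvd t, hne, fun t _ g x hx => EBd_inv t g hx, ?_, hpar,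
    fun t h0 _ x hx => EBd_full h0 hx⟩
  intro t ht x hx x' hx'
  rcases Nat.lt_or_ge t n0 with h4 | h4
  · obtain ⟨y, hy, h1 | h1⟩ := hx
    · omega
    · obtain ⟨y', hy', h1' | h1'⟩ := hx'
      · omega
      · obtain ⟨g, hg⟩ := EOr_roots hm hi hy hy'
        exact ⟨g, by rw [← h1.2, ← h1'.2, ra_smul, hg]⟩
  · have := htrge (t - n0) (by omega)
    rw [show n0 + (t - n0) = t by omega] at this
    exact this x hx x' hx'

end Pool.Agent.H42.RM
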