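/-
ROW QAa. Difference estimates for `F = p / q` on the regular integral points
`RIQ = {x | V x ≤ 1, V (q x) = 1}`. PROOFS.
* fr_ne, fr_zero: unfold fr.
* q_near: `V y ≤ 1` (int_of_near, PCM/D1) and `V (q y - q x) ≤ V (y - x) < 1` (eval_sub_le, PCM/D1),
  so `V (q y) = V (q x) = 1` (Valuation.map_add_eq_of_lt_left).
* fr_diff: field algebra with fr_ne.
* fr_sub_le, fr_sub_eq: let `h = C (q.eval x) * p - C (p.eval x) * q`, a polynomial with integral
  coefficients, `h.eval x = 0`, `h.derivative.eval x = (wr p q).eval x`,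
  `h.eval y = q x * p y - p x * q y`. By fr_diff, `V (F y - F x) = V (h y - h x)` as
  `V (q x) = V (q y) = 1`. eval_sub_le gives `≤ V (y - x)`; eval_sub (PCM/D1) gives
  `h y - h x = (y - x) * (wr x + (y - x) ρ)` with `V ρ ≤ 1`, so `= V (y - x)` when `V (wr x) = 1`.
* frg_iter: induction on `k` (iterate_succ_apply'): for `z ∈ RI`, `FRg (ball z) = ball (F z)` because
  `V (F y - F z) ≤ V (y - z) < 1` for `y` near `z`.
-/
import Pool.Agent.H42.RM.Defs

set_option autoImplicit false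

namespace Pool.Agent.H42.RM

open Pool.Agent.H42.PC Polynomial WithZero

theorem QAa_mem {G L : Type} [Group G] [Field L] [MulSemiringAction G L] (Λ : Loc G L)
    (w z : L) : w ∈ ball Λ z ↔ Λ.V (w - z) < 1 := Iff.rfl

theorem fr_ne {L : Type} [Field L] {p q : L[X]} {o x : L} (h : q.eval x ≠ 0) :
    fr p q o x = p.eval x / q.eval x := by
  unfold fr
  rw [if_neg h]

theorem fr_zero {L : Type} [Field L] {p q : L[X]} {o x : L} (h : q.eval x = 0) :
    fr p q o x = o := by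
  unfold fr
  rw [if_pos h]

variable {G L : Type} [Group G] [Field L] [MulSemiringAction G L] {Λ : Loc G L} {p q : L[X]}
  {o b : L} {W : Finset L} {mu : L → ℕ} {J : ℕ}

theorem q_near (hQ : QGood Λ p q o b W mu J) {x y : L} (hx : x ∈ RIQ Λ q)
    (h : Λ.V (y - x) < 1) : y ∈ RIQ Λ q := by
  have hy : Λ.V y ≤ 1 := int_of_near hx.1 h
  have h1 : Λ.V (q.eval y - q.eval x) < 1 := lt_of_le_of_lt (eval_sub_le hQ.qint hy hx.1) h
  refine ⟨hy, ?_⟩
  have h2 : q.eval y = q.eval x + (q.eval y - q.eval x) := by ring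
  have hx2 : Λ.V (q.eval x) = 1 := hx.2
  rw [h2, Valuation.map_add_eq_of_lt_left, hx2]
  rw [hx2]
  exact h1

theorem fr_diff {x y : L} (hx : q.eval x ≠ 0) (hy : q.eval y ≠ 0) :
    fr p q o y - fr p q o x =
      (q.eval x * p.eval y - p.eval x * q.eval y) / (q.eval x * q.eval y) := by
  rw [fr_ne hx, fr_ne hy]
  field_simp

theorem QAa_int (hQ : QGood Λ p q o b W mu J) {x : L} (hx : x ∈ RIQ Λ q) (i : ℕ) :
    Λ.V ((C (q.eval x) * p - C (p.eval x) * q).coeff i) ≤ 1 := by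
  rw [coeff_sub, coeff_C_mul, coeff_C_mul]
  refine Valuation.map_sub_le _ ?_ ?_
  · rw [map_mul]
    exact mul_le_one' (eval_int hQ.qint hx.1) (hQ.pint i)
  · rw [map_mul]
    exact mul_le_one' (eval_int hQ.pint hx.1) (hQ.qint i)

theorem QAa_der (x : L) : (C (q.eval x) * p - C (p.eval x) * q).derivative.eval x =
    (wr p q).eval x := by
  unfold wr
  simp only [derivative_sub, derivative_C_mul, Polynomial.eval_sub, eval_mul, eval_C]
  ring

theorem QAa_val {x y : L} (hx : x ∈ RIQ Λ q)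
    (hy : y ∈ RIQ Λ q) : Λ.V (fr p q o y - fr p q o x) =
      Λ.V ((C (q.eval x) * p - C (p.eval x) * q).eval y -
        (C (q.eval x) * p - C (p.eval x) * q).eval x) := by
  have hx2 : Λ.V (q.eval x) = 1 := hx.2
  have hy2 : Λ.V (q.eval y) = 1 := hy.2
  have hx0 : q.eval x ≠ 0 := fun h => by
    rw [h, map_zero] at hx2
    exact zero_ne_one hx2
  have hy0 : q.eval y ≠ 0 := fun h => by
    rw [h, map_zero] at hy2
    exact zero_ne_one hy2
  rw [fr_diff hx0 hy0, map_div₀, map_mul Λ.V (q.eval x) (q.eval y), hx2, hy2, mul_one, div_one]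
  congr 1
  simp only [Polynomial.eval_sub, eval_mul, eval_C]
  ring

theorem fr_sub_le (hQ : QGood Λ p q o b W mu J) {x y : L} (hx : x ∈ RIQ Λ q)
    (h : Λ.V (y - x) < 1) : Λ.V (fr p q o y - fr p q o x) ≤ Λ.V (y - x) := by
  have hyR := q_near hQ hx h
  have h2 := QAa_val (p := p) (o := o) hx hyR
  have h3 := eval_sub_le (QAa_int hQ hx) hyR.1 hx.1
  rw [h2]
  exact h3

theorem fr_sub_eq (hQ : QGood Λ p q o b W mu J) {x y : L} (hx : x ∈ RIQ Λ q)
    (h : Λ.V (y - x) < 1) (hw : Λ.V ((wr p q).eval x) = 1) :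
    Λ.V (fr p q o y - fr p q o x) = Λ.V (y - x) := by
  have hyR := q_near hQ hx h
  have h2 := QAa_val (p := p) (o := o) hx hyR
  obtain ⟨ρ, hρ, h3⟩ := eval_sub (QAa_int hQ hx) hyR.1 hx.1
  rw [h2, h3, map_mul, QAa_der]
  have h4 : Λ.V ((y - x) * ρ) < 1 := by
    rw [map_mul]
    calc Λ.V (y - x) * Λ.V ρ ≤ Λ.V (y - x) * 1 := mul_le_mul_right hρ _
      _ = Λ.V (y - x) := mul_one _
      _ < 1 := h
  rw [Valuation.map_add_eq_of_lt_left, hw, mul_one]
  rw [hw]
  exact h4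

theorem frg_iter {F : L → L} {RI : Set L}
    (hsub : ∀ x ∈ RI, ∀ y, Λ.V (y - x) < 1 → Λ.V (F y - F x) ≤ Λ.V (y - x)) {x : L} {k : ℕ}
    (hx : ∀ i < k, F^[i] x ∈ RI) : (FRg Λ F)^[k] (ball Λ x) = ball Λ (F^[k] x) := by
  induction k with
  | zero => rfl
  | succ k ih =>
    rw [Function.iterate_succ_apply', Function.iterate_succ_apply',
      ih fun i hi => hx i (by omega)]
    have hz : F^[k] x ∈ RI := hx k (by omega)
    ext w
    constructor
    · rintro ⟨y, hy, hw⟩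
      have hy' : Λ.V (y - F^[k] x) < 1 := (QAa_mem Λ y _).1 hy
      refine (QAa_mem Λ w _).2 ?_
      rw [show w - F (F^[k] x) = (w - F y) + (F y - F (F^[k] x)) by ring]
      exact Λ.V.map_add_lt hw (lt_of_le_of_lt (hsub _ hz y hy') hy')
    · intro hw
      refine ⟨F^[k] x, (QAa_mem Λ _ _).2 ?_, (QAa_mem Λ w _).1 hw⟩
      rw [sub_self, map_zero]
      exact zero_lt_one

end Pool.Agent.H42.RM
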