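/-
ROW QAb. Escape to infinity and regularity of the tree and of the orbit. Write `F = fr p q o`,
`d = p.natDegree`. PROOFS.
* big_p: `p x = lc x^d + ∑_{i<d} coeff i x^i`, the last terms have value `≤ V x^(d-1) < V x^d`
  (compare root_int in PCM/D1). big_q: `V (q x) ≤ V x^(natDegree q) ≤ V x^(d-1)`.
* esc_big: `V (F x) = V (p x)/V (q x) ≥ V x^d / V x^(d-1) = V x > 1`.
* esc_pole: from `u p + v q = 1` (bez): `V (v q (x)) < 1` so `V (u x * p x) = 1`, and both factors have
  value `≤ 1` (eval_int), so `V (p x) = 1`, `V (F x) = 1 / V (q x) > 1`.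
* reg_of: (for a point with `V (F x) ≤ 1` and `q x ≠ 0`): `V x ≤ 1` by esc_big, `V (q x) ≤ 1`
  (eval_int) and not `< 1` by esc_pole.
* orb_reg: first, for `i ≤ n`: `V (F^[j] b) > 1` implies `V (F^[j'] b) > 1` for all `j' ≥ j`
  (esc_big, breg). As `V (F^[n] b) ≤ 1` (`F^[n] b` is near `b`, bint), `V (F^[i] b) ≤ 1` for all
  `i ≤ n`. For `i < n`, `V (F (F^[i] b)) ≤ 1`, so reg_of gives `F^[i] b ∈ RIQ`. Next, by
  strong induction `F^[i] b ∈ RIQ` and `V (F^[n+i] b - F^[i] b) < 1` for all `i`: for `i < n` the first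
  is known, for `i ≥ n`, `F^[i] b = F^[n + (i-n)] b` is near `F^[i-n] b ∈ RIQ` (q_near of row QAa); the
  second by fr_sub_le (row QAa).
* lev_reg: induction on `t`; `t = 0`: `x = b ∈ RIQ` (hypothesis). `t + 1`: `F x ∈ lev t`, so
  `V (F x) ≤ 1`. `q x ≠ 0`: otherwise `F x = o` and `F^[t] o = b`, contradicting onl. reg_of.
-/
import Pool.Agent.H42.RM.QAa

set_option autoImplicit false

namespace Pool.Agent.H42.RM

open Pool.Agent.H42.PC Polynomial WithZero

variable {G L : Type} [Group G] [Field L] [MulSemiringAction G L] {Λ : Loc G L} {p q : L[X]}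
  {o b : L} {W : Finset L} {mu : L → ℕ} {J : ℕ}

theorem big_p {V : Valuation L ℤᵐ⁰} (hp : ∀ i, V (p.coeff i) ≤ 1) (hl : V p.leadingCoeff = 1)
    {x : L} (hx : 1 < V x) : V (p.eval x) = V x ^ p.natDegree := by
  have h0 : V x ≠ 0 := (zero_lt_one.trans hx).ne'
  rw [eval_eq_sum_range, Finset.sum_range_succ]
  have h1 : V (p.coeff p.natDegree * x ^ p.natDegree) = V x ^ p.natDegree := by
    rw [map_mul, map_pow]
    have : V (p.coeff p.natDegree) = 1 := hl
    rw [this, one_mul]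
  rw [← h1]
  refine Valuation.map_add_eq_of_lt_right (v := V) ?_
  rw [h1]
  refine Valuation.map_sum_lt _ (pow_ne_zero _ h0) fun i hi => ?_
  have hi' : i < p.natDegree := Finset.mem_range.mp hi
  rw [map_mul, map_pow]
  calc V (p.coeff i) * V x ^ i ≤ 1 * V x ^ i := mul_le_mul_left (hp i) _
    _ = V x ^ i := one_mul _
    _ < V x ^ p.natDegree := pow_lt_pow_right₀ hx hi'

theorem big_q {V : Valuation L ℤᵐ⁰} (hq : ∀ i, V (q.coeff i) ≤ 1) {x : L} (hx : 1 < V x) :
    V (q.eval x) ≤ V x ^ q.natDegree := by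
  rw [eval_eq_sum_range]
  refine Valuation.map_sum_le _ fun i hi => ?_
  have hi' : i ≤ q.natDegree := by
    have := Finset.mem_range.mp hi
    omega
  rw [map_mul, map_pow]
  calc V (q.coeff i) * V x ^ i ≤ 1 * V x ^ i := mul_le_mul_left (hq i) _
    _ = V x ^ i := one_mul _
    _ ≤ V x ^ q.natDegree := pow_le_pow_right₀ hx.le hi'

theorem esc_big (hQ : QGood Λ p q o b W mu J) {x : L} (hx : 1 < Λ.V x) (h0 : q.eval x ≠ 0) :
    1 < Λ.V (fr p q o x) := by
  have h1 : 0 < Λ.V (q.eval x) := zero_lt_iff.2 ((Valuation.ne_zero_iff _).2 h0)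
  rw [fr_ne h0, map_div₀, lt_div_iff₀ h1, one_mul, big_p hQ.pint hQ.plead hx]
  exact (big_q hQ.qint hx).trans_lt (pow_lt_pow_right₀ hx hQ.qdeg)

theorem esc_pole (hQ : QGood Λ p q o b W mu J) {x : L} (hx : Λ.V x ≤ 1) (h0 : q.eval x ≠ 0)
    (h : Λ.V (q.eval x) < 1) : 1 < Λ.V (fr p q o x) := by
  have h1 : 0 < Λ.V (q.eval x) := zero_lt_iff.2 ((Valuation.ne_zero_iff _).2 h0)
  obtain ⟨u, v, hu, hv, huv⟩ := hQ.bez
  have e : u.eval x * p.eval x + v.eval x * q.eval x = 1 := by
    have := congrArg (fun r => eval x r) huv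
    simpa using this
  have h2 : Λ.V (v.eval x * q.eval x) < 1 := by
    rw [map_mul]
    calc Λ.V (v.eval x) * Λ.V (q.eval x) ≤ 1 * Λ.V (q.eval x) :=
          mul_le_mul_left (eval_int hv hx) _
      _ = Λ.V (q.eval x) := one_mul _
      _ < 1 := h
  have h3 : Λ.V (u.eval x * p.eval x) = 1 := by
    have e2 : u.eval x * p.eval x = 1 - v.eval x * q.eval x := by rw [← e]; ring
    rw [e2, Valuation.map_sub_eq_of_lt_left (v := Λ.V) (by rw [map_one]; exact h2), map_one]
  have hpx : Λ.V (p.eval x) = 1 := by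
    refine le_antisymm (eval_int hQ.pint hx) (not_lt.1 fun hlt => ?_)
    rw [map_mul] at h3
    have : Λ.V (u.eval x) * Λ.V (p.eval x) < 1 := by
      calc Λ.V (u.eval x) * Λ.V (p.eval x) ≤ 1 * Λ.V (p.eval x) :=
            mul_le_mul_left (eval_int hu hx) _
        _ = Λ.V (p.eval x) := one_mul _
        _ < 1 := hlt
    rw [h3] at this
    exact lt_irrefl _ this
  rw [fr_ne h0, map_div₀, lt_div_iff₀ h1, one_mul, hpx]
  exact h

theorem reg_of (hQ : QGood Λ p q o b W mu J) {x : L} (h0 : q.eval x ≠ 0)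
    (h : Λ.V (fr p q o x) ≤ 1) : x ∈ RIQ Λ q := by
  have hx : Λ.V x ≤ 1 := by
    by_contra hc
    exact absurd h (not_le.2 (esc_big hQ (not_le.1 hc) h0))
  refine ⟨hx, le_antisymm (eval_int hQ.qint hx) (not_lt.1 fun hlt => ?_)⟩
  exact absurd h (not_le.2 (esc_pole hQ hx h0 hlt))

theorem orb_reg (hQ : QGood Λ p q o b W mu J) {n : ℕ} (hn : 1 ≤ n)
    (hb : Λ.V ((fr p q o)^[n] b - b) < 1) (i : ℕ) : (fr p q o)^[i] b ∈ RIQ Λ q := by
  have hup : ∀ j t : ℕ, 1 < Λ.V ((fr p q o)^[j] b) → 1 < Λ.V ((fr p q o)^[j + t] b) := by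
    intro j t hj
    induction t with
    | zero => exact hj
    | succ t ih =>
      rw [← Nat.add_assoc, Function.iterate_succ_apply']
      exact esc_big hQ ih (hQ.breg _)
  have hle : ∀ j ≤ n, Λ.V ((fr p q o)^[j] b) ≤ 1 := by
    intro j hj
    by_contra hc
    obtain ⟨t, rfl⟩ := Nat.exists_eq_add_of_le hj
    have h1 := hup j t (not_le.1 hc)
    exact absurd (int_of_near hQ.bint hb) (not_le.2 h1)
  have hlt : ∀ j < n, (fr p q o)^[j] b ∈ RIQ Λ q := by
    intro j hj
    refine reg_of hQ (hQ.breg j) ?_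
    rw [← Function.iterate_succ_apply' (fr p q o) j b]
    exact hle (j + 1) hj
  have main : ∀ i : ℕ, ∀ j ≤ i, (fr p q o)^[j] b ∈ RIQ Λ q ∧
      Λ.V ((fr p q o)^[n + j] b - (fr p q o)^[j] b) < 1 := by
    intro i
    induction i with
    | zero =>
      intro j hj
      have : j = 0 := by omega
      subst this
      exact ⟨hlt 0 (by omega), hb⟩
    | succ i ih =>
      intro j hj
      rcases Nat.lt_or_ge j (i + 1) with h | h
      · exact ih j (by omega)
      have hji : j = i + 1 := by omega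
      subst hji
      constructor
      · rcases Nat.lt_or_ge (i + 1) n with h1 | h1
        · exact hlt _ h1
        · obtain ⟨t, ht⟩ := Nat.exists_eq_add_of_le h1
          obtain ⟨m1, m2⟩ := ih t (by omega)
          rw [ht]
          exact q_near hQ m1 m2
      · obtain ⟨m1, m2⟩ := ih i le_rfl
        rw [← Nat.add_assoc, Function.iterate_succ_apply', Function.iterate_succ_apply']
        exact (fr_sub_le hQ m1 m2).trans_lt m2
  exact (main i i le_rfl).1

theorem lev_reg (hQ : QGood Λ p q o b W mu J) (hb : b ∈ RIQ Λ q) {t : ℕ} {x : L}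
    (hx : x ∈ lev (fr p q o) b t) : x ∈ RIQ Λ q := by
  induction t generalizing x with
  | zero =>
    have : x = b := hx
    rw [this]
    exact hb
  | succ t ih =>
    have h1 : (fr p q o)^[t] (fr p q o x) = b := by
      have h2 : (fr p q o)^[t + 1] x = b := hx
      rwa [Function.iterate_succ_apply] at h2
    have h2 : fr p q o x ∈ RIQ Λ q := ih h1
    refine reg_of hQ ?_ h2.1
    intro h0
    rw [fr_zero h0] at h1
    exact hQ.onl t h1

end Pool.Agent.H42.RM
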