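/-
ROW QAc. Tree points near critical points. PROOFS.
* wr_int: the coefficients of `wr p q` are integral (der_coef_int in PCM/D1, products: lift to
  `V.integer` with lift_int, or `Polynomial.coeff_mul` and the ultrametric inequality).
* near_root: as near_crit in PCM/D1: `wr p q` splits with leading coefficient of value 1; if all
  `V (x - c) ≥ 1` for the roots `c` then `V ((wr p q).eval x) ≥ 1` (Splits.eval_eq_prod_roots).
* near_mem: suppose `c ∉ W`. For `i ≤ t`, `F^[i] x ∈ lev (t - i)` is in RIQ (lev_reg of row QAb), and by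
  induction `V (F^[i] c - F^[i] x) ≤ V (c - x) < 1` (fr_sub_le), so `F^[i] c ∈ RIQ` (q_near) and
  `q (F^[i] c) ≠ 0` (value 1). For `i = t`: `V (F^[t] c - b) < 1`. This contradicts G3.
* q_ncr: `V ((wr p q).eval x) ≤ 1` (eval_int); if `< 1`, near_root and near_mem give `NW x`,
  contradiction; so it is `1` and fr_sub_eq applies.
-/
import Pool.Agent.H42.RM.QAb

set_option autoImplicit false

namespace Pool.Agent.H42.RM

open Pool.Agent.H42.PC Polynomial WithZero

variable {G L : Type} [Group G] [Field L] [MulSemiringAction G L] {Λ : Loc G L} {p q : L[X]}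
  {o b : L} {W : Finset L} {mu : L → ℕ} {J : ℕ}

theorem wr_int (hQ : QGood Λ p q o b W mu J) (i : ℕ) : Λ.V ((wr p q).coeff i) ≤ 1 := by
  obtain ⟨P, hP⟩ := lift_int hQ.pint
  obtain ⟨Q, hQ'⟩ := lift_int hQ.qint
  have e : wr p q = (derivative P * Q - P * derivative Q).map Λ.V.integer.subtype := by
    unfold wr
    rw [← hP, ← hQ', derivative_map, derivative_map, Polynomial.map_sub, Polynomial.map_mul,
      Polynomial.map_mul]
  rw [e, coeff_map]
  exact ((derivative P * Q - P * derivative Q).coeff i).2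

theorem near_root (hQ : QGood Λ p q o b W mu J) {x : L} (h : Λ.V ((wr p q).eval x) < 1) :
    ∃ c, (wr p q).eval c = 0 ∧ Λ.V (x - c) < 1 := by
  by_contra hcon
  push Not at hcon
  rw [hQ.wspl.eval_eq_prod_roots, map_mul, hQ.wlead, one_mul, map_multiset_prod] at h
  refine absurd h (not_lt.mpr ?_)
  refine Multiset.one_le_prod_of_one_le ?_
  intro y hy
  rw [Multiset.mem_map] at hy
  obtain ⟨z, hz, rfl⟩ := hy
  rw [Multiset.mem_map] at hz
  obtain ⟨c, hc, rfl⟩ := hz
  exact hcon c (isRoot_of_mem_roots hc)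

theorem near_mem (hQ : QGood Λ p q o b W mu J) (hb : b ∈ RIQ Λ q) {t : ℕ} {x : L}
    (hx : x ∈ lev (fr p q o) b t) {c : L} (hc : (wr p q).eval c = 0) (h : Λ.V (x - c) < 1) :
    c ∈ W := by
  by_contra hcW
  have hxt : (fr p q o)^[t] x = b := hx
  have h' : Λ.V (c - x) < 1 := by
    rw [Valuation.map_sub_swap]
    exact h
  have hreg : ∀ i ≤ t, (fr p q o)^[i] x ∈ RIQ Λ q := by
    intro i hi
    refine lev_reg hQ hb (t := t - i) ?_
    show (fr p q o)^[t - i] ((fr p q o)^[i] x) = b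
    rw [← Function.iterate_add_apply, Nat.sub_add_cancel hi]
    exact hxt
  have key : ∀ i ≤ t, (fr p q o)^[i] c ∈ RIQ Λ q ∧
      Λ.V ((fr p q o)^[i] c - (fr p q o)^[i] x) ≤ Λ.V (c - x) := by
    intro i
    induction i with
    | zero =>
      intro hi
      exact ⟨q_near hQ (hreg 0 hi) h', le_rfl⟩
    | succ i ih =>
      intro hi
      obtain ⟨h1, h2⟩ := ih (by omega)
      have h3 : Λ.V ((fr p q o)^[i] c - (fr p q o)^[i] x) < 1 := lt_of_le_of_lt h2 h'
      have h4 := fr_sub_le hQ (hreg i (by omega)) h3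
      have h5 : Λ.V ((fr p q o)^[i + 1] c - (fr p q o)^[i + 1] x) ≤ Λ.V (c - x) := by
        rw [Function.iterate_succ_apply', Function.iterate_succ_apply']
        exact h4.trans h2
      exact ⟨q_near hQ (hreg (i + 1) hi) (lt_of_le_of_lt h5 h'), h5⟩
  have hne : ∀ i ≤ t, q.eval ((fr p q o)^[i] c) ≠ 0 := by
    intro i hi h0
    have h1 := (key i hi).1.2
    rw [h0, map_zero] at h1
    exact zero_ne_one h1
  refine hQ.G3 c hc hcW t hne ?_
  have h6 := (key t le_rfl).2
  rw [hxt] at h6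
  exact lt_of_le_of_lt h6 h'

theorem q_ncr (hQ : QGood Λ p q o b W mu J) (hb : b ∈ RIQ Λ q) {t : ℕ} {x : L}
    (hx : x ∈ lev (fr p q o) b t) (hx2 : ¬ NW Λ W x) {y : L} (h : Λ.V (y - x) < 1) :
    Λ.V (fr p q o y - fr p q o x) = Λ.V (y - x) := by
  have hxR : x ∈ RIQ Λ q := lev_reg hQ hb hx
  have h1 : Λ.V ((wr p q).eval x) ≤ 1 := eval_int (wr_int hQ) hxR.1
  refine fr_sub_eq hQ hxR h (le_antisymm h1 (not_lt.1 fun h2 => ?_))
  obtain ⟨c, hc, hxc⟩ := near_root hQ h2
  exact hx2 ⟨c, near_mem hQ hb hx hc hxc, hxc⟩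

end Pool.Agent.H42.RM
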