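/-
ROW QAd. The local form at a critical point. PROOFS.
* quot_int: let `A, B` be polynomials over `V.integer` with `A.map = (X - C c)^m` monic (A =
  (X - C c0)^m) and `B.map = h` (lift_int of PCM/D1). `B = A * (B /ₘ A) + B %ₘ A`; mapping to `L` and
  uniqueness of division by the monic `(X - C c)^m` (Polynomial.div_modByMonic_unique) give
  `g = (B /ₘ A).map _`, so `g` has integral coefficients. (Any other proof is fine.)
* q_form: let `g` be as in Wg; `h = C (q.eval c) * p - C (p.eval c) * q` is integral, so `g` is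
  integral (quot_int). Put `G x = g.eval x / (q.eval x * q.eval c)`. For `x` near `c`:
  `c ∈ RIQ` (Wreg with `i = 0`), `x ∈ RIQ` (q_near), `V (g x) = V (g c) = 1` (eval_sub_le) and by
  fr_diff (row QAa) `F x - F c = h.eval x / (q c * q x) = (x - c)^m * G x`.
  `G x - G x' = ((g x - g x') * q x' + g x' * (q x' - q x)) / (q x * q x' * q c)`, value
  `≤ V (x - x')` by eval_sub_le.
-/
import Pool.Agent.H42.RM.QAa

set_option autoImplicit false

namespace Pool.Agent.H42.RM

open Pool.Agent.H42.PC Polynomial WithZero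

theorem quot_int {L : Type} [Field L] {V : Valuation L ℤᵐ⁰} {c : L} (hc : V c ≤ 1) {m : ℕ}
    {h g : L[X]} (hh : ∀ i, V (h.coeff i) ≤ 1) (he : h = (X - C c) ^ m * g) (i : ℕ) :
    V (g.coeff i) ≤ 1 := by
  induction m generalizing h with
  | zero =>
    rw [pow_zero, one_mul] at he
    rw [← he]
    exact hh i
  | succ m ih =>
    obtain ⟨B, hB⟩ := lift_int hh
    let c0 : V.integer := ⟨c, hc⟩
    have hroot : B.eval c0 = 0 := by
      apply Subtype.ext
      have h1 := ev_lift B c0
      rw [hB] at h1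
      have h2 : h.eval c = 0 := by
        rw [he]
        simp
      rw [← h1]
      exact h2
    obtain ⟨B1, hB1⟩ : (X - C c0) ∣ B := by
      rw [dvd_iff_isRoot]
      exact hroot
    have e1 : h = (X - C c) * B1.map V.integer.subtype := by
      rw [← hB, hB1, Polynomial.map_mul, Polynomial.map_sub, map_X, map_C]
      rfl
    have e2 : B1.map V.integer.subtype = (X - C c) ^ m * g := by
      refine mul_left_cancel₀ (X_sub_C_ne_zero c) ?_
      rw [← e1, he]
      ring
    refine ih (h := B1.map V.integer.subtype) (fun j => ?_) e2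
    rw [coeff_map]
    exact (B1.coeff j).2

variable {G L : Type} [Group G] [Field L] [MulSemiringAction G L] {Λ : Loc G L} {p q : L[X]}
  {o b : L} {W : Finset L} {mu : L → ℕ} {J : ℕ}

theorem q_form (hQ : QGood Λ p q o b W mu J) {c : L} (hc : c ∈ W) : ∃ g : L → L,
    (∀ x, Λ.V (x - c) < 1 →
      fr p q o x - fr p q o c = (x - c) ^ mu c * g x ∧ Λ.V (g x) = 1) ∧
    ∀ x x', Λ.V (x - c) < 1 → Λ.V (x' - c) < 1 → Λ.V (g x - g x') ≤ Λ.V (x - x') := by
  obtain ⟨g, hg, hgc⟩ := hQ.Wg c hc
  obtain ⟨hci, hqc⟩ := hQ.Wreg c hc 0 (Nat.zero_le _)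
  rw [Function.iterate_zero, id_eq] at hci hqc
  have hcR : c ∈ RIQ Λ q := ⟨hci, hqc⟩
  have hpc : Λ.V (p.eval c) ≤ 1 := eval_int hQ.pint hci
  have hint : ∀ i, Λ.V ((C (q.eval c) * p - C (p.eval c) * q).coeff i) ≤ 1 := by
    intro i
    rw [coeff_sub, coeff_C_mul, coeff_C_mul]
    refine Valuation.map_sub_le _ ?_ ?_
    · rw [map_mul]
      exact mul_le_one' hqc.le (hQ.pint i)
    · rw [map_mul]
      exact mul_le_one' hpc (hQ.qint i)
  have hgi : ∀ i, Λ.V (g.coeff i) ≤ 1 := fun i => quot_int hci hint hg i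
  have hne : ∀ x, Λ.V (q.eval x) = 1 → q.eval x ≠ 0 := by
    intro x hx h0
    rw [h0, map_zero] at hx
    exact zero_ne_one hx
  have hgx : ∀ x, Λ.V (x - c) < 1 → Λ.V (g.eval x) = 1 := by
    intro x hx
    have hxR := q_near hQ hcR hx
    have h1 : Λ.V (g.eval x - g.eval c) < Λ.V (g.eval c) := by
      rw [hgc]
      exact (eval_sub_le hgi hxR.1 hci).trans_lt hx
    have h2 := Valuation.map_add_eq_of_lt_left Λ.V h1
    rw [add_sub_cancel] at h2
    rw [h2, hgc]
  refine ⟨fun x => g.eval x / (q.eval x * q.eval c), ?_, ?_⟩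
  · intro x hx
    have hxR := q_near hQ hcR hx
    have hqx := hne x hxR.2
    have hqc0 := hne c hqc
    refine ⟨?_, ?_⟩
    · rw [fr_diff hqc0 hqx]
      have h1 : q.eval c * p.eval x - p.eval c * q.eval x = (x - c) ^ mu c * g.eval x := by
        have h := congrArg (Polynomial.eval x) hg
        simpa using h
      rw [h1]
      field_simp
    · show Λ.V (g.eval x / (q.eval x * q.eval c)) = 1
      rw [map_div₀, map_mul, hgx x hx, hxR.2, hqc]
      simp
  · intro x x' hx hx'
    have hxR := q_near hQ hcR hx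
    have hxR' := q_near hQ hcR hx'
    have hqx := hne x hxR.2
    have hqx' := hne x' hxR'.2
    have hqc0 := hne c hqc
    have e : g.eval x / (q.eval x * q.eval c) - g.eval x' / (q.eval x' * q.eval c) =
        ((g.eval x - g.eval x') * q.eval x' + g.eval x' * (q.eval x' - q.eval x)) /
          (q.eval x * q.eval x' * q.eval c) := by
      field_simp
      ring
    show Λ.V (g.eval x / (q.eval x * q.eval c) - g.eval x' / (q.eval x' * q.eval c)) ≤ _
    rw [e, map_div₀, map_mul, map_mul, hxR.2, hxR'.2, hqc, mul_one, mul_one, div_one]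
    refine Valuation.map_add_le _ ?_ ?_
    · rw [map_mul, hxR'.2, mul_one]
      exact eval_sub_le hgi hxR.1 hxR'.1
    · rw [map_mul, hgx x' hx', one_mul, Valuation.map_sub_swap]
      exact eval_sub_le hQ.qint hxR.1 hxR'.1

end Pool.Agent.H42.RM
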