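/-
ROW QAe. Lifting of residues. PROOF. Let `h = p - C w * q`, `d = p.natDegree`; `natDegree h = d` and
`h.leadingCoeff = p.leadingCoeff` since `q.natDegree < d` (natDegree_sub_eq_left_of_natDegree_lt,
leadingCoeff_sub_of_degree_lt). `{z | F z = w} = roots of h`: if `F z = w` then `q z ≠ 0` (otherwise
`w = o`, `F^[t] o = b`, contradicting onl), so `p z = w q z`; if `h z = 0` then `q z ≠ 0` (otherwise
`p z = 0` too, contradicting bez evaluated at `z`), so `F z = w`. So `h.roots.toFinset.card = d`,
hence `Multiset.card h.roots = d` and `h = C lc * ∏ (X - C z)`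
(C_leadingCoeff_mul_prod_multiset_X_sub_C). `h y = q y * (F y - w)` has value `< 1`, so
`V (∏ (y - z)) < 1` and some root `z` satisfies `V (y - z) < 1`. (See dEx_root in PCM/D1, section DEx,
and its private lemma dExMul.)
-/
import Pool.Agent.H42.RM.QAa

set_option autoImplicit false

namespace Pool.Agent.H42.RM

open Pool.Agent.H42.PC Polynomial WithZero

variable {G L : Type} [Group G] [Field L] [MulSemiringAction G L] {Λ : Loc G L} {p q : L[X]}
  {o b : L} {W : Finset L} {mu : L → ℕ} {J : ℕ}

theorem QAe_mul (V : Valuation L ℤᵐ⁰) (y : L) (m : Multiset L)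
    (h : ∀ a ∈ m, 1 ≤ V (y - a)) : 1 ≤ V ((m.map fun a => y - a).prod) := by
  induction m using Multiset.induction_on with
  | empty => simp
  | cons a m ih =>
    rw [Multiset.map_cons, Multiset.prod_cons, map_mul]
    exact one_le_mul (h a (Multiset.mem_cons_self a m))
      (ih fun c hc => h c (Multiset.mem_cons_of_mem hc))

theorem q_root (hQ : QGood Λ p q o b W mu J) {t : ℕ} {w y : L}
    (hw : w ∈ lev (fr p q o) b t) (hcard : {z | fr p q o z = w}.ncard = p.natDegree)
    (hy : y ∈ RIQ Λ q) (h : Λ.V (fr p q o y - w) < 1) :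
    ∃ z, fr p q o z = w ∧ Λ.V (y - z) < 1 := by
  classical
  obtain ⟨hh, hhe⟩ : ∃ hh, hh = p - C w * q := ⟨_, rfl⟩
  have hdp : 0 < p.natDegree := by
    have := hQ.deg
    omega
  have hp0 : p ≠ 0 := by
    intro h0
    rw [h0, natDegree_zero] at hdp
    omega
  have hlt : (C w * q).natDegree < p.natDegree :=
    lt_of_le_of_lt (natDegree_C_mul_le w q) hQ.qdeg
  have hdeg : (C w * q).degree < p.degree := by
    refine lt_of_le_of_lt degree_le_natDegree ?_
    rw [degree_eq_natDegree hp0]
    exact_mod_cast hlt
  have hgd : hh.natDegree = p.natDegree := by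
    rw [hhe]
    exact natDegree_sub_eq_left_of_natDegree_lt hlt
  have hlead : hh.leadingCoeff = p.leadingCoeff := by
    rw [hhe]
    exact leadingCoeff_sub_of_degree_lt hdeg
  have hg0 : hh ≠ 0 := by
    intro h0
    rw [h0, natDegree_zero] at hgd
    omega
  have hev : ∀ z, hh.eval z = p.eval z - w * q.eval z := by
    intro z
    rw [hhe, Polynomial.eval_sub, eval_mul, eval_C]
  have hset : {z | fr p q o z = w} = (hh.roots.toFinset : Set L) := by
    ext z
    rw [Finset.mem_coe, Multiset.mem_toFinset, mem_roots hg0, IsRoot.def, hev,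
      Set.mem_setOf_eq]
    constructor
    · intro hz
      by_cases hq : q.eval z = 0
      · exfalso
        rw [fr_zero hq] at hz
        have h1 : (fr p q o)^[t] w = b := hw
        rw [← hz] at h1
        exact hQ.onl t h1
      · rw [fr_ne hq, div_eq_iff hq] at hz
        rw [hz, sub_self]
    · intro hz
      by_cases hq : q.eval z = 0
      · exfalso
        rw [hq, mul_zero, sub_zero] at hz
        obtain ⟨u, v, -, -, huv⟩ := hQ.bez
        have h1 := congrArg (eval z) huv
        rw [eval_add, eval_mul, eval_mul, hz, hq, mul_zero, mul_zero, add_zero, eval_one] at h1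
        exact zero_ne_one h1
      · rw [fr_ne hq, div_eq_iff hq]
        exact sub_eq_zero.1 hz
  rw [hset, Set.ncard_coe_finset] at hcard
  have h1 : hh.roots.toFinset.card ≤ Multiset.card hh.roots := Multiset.toFinset_card_le _
  have h2 : Multiset.card hh.roots ≤ hh.natDegree := card_roots' _
  have h3 : Multiset.card hh.roots = hh.natDegree := by omega
  have h4 := C_leadingCoeff_mul_prod_multiset_X_sub_C h3
  have hqy : q.eval y ≠ 0 := by
    intro h0
    have h5 := hy.2
    rw [h0, map_zero] at h5
    exact zero_ne_one h5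
  have h5 : Λ.V (hh.eval y) < 1 := by
    have h6 : hh.eval y = q.eval y * (fr p q o y - w) := by
      rw [hev, fr_ne hqy]
      field_simp
    rw [h6, map_mul, hy.2, one_mul]
    exact h
  rw [← h4, eval_mul, eval_C, map_mul, hlead, hQ.plead, one_mul, eval_multiset_prod,
    Multiset.map_map] at h5
  have h6 : ((fun p : L[X] => eval y p) ∘ fun a : L => X - C a) = fun a : L => y - a := by
    funext a
    simp
  by_contra hcon
  push Not at hcon
  rw [h6] at h5
  refine absurd h5 (not_lt.2 (QAe_mul Λ.V y _ fun a ha => ?_))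
  refine hcon a ?_
  have h7 : a ∈ (hh.roots.toFinset : Set L) := by
    rw [Finset.mem_coe, Multiset.mem_toFinset]
    exact ha
  rw [← hset] at h7
  exact h7

end Pool.Agent.H42.RM
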