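/-
ROW QAf. A good rational map gives an LSys. PROOFS.
* fr_smul: `q.eval (g • x) = g • q.eval x` (eval_smul_of_fix, PCM/D1), which is `0` iff `q.eval x = 0`;
  `g • o = o`; smul_div₀' .
* q_wfix: `g • c ∈ W` (Wsmul), `V (g • c - c) < 1` (Λ.inert, `V c ≤ 1` by Wreg with `i = 0`), G2 with
  `i = j = 0`.
* lsys_of_good: `b ∈ RIQ` by orb_reg with `i = 0`. Fields: Fsmul fr_smul; Wfix q_wfix; ri_int
  `.1`; ri_near q_near; ri_sub fr_sub_le; ri_lev lev_reg; ri_orb orb_reg; mu2, muV Wmu; form q_form;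
  ncr q_ncr; root q_root with hfib; hJ: frg_iter (row QAa, `RI = RIQ`, hsub = fr_sub_le;
  `F^[i'] c ∈ RIQ` for `i' ≤ J` by Wreg) turns the equality of sets into
  `ball (F^[i] c) = ball (F^[j] c')`, i.e. `V (F^[i] c - F^[j] c') < 1` (ball_eq), and G2 applies.
-/
import Pool.Agent.H42.RM.QAc
import Pool.Agent.H42.RM.QAd
import Pool.Agent.H42.RM.QAe

set_option autoImplicit false

namespace Pool.Agent.H42.RM

open Pool.Agent.H42.PC Polynomial WithZero

variable {G L : Type} [Group G] [Field L] [MulSemiringAction G L] {Λ : Loc G L} {p q : L[X]}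
  {o b : L} {W : Finset L} {mu : L → ℕ} {J : ℕ}

theorem fr_smul (hp : ∀ (g : G) (i : ℕ), g • p.coeff i = p.coeff i)
    (hq : ∀ (g : G) (i : ℕ), g • q.coeff i = q.coeff i) (ho : ∀ g : G, g • o = o) (g : G)
    (x : L) : fr p q o (g • x) = g • fr p q o x := by
  by_cases h : q.eval x = 0
  · rw [fr_zero h, fr_zero (by rw [eval_smul_of_fix (hq g), h, smul_zero]), ho]
  · have h' : q.eval (g • x) ≠ 0 := by
      rw [eval_smul_of_fix (hq g)]
      intro h0
      apply h
      rw [← inv_smul_smul g (q.eval x), h0, smul_zero]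
    rw [fr_ne h, fr_ne h', eval_smul_of_fix (hp g), eval_smul_of_fix (hq g), smul_div₀']

theorem q_wfix (hQ : QGood Λ p q o b W mu J) {g : G} (hg : g ∈ Λ.I) {c : L} (hc : c ∈ W) :
    g • c = c :=
  (hQ.G2 (g • c) (hQ.Wsmul g c hc) c hc 0 (Nat.zero_le _) 0 (Nat.zero_le _)
    (Λ.inert g hg c (hQ.Wreg c hc 0 (Nat.zero_le _)).1)).1

theorem lsys_of_good (hQ : QGood Λ p q o b W mu J) {n : ℕ} (hn : 1 ≤ n)
    (hb : Λ.V ((fr p q o)^[n] b - b) < 1) {N : ℕ}
    (hfib : ∀ t < N, ∀ w ∈ lev (fr p q o) b t, {z | fr p q o z = w}.ncard = p.natDegree) :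
    LSys Λ (fr p q o) b W mu (RIQ Λ q) J N := by
  have hb0 : b ∈ RIQ Λ q := orb_reg hQ hn hb 0
  exact
    { Fsmul := fun g x => fr_smul hQ.pc hQ.qc hQ.oc g x
      fixb := hQ.fixb
      Wfix := fun g hg c hc => q_wfix hQ hg hc
      ri_int := fun x hx => hx.1
      ri_near := fun x hx y h => q_near hQ hx h
      ri_sub := fun x hx y h => fr_sub_le hQ hx h
      ri_lev := fun t _ x hx => lev_reg hQ hb0 hx
      ri_orb := orb_reg hQ hn hb
      bW := hQ.bW
      mu2 := fun c hc => (hQ.Wmu c hc).1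
      muV := fun c hc => (hQ.Wmu c hc).2
      form := fun c hc => q_form hQ hc
      ncr := fun t _ x hx hn y h => q_ncr hQ hb0 hx hn h
      root := fun t ht w hw y hy h => q_root hQ hw (hfib t ht w hw) hy h
      hJ := by
        intro c hc c' hc' i hi j hj h
        have h1 : ∀ d ∈ W, ∀ k ≤ J, (FRg Λ (fr p q o))^[k] (ball Λ d) =
            ball Λ ((fr p q o)^[k] d) := by
          intro d hd k hk
          refine frg_iter (RI := RIQ Λ q) (fun x hx y h => fr_sub_le hQ hx h) ?_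
          intro i' hi'
          exact hQ.Wreg d hd i' (by omega)
        rw [h1 c hc i hi, h1 c' hc' j hj, PC.ball_eq] at h
        exact hQ.G2 c hc c' hc' i hi j hj h }

end Pool.Agent.H42.RM
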