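/-
ROW ECd. Local systems over good primes. `hlt`: `v x < 1` implies `w (algebraMap K L x) < 1`, by val_pow
(PCM/D2): `w (algebraMap K L x) = v(x)^|I|`, `(mkLoc K w).I = w.asIdeal.inertia _`. PROOFS.
* lsys_over: hQ := qgood_of_goodR (row ECc).
  (2) `(RA p q β L)^[n] b - b = algebraMap K L ((RA p q β K)^[n] β - β)` (ra_base, row EAb), so its
  value is `v(..)^|I| = exp (-(v0 |I|))` (as hcyc in place_over, PCM/E2, section EPl). (1) This
  value is `< 1` (`v0, |I| ≥ 1`), so lsys_of_good (row QAf) applies with hfib from `hT.fib`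
  (`natDegree_map`). (3) orb_reg with `i = 0` and lev_reg (row QAb).
* min_over: if `w(..) < 1` then `v(..)^|I| < 1`, so `v(..) < 1` (one_le_pow₀).
* near_h: `z = algebraMap K L ((RA p q β K)^[k] β)`; `w ((h.map _).eval z) < 1` and `h.map` is monic and
  splits, so EPl_prod_near (PCM/E2) gives a root `y` with `w (z - y) < 1`
  (Splits.eval_eq_prod_roots_of_monic; see place_over in PCM/E2). `LOn y` with this `k`
  (`(RA p q β L)^[k] b = z` by ra_base; Valuation.map_sub_swap).
-/
import Pool.Agent.H42.RM.ECc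
import Pool.Agent.H42.RM.QAf
import Pool.Agent.H42.PCM.E2

set_option autoImplicit false

namespace Pool.Agent.H42.RM

open Pool.Agent.H42.PC Polynomial NumberField IsDedekindDomain WithZero

open scoped Classical

theorem ECd_pow {K L : Type} [Field K] [NumberField K] [Field L] [NumberField L] [Algebra K L]
    [IsGalois K L] {p q : K[X]} {β : K} {v : HeightOneSpectrum (𝓞 K)}
    (w : HeightOneSpectrum (𝓞 L)) (hw : w.asIdeal.LiesOver v.asIdeal) (n : ℕ) :
    (mkLoc K w).V ((RA p q β L)^[n] (algebraMap K L β) - algebraMap K L β) =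
      v.valuation K ((RA p q β K)^[n] β - β) ^ Nat.card (w.asIdeal.inertia (L ≃ₐ[K] L)) := by
  rw [← val_pow v w hw, map_sub (algebraMap K L), ra_base]
  rfl

theorem lsys_over {K M L : Type} [Field K] [NumberField K] [Field M] [NumberField M]
    [Field L] [NumberField L] [Algebra K M] [Algebra M L] [Algebra K L] [IsScalarTower K M L]
    [IsGalois K L] {p q : K[X]} {β : K} (hB : RB p q β)
    (hM : ((wr p q).map (algebraMap K M)).Splits) {J N n v0 : ℕ}
    {v : HeightOneSpectrum (𝓞 K)} (hv : GoodR p q β M J v)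
    (hT : Tree (L ≃ₐ[K] L) (RA p q β L) (algebraMap K L β) p.natDegree N)
    (hn : 1 ≤ n) (hv0 : 1 ≤ v0)
    (hval : v.valuation K ((RA p q β K)^[n] β - β) = exp (-(v0 : ℤ)))
    (w : HeightOneSpectrum (𝓞 L)) (hw : w.asIdeal.LiesOver v.asIdeal) :
    LSys (mkLoc K w) (RA p q β L) (algebraMap K L β) ((Wr p q β M).image (algebraMap M L))
      (mu p q L) (RIQ (mkLoc K w) (q.map (algebraMap K L))) J N ∧
    (mkLoc K w).V ((RA p q β L)^[n] (algebraMap K L β) - algebraMap K L β) =
      exp (-((v0 : ℤ) * (Nat.card (mkLoc K w).I : ℤ))) ∧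
    ∀ t, ∀ x ∈ lev (RA p q β L) (algebraMap K L β) t,
      x ∈ RIQ (mkLoc K w) (q.map (algebraMap K L)) := by
  have hQ := qgood_of_goodR hB hM hv w hw
  have hcI : 0 < Nat.card (mkLoc K w).I := Nat.card_pos
  have hval' : (mkLoc K w).V ((RA p q β L)^[n] (algebraMap K L β) - algebraMap K L β) =
      exp (-((v0 : ℤ) * (Nat.card (mkLoc K w).I : ℤ))) := by
    rw [ECd_pow w hw, hval, ← exp_nsmul]
    congr 1
    rw [nsmul_eq_mul]
    show ((Nat.card (w.asIdeal.inertia (L ≃ₐ[K] L)) : ℕ) : ℤ) * -(v0 : ℤ) =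
      -((v0 : ℤ) * ((Nat.card (w.asIdeal.inertia (L ≃ₐ[K] L)) : ℕ) : ℤ))
    ring
  have hblt : (mkLoc K w).V ((RA p q β L)^[n] (algebraMap K L β) - algebraMap K L β) < 1 := by
    rw [hval', ← exp_zero, exp_lt_exp]
    have h1 : (0 : ℤ) < (Nat.card (mkLoc K w).I : ℤ) := by exact_mod_cast hcI
    have h2 : (0 : ℤ) < (v0 : ℤ) := by exact_mod_cast hv0
    have := mul_pos h2 h1
    linarith
  refine ⟨lsys_of_good hQ hn hblt ?_, hval', fun t x hx => lev_reg hQ (orb_reg hQ hn hblt 0) hx⟩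
  intro t ht x hx
  rw [natDegree_map]
  exact hT.fib t ht x hx

theorem min_over {K L : Type} [Field K] [NumberField K] [Field L] [NumberField L] [Algebra K L]
    [IsGalois K L] {p q : K[X]} {β : K} {v : HeightOneSpectrum (𝓞 K)} {n : ℕ}
    (hmin : ∀ i, 1 ≤ i → i < n → ¬ v.valuation K ((RA p q β K)^[i] β - β) < 1)
    (w : HeightOneSpectrum (𝓞 L)) (hw : w.asIdeal.LiesOver v.asIdeal) :
    ∀ i, 1 ≤ i → i < n →
      ¬ (mkLoc K w).V ((RA p q β L)^[i] (algebraMap K L β) - algebraMap K L β) < 1 := by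
  intro i h1 h2 h
  rw [ECd_pow w hw] at h
  exact absurd h (not_lt.2 (one_le_pow_of_one_le' (not_lt.1 (hmin i h1 h2)) _))

theorem near_h {K L : Type} [Field K] [NumberField K] [Field L] [NumberField L] [Algebra K L]
    [IsGalois K L] {p q h : K[X]} {β : K} {v : HeightOneSpectrum (𝓞 K)} (hm : h.Monic)
    (hs : (h.map (algebraMap K L)).Splits) {k : ℕ}
    (hk : v.valuation K (h.eval ((RA p q β K)^[k] β)) < 1)
    (w : HeightOneSpectrum (𝓞 L)) (hw : w.asIdeal.LiesOver v.asIdeal) :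
    ∃ y : L, aeval y h = 0 ∧ LOn (mkLoc K w) (RA p q β L) (algebraMap K L β) y := by
  have hcI : 0 < Nat.card (w.asIdeal.inertia (L ≃ₐ[K] L)) := Nat.card_pos
  have hlt : ∀ x : K, v.valuation K x < 1 → w.valuation L (algebraMap K L x) < 1 := by
    intro x hx
    rw [val_pow v w hw]
    exact pow_lt_one' hx hcI.ne'
  set z : L := algebraMap K L ((RA p q β K)^[k] β) with hz
  have hzv : w.valuation L ((h.map (algebraMap K L)).eval z) < 1 := by
    rw [hz, eval_map_algebraMap, aeval_algebraMap_apply]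
    exact hlt _ (by simpa using hk)
  rw [hs.eval_eq_prod_roots_of_monic (hm.map _)] at hzv
  obtain ⟨y, hy, hyz⟩ := EPl_prod_near _ _ _ hzv
  have hyr : aeval y h = 0 := by
    have := (mem_roots'.1 hy).2
    rwa [IsRoot.def, eval_map_algebraMap] at this
  refine ⟨y, hyr, k, ?_⟩
  rw [Valuation.map_sub_swap]
  have : (RA p q β L)^[k] (algebraMap K L β) = z := by rw [hz, ra_base]
  show w.valuation L ((RA p q β L)^[k] (algebraMap K L β) - y) < 1
  rw [this]
  exact hyz

end Pool.Agent.H42.RM
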