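/-
ROW ZAf. Values of a factor `h` of `RP p q β n0` along the orbit. PROOF. `F = RA p q β K`;
`F = fr p q (ro p q β)` because mapping by `algebraMap K K` does nothing (Algebra.algebraMap_self,
Polynomial.map_id): `ra_self`. hB gives the hypotheses of dl_orbit (row ZAe; hper by r_aper of row EAc
with `A = K`). Let `RP p q β n0 = h * r`, `D = d^n0`, `e = natDegree h`, `natDegree r = D - e` (rp_deg
of row EAa, natDegree_mul), `(P, Q) = PQ p q n0`, coprime (pq_coprime), `natDegree P = D`,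
`natDegree Q < D` (pq_deg). For `n ≥ n0`, `y = F^[n - n0] β`: `Q(y) ≠ 0`, `F^[n] β = P(y)/Q(y)`
(pq_iter of row EAb; no poles by hB.wan). As in row ZAd,
`dl (F^[n] β) β = a (P(y) - β Q(y)) / (max (a P(y)) (a Q(y)) * mx β)`. pair_low (row ZAb):
`max .. ≥ c1 (mx y)^D`. So `a (RP(y)) ≥ (c/C^n) c1 (mx y)^D` (`mx β ≥ 1`), and
`a (RP(y)) = a (h y) a (r y) ≤ a (h y) C2 (mx y)^(D-e)` (poly_up, row ZAa). Hence
`a (h y) ≥ (c c1/(C2 C^n)) (mx y)^e`.
-/
import Pool.Agent.H42.RM.ZAe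
import Pool.Agent.H42.RM.EAc

set_option autoImplicit false

namespace Pool.Agent.H42.RM

open Polynomial

variable {K : Type} [Field K]

theorem ra_self (p q : K[X]) (β : K) : RA p q β K = fr p q (ro p q β) := by
  unfold RA
  rw [Algebra.algebraMap_self, Polynomial.map_id, Polynomial.map_id, RingHom.id_apply]

private theorem ZAf_fin {c C c1 C2 M A R : ℝ} {D e n : ℕ} (hC : 1 ≤ C) (hC2 : 1 ≤ C2)
    (hM : 1 ≤ M) (hA : 0 ≤ A) (he : e ≤ D) (h1 : c / C ^ n * (c1 * M ^ D) ≤ A * R)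
    (h2 : R ≤ C2 * M ^ (D - e)) : (c * c1 / C2) / C ^ n ≤ A / M ^ e := by
  have hM0 : 0 < M := by linarith
  have hC0 : 0 < C := by linarith
  have hC20 : 0 < C2 := by linarith
  have h3 : c / C ^ n * (c1 * M ^ D) ≤ A * (C2 * M ^ (D - e)) :=
    h1.trans (mul_le_mul_of_nonneg_left h2 hA)
  have h4 : M ^ D = M ^ e * M ^ (D - e) := by
    rw [← pow_add]
    congr 1
    omega
  rw [h4] at h3
  have h5 : (c / C ^ n * c1 * M ^ e) * M ^ (D - e) ≤ (A * C2) * M ^ (D - e) := by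
    calc (c / C ^ n * c1 * M ^ e) * M ^ (D - e) = c / C ^ n * (c1 * (M ^ e * M ^ (D - e))) := by ring
      _ ≤ A * (C2 * M ^ (D - e)) := h3
      _ = (A * C2) * M ^ (D - e) := by ring
  have h6 : c / C ^ n * c1 * M ^ e ≤ A * C2 := le_of_mul_le_mul_right h5 (pow_pos hM0 _)
  rw [le_div_iff₀ (pow_pos hM0 e)]
  have h7 : c * c1 / C2 / C ^ n * M ^ e = (c / C ^ n * c1 * M ^ e) / C2 := by
    field_simp
  rw [h7, div_le_iff₀ hC20]
  exact h6

theorem factor_low (a : AbsoluteValue K ℝ) {p q h : K[X]} {β : K} (hB : RB p q β) {n0 : ℕ}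
    (hdvd : h ∣ RP p q β n0) : ∃ c C : ℝ, 0 < c ∧ 1 ≤ C ∧ ∀ n, 1 ≤ n → n0 ≤ n →
      c / C ^ n ≤ a (h.eval ((RA p q β K)^[n - n0] β)) /
        mx a ((RA p q β K)^[n - n0] β) ^ h.natDegree := by
  obtain ⟨r, hr⟩ := hdvd
  have hne : RP p q β n0 ≠ 0 := rp_ne hB.qdeg n0
  have hh0 : h ≠ 0 := by
    rintro rfl
    exact hne (by rw [hr, zero_mul])
  have hr0 : r ≠ 0 := by
    rintro rfl
    exact hne (by rw [hr, mul_zero])
  have hdeg : h.natDegree + r.natDegree = p.natDegree ^ n0 := by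
    rw [← rp_deg (β := β) hB.qdeg n0, hr, natDegree_mul hh0 hr0]
  have hreg : ∀ n : ℕ, q.eval ((fr p q (ro p q β))^[n] β) ≠ 0 := by
    intro n
    have h1 := hB.wan.1 n
    rw [ra_self, coe_aeval_eq_eval] at h1
    exact h1
  have hper : ∀ n, 1 ≤ n → (fr p q (ro p q β))^[n] β ≠ β := by
    intro n hn
    have h1 := r_aper (A := K) hB hn
    rw [ra_self, Algebra.algebraMap_self, RingHom.id_apply] at h1
    exact h1
  obtain ⟨c, C, hc, hC, hdl⟩ := dl_orbit a hB.cop hB.deg hB.qdeg hB.crit hreg hper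
  obtain ⟨hPd, hQd⟩ := pq_deg (p := p) (q := q) hB.qdeg n0
  obtain ⟨c1, hc1, hlow⟩ := pair_low a (pq_coprime hB.cop hB.qdeg n0) (by rw [hPd]; exact hQd.le)
  obtain ⟨C2, hC2, hup⟩ := poly_up a (le_refl r.natDegree)
  refine ⟨c * c1 / C2, C, div_pos (mul_pos hc hc1) (by linarith), hC, fun n hn hn0 => ?_⟩
  obtain ⟨y, hy⟩ : ∃ y, y = (RA p q β K)^[n - n0] β := ⟨_, rfl⟩
  rw [← hy]
  have hyreg : ∀ i < n0, aeval ((RA p q β K)^[i] y) q ≠ 0 := by
    intro i _
    rw [hy, ← Function.iterate_add_apply]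
    exact hB.wan.1 _
  obtain ⟨hQ0, hit⟩ := pq_iter hB.qdeg (β := β) hyreg
  have hn1 : (RA p q β K)^[n0] y = (fr p q (ro p q β))^[n] β := by
    rw [hy, ← Function.iterate_add_apply, ra_self, Nat.add_sub_cancel' hn0]
  rw [hn1, coe_aeval_eq_eval] at hit
  rw [coe_aeval_eq_eval] at hQ0
  have hdn := hdl n hn
  rw [hit] at hdn
  have haQ : 0 < a ((PQ p q n0).2.eval y) := a.pos hQ0
  have hmb : 1 ≤ mx a β := one_le_mx a β
  have hmy : 1 ≤ mx a y := one_le_mx a y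
  have hMx : 0 < max (a ((PQ p q n0).1.eval y)) (a ((PQ p q n0).2.eval y)) :=
    lt_max_of_lt_right haQ
  have hRP : (RP p q β n0).eval y = (PQ p q n0).1.eval y - β * (PQ p q n0).2.eval y := by
    unfold RP
    rw [Polynomial.eval_sub, eval_mul, eval_C]
  have hdl2 : dl a ((PQ p q n0).1.eval y / (PQ p q n0).2.eval y) β =
      a ((RP p q β n0).eval y) /
        (max (a ((PQ p q n0).1.eval y)) (a ((PQ p q n0).2.eval y)) * mx a β) := by
    unfold dl
    rw [ZAd_mx a hQ0, hRP]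
    have e : (PQ p q n0).1.eval y / (PQ p q n0).2.eval y - β =
        ((PQ p q n0).1.eval y - β * (PQ p q n0).2.eval y) / (PQ p q n0).2.eval y := by
      field_simp
    rw [e, map_div₀]
    have hmb0 : 0 < mx a β := by linarith
    field_simp
  rw [hdl2, le_div_iff₀ (mul_pos hMx (by linarith))] at hdn
  have hl := hlow y
  rw [hPd] at hl
  have hcn : 0 ≤ c / C ^ n := (div_pos hc (pow_pos (by linarith) n)).le
  have h1 : c / C ^ n * (c1 * mx a y ^ (p.natDegree ^ n0)) ≤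
      a (h.eval y) * a (r.eval y) := by
    rw [← map_mul, ← eval_mul, ← hr]
    refine le_trans (mul_le_mul_of_nonneg_left ?_ hcn) hdn
    refine hl.trans ?_
    exact le_mul_of_one_le_right hMx.le hmb
  have hupy := hup y
  have hsub : p.natDegree ^ n0 - h.natDegree = r.natDegree := by omega
  refine ZAf_fin hC hC2 hmy (a.nonneg _) (by omega) h1 ?_
  rw [hsub]
  exact hupy

end Pool.Agent.H42.RM
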