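/-
ROW ZBa. Heights grow: `H(p x / q x) ≥ C H(x)^d`, `d = natDegree p`.
PROOF. For a polynomial `f` and `D ≥ natDegree f` let `hg D f : MvPolynomial (Fin 2) K` be
`∑ i ∈ range (D+1), C (f.coeff i) * X 0 ^ i * X 1 ^ (D - i)`: it is homogeneous of degree `D`
(MvPolynomial.IsHomogeneous.sum, isHomogeneous_C_mul_X.. / IsHomogeneous.mul) and its value at
`![x, 1]` is `f.eval x` (eval_eq_sum_range'). (Or use Polynomial.homogenize of Mathlib:
Mathlib.Algebra.Polynomial.Homogenize.)
Let `u p + v q = 1` and `M = d + natDegree u + natDegree v`. Divide `X^(M+d)` by `p`: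
`X^(M+d) = A p + R`, `natDegree A ≤ M`, `R = 0` or `natDegree R < d` (`p ≠ 0`; EuclideanDomain /
Polynomial division over a field, `X^(M+d) / p`, `%`). Put `u0 = A + R u`, `v0 = R v`:
`u0 p + v0 q = A p + R (u p + v q) = X^(M+d)`, all of `u, v, u0, v0` have natDegree `≤ M`.
Apply Height.mulHeight_eval_ge' (Mathlib.NumberTheory.Height.MvPolynomial) with `ι = ι' = Fin 2`,
`M`, `N = d`, `q (0,0) = hg M u0`, `q (0,1) = hg M v0`, `q (1,0) = hg M u`, `q (1,1) = hg M v`: it gives
`C > 0`. For `x : K` with `q x ≠ 0` use it for `p 0 = hg d p`, `p 1 = hg d q` at the point `![x, 1]`: the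
hypothesis for `k = 0` is `u0(x) p(x) + v0(x) q(x) = x^(M+d)`, for `k = 1` it is
`u(x) p(x) + v(x) q(x) = 1`. So `C * mulHeight ![x,1]^d ≤ mulHeight ![p x, q x]`, and
mulHeight₁_eq_mulHeight, mulHeight₁_div_eq_mulHeight (Mathlib.NumberTheory.Height.Basic).
-/
import Mathlib

set_option autoImplicit false

namespace Pool.Agent.H42.RM

open Polynomial Height

private noncomputable def zba_hg {K : Type} [Field K] (M : ℕ) (f : K[X]) : MvPolynomial (Fin 2) K :=
  ∑ i ∈ Finset.range (M + 1), MvPolynomial.C (f.coeff i) * MvPolynomial.X 0 ^ i *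
    MvPolynomial.X 1 ^ (M - i)

private theorem zba_hom {K : Type} [Field K] (M : ℕ) (f : K[X]) :
    (zba_hg M f).IsHomogeneous M := by
  unfold zba_hg
  refine MvPolynomial.IsHomogeneous.sum _ _ _ fun i hi => ?_
  have hi' : i ≤ M := by
    have := Finset.mem_range.mp hi
    omega
  have h := ((MvPolynomial.isHomogeneous_C (Fin 2) (f.coeff i)).mul
    ((MvPolynomial.isHomogeneous_X K (0 : Fin 2)).pow i)).mul
    ((MvPolynomial.isHomogeneous_X K (1 : Fin 2)).pow (M - i))
  have e : 0 + 1 * i + 1 * (M - i) = M := by omega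
  rw [e] at h
  exact h

private theorem zba_eval {K : Type} [Field K] {M : ℕ} {f : K[X]} (hf : f.natDegree ≤ M) (x : K) :
    MvPolynomial.eval ![x, 1] (zba_hg M f) = f.eval x := by
  unfold zba_hg
  rw [map_sum, eval_eq_sum_range' (Nat.lt_succ_of_le hf)]
  refine Finset.sum_congr rfl fun i _ => ?_
  simp

theorem height_map {K : Type} [Field K] [NumberField K] {p q : K[X]} (hcop : IsCoprime p q)
    (hd : 1 ≤ p.natDegree) (hqd : q.natDegree ≤ p.natDegree) :
    ∃ C : ℝ, 0 < C ∧ ∀ x : K,
      C * mulHeight₁ x ^ p.natDegree ≤ mulHeight₁ (p.eval x / q.eval x) := by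
  obtain ⟨u, v, huv⟩ := hcop
  have hp0 : p ≠ 0 := by
    rintro rfl
    simp at hd
  set d := p.natDegree with hd'
  set M := d + u.natDegree + v.natDegree with hM
  set A := (X ^ (M + d) : K[X]) / p with hA
  set R := (X ^ (M + d) : K[X]) % p with hR
  have hAR : p * A + R = X ^ (M + d) := EuclideanDomain.div_add_mod _ _
  have hRd : R.natDegree ≤ d := (natDegree_mod_lt _ (by omega)).le
  have hAd : A.natDegree ≤ M := by
    rcases eq_or_ne A 0 with h | h
    · rw [h, natDegree_zero]
      exact Nat.zero_le _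
    · have h1 : (p * A).natDegree = d + A.natDegree := natDegree_mul hp0 h
      have h2 : p * A = X ^ (M + d) - R := by rw [← hAR]; ring
      have h3 : (p * A).natDegree ≤ M + d := by
        rw [h2]
        refine (natDegree_sub_le _ _).trans (max_le ?_ ?_)
        · rw [natDegree_X_pow]
        · omega
      omega
  have b1 : (A + R * u).natDegree ≤ M := by
    refine (natDegree_add_le _ _).trans (max_le hAd ?_)
    refine natDegree_mul_le.trans ?_
    omega
  have b2 : (R * v).natDegree ≤ M := by
    refine natDegree_mul_le.trans ?_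
    omega
  have b3 : u.natDegree ≤ M := by omega
  have b4 : v.natDegree ≤ M := by omega
  have key : (A + R * u) * p + R * v * q = X ^ (M + d) := by
    rw [← hAR]
    linear_combination R * huv
  let Q : Fin 2 × Fin 2 → MvPolynomial (Fin 2) K := fun a =>
    if a.1 = 0 then (if a.2 = 0 then zba_hg M (A + R * u) else zba_hg M (R * v))
    else (if a.2 = 0 then zba_hg M u else zba_hg M v)
  have hQ : ∀ a, (Q a).IsHomogeneous M := by
    intro a
    simp only [Q]
    split_ifs <;> exact zba_hom _ _
  obtain ⟨C, hC, h⟩ := mulHeight_eval_ge' (K := K) (M := M) (N := d) hQ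
  refine ⟨C, hC, fun x => ?_⟩
  have h1 := h (fun j => MvPolynomial.C (if j = 0 then p.eval x else q.eval x)) (x := ![x, 1]) ?_
  · rw [mulHeight₁_eq_mulHeight x, mulHeight₁_div_eq_mulHeight]
    convert h1 using 2
    funext j
    fin_cases j <;> simp
  · intro k
    have e1 := congrArg (eval x) key
    have e2 := congrArg (eval x) huv
    simp only [eval_add, eval_mul, eval_pow, eval_X, eval_one] at e1 e2
    fin_cases k
    · simp only [Fin.sum_univ_two, Q, MvPolynomial.eval_C]
      simp only [Fin.zero_eta, Fin.isValue, if_true, one_ne_zero, if_false, Matrix.cons_val_zero]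
      rw [zba_eval b1, zba_eval b2]
      simp only [eval_add, eval_mul]
      exact e1
    · simp only [Fin.sum_univ_two, Q, MvPolynomial.eval_C]
      simp only [Fin.mk_one, Fin.isValue, if_true, one_ne_zero, if_false, Matrix.cons_val_one]
      rw [zba_eval b3, zba_eval b4]
      simpa using e2

end Pool.Agent.H42.RM
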