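/-
ROW ZBb. Doubly exponential growth of the height of a wandering orbit.
PROOF. Let `x n = (RA p q β K)^[n] β`, `H n = mulHeight₁ (x n) ≥ 1` (one_le_mulHeight₁ or similar),
`d = natDegree p ≥ 2`. height_map (row ZBa): `H (n+1) ≥ C (H n)^d` (`x (n+1) = p (x n) / q (x n)` by
ra_ne of row EAb; no poles). Let `κ = min C 1`, `0 < κ ≤ 1`; `κ H (n+1) ≥ κ^2 (H n)^d ≥ (κ H n)^d`
(`κ^2 ≥ κ^d`). The orbit is infinite (hB.wan.2), so by
NumberField.finite_setOfPred_mulHeight₁_le (Mathlib.NumberTheory.Height.NumberField) some `n1` has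
`H n1 > e / κ`, `e = Real.exp 1`. By induction `κ H n ≥ exp (d^(n-n1))` for `n ≥ n1`. So
`H n ≥ κ H n ≥ exp (c d^n)`, `c = 1/d^n1`. (Compare `escape` in AD/ZAc.lean.)
-/
import Pool.Agent.H42.RM.ZBa
import Pool.Agent.H42.RM.EAb

set_option autoImplicit false

namespace Pool.Agent.H42.RM

open Polynomial Height

theorem ZBb_step {κ C H H' : ℝ} {d : ℕ} (hd : 2 ≤ d) (hκ : 0 < κ) (hκ1 : κ ≤ 1) (hκC : κ ≤ C)
    (hH : 0 ≤ H) (h : C * H ^ d ≤ H') : (κ * H) ^ d ≤ κ * H' := by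
  have h1 : κ ^ d ≤ κ ^ 2 := pow_le_pow_of_le_one hκ.le hκ1 hd
  have h2 : 0 ≤ H ^ d := by positivity
  calc (κ * H) ^ d = κ ^ d * H ^ d := mul_pow _ _ _
    _ ≤ κ ^ 2 * H ^ d := mul_le_mul_of_nonneg_right h1 h2
    _ = κ * (κ * H ^ d) := by ring
    _ ≤ κ * (C * H ^ d) :=
        mul_le_mul_of_nonneg_left (mul_le_mul_of_nonneg_right hκC h2) hκ.le
    _ ≤ κ * H' := mul_le_mul_of_nonneg_left h hκ.le

theorem height_grow {K : Type} [Field K] [NumberField K] {p q : K[X]} {β : K}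
    (hB : RB p q β) : ∃ c : ℝ, 0 < c ∧ ∃ n1, ∀ n, n1 ≤ n →
      Real.exp (c * (p.natDegree : ℝ) ^ n) ≤ mulHeight₁ ((RA p q β K)^[n] β) := by
  have hd := hB.deg
  obtain ⟨C, hC, hmap⟩ := height_map hB.cop (by omega) hB.qdeg.le
  have hx : ∀ n, (RA p q β K)^[n + 1] β =
      p.eval ((RA p q β K)^[n] β) / q.eval ((RA p q β K)^[n] β) := by
    intro n
    rw [Function.iterate_succ_apply', ra_ne (hB.wan.1 n), coe_aeval_eq_eval]
  have hub : ∀ R : ℝ, ∃ n, R < mulHeight₁ ((RA p q β K)^[n] β) := by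
    intro R
    by_contra hcon
    push Not at hcon
    refine hB.wan.2 ((NumberField.finite_setOfPred_mulHeight₁_le K R).subset ?_)
    rintro _ ⟨n, rfl⟩
    exact hcon n
  obtain ⟨D, hD⟩ : ∃ D, D = p.natDegree := ⟨_, rfl⟩
  rw [← hD] at hd hmap ⊢
  obtain ⟨κ, hκ⟩ : ∃ κ, κ = min C 1 := ⟨_, rfl⟩
  have hκ0 : 0 < κ := by
    rw [hκ]
    exact lt_min hC one_pos
  have hκ1 : κ ≤ 1 := by
    rw [hκ]
    exact min_le_right _ _
  have hκC : κ ≤ C := by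
    rw [hκ]
    exact min_le_left _ _
  obtain ⟨n1, hn1⟩ := hub (Real.exp 1 / κ)
  have hn1b : Real.exp 1 ≤ κ * mulHeight₁ ((RA p q β K)^[n1] β) := by
    rw [div_lt_iff₀ hκ0] at hn1
    linarith
  have hpos : ∀ n, 0 ≤ mulHeight₁ ((RA p q β K)^[n] β) := fun n =>
    zero_le_one.trans (one_le_mulHeight₁ _)
  have key : ∀ k, Real.exp ((D : ℝ) ^ k) ≤ κ * mulHeight₁ ((RA p q β K)^[n1 + k] β) := by
    intro k
    induction k with
    | zero => simpa using hn1b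
    | succ k ih =>
      have h0 := hmap ((RA p q β K)^[n1 + k] β)
      rw [← hx] at h0
      have h1 := ZBb_step hd hκ0 hκ1 hκC (hpos _) h0
      calc Real.exp ((D : ℝ) ^ (k + 1)) = Real.exp ((D : ℝ) ^ k) ^ D := by
            rw [← Real.exp_nat_mul, pow_succ, mul_comm]
        _ ≤ (κ * mulHeight₁ ((RA p q β K)^[n1 + k] β)) ^ D :=
            pow_le_pow_left₀ (Real.exp_pos _).le ih D
        _ ≤ _ := h1
  have hD0 : (0 : ℝ) < (D : ℝ) := by
    have : 0 < D := by omega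
    exact_mod_cast this
  refine ⟨1 / (D : ℝ) ^ n1, by positivity, n1, fun n hn => ?_⟩
  obtain ⟨k, rfl⟩ := Nat.exists_eq_add_of_le hn
  have e : 1 / (D : ℝ) ^ n1 * (D : ℝ) ^ (n1 + k) = (D : ℝ) ^ k := by
    rw [pow_add]
    field_simp
  rw [e]
  refine (key k).trans ?_
  exact mul_le_of_le_one_left (hpos _) hκ1

end Pool.Agent.H42.RM
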