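/-
ROW ZCa. Product formula and height. PROOF. NumberField.mulHeight₁_eq
(Mathlib.NumberTheory.Height.NumberField):
`mulHeight₁ y = (∏ w : InfinitePlace K, max (w y) 1 ^ w.mult) * ∏ᶠ w : FinitePlace K, max (w y) 1`, and
`NumberField.prod_abs_eq_one hz : (∏ w : InfinitePlace K, w z ^ w.mult) * ∏ᶠ w : FinitePlace K, w z = 1`.
Let `T` be a finite set of finite places containing `B` and the supports of `w ↦ w z` and
`w ↦ max (w y) 1` (finite: FinitePlace.hasFiniteMulSupport hz; for the second: the support is inside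
the support of `w ↦ w y` if `y ≠ 0`, and empty if `y = 0`). Then both finprods are products over
`T = B ∪ (T \ B)` (finprod_eq_prod_of_mulSupport_subset), and
`(mulHeight₁ y)^e * A` (`A` = the second factor of the claim)
`= (∏_∞ w z^mult) * (∏_B w z) * ∏_{T \ B} (max (w y) 1)^e` (the powers `max^(e mult)` and `max^e` cancel)
`≤ (∏_∞ w z^mult) * (∏_B w z) * ∏_{T \ B} w z = 1` by h (all factors are `≥ 0`).
(Compare prod_le_one in AD/ZCa.lean.)
-/
import Pool.Agent.H42.AD.ZCa

set_option autoImplicit false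

namespace Pool.Agent.H42.RM

open Polynomial NumberField IsDedekindDomain Height

theorem height_prod {K : Type} [Field K] [NumberField K] (B : Finset (FinitePlace K)) {y z : K}
    (hz : z ≠ 0) (e : ℕ) (h : ∀ w : FinitePlace K, w ∉ B → max (w y) 1 ^ e ≤ w z) :
    mulHeight₁ y ^ e * ((∏ w : InfinitePlace K, (w z / max (w y) 1 ^ e) ^ w.mult) *
      ∏ w ∈ B, w z / max (w y) 1 ^ e) ≤ 1 := by
  classical
  have hfz : (Function.mulSupport (fun w : FinitePlace K => w z)).Finite :=
    FinitePlace.hasFiniteMulSupport hz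
  have hfy : (Function.mulSupport (fun w : FinitePlace K => max (w y) 1)).Finite := by
    by_cases hy : y = 0
    · refine Set.finite_empty.subset ?_
      intro w hw
      exfalso
      apply hw
      show max (w y) 1 = 1
      rw [hy, map_zero]
      exact max_eq_right zero_le_one
    · have hf : (Function.mulSupport (fun w : FinitePlace K => w y)).Finite :=
        FinitePlace.hasFiniteMulSupport hy
      refine hf.subset ?_
      intro w hw h1
      apply hw
      show max (w y) 1 = 1
      have h2 : w y = 1 := h1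
      rw [h2, max_self]
  set T : Finset (FinitePlace K) := (hfz.toFinset ∪ hfy.toFinset) ∪ B with hT
  have hBT : B ⊆ T := Finset.subset_union_right
  have hz1 : (∏ᶠ w : FinitePlace K, w z) = ∏ w ∈ T, w z := by
    apply finprod_eq_prod_of_mulSupport_subset
    intro w hw
    simp only [hT, Finset.coe_union, Set.Finite.coe_toFinset]
    exact Or.inl (Or.inl hw)
  have hy1 : (∏ᶠ w : FinitePlace K, max (w y) 1) = ∏ w ∈ T, max (w y) 1 := by
    apply finprod_eq_prod_of_mulSupport_subset
    intro w hw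
    simp only [hT, Finset.coe_union, Set.Finite.coe_toFinset]
    exact Or.inl (Or.inr hw)
  have hpf := NumberField.prod_abs_eq_one hz
  rw [hz1, ← Finset.prod_sdiff hBT] at hpf
  have hht := NumberField.mulHeight₁_eq y
  rw [hy1, ← Finset.prod_sdiff hBT] at hht
  have hM : ∀ w : FinitePlace K, 0 < max (w y) 1 := fun w => lt_max_of_lt_right one_pos
  have hMi : ∀ w : InfinitePlace K, 0 < max (w y) 1 := fun w => lt_max_of_lt_right one_pos
  have hinf : (∏ w : InfinitePlace K, (w z / max (w y) 1 ^ e) ^ w.mult) =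
      (∏ w : InfinitePlace K, w z ^ w.mult) /
        (∏ w : InfinitePlace K, max (w y) 1 ^ w.mult) ^ e := by
    rw [← Finset.prod_pow, ← Finset.prod_div_distrib]
    refine Finset.prod_congr rfl fun w _ => ?_
    rw [div_pow, ← pow_mul, ← pow_mul, mul_comm]
  have hB : (∏ w ∈ B, w z / max (w y) 1 ^ e) =
      (∏ w ∈ B, w z) / (∏ w ∈ B, max (w y) 1) ^ e := by
    rw [← Finset.prod_pow, ← Finset.prod_div_distrib]
  have hPi : (∏ w : InfinitePlace K, max (w y) 1 ^ w.mult) ≠ 0 :=
    (Finset.prod_pos fun w _ => pow_pos (hMi w) _).ne'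
  have hPB : (∏ w ∈ B, max (w y) 1) ≠ 0 := (Finset.prod_pos fun w _ => hM w).ne'
  have hmain : mulHeight₁ y ^ e * ((∏ w : InfinitePlace K, (w z / max (w y) 1 ^ e) ^ w.mult) *
      ∏ w ∈ B, w z / max (w y) 1 ^ e) =
      (∏ w : InfinitePlace K, w z ^ w.mult) * ((∏ w ∈ T \ B, max (w y) 1) ^ e *
        ∏ w ∈ B, w z) := by
    rw [hinf, hB, hht, mul_pow, mul_pow]
    field_simp
  rw [hmain]
  refine le_trans ?_ hpf.le
  have h1 : (∏ w ∈ T \ B, max (w y) 1) ^ e ≤ ∏ w ∈ T \ B, w z := by
    rw [← Finset.prod_pow]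
    exact Finset.prod_le_prod (fun w _ => pow_nonneg (hM w).le e)
      (fun w hw => h w (Finset.mem_sdiff.1 hw).2)
  have h2 : 0 ≤ ∏ w ∈ B, w z := Finset.prod_nonneg fun w _ => apply_nonneg w z
  have h3 : 0 ≤ ∏ w : InfinitePlace K, w z ^ w.mult :=
    Finset.prod_nonneg fun w _ => pow_nonneg (apply_nonneg w z) _
  exact mul_le_mul_of_nonneg_left (mul_le_mul_of_nonneg_right h1 h2) h3

end Pool.Agent.H42.RM
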