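/-
ROW ZCb. For all large `n` the value `h (F^(n-n0) β)` has a prime divisor outside a given finite set.
PROOF. Let `y n = F^[n-n0] β`, `z n = h.eval (y n)`, `e = natDegree h ≥ 1`, `d = natDegree p`. `z n ≠ 0` for
`n ≥ max n0 1`: otherwise `(RP p q β n0).eval (y n) = 0`, so `F^[n0] (y n) = β` (rp_root, row EAc), i.e.
`F^[n] β = β`, contradicting r_aper. Let `B1 : Finset (FinitePlace K)` be the set of the places
`FinitePlace.mk v` for `v ∈ B` or `v` such that some coefficient of `h` has value `> 1` (finite: bad_K of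
row ECa or val_ne_one_finite). Suppose that for a large `n` all `v ∉ B` have `¬ v (z n) < 1`. Then for
`w ∉ B1` (`w = FinitePlace.mk v`, FinitePlace.mk_maximalIdeal; fp_lt, fp_le of AD/ZCa.lean):
`w (z n) ≥ 1`; and `max (w (y n)) 1 ^ e ≤ w (z n)`: clear if `w (y n) ≤ 1`; if `w (y n) > 1` then
`w (h.eval (y n)) = w (y n)^e` since `h` is monic with integral coefficients and `w` is
nonarchimedean (big_p of row QAb for the valuation `v`, and transfer; or directly: the lower terms have
value `≤ w(y)^(e-1) < w(y)^e`). height_prod (row ZCa):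
`mulHeight₁ (y n)^e * (∏_∞ ( .. )^mult * ∏_B1 ..) ≤ 1`. By factor_low (row ZAf), for each infinite
place and each `w ∈ B1` (with `a = w.1`, `mx a y = max 1 (a y)`; max_comm) the quotient is `≥ c/C^n`;
zba_low (AD/ZBa.lean; index set InfinitePlace K ⊕ FinitePlace K, `S = univ.disjSum B1`, exponents `mult`
and `1`) gives `c, C` with product `≥ c/C^n` for large `n`. height_grow (row ZBb):
`mulHeight₁ (y n)^e ≥ mulHeight₁ (y n) ≥ exp (c0 d^(n-n0)) = exp ((c0/d^n0) d^n)`. zba_exp
(AD/ZBa.lean): eventually `1 < exp (c0' d^n) * (c/C^n)`: contradiction.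
-/
import Pool.Agent.H42.RM.ZAf
import Pool.Agent.H42.RM.ZBb
import Pool.Agent.H42.RM.ZCa
import Pool.Agent.H42.RM.ECa
import Pool.Agent.H42.RM.QAb
import Pool.Agent.H42.AD.ZBa

set_option autoImplicit false

namespace Pool.Agent.H42.RM

open Polynomial NumberField IsDedekindDomain

open Pool.Agent.H42.PC in
private theorem zcb_pow {K : Type} [Field K] [NumberField K] (v : HeightOneSpectrum (𝓞 K)) {a b : K}
    {e : ℕ} (h : v.valuation K a = v.valuation K b ^ e) :
    FinitePlace.mk v a = FinitePlace.mk v b ^ e := by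
  rw [FinitePlace.mk_apply, FinitePlace.mk_apply, NumberField.FinitePlace.norm_embedding',
    NumberField.FinitePlace.norm_embedding', h, map_pow]
  push_cast
  rfl

private theorem zcb_ne {K : Type} [Field K] [NumberField K] {p q h : K[X]} {β : K}
    (hB : RB p q β) {n0 : ℕ} (hdvd : h ∣ RP p q β n0) (n : ℕ) (hn : 1 ≤ n) (hn0 : n0 ≤ n) :
    h.eval ((RA p q β K)^[n - n0] β) ≠ 0 := by
  intro h0
  obtain ⟨r, hr⟩ := hdvd
  have h1 : aeval ((RA p q β K)^[n - n0] β) (RP p q β n0) = 0 := by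
    rw [coe_aeval_eq_eval, hr, Polynomial.eval_mul, h0, zero_mul]
  rw [rp_root hB n0, ← Function.iterate_add_apply, Nat.add_sub_cancel' hn0] at h1
  exact r_aper (A := K) hB hn h1

open Pool.Agent.H42.PC in
theorem r_zsig {K : Type} [Field K] [NumberField K] {p q h : K[X]} {β : K} (hB : RB p q β)
    {n0 : ℕ} (hm : h.Monic) (hh : 1 ≤ h.natDegree) (hdvd : h ∣ RP p q β n0)
    {B : Set (HeightOneSpectrum (𝓞 K))} (hfin : B.Finite) :
    ∀ᶠ n in Filter.atTop, ∃ v, v ∉ B ∧
      v.valuation K (h.eval ((RA p q β K)^[n - n0] β)) < 1 := by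
  classical
  have hd := hB.deg
  have hV : (B ∪ {v : HeightOneSpectrum (𝓞 K) | ∃ z ∈ ((h.support.image h.coeff : Finset K) : Set K),
      z ≠ 0 ∧ v.valuation K z ≠ 1}).Finite :=
    hfin.union (bad_K (Finset.finite_toSet _))
  set V := (B ∪ {v : HeightOneSpectrum (𝓞 K) | ∃ z ∈ ((h.support.image h.coeff : Finset K) : Set K),
      z ≠ 0 ∧ v.valuation K z ≠ 1}) with hVdef
  set B1 : Finset (FinitePlace K) := hV.toFinset.image FinitePlace.mk with hB1
  have hnV : ∀ w : FinitePlace K, w ∉ B1 → w.maximalIdeal ∉ V := by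
    intro w hwB hv
    apply hwB
    rw [hB1, Finset.mem_image]
    exact ⟨_, hV.mem_toFinset.2 hv, FinitePlace.mk_maximalIdeal w⟩
  have hint : ∀ w : FinitePlace K, w ∉ B1 → ∀ i, w.maximalIdeal.valuation K (h.coeff i) ≤ 1 := by
    intro w hwB i
    by_cases hi : i ∈ h.support
    · have hne := mem_support_iff.1 hi
      have hv1 : w.maximalIdeal.valuation K (h.coeff i) = 1 := by
        by_contra hne1
        exact hnV w hwB (Or.inr ⟨h.coeff i, Finset.mem_coe.2 (Finset.mem_image_of_mem _ hi), hne,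
          hne1⟩)
      rw [hv1]
    · rw [notMem_support_iff.1 hi, map_zero]
      exact zero_le_one
  have hkey : ∀ w : FinitePlace K, w ∉ B1 → ∀ y : K, 1 ≤ w (h.eval y) →
      max (w y) 1 ^ h.natDegree ≤ w (h.eval y) := by
    intro w hwB y hy
    rcases le_or_gt (w y) 1 with h1 | h1
    · rw [max_eq_right h1, one_pow]
      exact hy
    · rw [max_eq_left h1.le]
      have e : FinitePlace.mk w.maximalIdeal = w := FinitePlace.mk_maximalIdeal w
      have h2 : 1 < w.maximalIdeal.valuation K y := by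
        by_contra hc
        have h3 := (fp_le w.maximalIdeal y).2 (not_lt.1 hc)
        rw [e] at h3
        exact absurd h3 (not_le.2 h1)
      have h4 := big_p (hint w hwB) (by rw [hm.leadingCoeff, map_one]) h2
      have h5 := zcb_pow w.maximalIdeal h4
      rw [e] at h5
      exact h5.ge
  set y : ℕ → K := fun n => (RA p q β K)^[n - n0] β with hy
  set S : Finset (InfinitePlace K ⊕ FinitePlace K) :=
    (Finset.univ : Finset (InfinitePlace K)).disjSum B1 with hS
  set m : InfinitePlace K ⊕ FinitePlace K → ℕ := Sum.elim (fun w => w.mult) (fun _ => 1) with hmdef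
  set u : InfinitePlace K ⊕ FinitePlace K → ℕ → ℝ :=
    Sum.elim (fun w n => w (h.eval (y n)) / max (w (y n)) 1 ^ h.natDegree)
      (fun w n => w (h.eval (y n)) / max (w (y n)) 1 ^ h.natDegree) with hudef
  have hu1 : ∀ a : AbsoluteValue K ℝ, ∃ c C : ℝ, 0 < c ∧ 1 ≤ C ∧ ∃ n1, ∀ n, n1 ≤ n →
      c / C ^ n ≤ a (h.eval (y n)) / max (a (y n)) 1 ^ h.natDegree := by
    intro a
    obtain ⟨c, C, hc, hC, h1⟩ := factor_low a hB hdvd
    refine ⟨c, C, hc, hC, max 1 n0, fun n hn => ?_⟩
    have h2 := h1 n ((le_max_left _ _).trans hn) ((le_max_right _ _).trans hn)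
    rw [max_comm]
    exact h2
  have hu : ∀ i ∈ S, ∃ c C : ℝ, 0 < c ∧ 1 ≤ C ∧ ∃ n1, ∀ n, n1 ≤ n → c / C ^ n ≤ u i n := by
    rintro (w | w) -
    · exact hu1 w.1
    · exact hu1 w.1
  obtain ⟨c, C, hc, hC, n1, h1⟩ := zba_low S m u hu
  obtain ⟨c0, hc0, n2, h2⟩ := height_grow hB
  have hdpos : (0 : ℝ) < (p.natDegree : ℝ) ^ n0 := by
    have : (0 : ℝ) < p.natDegree := by exact_mod_cast (by omega : 0 < p.natDegree)
    positivity
  filter_upwards [zba_exp hc hC (div_pos hc0 hdpos) hd, Filter.eventually_ge_atTop n1,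
    Filter.eventually_ge_atTop (n2 + n0), Filter.eventually_ge_atTop (max 1 n0)] with n h3 h4 h5 h6
  by_contra hcon
  push Not at hcon
  have hne : h.eval (y n) ≠ 0 := zcb_ne hB hdvd n ((le_max_left _ _).trans h6)
    ((le_max_right _ _).trans h6)
  have h7 : ∀ w : FinitePlace K, w ∉ B1 → max (w (y n)) 1 ^ h.natDegree ≤ w (h.eval (y n)) := by
    intro w hwB
    refine hkey w hwB _ ?_
    have h8 := hcon w.maximalIdeal (fun hb => hnV w hwB (Or.inl hb))
    by_contra h9
    have e : FinitePlace.mk w.maximalIdeal = w := FinitePlace.mk_maximalIdeal w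
    have h10 := (fp_lt w.maximalIdeal (h.eval (y n))).1 (by rw [e]; exact not_le.1 h9)
    exact absurd h10 (not_lt.2 h8)
  have h8 := height_prod B1 hne h.natDegree h7
  have h9 := h1 n h4
  rw [hS, Finset.prod_disjSum] at h9
  have h9' : c / C ^ n ≤ (∏ w : InfinitePlace K,
      (w (h.eval (y n)) / max (w (y n)) 1 ^ h.natDegree) ^ w.mult) *
      ∏ w ∈ B1, w (h.eval (y n)) / max (w (y n)) 1 ^ h.natDegree := by
    simpa [hmdef, hudef] using h9
  have h10 := h2 (n - n0) (by omega)
  have e1 : c0 * (p.natDegree : ℝ) ^ (n - n0) = c0 / (p.natDegree : ℝ) ^ n0 * (p.natDegree : ℝ) ^ n := by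
    have h11 : (p.natDegree : ℝ) ^ n = (p.natDegree : ℝ) ^ (n - n0) * (p.natDegree : ℝ) ^ n0 := by
      rw [← pow_add, Nat.sub_add_cancel ((le_max_right _ _).trans h6)]
    rw [h11]
    field_simp
  rw [e1] at h10
  have h12 : (1 : ℝ) ≤ Height.mulHeight₁ (y n) :=
    (Real.one_le_exp (by positivity)).trans h10
  have h13 : Real.exp (c0 / (p.natDegree : ℝ) ^ n0 * (p.natDegree : ℝ) ^ n) ≤
      Height.mulHeight₁ (y n) ^ h.natDegree := by
    refine h10.trans ?_
    calc Height.mulHeight₁ (y n) = Height.mulHeight₁ (y n) ^ 1 := (pow_one _).symm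
      _ ≤ Height.mulHeight₁ (y n) ^ h.natDegree := pow_le_pow_right₀ h12 hh
  have hC0 : 0 < C := by linarith
  have h14 : Real.exp (c0 / (p.natDegree : ℝ) ^ n0 * (p.natDegree : ℝ) ^ n) * (c / C ^ n) ≤
      Height.mulHeight₁ (y n) ^ h.natDegree * ((∏ w : InfinitePlace K,
      (w (h.eval (y n)) / max (w (y n)) 1 ^ h.natDegree) ^ w.mult) *
      ∏ w ∈ B1, w (h.eval (y n)) / max (w (y n)) 1 ^ h.natDegree) :=
    mul_le_mul h13 h9' (by positivity) (by positivity)
  linarith

end Pool.Agent.H42.RM
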