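/-
ROW ZDa. Good primes at which `β` has exact prime period. PROOF. Let `F = RA p q β K`,
`RP p q β n0 = h * r`, `(P, Q) = PQ p q n0`, `s1 P + s2 Q = 1` (pq_coprime, row EAa). Bad set: the `v` which
are not `GoodR p q β M J v` (goodR_finite, row ECb; `Disj p q β M` by disj_hom of row EAc and
IsAlgClosed.lift, `M` algebraic over `K`), those with `v (F β - β) ≠ 1` (`F β ≠ β` by r_aper), those for
which a coefficient of `h, r, P, Q, s1, s2` has value `> 1` (bad_K, row ECa). It is finite.
`1 ≤ natDegree h` (Irreducible). By r_zsig (row ZCb) and Nat.exists_infinite_primes there is a prime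
`n ≥ B0, n0` and a good `v` with `v (h.eval y) < 1`, `y = F^[n - n0] β`; `k = n - n0`.
* `v y ≤ 1`: root_int (PCM/D1) for `h` (monic, integral coefficients).
* `v (RP(y)) = v (h y) v (r y) < 1`. `Q(y) ≠ 0`, `F^[n] β = F^[n0] y = P(y)/Q(y)` (pq_iter, row EAb).
  `v (Q y) = 1`: it is `≤ 1`; if `< 1` then `P(y) = RP(y) + β Q(y)` has value `< 1` (bint) and
  `1 = s1 P + s2 Q` evaluated at `y` has value `< 1`, contradiction. So
  `v (F^[n] β - β) = v (RP(y) / Q(y)) < 1`. Its value is `exp (-v0)` with `1 ≤ v0` (nonzero by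
  r_aper; see the end of ELim_pr in PCM/E3).
* minimality: suppose `v (F^[i] β - β) < 1`, `1 ≤ i < n`. `i` is coprime to the prime `n`: there are
  `a, c` with `a * i = c * n + 1`. good_orb (row ECe; for `i` and for `n`): `F^[a i] β` and
  `F^[c n] β` are near `β = F^[0] β`, so `F^[c n + 1] β` is near `F^[0 + 1] β = F β`. Hence `F β` is near
  `β`, contradicting `v (F β - β) = 1`. (See AD/ZDb.lean.)
-/
import Pool.Agent.H42.RM.ZCb
import Pool.Agent.H42.RM.ECb
import Pool.Agent.H42.RM.ECe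

set_option autoImplicit false

namespace Pool.Agent.H42.RM

open Pool.Agent.H42.PC Polynomial NumberField IsDedekindDomain

private theorem ZDa_disjM {K M : Type} [Field K] [NumberField K] [Field M] [NumberField M]
    [Algebra K M] {p q : K[X]} {β : K} (hD : Disj p q β (AlgebraicClosure K)) : Disj p q β M := by
  have : Module.Finite K M := Module.Finite.of_restrictScalars_finite ℚ K M
  have : Algebra.IsAlgebraic K M := inferInstance
  exact disj_hom (IsAlgClosed.lift : M →ₐ[K] AlgebraicClosure K) hD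

theorem r_prime {K M : Type} [Field K] [NumberField K] [Field M] [NumberField M] [Algebra K M]
    {p q h : K[X]} {β : K} [IsSplittingField K M (wr p q)] (hB : RB p q β)
    (hD : Disj p q β (AlgebraicClosure K)) {n0 : ℕ} (hm : h.Monic) (hi : Irreducible h)
    (hdvd : h ∣ RP p q β n0) (J B0 : ℕ) :
    ∃ (v : HeightOneSpectrum (𝓞 K)) (n v0 k : ℕ), GoodR p q β M J v ∧ n.Prime ∧ B0 ≤ n ∧ 1 ≤ v0 ∧
      v.valuation K ((RA p q β K)^[n] β - β) = WithZero.exp (-(v0 : ℤ)) ∧
      (∀ i, 1 ≤ i → i < n → ¬ v.valuation K ((RA p q β K)^[i] β - β) < 1) ∧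
      v.valuation K (h.eval ((RA p q β K)^[k] β)) < 1 := by
  have hDM : Disj p q β M := ZDa_disjM hD
  obtain ⟨F, hF⟩ : ∃ F : K → K, F = RA p q β K := ⟨_, rfl⟩
  have haper : ∀ t, 1 ≤ t → F^[t] β ≠ β := by
    intro t ht
    rw [hF]
    exact r_aper (A := K) hB ht
  obtain ⟨r, hr⟩ := id hdvd
  obtain ⟨s1, s2, hs⟩ := pq_coprime hB.cop hB.qdeg n0
  have hne : F β - β ≠ 0 := fun h0 => haper 1 le_rfl (sub_eq_zero.1 h0)
  obtain ⟨S, hSdef⟩ : ∃ S : Set K, S = (Set.range fun i => h.coeff i) ∪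
      (Set.range fun i => r.coeff i) ∪ (Set.range fun i => (PQ p q n0).1.coeff i) ∪
      (Set.range fun i => (PQ p q n0).2.coeff i) ∪ (Set.range fun i => s1.coeff i) ∪
      (Set.range fun i => s2.coeff i) ∪ {F β - β} := ⟨_, rfl⟩
  have hS : S.Finite := by
    rw [hSdef]
    exact ((((((ECb_coeff h).union (ECb_coeff r)).union (ECb_coeff _)).union
      (ECb_coeff _)).union (ECb_coeff s1)).union (ECb_coeff s2)).union (Set.toFinite _)
  have hfin : ({v | ¬ GoodR p q β M J v} ∪ {v : HeightOneSpectrum (𝓞 K) | ∃ z ∈ S, z ≠ 0 ∧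
      v.valuation K z ≠ 1}).Finite := (goodR_finite hB hDM J).union (bad_K hS)
  have hh : 1 ≤ h.natDegree := hi.natDegree_pos
  obtain ⟨N0, hN0⟩ := Filter.eventually_atTop.1 (r_zsig hB hm hh hdvd hfin)
  obtain ⟨n, hn, hnp⟩ := Nat.exists_infinite_primes (B0 + n0 + N0)
  obtain ⟨v, hvB, hv⟩ := hN0 n (by omega)
  rw [Set.mem_union, not_or] at hvB
  obtain ⟨hvB1, hvB2⟩ := hvB
  have hg : GoodR p q β M J v := by
    by_contra hcon
    exact hvB1 hcon
  have hV1 : ∀ z ∈ S, z ≠ 0 → v.valuation K z = 1 := by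
    intro z hz hz0
    by_contra hcon
    exact hvB2 ⟨z, hz, hz0, hcon⟩
  have hV2 : ∀ z ∈ S, v.valuation K z ≤ 1 := by
    intro z hz
    by_cases h0 : z = 0
    · rw [h0, map_zero]
      exact zero_le_one
    · exact (hV1 z hz h0).le
  have c1 : ∀ i, v.valuation K (h.coeff i) ≤ 1 := fun i => hV2 _ (by rw [hSdef]; simp)
  have c2 : ∀ i, v.valuation K (r.coeff i) ≤ 1 := fun i => hV2 _ (by rw [hSdef]; simp)
  have c3 : ∀ i, v.valuation K ((PQ p q n0).1.coeff i) ≤ 1 := fun i => hV2 _ (by rw [hSdef]; simp)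
  have c4 : ∀ i, v.valuation K ((PQ p q n0).2.coeff i) ≤ 1 := fun i => hV2 _ (by rw [hSdef]; simp)
  have c5 : ∀ i, v.valuation K (s1.coeff i) ≤ 1 := fun i => hV2 _ (by rw [hSdef]; simp)
  have c6 : ∀ i, v.valuation K (s2.coeff i) ≤ 1 := fun i => hV2 _ (by rw [hSdef]; simp)
  have c7 : v.valuation K (F β - β) = 1 := hV1 _ (by rw [hSdef]; simp) hne
  rw [← hF] at hv
  obtain ⟨y, hy⟩ : ∃ y : K, y = F^[n - n0] β := ⟨_, rfl⟩
  rw [← hy] at hv
  have hy1 : v.valuation K y ≤ 1 := by
    refine root_int c1 ?_ hh hv.le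
    rw [hm.leadingCoeff, map_one]
  have hRP : v.valuation K ((PQ p q n0).1.eval y - β * (PQ p q n0).2.eval y) < 1 := by
    have e1 : (PQ p q n0).1.eval y - β * (PQ p q n0).2.eval y = h.eval y * r.eval y := by
      have e2 := congrArg (fun f => eval y f) hr
      unfold RP at e2
      simpa using e2
    rw [e1, map_mul]
    exact mul_lt_one_of_lt_of_le hv (eval_int c2 hy1)
  have hpole : ∀ i < n0, aeval ((RA p q β K)^[i] y) q ≠ 0 := by
    intro i _
    rw [hy, hF, ← Function.iterate_add_apply]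
    exact hB.wan.1 (i + (n - n0))
  obtain ⟨hQ0, hit⟩ := pq_iter hB.qdeg (β := β) hpole
  simp only [coe_aeval_eq_eval] at hQ0
  simp only [coe_aeval_eq_eval] at hit
  have hn2 : n0 + (n - n0) = n := by omega
  have hit2 : F^[n] β = (PQ p q n0).1.eval y / (PQ p q n0).2.eval y := by
    have e0 : F^[n] β = F^[n0] y := by
      rw [hy, ← Function.iterate_add_apply, hn2]
    rw [e0, hF]
    exact hit
  have hQ1 : v.valuation K ((PQ p q n0).2.eval y) = 1 := by
    refine le_antisymm (eval_int c4 hy1) ?_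
    by_contra hcon
    have hlt : v.valuation K ((PQ p q n0).2.eval y) < 1 := not_le.1 hcon
    have hbQ : v.valuation K (β * (PQ p q n0).2.eval y) < 1 := by
      rw [map_mul, mul_comm]
      exact mul_lt_one_of_lt_of_le hlt hg.bint
    have hP : v.valuation K ((PQ p q n0).1.eval y) < 1 := by
      have e1 : (PQ p q n0).1.eval y = ((PQ p q n0).1.eval y - β * (PQ p q n0).2.eval y) +
        β * (PQ p q n0).2.eval y := by ring
      rw [e1]
      exact (v.valuation K).map_add_lt hRP hbQ
    have e2 : s1.eval y * (PQ p q n0).1.eval y + s2.eval y * (PQ p q n0).2.eval y = 1 := by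
      have e3 := congrArg (fun f => eval y f) hs
      simpa using e3
    have h5 : v.valuation K (s1.eval y * (PQ p q n0).1.eval y) < 1 := by
      rw [map_mul, mul_comm]
      exact mul_lt_one_of_lt_of_le hP (eval_int c5 hy1)
    have h6 : v.valuation K (s2.eval y * (PQ p q n0).2.eval y) < 1 := by
      rw [map_mul, mul_comm]
      exact mul_lt_one_of_lt_of_le hlt (eval_int c6 hy1)
    have h7 := (v.valuation K).map_add_lt h5 h6
    rw [e2, map_one] at h7
    exact lt_irrefl _ h7
  have hitn : v.valuation K (F^[n] β - β) < 1 := by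
    have e1 : F^[n] β - β = ((PQ p q n0).1.eval y - β * (PQ p q n0).2.eval y) /
        (PQ p q n0).2.eval y := by
      rw [hit2]
      field_simp
    rw [e1, map_div₀, hQ1, div_one]
    exact hRP
  have hvne : v.valuation K (F^[n] β - β) ≠ 0 := by
    rw [Ne, map_eq_zero]
    intro h0
    exact haper n hnp.one_le (sub_eq_zero.1 h0)
  obtain ⟨e, he⟩ : ∃ e : ℤ, v.valuation K (F^[n] β - β) = WithZero.exp e :=
    ⟨_, (WithZero.exp_log hvne).symm⟩
  have he1 : e < 0 := by
    have := hitn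
    rwa [he, ← WithZero.exp_zero, WithZero.exp_lt_exp] at this
  rw [← hF]
  refine ⟨v, n, (-e).toNat, n - n0, hg, hnp, by omega, by omega, ?_, ?_, ?_⟩
  · rw [he]
    congr 1
    omega
  · intro i hi1 hin hlt
    have hco : Nat.Coprime i n := by
      rw [Nat.coprime_comm]
      exact (Nat.Prime.coprime_iff_not_dvd hnp).2 fun hdv => by
        have := Nat.le_of_dvd (by omega) hdv
        omega
    obtain ⟨a, -, ha⟩ := Nat.exists_mul_mod_eq_one_of_coprime hco hnp.one_lt
    have hac : a * i = (i * a / n) * n + 1 := by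
      have := Nat.div_add_mod (i * a) n
      rw [ha] at this
      rw [mul_comm a i, mul_comm _ n]
      exact this.symm
    rw [hF] at hlt hitn c7
    obtain ⟨-, -, h1⟩ := good_orb hB hg hi1 hlt
    obtain ⟨-, hnear, h2⟩ := good_orb hB hg hnp.one_le hitn
    have h3 := h1 a
    rw [hac] at h3
    have h4 := hnear ((i * a / n) * n) 0 (h2 _) 1
    rw [Nat.zero_add, Function.iterate_one] at h4
    have h5 : RA p q β K β - β = ((RA p q β K)^[(i * a / n) * n + 1] β - β) -
        ((RA p q β K)^[(i * a / n) * n + 1] β - RA p q β K β) := by ring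
    rw [h5] at c7
    have h6 := (v.valuation K).map_sub_lt h3 h4
    rw [c7] at h6
    exact lt_irrefl _ h6
  · rw [← hy]
    exact hv

end Pool.Agent.H42.RM
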