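/-
ROW LBc. Stabilisers in the inertia group along a path. PROOFS.
* mem_lst: definition. * lst_b: `g • b = b` for all `g`.
* lst_le: if `g • x = x` then `g • F x = F (g • x) = F x`.
* lst_eq: let `g ∈ lst (F x)`; `F (g•x) = g • F x = F x`, `V (g•x - x) < 1` (Λ.inert, ri_lev,
  ri_int), and by ncr `V (F (g•x) - F x) = V (g•x - x)`, so `g • x = x`. With lst_le: equality.
* lst_card: `H = lst (F x)` acts on the orbit of `x`, which is contained in
  `{y | V (y - c) < 1 ∧ F y = F x}` (for `g ∈ H`: `V (g•x - c) = V ((g•x - x) + (x - c)) < 1`,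
  `F (g•x) = F x`), so it has at most `mu c` elements (c_card of row LAc; Set.ncard_le_ncard). The
  stabiliser of `x` in `H` is `lst x` (lst_le), so `|H| = |orbit| * |lst x|`
  (MulAction.card_orbit_mul_card_stabilizer_eq_card_group, or Subgroup.card_mul_index /
  relIndex as in GSt_index of PCM/G1).
* lst_path: induction on `j`: `F^[j+1] x = F (F^[j] x)`; use lst_eq at each step (the point
  `F^[i] x` has level `t + j - i`, lev_iter).
* lst_bd: induction on `t`: `Nat.card Λ.I ≤ M^t * |lst x|` for `x ∈ lev t` by lst_b (t = 0: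
  `x = b`, `lst b = Λ.I`), lst_card if `NW x` and lst_eq otherwise (`M ≥ 1`).
-/
import Pool.Agent.H42.RM.LAa
import Pool.Agent.H42.RM.LAc

set_option autoImplicit false

namespace Pool.Agent.H42.RM

open Pool.Agent.H42.PC WithZero

variable {G L : Type} [Group G] [Field L] [MulSemiringAction G L] {Λ : Loc G L} {F : L → L}
  {b : L} {W : Finset L} {mu : L → ℕ} {RI : Set L} {J N : ℕ}

theorem mem_lst (Λ : Loc G L) (g : G) (x : L) : g ∈ lst Λ x ↔ g ∈ Λ.I ∧ g • x = x := by
  unfold lst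
  rw [Subgroup.mem_inf, MulAction.mem_stabilizer_iff]

theorem lst_b (hS : LSys Λ F b W mu RI J N) : lst Λ b = Λ.I := by
  ext g
  rw [mem_lst]
  exact ⟨fun h => h.1, fun h => ⟨h, hS.fixb g⟩⟩

theorem lst_le (hS : LSys Λ F b W mu RI J N) (x : L) : lst Λ x ≤ lst Λ (F x) := by
  intro g hg
  rw [mem_lst] at hg ⊢
  exact ⟨hg.1, by rw [← hS.Fsmul, hg.2]⟩

theorem lst_eq (hS : LSys Λ F b W mu RI J N) {t : ℕ} (ht : t ≤ N) {x : L} (hx : x ∈ lev F b t)
    (h : ¬ NW Λ W x) : lst Λ (F x) = lst Λ x := by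
  refine le_antisymm ?_ (lst_le hS x)
  intro g hg
  rw [mem_lst] at hg ⊢
  refine ⟨hg.1, ?_⟩
  have h1 : Λ.V (g • x - x) < 1 := Λ.inert g hg.1 x (hS.ri_int x (hS.ri_lev t ht x hx))
  have h2 := hS.ncr t ht x hx h (g • x) h1
  rw [hS.Fsmul, hg.2, sub_self, map_zero] at h2
  exact sub_eq_zero.1 ((map_eq_zero Λ.V).1 h2.symm)

theorem LBc_card_mul {G : Type} [Group G] {H K : Subgroup G} (h : H ≤ K) :
    Nat.card K = H.relIndex K * Nat.card H := by
  have h1 := Subgroup.relIndex_mul_relIndex (⊥ : Subgroup G) H K bot_le h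
  rw [Subgroup.relIndex_bot_left, Subgroup.relIndex_bot_left] at h1
  rw [← h1, mul_comm]

theorem LBc_index (hS : LSys Λ F b W mu RI J N) (x : L) :
    (lst Λ x).relIndex (lst Λ (F x)) = (MulAction.orbit (lst Λ (F x)) x).ncard := by
  rw [← MulAction.index_stabilizer]
  unfold Subgroup.relIndex
  congr 1
  ext g
  rw [Subgroup.mem_subgroupOf, mem_lst, MulAction.mem_stabilizer_iff]
  constructor
  · exact fun h => h.2
  · intro h
    exact ⟨((mem_lst Λ _ _).1 g.2).1, h⟩

theorem lst_card [Finite G] (hS : LSys Λ F b W mu RI J N) {t : ℕ} (ht : t ≤ N) {x : L}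
    (hx : x ∈ lev F b t) {c : L} (hc : c ∈ W) (h : Λ.V (x - c) < 1) :
    Nat.card (lst Λ (F x)) ≤ mu c * Nat.card (lst Λ x) := by
  rw [LBc_card_mul (lst_le hS x), LBc_index hS]
  refine Nat.mul_le_mul_right _ ?_
  obtain ⟨hf, hn⟩ := c_card hS hc (F x)
  refine (Set.ncard_le_ncard ?_ hf).trans hn
  rintro _ ⟨g, rfl⟩
  have hg := (mem_lst Λ _ _).1 g.2
  have h1 : Λ.V ((g : G) • x - x) < 1 :=
    Λ.inert g hg.1 x (hS.ri_int x (hS.ri_lev t ht x hx))
  refine ⟨?_, ?_⟩
  · show Λ.V ((g : G) • x - c) < 1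
    have e : (g : G) • x - c = ((g : G) • x - x) + (x - c) := by ring
    rw [e]
    exact Valuation.map_add_lt _ h1 h
  · show F ((g : G) • x) = F x
    rw [hS.Fsmul, hg.2]

theorem lst_path (hS : LSys Λ F b W mu RI J N) {t j : ℕ} (ht : t + j ≤ N) {x : L}
    (hx : x ∈ lev F b (t + j)) (h : ∀ i < j, ¬ NW Λ W (F^[i] x)) :
    lst Λ (F^[j] x) = lst Λ x := by
  induction j generalizing t with
  | zero => rfl
  | succ j ih =>
    have e : t + (j + 1) = t + 1 + j := by omega
    rw [e] at ht hx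
    have h1 : F^[j] x ∈ lev F b (t + 1) := by
      have := lev_iter hx (show j ≤ t + 1 + j by omega)
      rwa [Nat.add_sub_cancel] at this
    rw [Function.iterate_succ_apply',
      lst_eq hS (show t + 1 ≤ N by omega) h1 (h j (Nat.lt_succ_self j))]
    exact ih ht hx fun i hi => h i (by omega)

theorem lst_bd [Finite G] (hS : LSys Λ F b W mu RI J N) {M : ℕ} (hM : ∀ c ∈ W, mu c ≤ M)
    {t : ℕ} (ht : t ≤ N) {x : L} (hx : x ∈ lev F b t) :
    Nat.card Λ.I ≤ M ^ t * Nat.card (lst Λ x) := by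
  have hM1 : 1 ≤ M := by
    have := hS.mu2 b hS.bW
    have := hM b hS.bW
    omega
  induction t generalizing x with
  | zero =>
    have hxb : x = b := hx
    rw [hxb, lst_b hS, pow_zero, one_mul]
  | succ t ih =>
    have h1 : F x ∈ lev F b t := by
      have := lev_iter (j := 1) hx (by omega)
      rwa [Nat.add_sub_cancel] at this
    refine (ih (by omega) h1).trans ?_
    rw [pow_succ, mul_assoc]
    refine Nat.mul_le_mul_left _ ?_
    by_cases hn : NW Λ W x
    · obtain ⟨c, hc, hxc⟩ := hn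
      exact (lst_card hS ht hx hc hxc).trans (Nat.mul_le_mul_right _ (hM c hc))
    · rw [lst_eq hS ht hx hn]
      exact Nat.le_mul_of_pos_left _ (by omega)

end Pool.Agent.H42.RM
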