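/-
ROW LBd. PROOFS.
* grp_cop: suppose a prime `l` divides `Nat.card θ.range` and `N2`. By Cauchy
  (exists_prime_orderOf_dvd_card) there is `g` with `orderOf (θ g) = l`. Then `θ (g^l) = 1`, so
  `g^l ∈ ψ.ker` and `(ψ g)^l = 1`, hence `θ g = (ψ g)^N2 = 1` since `l ∣ N2`; contradiction.
* c_path: for `1 ≤ i ≤ j`, `V (F^[i] x' - F^[i] c') = V (x' - c')^(mu c')`: induction on `i`; `i = 1`
  is c_val; the step from `i` to `i+1 ≤ j` is ncr for the point `F^[i] x' ∈ lev (t+j-i)` and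
  `y = F^[i] c'` (Valuation.map_sub_swap; `V (x'-c')^mu < 1`). For `i = j`: let `x = F^[j] x'`.
  `F^[j] c' - c = (x - c) - (x - F^[j] c')` has value `< 1` and is fixed by `Λ.I` (it_c, Wfix), so
  its value is `≤ exp (-|I|)` (fixed_small, PCM/D1) `< V (x - c)` (hbig). Hence
  `V (x - c) = V (x - F^[j] c') = V (x' - c')^(mu c')`.
-/
import Pool.Agent.H42.RM.LBc

set_option autoImplicit false

namespace Pool.Agent.H42.RM

open Pool.Agent.H42.PC WithZero

theorem grp_cop {H A : Type} [Group H] [Finite H] [CommGroup A] (θ ψ : H →* A) {N2 : ℕ}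
    (hk : θ.ker ≤ ψ.ker) (hp : θ = ψ ^ N2) : Nat.Coprime (Nat.card θ.range) N2 := by
  by_contra hcon
  obtain ⟨l, hl, h1, h2⟩ := Nat.Prime.not_coprime_iff_dvd.1 hcon
  have hfin : Finite θ.range := (Set.finite_range θ).to_subtype
  have hlf : Fact l.Prime := ⟨hl⟩
  obtain ⟨⟨_, g, rfl⟩, hx⟩ := exists_prime_orderOf_dvd_card' l h1
  have hx1 : orderOf (θ g) = l := by
    rw [← hx, ← Subgroup.orderOf_coe]
  have h3 : θ (g ^ l) = 1 := by
    rw [map_pow, ← hx1]
    exact pow_orderOf_eq_one _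
  have h4 : ψ (g ^ l) = 1 := hk h3
  rw [map_pow] at h4
  obtain ⟨c, rfl⟩ := h2
  have h5 : θ g = 1 := by
    rw [hp]
    show (ψ g) ^ (l * c) = 1
    rw [pow_mul, h4, one_pow]
  rw [h5, orderOf_one] at hx1
  exact hl.one_lt.ne hx1

variable {G L : Type} [Group G] [Field L] [MulSemiringAction G L] {Λ : Loc G L} {F : L → L}
  {b : L} {W : Finset L} {mu : L → ℕ} {RI : Set L} {J N : ℕ}

theorem c_path [Finite G] (hS : LSys Λ F b W mu RI J N) {t j : ℕ} (hj : 1 ≤ j) (htj : t + j ≤ N)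
    {x' : L} (hx' : x' ∈ lev F b (t + j)) {c c' : L} (hc : c ∈ W) (hc' : c' ∈ W)
    (h : Λ.V (F^[j] x' - c) < 1) (h' : Λ.V (x' - c') < 1)
    (hno : ∀ i, 1 ≤ i → i < j → ¬ NW Λ W (F^[i] x'))
    (hbig : exp (-(Nat.card Λ.I : ℤ)) < Λ.V (F^[j] x' - c)) :
    Λ.V (F^[j] x' - c) = Λ.V (x' - c') ^ mu c' := by
  have hmu : mu c' ≠ 0 := by
    have := hS.mu2 c' hc'
    omega
  have hlt : Λ.V (x' - c') ^ mu c' < 1 := pow_lt_one₀ zero_le h' hmu
  have key : ∀ i, 1 ≤ i → i ≤ j → Λ.V (F^[i] x' - F^[i] c') = Λ.V (x' - c') ^ mu c' := by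
    intro i hi
    induction i, hi using Nat.le_induction with
    | base =>
      intro _
      exact c_val hS hc' h'
    | succ i hi ih =>
      intro hij
      have ih' := ih (by omega)
      have h1 : Λ.V (F^[i] c' - F^[i] x') < 1 := by
        rw [Λ.V.map_sub_swap, ih']
        exact hlt
      have h2 := hS.ncr (t + j - i) (by omega) (F^[i] x') (lev_iter hx' (by omega))
        (hno i hi (by omega)) (F^[i] c') h1
      rw [Function.iterate_succ_apply', Function.iterate_succ_apply', Λ.V.map_sub_swap, h2,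
        Λ.V.map_sub_swap, ih']
  have hk := key j hj le_rfl
  have h3 : Λ.V (F^[j] c' - c) < 1 := by
    rw [show F^[j] c' - c = (F^[j] x' - c) - (F^[j] x' - F^[j] c') by ring]
    exact Λ.V.map_sub_lt h (by rw [hk]; exact hlt)
  have h4 : Λ.V (F^[j] c' - c) ≤ exp (-(Nat.card Λ.I : ℤ)) := by
    refine fixed_small Λ (fun g hg => ?_) h3
    rw [smul_sub, it_c hS hg hc', hS.Wfix g hg c hc]
  have h5 := Λ.V.map_sub_eq_of_lt_left (h4.trans_lt hbig)
  rw [← hk, ← h5]
  congr 1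
  ring

end Pool.Agent.H42.RM
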