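/-
ROW LBe. Passing a critical residue.
PROOF. Let `x = F^[j] x'`, `m = mu c'`, `H = lst x`, `H' = lst x'`, `D = x' - c'`.
(1) `H = lst (F x')`: lst_path for `F x' ∈ lev (t + (j-1))` and `j - 1` (`F^[j-1] (F x') = x`).
(2) `V (x - c) = V D ^ m` (c_path); by hbig both are nonzero, so `x ≠ c`, `D ≠ 0`.
(3) div_pos (PCM/D2) for `H` and `x - c` (fixed by `H`: Wfix) gives `N1 ≥ 1` with
  `V (x - c) = exp (-(N1 |H|))`; for `H'` and `D` it gives `N2 ≥ 1` with `V D = exp (-(N2 |H'|))`.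
(4) Let `th` be as in exists_th (row LBa), `z` from `Λ.unif H'` (fixed by `H'`,
  `V z = exp (-|H'|)`, so `z ≠ 0`). `D = z^N2 * u` with `V u = 1`, hence
  `th D = (th z)^N2 * th u = (th z)^N2` (powers from the second property by induction). Let `θ, ψ` be
  the restrictions of `th D`, `th z` to `H` (`H ≤ Λ.I`; e.g. compose with Subgroup.inclusion).
  (4a) For `g ∈ H`: `θ g = 1` iff `g • x' = x'`. If `g x' = x'` then `g D = D` (`g c' = c'`) and
  `th D g = th D 1`. Conversely, suppose `g x' ≠ x'`; `F (g x') = g F x' = F x'` (by (1) and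
  `g ∈ H`), `V (g x' - c') < 1` (inert), so c_ratio for `g x', x'` gives
  `¬ V ((g x' - c')/(x' - c') - 1) < 1`, and `(g x' - c')/(x'-c') = g D / D`, so `θ g ≠ 1`.
  So `θ.ker` is `H'` (as a subgroup of `H`; `H' ≤ H` by lst_le along the path, or because
  `g x' = x'` implies `g x = x`), `Nat.card θ.ker = |H'|`.
  (4b) for `g ∈ H'`, `g z = z`, so `ψ g = 1`: `θ.ker ≤ ψ.ker`.
  Let `r = Nat.card θ.range`: `|H| = r |H'|` (card of range times card of kernel, e.g.
  Subgroup.card_mul_index θ.ker and Subgroup.index_ker), and `Coprime r N2` by grp_cop.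
(5) From (2), (3): `N1 |H| = m N2 |H'|`, so `N1 r = m N2` (`|H'| ≥ 1`). `r ∣ m N2` and
  `Coprime r N2` give `r ∣ m`.
-/
import Pool.Agent.H42.RM.LBa
import Pool.Agent.H42.RM.LBd

set_option autoImplicit false

namespace Pool.Agent.H42.RM

open Pool.Agent.H42.PC WithZero

variable {G L : Type} [Group G] [Field L] [MulSemiringAction G L] {Λ : Loc G L} {F : L → L}
  {b : L} {W : Finset L} {mu : L → ℕ} {RI : Set L} {J N : ℕ}

theorem passage [Finite G] (hS : LSys Λ F b W mu RI J N) {t j : ℕ} (hj : 1 ≤ j)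
    (htj : t + j ≤ N) {x' : L} (hx' : x' ∈ lev F b (t + j)) {c c' : L} (hc : c ∈ W)
    (hc' : c' ∈ W) (h : Λ.V (F^[j] x' - c) < 1) (h' : Λ.V (x' - c') < 1)
    (hno : ∀ i, 1 ≤ i → i < j → ¬ NW Λ W (F^[i] x'))
    (hbig : exp (-(Nat.card Λ.I : ℤ)) < Λ.V (F^[j] x' - c)) :
    ∃ N1 N2 r : ℕ, 1 ≤ N1 ∧ 1 ≤ N2 ∧ r ∣ mu c' ∧ Nat.Coprime r N2 ∧ N1 * r = mu c' * N2 ∧
      Λ.V (F^[j] x' - c) = exp (-((N1 : ℤ) * (Nat.card (lst Λ (F^[j] x')) : ℤ))) ∧
      Λ.V (x' - c') = exp (-((N2 : ℤ) * (Nat.card (lst Λ x') : ℤ))) ∧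
      Nat.card (lst Λ (F x')) = r * Nat.card (lst Λ x') ∧
      Λ.V (F^[j] x' - c) ≤ Λ.V (x' - c') := by
  have hpath := c_path hS hj htj hx' hc hc' h h' hno hbig
  have hmu2 := hS.mu2 c' hc'
  have hxc : Λ.V (F^[j] x' - c) ≠ 0 := by
    intro h0
    rw [h0] at hbig
    exact not_lt_zero hbig
  have hDc : Λ.V (x' - c') ≠ 0 := by
    intro h0
    rw [h0, zero_pow (by omega)] at hpath
    exact hxc hpath
  have hx0 : F^[j] x' - c ≠ 0 := (Valuation.ne_zero_iff _).1 hxc
  have hD0 : x' - c' ≠ 0 := (Valuation.ne_zero_iff _).1 hDc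
  -- (1)
  have hH : lst Λ (F^[j] x') = lst Λ (F x') := by
    have h1 : F x' ∈ lev F b (t + (j - 1)) := by
      have := lev_iter (j := 1) hx' (by omega)
      rwa [show t + j - 1 = t + (j - 1) by omega] at this
    have h2 := lst_path hS (t := t) (j := j - 1) (by omega) h1 (fun i hi => by
      rw [← Function.iterate_succ_apply]
      exact hno (i + 1) (by omega) (by omega))
    rwa [← Function.iterate_succ_apply, show (j - 1).succ = j by omega] at h2
  -- (3)
  obtain ⟨N1, hN1, hV1⟩ := div_pos Λ (lst Λ (F^[j] x')) inf_le_left (F^[j] x' - c) hx0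
    (fun g hg => by
      rw [mem_lst] at hg
      rw [smul_sub, hg.2, hS.Wfix g hg.1 c hc]) h
  obtain ⟨N2, hN2, hV2⟩ := div_pos Λ (lst Λ x') inf_le_left (x' - c') hD0
    (fun g hg => by
      rw [mem_lst] at hg
      rw [smul_sub, hg.2, hS.Wfix g hg.1 c' hc']) h'
  -- (4)
  obtain ⟨k, _, th, th1, th2, th3⟩ := exists_th Λ
  obtain ⟨z, hz1, hz2⟩ := Λ.unif (lst Λ x') inf_le_left
  have hz0 : z ≠ 0 := (Valuation.ne_zero_iff Λ.V).1 (by rw [hz2]; exact exp_ne_zero)
  set D : Lˣ := Units.mk0 (x' - c') hD0 with hD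
  set Z : Lˣ := Units.mk0 z hz0 with hZ
  have hDv : (D : L) = x' - c' := rfl
  have hZv : (Z : L) = z := rfl
  have hone : th 1 = 1 := th3 1 (by simp)
  have hpow : ∀ (n : ℕ) (g : Λ.I), th (Z ^ n) g = (th Z g) ^ n := by
    intro n g
    induction n with
    | zero =>
      rw [pow_zero, pow_zero, hone]
      rfl
    | succ n ih =>
      rw [pow_succ, th2, pow_succ, ← ih]
      rfl
  have hDZ : ∀ g : Λ.I, th D g = (th Z g) ^ N2 := by
    intro g
    have h1 : D = Z ^ N2 * (D / Z ^ N2) := by rw [mul_div_cancel]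
    have h2 : Λ.V ((D / Z ^ N2 : Lˣ) : L) = 1 := by
      rw [Units.val_div_eq_div_val, Units.val_pow_eq_pow_val, map_div₀, map_pow, hDv, hZv, hV2, hz2,
        ← exp_nsmul]
      rw [show (N2 • (-(Nat.card (lst Λ x') : ℤ))) = -((N2 : ℤ) * (Nat.card (lst Λ x') : ℤ)) by
        rw [nsmul_eq_mul]; ring]
      exact div_self exp_ne_zero
    rw [h1, th2, th3 _ h2, ← hpow]
    exact mul_one _
  have hle : lst Λ (F x') ≤ Λ.I := inf_le_left
  set θ : lst Λ (F x') →* kˣ := (th D).comp (Subgroup.inclusion hle) with hθ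
  set ψ : lst Λ (F x') →* kˣ := (th Z).comp (Subgroup.inclusion hle) with hψ
  have hθψ : θ = ψ ^ N2 := by
    refine MonoidHom.ext fun g => ?_
    rw [hθ, MonoidHom.comp_apply, hDZ]
    rfl
  have hθ1 : ∀ g : lst Λ (F x'), θ g = 1 ↔ (g : G) • x' = x' := by
    intro g
    have hg := (mem_lst Λ g.1 (F x')).1 g.2
    have e1 : θ g = 1 ↔ Λ.V ((g : G) • (D : L) / (D : L) - 1) < 1 := by
      have h1 := th1 D (Subgroup.inclusion hle g) 1
      rw [map_one] at h1
      rw [hθ, MonoidHom.comp_apply, h1]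
      show Λ.V ((g : G) • (D : L) / (D : L) - (1 : G) • (D : L) / (D : L)) < 1 ↔ _
      rw [one_smul, div_self D.ne_zero]
    rw [e1, hDv]
    constructor
    · intro h1
      by_contra hne
      have e2 : (g : G) • (x' - c') = (g : G) • x' - c' := by
        rw [smul_sub, hS.Wfix _ hg.1 c' hc']
      have h2 : Λ.V ((g : G) • x' - c') < 1 := by
        rw [← e2, Λ.inv _ hg.1]
        exact h'
      have h3 := (c_ratio hS hc' h2 h' (by rw [hS.Fsmul, hg.2]) hne).2.2.2.2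
      rw [e2] at h1
      exact h3 h1
    · intro h1
      rw [smul_sub, h1, hS.Wfix _ hg.1 c' hc', div_self hD0, sub_self, map_zero]
      exact zero_lt_one
  have hker : θ.ker = (lst Λ x').subgroupOf (lst Λ (F x')) := by
    ext g
    rw [MonoidHom.mem_ker, hθ1 g, Subgroup.mem_subgroupOf, mem_lst]
    exact ⟨fun h1 => ⟨hle g.2, h1⟩, fun h1 => h1.2⟩
  have hkc : Nat.card θ.ker = Nat.card (lst Λ x') := by
    rw [hker]
    exact Nat.card_congr (Subgroup.subgroupOfEquivOfLe (lst_le hS x')).toEquiv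
  have hkk : θ.ker ≤ ψ.ker := by
    intro g hg
    rw [MonoidHom.mem_ker, hθ1 g] at hg
    have h1 := th1 Z (Subgroup.inclusion hle g) 1
    rw [map_one] at h1
    rw [MonoidHom.mem_ker, hψ, MonoidHom.comp_apply, h1]
    show Λ.V ((g : G) • z / z - (1 : G) • z / z) < 1
    rw [one_smul, hz1 g ((mem_lst Λ _ _).2 ⟨hle g.2, hg⟩), sub_self, map_zero]
    exact zero_lt_one
  have hcop := grp_cop θ ψ hkk hθψ
  have hcard : Nat.card (lst Λ (F x')) = Nat.card θ.range * Nat.card (lst Λ x') := by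
    rw [← hkc, ← Subgroup.index_ker, mul_comm, Subgroup.card_mul_index]
  have hcpos : 0 < Nat.card (lst Λ x') := Nat.card_pos
  have hnum : N1 * Nat.card θ.range = mu c' * N2 := by
    have h1 := hpath
    rw [hV1, hV2, ← exp_nsmul, hH, hcard] at h1
    have h2 := exp_injective h1
    rw [nsmul_eq_mul] at h2
    push_cast at h2
    have h3 : ((N1 * Nat.card θ.range : ℕ) : ℤ) * (Nat.card (lst Λ x') : ℤ) =
        ((mu c' * N2 : ℕ) : ℤ) * (Nat.card (lst Λ x') : ℤ) := by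
      push_cast
      linarith
    have h4 := mul_right_cancel₀ (by exact_mod_cast hcpos.ne') h3
    exact_mod_cast h4
  refine ⟨N1, N2, Nat.card θ.range, hN1, hN2, ?_, hcop, hnum, hV1, hV2, hcard, ?_⟩
  · exact hcop.dvd_of_dvd_mul_right ⟨N1, by rw [← hnum, mul_comm]⟩
  · rw [hpath]
    exact pow_le_of_le_one zero_le h'.le (by omega)

end Pool.Agent.H42.RM
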