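/-
ROW LCb. Points on the cycle. Write `x ~ y` for `V (x - y) < 1` (an equivalence relation).
PROOFS.
* lon_it: `LOn x` with `k` gives `LOn (F^[i] x)` with `k + i`: `V (F^[i] x - F^[i] (F^[k] b)) ≤
  V (x - F^[k] b)` by it_sub (orbit of `F^[k] b` in RI).
* lon_per: `x ~ F^[k] b`, so `F^[n] x ~ F^[n+k] b = F^[k] (F^[n] b) ~ F^[k] b ~ x` (it_sub twice, ri_orb).
* on_near_b: `n ∣ t`, `t = n q`; by lon_per and lon_it, `F^[n i] y ~ y` for all `i`
  (induction), and `F^[t] y = b`.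
* lon_up (existence of preimages on the cycle): `w ~ F^[k] b ~ F^[k] (F^[n] b) = F (F^[k+n-1] b)`;
  `y = F^[k+n-1] b ∈ RI`, hS.root gives `z` with `F z = w`, `z ~ y`. (As in weak_cyc, PCM/D1.)
* shallow: as `shallow` in PCM/D1.lean (section DRig), with `weak_cyc`, `onC_eq` replaced by
  on_near_b, iter_sub by it_sub (row LAa; the orbit of `y` is in RI by it_ri), crit_iter_fixed by
  it_c, iter_crit_le by ret_le, ret_small by ret_sm, rigid by rigid (row LCa).
-/
import Pool.Agent.H42.RM.LCa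

set_option autoImplicit false

namespace Pool.Agent.H42.RM

open Pool.Agent.H42.PC WithZero

variable {G L : Type} [Group G] [Field L] [MulSemiringAction G L] {Λ : Loc G L} {F : L → L}
  {b : L} {W : Finset L} {mu : L → ℕ} {RI : Set L} {J N : ℕ}

theorem lon_it (hS : LSys Λ F b W mu RI J N) {x : L} (h : LOn Λ F b x) (i : ℕ) :
    LOn Λ F b (F^[i] x) := by
  obtain ⟨k, hk⟩ := h
  refine ⟨i + k, ?_⟩
  rw [Function.iterate_add_apply]
  refine lt_of_le_of_lt (it_sub hS (fun j _ => ?_) hk) hk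
  rw [← Function.iterate_add_apply]
  exact hS.ri_orb _

theorem lon_per (hS : LSys Λ F b W mu RI J N) {n : ℕ} (hb : Λ.V (F^[n] b - b) < 1) {x : L}
    (h : LOn Λ F b x) : Λ.V (F^[n] x - x) < 1 := by
  obtain ⟨k, hk⟩ := h
  have h1 : Λ.V (F^[n] x - F^[n] (F^[k] b)) < 1 := by
    refine lt_of_le_of_lt (it_sub hS (fun j _ => ?_) hk) hk
    rw [← Function.iterate_add_apply]
    exact hS.ri_orb _
  have h2 : Λ.V (F^[k] (F^[n] b) - F^[k] b) < 1 :=
    lt_of_le_of_lt (it_sub hS (fun j _ => hS.ri_orb j) hb) hb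
  have e : F^[n] (F^[k] b) = F^[k] (F^[n] b) := by
    rw [← Function.iterate_add_apply, ← Function.iterate_add_apply, Nat.add_comm]
  have h3 : Λ.V (F^[k] b - x) < 1 := by
    rw [Valuation.map_sub_swap]
    exact hk
  rw [e] at h1
  rw [show F^[n] x - x = (F^[n] x - F^[k] (F^[n] b)) + ((F^[k] (F^[n] b) - F^[k] b) +
    (F^[k] b - x)) by ring]
  exact Λ.V.map_add_lt h1 (Λ.V.map_add_lt h2 h3)

theorem on_near_b (hS : LSys Λ F b W mu RI J N) {n : ℕ} (hb : Λ.V (F^[n] b - b) < 1) {t : ℕ}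
    (hnt : n ∣ t) {y : L} (hy : y ∈ lev F b t) (h : LOn Λ F b y) : Λ.V (y - b) < 1 := by
  obtain ⟨q, rfl⟩ := hnt
  have key : ∀ i : ℕ, Λ.V (F^[n * i] y - y) < 1 := by
    intro i
    induction i with
    | zero =>
      rw [Nat.mul_zero, Function.iterate_zero, id, sub_self, map_zero]
      exact zero_lt_one
    | succ i ih =>
      have h1 := lon_per hS hb (lon_it hS h (n * i))
      have e : F^[n * (i + 1)] y = F^[n] (F^[n * i] y) := by
        rw [← Function.iterate_add_apply]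
        congr 2
        ring
      rw [e, show F^[n] (F^[n * i] y) - y = (F^[n] (F^[n * i] y) - F^[n * i] y) +
        (F^[n * i] y - y) by ring]
      exact Λ.V.map_add_lt h1 ih
  have h2 := key q
  have h3 : F^[n * q] y = b := hy
  rw [h3, Valuation.map_sub_swap] at h2
  exact h2

theorem lon_up (hS : LSys Λ F b W mu RI J N) {n : ℕ} (hn : 1 ≤ n) (hb : Λ.V (F^[n] b - b) < 1)
    {t : ℕ} (ht : t < N) {w : L} (hw : w ∈ lev F b t) (h : LOn Λ F b w) :
    ∃ z, F z = w ∧ LOn Λ F b z := by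
  obtain ⟨k, hk⟩ := h
  have h1 : Λ.V (F^[k] (F^[n] b) - F^[k] b) < 1 :=
    lt_of_le_of_lt (it_sub hS (fun j _ => hS.ri_orb j) hb) hb
  have h2 : Λ.V (F (F^[k + n - 1] b) - w) < 1 := by
    have e : F (F^[k + n - 1] b) = F^[k] (F^[n] b) := by
      rw [← Function.iterate_succ_apply' F, ← Function.iterate_add_apply]
      rw [show (k + n - 1).succ = k + n by omega]
    rw [e, show F^[k] (F^[n] b) - w = (F^[k] (F^[n] b) - F^[k] b) + (F^[k] b - w) by ring]
    refine Λ.V.map_add_lt h1 ?_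
    rw [Valuation.map_sub_swap]
    exact hk
  obtain ⟨z, hz, hyz⟩ := hS.root t ht w hw (F^[k + n - 1] b) (hS.ri_orb _) h2
  refine ⟨z, hz, k + n - 1, ?_⟩
  rw [Valuation.map_sub_swap]
  exact hyz

theorem shallow [Finite G] (hS : LSys Λ F b W mu RI J N) {n v0 : ℕ} (hn : 1 ≤ n) (hv : 1 ≤ v0)
    (hb : Λ.V (F^[n] b - b) = exp (-((v0 : ℤ) * (Nat.card Λ.I : ℤ)))) {t : ℕ} (ht : t ≤ N)
    {y : L} (hy : y ∈ lev F b t) (hon : LOn Λ F b y) {c : L} (hc : c ∈ W)
    (h : Λ.V (y - c) ≤ exp (-(Nat.card Λ.I : ℤ))) : t < n * v0 := by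
  have hE := card_pos Λ
  have hE1 := exp_E_lt Λ
  have hv' : (1 : ℤ) ≤ (v0 : ℤ) := by exact_mod_cast hv
  have hb1 : Λ.V (F^[n] b - b) < 1 := by
    rw [hb]
    exact exp_small hE hv'
  obtain ⟨a, ha⟩ : ∃ a, a = t % n := ⟨_, rfl⟩
  obtain ⟨q, hq⟩ : ∃ q, q = t / n := ⟨_, rfl⟩
  have htq : a + n * q = t := by rw [ha, hq]; exact Nat.mod_add_div t n
  have han : a < n := by rw [ha]; exact Nat.mod_lt _ hn
  have hat : a ≤ t := by omega
  have htan : t - a = n * q := by omega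
  obtain ⟨Y, hY⟩ : ∃ Y, Y = F^[a] y := ⟨_, rfl⟩
  have hYl : Y ∈ lev F b (n * q) := by
    rw [hY, ← htan]
    exact lev_iter hy hat
  have hYon : LOn Λ F b Y := by
    rw [hY]
    exact lon_it hS hon a
  have hYb : Λ.V (Y - b) < 1 := on_near_b hS hb1 (Dvd.intro _ rfl) hYl hYon
  have hcy : Λ.V (c - y) ≤ exp (-(Nat.card Λ.I : ℤ)) := by
    rw [Valuation.map_sub_swap]
    exact h
  have hcY : Λ.V (F^[a] c - Y) ≤ exp (-(Nat.card Λ.I : ℤ)) := by
    rw [hY]
    exact (it_sub hS (fun i _ => it_ri hS ht hy i) (lt_of_le_of_lt hcy hE1)).trans hcy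
  have hcb1 : Λ.V (F^[a] c - b) < 1 := by
    rw [show F^[a] c - b = (F^[a] c - Y) + (Y - b) by ring]
    exact Λ.V.map_add_lt (lt_of_le_of_lt hcY hE1) hYb
  have hcb : Λ.V (F^[a] c - b) ≤ exp (-(Nat.card Λ.I : ℤ)) := by
    refine fixed_small Λ (fun g hg => ?_) hcb1
    rw [smul_sub, it_c hS hg hc a, hS.fixb]
  have hYc : Λ.V (Y - F^[a] c) ≤ exp (-(Nat.card Λ.I : ℤ)) := by
    rw [Valuation.map_sub_swap]
    exact hcY
  have hYb' : Λ.V (Y - b) ≤ exp (-(Nat.card Λ.I : ℤ)) := by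
    rw [show Y - b = (Y - F^[a] c) + (F^[a] c - b) by ring]
    exact Λ.V.map_add_le hYc hcb
  have claim : ∀ i : ℕ, Λ.V (F^[i * n] Y - F^[i * n] b) ≤
      exp (-(((i : ℤ) + 1) * (Nat.card Λ.I : ℤ))) := by
    intro i
    induction i with
    | zero =>
      rw [Nat.zero_mul, Function.iterate_zero, id, id, Nat.cast_zero, zero_add, one_mul]
      exact hYb'
    | succ i ih =>
      have e1 : ∀ z : L, F^[(i + 1) * n] z = F^[n] (F^[i * n] z) := by
        intro z
        rw [← Function.iterate_add_apply]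
        congr 2
        ring
      have s2 := ret_sm hS hv hb i
      have s0 : Λ.V (F^[i * n] Y - F^[i * n] b) ≤ exp (-(Nat.card Λ.I : ℤ)) := by
        refine ih.trans ?_
        rw [exp_le_exp]
        have : (0 : ℤ) ≤ (i : ℤ) := Int.natCast_nonneg i
        nlinarith
      have s1 : Λ.V (F^[i * n] Y - b) ≤ exp (-(Nat.card Λ.I : ℤ)) := by
        rw [show F^[i * n] Y - b = (F^[i * n] Y - F^[i * n] b) + (F^[i * n] b - b) by ring]
        exact Λ.V.map_add_le s0 s2
      have h1 := ret_le hS hn (lt_of_le_of_lt s1 hE1) (lt_of_le_of_lt s2 hE1)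
      rw [e1, e1]
      have h2 := h1.trans (mul_le_mul' ih (max_le s1 s2))
      rw [← exp_add] at h2
      refine h2.trans (le_of_eq ?_)
      congr 1
      push_cast
      ring
  have hfin := claim q
  have hYq : F^[q * n] Y = b := by
    rw [mul_comm]
    exact hYl
  rw [hYq, Valuation.map_sub_swap] at hfin
  by_cases hq0 : q = 0
  · subst hq0
    have : t = a := by omega
    rw [this]
    calc a < n := han
      _ = n * 1 := (mul_one n).symm
      _ ≤ n * v0 := Nat.mul_le_mul_left n hv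
  · have hq1 : 1 ≤ q := Nat.one_le_iff_ne_zero.2 hq0
    rw [rigid hS hn hv hb hq1, exp_le_exp] at hfin
    have hqv : q + 1 ≤ v0 := by
      by_contra hcon
      have h1 : v0 < q + 1 := not_le.1 hcon
      have h2 : (v0 : ℤ) + 1 ≤ (q : ℤ) + 1 := by exact_mod_cast h1
      nlinarith
    calc t = a + n * q := htq.symm
      _ < n + n * q := by omega
      _ = n * (q + 1) := by ring
      _ ≤ n * v0 := Nat.mul_le_mul_left n hqv

end Pool.Agent.H42.RM
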