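/-
ROW LCc. Size of the digits on the cycle.
PROOF of size. (Compare dLate_prev, dLate_size in PCM/D2.lean, section DLate.) Strong induction on
`t`. Let `E = Nat.card Λ.I`.
Case `t = n * v0`: `t / n - v0 = 0`. shallow (row LCb; contrapositive) gives `exp (-E) < V (x - c)`, so
`N1 * |lst x| < E ≤ M^t * |lst x|` (lst_bd of row LBc; `hM`), hence `N1 < M^(n*v0)`.
Case `t > n * v0`: `q = (t-1)/n`, so `q ≥ v0`, `n q ≤ t - 1 < n (q+1)`. `F^[t - nq] x ∈ lev (n q)` is on
the cycle (lon_it), hence near `b ∈ W` (on_near_b). Let `i ≥ 1` be minimal with `NW (F^[i] x)`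
(Nat.find); `i ≤ t - n q`, so `n v0 ≤ n q ≤ t - i`. Let `cp ∈ W` be near `F^[i] x`. By shallow at level
`t - i ≥ n v0`: `exp (-E) < V (F^[i] x - cp)`. passage (row LBe) with `t := t - i`, `j := i`, `x' := x`,
`c := cp`, `c' := c` gives `N1', N2, r`; `N2 = N1` since
`exp (-(N2 |lst x|)) = exp (-(N1 |lst x|))` and `|lst x| ≥ 1` (exp is injective). So
`N1' * r = mu c * N1`, `r ∣ mu c`, `Coprime r N1`; with `mu c = r k`: `N1' = k N1` (`r ≥ 1`).
Induction hypothesis for `t - i`, `F^[i] x` (lon_it), `cp`, `N1'`: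
 * `¬ l ∣ N1'`: then `¬ l ∣ N1` as `N1 ∣ N1'`.
 * `2^((t-i)/n - v0) * N1' < M^(n v0)`; `(t-i)/n = q` (as `n q ≤ t - i < n (q+1)`). If `l ∤ N1` done;
   suppose `l ∣ N1`. If `n ∣ t` then `t / n = q + 1`, and `x` is near `b` (on_near_b), so `c = b`
   (w_sep; `V (c - b) = V ((x - b) - (x - c)) < 1`) and `l ∣ mu b = r k`; `l ∤ r` (Coprime r N1 and
   `l ∣ N1`), so `l ∣ k`, `k ≥ 2` (k ≥ 1 because `mu b ≥ 2`), `N1' ≥ 2 N1` and
   `2^(q+1-v0) N1 ≤ 2^(q-v0) N1'` (`q ≥ v0`). If `n ∤ t` then `t / n = q` and `N1 ≤ N1'` (`k ≥ 1`).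
-/
import Pool.Agent.H42.RM.LBe
import Pool.Agent.H42.RM.LCb

set_option autoImplicit false

namespace Pool.Agent.H42.RM

open Pool.Agent.H42.PC WithZero

variable {G L : Type} [Group G] [Field L] [MulSemiringAction G L] {Λ : Loc G L} {F : L → L}
  {b : L} {W : Finset L} {mu : L → ℕ} {RI : Set L} {J N : ℕ}

private theorem LCc_inj {a c k : ℕ} (hk : 0 < k)
    (h : (exp (-((a : ℤ) * (k : ℤ))) : ℤᵐ⁰) = exp (-((c : ℤ) * (k : ℤ)))) : a = c := by
  have h1 := exp_injective h
  have h2 : ((a * k : ℕ) : ℤ) = ((c * k : ℕ) : ℤ) := by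
    push_cast
    linarith
  have h3 : a * k = c * k := by exact_mod_cast h2
  exact Nat.eq_of_mul_eq_mul_right hk h3

private theorem LCc_prev (hS : LSys Λ F b W mu RI J N) {n v0 : ℕ} (hn : 1 ≤ n)
    (hb1 : Λ.V (F^[n] b - b) < 1) {t : ℕ} (ht : n * v0 < t) {x : L} (hx : x ∈ lev F b t)
    (hon : LOn Λ F b x) :
    ∃ i, 1 ≤ i ∧ n * ((t - 1) / n) ≤ t - i ∧ i ≤ t ∧ (∃ cp ∈ W, Λ.V (F^[i] x - cp) < 1) ∧
      ∀ i', 1 ≤ i' → i' < i → ¬ NW Λ W (F^[i'] x) := by
  classical
  set q := (t - 1) / n with hq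
  have h1 : n * q ≤ t - 1 := Nat.mul_div_le _ _
  have hmem : NW Λ W (F^[t - n * q] x) := by
    have ha : F^[t - n * q] x ∈ lev F b (n * q) := by
      have := lev_iter hx (show t - n * q ≤ t by omega)
      rwa [show t - (t - n * q) = n * q by omega] at this
    exact ⟨b, hS.bW, on_near_b hS hb1 (Dvd.intro _ rfl) ha (lon_it hS hon _)⟩
  have hex : ∃ i, 1 ≤ i ∧ NW Λ W (F^[i] x) := ⟨t - n * q, by omega, hmem⟩
  have hspec := Nat.find_spec hex
  have hle : Nat.find hex ≤ t - n * q := Nat.find_min' hex ⟨by omega, hmem⟩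
  refine ⟨Nat.find hex, hspec.1, by omega, by omega, hspec.2, ?_⟩
  intro i' h1' h2' hbad
  exact Nat.find_min hex h2' ⟨h1', hbad⟩

theorem size [Finite G] (hS : LSys Λ F b W mu RI J N) {n v0 l M : ℕ} (hn : 1 ≤ n) (hv : 1 ≤ v0)
    (hb : Λ.V (F^[n] b - b) = exp (-((v0 : ℤ) * (Nat.card Λ.I : ℤ)))) (hl : l.Prime)
    (hlb : l ∣ mu b) (hM : ∀ c ∈ W, mu c ≤ M) (t : ℕ) :
    n * v0 ≤ t → t ≤ N → ∀ x ∈ lev F b t, LOn Λ F b x → ∀ c ∈ W, Λ.V (x - c) < 1 → ∀ N1 : ℕ,
      Λ.V (x - c) = exp (-((N1 : ℤ) * (Nat.card (lst Λ x) : ℤ))) →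
      ¬ l ∣ N1 ∨ 2 ^ (t / n - v0) * N1 < M ^ (n * v0) := by
  classical
  have hb1 : Λ.V (F^[n] b - b) < 1 := by
    rw [hb, ← exp_zero, exp_lt_exp]
    have h1 : (0 : ℤ) < (Nat.card Λ.I : ℤ) := by exact_mod_cast Nat.card_pos
    have h2 : (0 : ℤ) < (v0 : ℤ) := by exact_mod_cast hv
    have := mul_pos h2 h1
    linarith
  induction t using Nat.strong_induction_on with
  | _ t ih =>
  intro ht htN x hx hon c hc hxc N1 hV
  have hcard : 0 < Nat.card (lst Λ x) := Nat.card_pos
  rcases ht.eq_or_lt with he | hlt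
  · right
    have h1 : exp (-(Nat.card Λ.I : ℤ)) < Λ.V (x - c) := by
      by_contra h2
      rw [not_lt] at h2
      have := shallow hS hn hv hb htN hx hon hc h2
      omega
    rw [hV, exp_lt_exp] at h1
    have h2 : N1 * Nat.card (lst Λ x) < Nat.card Λ.I := by
      have h3 : ((N1 * Nat.card (lst Λ x) : ℕ) : ℤ) < (Nat.card Λ.I : ℤ) := by
        push_cast
        linarith
      exact_mod_cast h3
    have h3 := lst_bd hS hM htN hx
    have h4 : N1 < M ^ t := Nat.lt_of_mul_lt_mul_right (lt_of_lt_of_le h2 h3)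
    rw [← he, Nat.mul_div_cancel_left v0 (by omega), Nat.sub_self, pow_zero, one_mul, he]
    exact h4
  · obtain ⟨i, hi1, hit, hitt, ⟨cp, hcp, hxp⟩, hno⟩ := LCc_prev hS hn hb1 hlt hx hon
    set q := (t - 1) / n with hq
    have hq1 : n * q ≤ t - 1 := Nat.mul_div_le _ _
    have hq2 : v0 ≤ q := (Nat.le_div_iff_mul_le (by omega)).2 (by rw [mul_comm]; omega)
    have hq3 : t - 1 < n * (q + 1) := Nat.lt_mul_div_succ _ (by omega)
    have hq4 : n * v0 ≤ n * q := Nat.mul_le_mul_left _ hq2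
    have hti : t - i + i = t := by omega
    have hxl : F^[i] x ∈ lev F b (t - i) := lev_iter hx hitt
    have honi : LOn Λ F b (F^[i] x) := lon_it hS hon i
    have hbig : exp (-(Nat.card Λ.I : ℤ)) < Λ.V (F^[i] x - cp) := by
      by_contra h2
      rw [not_lt] at h2
      have := shallow hS hn hv hb (t := t - i) (by omega) hxl honi hcp h2
      omega
    obtain ⟨N1', N2, r, hN1', hN2, hr, hcop, hmul, hV1, hV2, -, -⟩ := passage hS (t := t - i) (j := i) hi1
      (by omega) (x' := x) (by rw [hti]; exact hx) hcp hc hxp hxc hno hbig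
    have hN : N1 = N2 := LCc_inj hcard (hV.symm.trans hV2)
    subst hN
    obtain ⟨k, hk⟩ := hr
    have hmu2 := hS.mu2 c hc
    have hr1 : 0 < r := by
      rcases Nat.eq_zero_or_pos r with h | h
      · rw [h, zero_mul] at hk
        omega
      · exact h
    have hk1 : 0 < k := by
      rcases Nat.eq_zero_or_pos k with h | h
      · rw [h, mul_zero] at hk
        omega
      · exact h
    have hNk : N1' = k * N1 := by
      have h5 : r * N1' = r * (k * N1) := by
        rw [mul_comm r N1', hmul, hk]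
        ring
      exact Nat.eq_of_mul_eq_mul_left hr1 h5
    rcases ih (t - i) (by omega) (by omega) (by omega) _ hxl honi cp hcp hxp N1' hV1 with h | h
    · left
      intro h6
      exact h (hNk ▸ Dvd.dvd.mul_left h6 k)
    · by_cases hlN : l ∣ N1
      swap
      · exact Or.inl hlN
      right
      have hdq : (t - i) / n = q := by
        apply Nat.div_eq_of_lt_le
        · rw [mul_comm]
          exact hit
        · rw [mul_comm]
          omega
      rw [hdq] at h
      by_cases hnt : n ∣ t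
      · have hnear : Λ.V (x - b) < 1 := on_near_b hS hb1 hnt hx hon
        have hcb : c = b := by
          refine w_sep hS hc hS.bW ?_
          have e1 : c - b = (x - b) - (x - c) := by ring
          rw [e1]
          exact Λ.V.map_sub_lt hnear hxc
        obtain ⟨s, hs⟩ := hnt
        have hs1 : q < s := by
          have : n * q < n * s := by omega
          exact Nat.lt_of_mul_lt_mul_left this
        have hs2 : s ≤ q + 1 := by
          have : n * s ≤ n * (q + 1) := by omega
          exact Nat.le_of_mul_le_mul_left this (by omega)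
        have hs3 : s = q + 1 := by omega
        have hdt : t / n = q + 1 := by
          rw [hs, Nat.mul_div_cancel_left s (by omega), hs3]
        have hlr : ¬ l ∣ r := by
          intro h7
          have h8 : l ∣ Nat.gcd r N1 := Nat.dvd_gcd h7 hlN
          rw [hcop] at h8
          exact hl.one_lt.ne' (Nat.dvd_one.1 h8)
        have hlk : l ∣ k := by
          have h7 : l ∣ r * k := by
            rw [← hk, hcb]
            exact hlb
          exact (hl.dvd_mul.1 h7).resolve_left hlr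
        have hk2 : 2 ≤ k := hl.two_le.trans (Nat.le_of_dvd hk1 hlk)
        have he1 : q + 1 - v0 = (q - v0) + 1 := by omega
        rw [hdt, he1]
        refine lt_of_le_of_lt ?_ h
        rw [hNk, pow_succ, mul_assoc]
        exact Nat.mul_le_mul_left _ (Nat.mul_le_mul_right _ hk2)
      · have hdt : t / n = q := by
          apply Nat.div_eq_of_lt_le
          · rw [mul_comm]
            omega
          · rw [mul_comm]
            have h9 : t ≠ n * (q + 1) := fun h10 => hnt ⟨q + 1, h10⟩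
            omega
        rw [hdt]
        refine lt_of_le_of_lt ?_ h
        rw [hNk]
        exact Nat.mul_le_mul_left _ (Nat.le_mul_of_pos_left _ hk1)

end Pool.Agent.H42.RM
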