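/-
ROW LCd. From level `t0 = n * (v0 + M * (n * v0))` on every critical residue above the cycle point is
a full digit. Let `E = Nat.card Λ.I`. PROOFS.
* start: `n ∣ t0`, so `V (y - b) < 1` (on_near_b); `t0 ≥ n * v0` and shallow give
  `exp (-E) < V (y - b)`, so `y ≠ b`; div_pos (PCM/D2) with `H = lst y` gives `N1 ≥ 1` with
  `V (y - b) = exp (-(N1 |lst y|))`. size (row LCc) with `c = b`: `¬ l ∣ N1` or
  `2^(t0/n - v0) * N1 < M^(n v0)`; but `t0/n - v0 = M * (n * v0)` and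
  `2^(M (n v0)) = (2^M)^(n v0) ≥ M^(n v0)` (Nat.lt_two_pow_self), `N1 ≥ 1`: contradiction.
* digits: strong induction on `j` (compare DCb_claim in AD/DCb.lean). Let `i ≥ 1` be minimal with
  `NW (F^[i] x')`; it exists and is `≤ j` because `F^[j] x' = y` is near `b`. Let
  `x'' = F^[i] x' ∈ lev (t0 + (j - i))` and `c'' ∈ W` near it; if `i = j` take `x'' = y`, `c'' = b`, and
  hy2, hy3 give `exp (-E) < V (x'' - c'')` and `N1` with `¬ l ∣ N1`; if `i < j` the induction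
  hypothesis for `j - i`, `x''`, `c''` gives the same. passage (row LBe) with `t := t0 + (j - i)`,
  `j := i`, `c := c''` gives `N1', N2, r` with `N1' = N1` (exp injective, `|lst x''| ≥ 1`),
  `N1 r = mu c' * N2`, `r ∣ mu c'`, `Coprime r N2`, `|lst (F x')| = r |lst x'|` and
  `V (x'' - c'') ≤ V (x' - c')`. So (ii). (i): `N2 ∣ N1 r` and `Coprime r N2` give `N2 ∣ N1`,
  so `¬ l ∣ N2`. (iii): if `l^k ∣ mu c'` then `l^k ∣ N1 r`; `Coprime (l^k) N1` (l prime, `¬ l ∣ N1`), so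
  `l^k ∣ r`.
-/
import Pool.Agent.H42.RM.LCc

set_option autoImplicit false

namespace Pool.Agent.H42.RM

open Pool.Agent.H42.PC WithZero

variable {G L : Type} [Group G] [Field L] [MulSemiringAction G L] {Λ : Loc G L} {F : L → L}
  {b : L} {W : Finset L} {mu : L → ℕ} {RI : Set L} {J N : ℕ}

theorem LCd_inj {a c k : ℕ} (hk : 0 < k)
    (h : (exp (-((a : ℤ) * (k : ℤ))) : ℤᵐ⁰) = exp (-((c : ℤ) * (k : ℤ)))) : a = c := by
  have h1 := exp_injective h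
  have h2 : ((a * k : ℕ) : ℤ) = ((c * k : ℕ) : ℤ) := by
    push_cast
    linarith
  have h3 : a * k = c * k := by exact_mod_cast h2
  exact Nat.eq_of_mul_eq_mul_right hk h3

theorem LCd_lt [Finite G] (Λ : Loc G L) {v0 : ℕ} (hv : 1 ≤ v0) :
    (exp (-((v0 : ℤ) * (Nat.card Λ.I : ℤ))) : ℤᵐ⁰) < 1 := by
  rw [← exp_zero, exp_lt_exp]
  have h0 : 0 < Nat.card Λ.I := Nat.card_pos
  have h1 : (0 : ℤ) < (Nat.card Λ.I : ℤ) := by exact_mod_cast h0
  have h2 : (0 : ℤ) < (v0 : ℤ) := by exact_mod_cast hv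
  have := mul_pos h2 h1
  linarith

theorem start [Finite G] (hS : LSys Λ F b W mu RI J N) {n v0 l M : ℕ} (hn : 1 ≤ n) (hv : 1 ≤ v0)
    (hb : Λ.V (F^[n] b - b) = exp (-((v0 : ℤ) * (Nat.card Λ.I : ℤ)))) (hl : l.Prime)
    (hlb : l ∣ mu b) (hM : ∀ c ∈ W, mu c ≤ M) (hN : n * (v0 + M * (n * v0)) ≤ N) {y : L}
    (hy : y ∈ lev F b (n * (v0 + M * (n * v0)))) (hon : LOn Λ F b y) :
    Λ.V (y - b) < 1 ∧ exp (-(Nat.card Λ.I : ℤ)) < Λ.V (y - b) ∧
      ∃ N1 : ℕ, ¬ l ∣ N1 ∧ Λ.V (y - b) = exp (-((N1 : ℤ) * (Nat.card (lst Λ y) : ℤ))) := by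
  have hlt : Λ.V (F^[n] b - b) < 1 := by
    rw [hb]
    exact LCd_lt Λ hv
  have ht0 : n * v0 ≤ n * (v0 + M * (n * v0)) := Nat.mul_le_mul_left _ (Nat.le_add_right _ _)
  have h1 : Λ.V (y - b) < 1 := on_near_b hS hlt (Dvd.intro _ rfl) hy hon
  have h2 : exp (-(Nat.card Λ.I : ℤ)) < Λ.V (y - b) := by
    by_contra h
    push Not at h
    have h3 := shallow hS hn hv hb hN hy hon hS.bW h
    omega
  have hyb : y - b ≠ 0 := by
    intro h
    rw [h, map_zero] at h2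
    exact not_lt_zero h2
  obtain ⟨N1, hN1, hV⟩ := div_pos Λ (lst Λ y) inf_le_left (y - b) hyb (fun g hg => by
    rw [smul_sub, hS.fixb g, ((mem_lst Λ g y).1 hg).2]) h1
  refine ⟨h1, h2, N1, ?_, hV⟩
  rcases size hS hn hv hb hl hlb hM (n * (v0 + M * (n * v0))) ht0 hN y hy hon b hS.bW h1 N1 hV with h | h
  · exact h
  · exfalso
    rw [Nat.mul_div_cancel_left _ (by omega : 0 < n), Nat.add_sub_cancel_left, pow_mul] at h
    have h3 : M ^ (n * v0) ≤ (2 ^ M) ^ (n * v0) := Nat.pow_le_pow_left (Nat.lt_two_pow_self).le _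
    have h4 : (2 ^ M) ^ (n * v0) * 1 ≤ (2 ^ M) ^ (n * v0) * N1 := Nat.mul_le_mul_left _ hN1
    omega

theorem digits [Finite G] (hS : LSys Λ F b W mu RI J N) {l t0 : ℕ} (hl : l.Prime) {y : L}
    (hy1 : Λ.V (y - b) < 1) (hy2 : exp (-(Nat.card Λ.I : ℤ)) < Λ.V (y - b))
    (hy3 : ∃ N1 : ℕ, ¬ l ∣ N1 ∧ Λ.V (y - b) = exp (-((N1 : ℤ) * (Nat.card (lst Λ y) : ℤ))))
    (j : ℕ) : 1 ≤ j → t0 + j ≤ N → ∀ x' ∈ lev F b (t0 + j), F^[j] x' = y → ∀ c' ∈ W,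
      Λ.V (x' - c') < 1 →
      (∃ N1 : ℕ, ¬ l ∣ N1 ∧ Λ.V (x' - c') = exp (-((N1 : ℤ) * (Nat.card (lst Λ x') : ℤ)))) ∧
      exp (-(Nat.card Λ.I : ℤ)) < Λ.V (x' - c') ∧
      ∃ r, r ∣ mu c' ∧ (∀ k, l ^ k ∣ mu c' → l ^ k ∣ r) ∧
        Nat.card (lst Λ (F x')) = r * Nat.card (lst Λ x') := by
  classical
  induction j using Nat.strong_induction_on with
  | _ j ih =>
  intro hj htN x' hx' hjy c' hc' hxc'
  have hex : ∃ i, 1 ≤ i ∧ NW Λ W (F^[i] x') := ⟨j, hj, b, hS.bW, by rw [hjy]; exact hy1⟩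
  obtain ⟨i, hi1, hij, hnw, hno⟩ : ∃ i, 1 ≤ i ∧ i ≤ j ∧ NW Λ W (F^[i] x') ∧
      ∀ i', 1 ≤ i' → i' < i → ¬ NW Λ W (F^[i'] x') := by
    refine ⟨Nat.find hex, (Nat.find_spec hex).1,
      Nat.find_min' hex ⟨hj, b, hS.bW, by rw [hjy]; exact hy1⟩, (Nat.find_spec hex).2, ?_⟩
    intro i' h1 h2 h3
    exact Nat.find_min hex h2 ⟨h1, h3⟩
  have key : ∃ c'' ∈ W, Λ.V (F^[i] x' - c'') < 1 ∧ exp (-(Nat.card Λ.I : ℤ)) < Λ.V (F^[i] x' - c'') ∧
      ∃ N1 : ℕ, ¬ l ∣ N1 ∧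
        Λ.V (F^[i] x' - c'') = exp (-((N1 : ℤ) * (Nat.card (lst Λ (F^[i] x')) : ℤ))) := by
    rcases hij.eq_or_lt with he | hlt
    · subst he
      rw [hjy]
      exact ⟨b, hS.bW, hy1, hy2, hy3⟩
    · obtain ⟨c'', hc'', h⟩ := hnw
      have hx'' : F^[i] x' ∈ lev F b (t0 + (j - i)) := by
        have := lev_iter hx' (show i ≤ t0 + j by omega)
        rwa [show t0 + j - i = t0 + (j - i) by omega] at this
      obtain ⟨h1, h2, -⟩ := ih (j - i) (by omega) (by omega) (by omega) (F^[i] x') hx''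
        (by rw [← Function.iterate_add_apply, show j - i + i = j by omega, hjy]) c'' hc'' h
      exact ⟨c'', hc'', h, h2, h1⟩
  obtain ⟨c'', hc'', hn1, hbig, N1, hlN, hVN⟩ := key
  have htj : t0 + (j - i) + i = t0 + j := by omega
  obtain ⟨N1', N2, r, -, -, hr, hcop, hmul, hV1, hV2, hlst, hle⟩ :=
    passage hS (t := t0 + (j - i)) (j := i) hi1 (by omega) (x' := x') (by rw [htj]; exact hx')
      hc'' hc' hn1 hxc' hno hbig
  have hNN : N1' = N1 := LCd_inj (Nat.card_pos) (hV1.symm.trans hVN)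
  subst hNN
  refine ⟨⟨N2, ?_, hV2⟩, lt_of_lt_of_le hbig hle, r, hr, ?_, hlst⟩
  · intro h
    apply hlN
    have h1 : N2 ∣ N1' * r := by
      rw [hmul]
      exact Dvd.intro_left _ rfl
    exact h.trans (hcop.symm.dvd_of_dvd_mul_right h1)
  · intro k hk
    have h1 : l ^ k ∣ N1' * r := by
      rw [hmul]
      exact hk.mul_right _
    have h2 : Nat.Coprime (l ^ k) N1' := Nat.Coprime.pow_left k ((Nat.Prime.coprime_iff_not_dvd hl).2 hlN)
    exact h2.dvd_of_dvd_mul_left h1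

end Pool.Agent.H42.RM
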