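/-
ROW LDb. The place of an LSys with simple critical points is full from level
`t0 = n * (v0 + 2 * (n * v0))` on. Let `P = lPlace hS hmu hs` (R = Set L, FR = FRg Λ F,
red = ball Λ, I = Λ.I, A = ball Λ '' W by definition; `P.OnC x ↔ LOn Λ F b x` by onC_iff of row LDa).
`V (F^[n] b - b) < 1` since `v0, |I| ≥ 1` (hb). PROOFS of the fields.
* hb: `⟨b, bW, rfl⟩`. hcyc: fr_iter (row LAa) and ball_eq.
* hex: lon_up (row LCb).
* hdig: a special case of hoff below (`w` on the cycle; then `F^[m - t0] w` is on the cycle, lon_it).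
* hmin: `(FRg Λ F)^[i] (ball b) = ball (F^[i] b)` (fr_iter, ri_orb), ball_eq and hmin.
* hgen: cyc_tree (row LBb).
* hlift: `ball w = ball w'`, so `V (w - w') < 1`; `x ∈ lev (t+1)` is in RI by hri (no bound on `t` is
  assumed in the statement of `Full`, this is why hri is a hypothesis). hS.root applied to
  `w' ∈ lev t'` and `y = x`, `V (F x - w') = V (w - w') < 1`, gives `z` with `F z = w'`,
  `V (x - z) < 1`, i.e. `ball z = ball x`.
* hoff: let `m ≥ t0`, `m < N`, `w ∈ lev m`, `y = F^[m - t0] w ∈ lev t0` on the cycle, `F x = w`,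
  `ball x ∈ ball '' W`. start (row LCd; `l = 2`, `M = 2`) for `y`; digits (row LCd) for
  `j = m - t0 + 1`, `x' = x ∈ lev (m+1)`, `c' ∈ W` near `x`: `r ∣ mu c' = 2` and `2^1 ∣ 2` gives `2 ∣ r`, so
  `r = 2` and `|lst w| = 2 |lst x|`. So `lst w ≤ lst x` is false: there is `g ∈ Λ.I` with
  `g • w = w` and `g • x ≠ x` (mem_lst).
-/
import Pool.Agent.H42.RM.LDa
import Pool.Agent.H42.RM.LBb
import Pool.Agent.H42.RM.LCd

set_option autoImplicit false

namespace Pool.Agent.H42.RM

open Pool.Agent.H42.PC WithZero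

variable {G L : Type} [Group G] [Field L] [MulSemiringAction G L] {Λ : Loc G L} {F : L → L}
  {b : L} {W : Finset L} {mu : L → ℕ} {RI : Set L} {J N : ℕ}

theorem full_lsys [Finite G] (hS : LSys Λ F b W mu RI J N) (hmu : ∀ c ∈ W, mu c = 2) {s : ℕ}
    (hs : W.card ≤ s) (hri : ∀ t, ∀ x ∈ lev F b t, x ∈ RI) {n v0 : ℕ} (hn : 1 ≤ n)
    (hv : 1 ≤ v0) (hb : Λ.V (F^[n] b - b) = exp (-((v0 : ℤ) * (Nat.card Λ.I : ℤ))))
    (hmin : ∀ i, 1 ≤ i → i < n → ¬ Λ.V (F^[i] b - b) < 1) :
    Full (lPlace hS hmu hs) n (n * (v0 + 2 * (n * v0))) := by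
  have hlt : Λ.V (F^[n] b - b) < 1 := by
    rw [hb]
    exact LCd_lt Λ hv
  have key : ∀ k : ℕ, (FRg Λ F)^[k] (ball Λ b) = ball Λ (F^[k] b) := fun k =>
    fr_iter hS fun i _ => hS.ri_orb i
  have hoff : ∀ m, n * (v0 + 2 * (n * v0)) ≤ m → m < N → ∀ w ∈ lev F b m,
      LOn Λ F b (F^[m - n * (v0 + 2 * (n * v0))] w) → ∀ x, F x = w →
      ball Λ x ∈ ball Λ '' (W : Set L) → ∃ g ∈ Λ.I, g • w = w ∧ g • x ≠ x := by
    intro m hm hmN w hw hon x hxw hxA
    set t0 := n * (v0 + 2 * (n * v0)) with ht0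
    have hy : F^[m - t0] w ∈ lev F b t0 := by
      have h1 := lev_iter hw (show m - t0 ≤ m by omega)
      rwa [show m - (m - t0) = t0 by omega] at h1
    obtain ⟨hy1, hy2, hy3⟩ := start hS (l := 2) (M := 2) hn hv hb Nat.prime_two
      (by rw [hmu b hS.bW]) (fun c hc => (hmu c hc).le) (by rw [← ht0]; omega)
      (by rw [← ht0]; exact hy) hon
    obtain ⟨c', hc', hxc'⟩ := (nw_iff Λ W x).2 hxA
    have hxl : x ∈ lev F b (t0 + (m - t0 + 1)) := by
      rw [show t0 + (m - t0 + 1) = m + 1 by omega]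
      show F^[m + 1] x = b
      rw [Function.iterate_succ_apply, hxw]
      exact hw
    obtain ⟨-, -, r, hr, hk, hcard⟩ := digits hS Nat.prime_two hy1 hy2 hy3 (t0 := t0)
      (m - t0 + 1) (by omega) (by omega) x hxl
      (by rw [Function.iterate_succ_apply, hxw]) c' hc' hxc'
    rw [hmu c' hc'] at hr hk
    have h2r : 2 ∣ r := by
      have := hk 1 (by norm_num)
      simpa using this
    have hr2 : r = 2 := Nat.dvd_antisymm hr h2r
    rw [hr2, hxw] at hcard
    by_contra hcon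
    push Not at hcon
    have hle : lst Λ w ≤ lst Λ x := by
      intro g hg
      obtain ⟨hg1, hg2⟩ := (mem_lst Λ g w).1 hg
      exact (mem_lst Λ g x).2 ⟨hg1, hcon g hg1 hg2⟩
    have h3 : Nat.card (lst Λ w) ≤ Nat.card (lst Λ x) := Subgroup.card_le_of_le hle
    have h4 : 0 < Nat.card (lst Λ x) := Nat.card_pos
    omega
  exact
    { hn := hn
      hb := ⟨b, hS.bW, rfl⟩
      hcyc := by
        show (FRg Λ F)^[n] (ball Λ b) = ball Λ b
        rw [key]
        exact ball_eq.2 hlt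
      hex := by
        intro t ht w hw hon
        obtain ⟨z, hz, hzon⟩ := lon_up hS hn hlt ht hw ((onC_iff hS hmu hs w).1 hon)
        exact ⟨z, hz, (onC_iff hS hmu hs z).2 hzon⟩
      hdig := by
        intro m hm hmN w hw hon x hxw _ hxA
        exact hoff m hm hmN w hw (lon_it hS ((onC_iff hS hmu hs w).1 hon) _) x hxw hxA
      hmin := by
        intro i hi1 hi2 h
        have h' : (FRg Λ F)^[i] (ball Λ b) = ball Λ b := h
        rw [key] at h'
        exact hmin i hi1 hi2 (ball_eq.1 h')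
      hgen := cyc_tree hS
      hlift := by
        intro t t' ht' w hw w' hw' hww' x hxw
        have hww'' : ball Λ w = ball Λ w' := hww'
        have hx : x ∈ lev F b (t + 1) := by
          show F^[t + 1] x = b
          rw [Function.iterate_succ_apply, hxw]
          exact hw
        obtain ⟨z, hz1, hz2⟩ := hS.root t' ht' w' hw' x (hri (t + 1) x hx)
          (by rw [hxw]; exact ball_eq.1 hww'')
        refine ⟨z, hz1, ?_⟩
        exact (ball_eq.2 hz2).symm
      hoff := by
        intro m hm hmN w hw hon x hxw hxA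
        exact hoff m hm hmN w hw ((onC_iff hS hmu hs _).1 hon) x hxw hxA }

end Pool.Agent.H42.RM
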