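/-
ROW EBe. PROOF: copy section EQ of PCM/E3.lean (EQ_card, EQ_ratio, EQ_mem, EQ_root, q_indep; they are
private there, so copy them under new names) with `FA f A` replaced by `RA p q β A`, `OO f h n0 A` by
`OR p q β h n0 A`, `f.comp^[t] X - C β` by `RP p q β t`, `itp_aeval` by rp_root (row EAc),
`itp_natDegree` by rp_ne (row EAa), `FA_iter` by ra_iter (row EAb).
-/
import Pool.Agent.H42.RM.EAc
import Pool.Agent.H42.PCM.E3

set_option autoImplicit false

namespace Pool.Agent.H42.RM

open Pool.Agent.H42.PC Polynomial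

theorem EBe_card {G' G : Type} [Group G'] [Group G] (φ : G' →* G)
    (hφ : Function.Surjective φ) (P : G → Prop) :
    Nat.card {g : G' // P (φ g)} = Nat.card {g : G // P g} * Nat.card φ.ker := by
  choose σ hσ using hφ
  rw [← Nat.card_prod]
  refine Nat.card_congr
    { toFun := fun g => (⟨φ g.1, g.2⟩, ⟨(σ (φ g.1))⁻¹ * g.1, ?_⟩)
      invFun := fun y => ⟨σ y.1.1 * y.2.1, ?_⟩
      left_inv := ?_
      right_inv := ?_ }
  · rw [MonoidHom.mem_ker, map_mul, map_inv, hσ, inv_mul_cancel]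
  · have := y.2.2
    rw [MonoidHom.mem_ker] at this
    rw [map_mul, hσ, this, mul_one]
    exact y.1.2
  · rintro ⟨g, hg⟩
    simp
  · rintro ⟨⟨y, hy⟩, ⟨k, hk⟩⟩
    rw [MonoidHom.mem_ker] at hk
    simp [hσ, hk]

theorem EBe_ratio {G' G : Type} [Group G'] [Group G] [Finite G'] (φ : G' →* G)
    (hφ : Function.Surjective φ) (p' : G' → Prop) (P : G → Prop) (h : ∀ g, p' g ↔ P (φ g)) :
    (Nat.card {g : G' // p' g} : ℝ) / Nat.card G' = (Nat.card {g : G // P g} : ℝ) / Nat.card G := by
  have h1 : Nat.card {g : G' // p' g} = Nat.card {g : G' // P (φ g)} :=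
    Nat.card_congr (Equiv.subtypeEquivRight h)
  have h2 : Nat.card G' = Nat.card G * Nat.card φ.ker := by
    have := EBe_card φ hφ (fun _ => True)
    rwa [Nat.card_congr (Equiv.subtypeUnivEquiv (fun _ => trivial)),
      Nat.card_congr (Equiv.subtypeUnivEquiv (fun _ => trivial))] at this
  have hk : (Nat.card φ.ker : ℝ) ≠ 0 := by
    have : 0 < Nat.card φ.ker := Nat.card_pos
    positivity
  rw [h1, EBe_card φ hφ P, h2]
  push_cast
  rw [mul_div_mul_right _ _ hk]

theorem EBe_mem {K A : Type} [Field K] [Field A] [Algebra K A] {p q h : K[X]} {β : K} {n0 t : ℕ}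
    (hn : n0 ≤ t) (x : A) :
    x ∈ OR p q β h n0 A t ↔ aeval ((RA p q β A)^[t - n0] x) h = 0 := by
  constructor
  · rintro ⟨y, hy, (⟨-, h1⟩ | ⟨h1, -⟩)⟩
    · rw [h1]
      exact hy
    · omega
  · intro hx
    exact ⟨_, hx, Or.inl ⟨hn, rfl⟩⟩

theorem EBe_root {K A : Type} [Field K] [Field A] [Algebra K A] {p q h : K[X]} {β : K}
    {n0 t : ℕ} (hB : RB p q β) (hn : n0 ≤ t) (hdvd : h ∣ RP p q β n0) (x : A)
    (hx : aeval ((RA p q β A)^[t - n0] x) h = 0) : aeval x (RP p q β t) = 0 := by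
  obtain ⟨r, hr⟩ := hdvd
  have h1 : aeval ((RA p q β A)^[t - n0] x) (RP p q β n0) = 0 := by
    rw [hr, map_mul, hx, zero_mul]
  rw [rp_root hB, ← Function.iterate_add_apply, Nat.add_sub_cancel' hn] at h1
  rw [rp_root hB]
  exact h1

theorem r_indep {K L : Type} [Field K] [CharZero K] [Field L] [Algebra K L] [IsGalois K L]
    [FiniteDimensional K L] {p q h : K[X]} {β : K} {n0 t : ℕ} (hB : RB p q β) (hn : n0 ≤ t)
    (hdvd : h ∣ RP p q β n0) (hs : ((RP p q β t).map (algebraMap K L)).Splits) :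
    PC.q (L ≃ₐ[K] L) (OR p q β h n0 L) t = qr p q h β n0 t := by
  unfold qr
  have hg0 : RP p q β t ≠ 0 := rp_ne hB.qdeg t
  generalize hg : RP p q β t = g at hg0 hs
  let ι : g.SplittingField →ₐ[K] L := SplittingField.lift g hs
  letI : Algebra g.SplittingField L := ι.toRingHom.toAlgebra
  haveI : IsScalarTower K g.SplittingField L := IsScalarTower.of_algebraMap_eq (fun x => by
    show algebraMap K L x = ι (algebraMap K _ x)
    rw [ι.commutes])
  have hι : ∀ x, algebraMap g.SplittingField L x = ι x := fun x => rfl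
  haveI : Normal K g.SplittingField := Normal.of_isSplittingField g
  unfold PC.q
  refine EBe_ratio (AlgEquiv.restrictNormalHom g.SplittingField)
    (AlgEquiv.restrictNormalHom_surjective L) _ _ ?_
  intro σ
  have hσ : ∀ x, ι (AlgEquiv.restrictNormalHom g.SplittingField σ x) = σ (ι x) := fun x =>
    AlgEquiv.restrictNormal_commutes σ g.SplittingField x
  constructor
  · rintro ⟨x, hx, hfix⟩
    rw [EBe_mem hn] at hx
    have hroot : aeval x g = 0 := by
      rw [← hg]
      exact EBe_root hB hn hdvd x hx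
    have hxr : x ∈ g.rootSet L := (mem_rootSet_of_ne hg0).2 hroot
    rw [← (SplittingField.splits g).image_rootSet ι] at hxr
    obtain ⟨x0, -, hx0⟩ := hxr
    refine ⟨x0, ?_, ?_⟩
    · rw [EBe_mem hn]
      have e := Polynomial.aeval_algHom_apply ι ((RA p q β g.SplittingField)^[t - n0] x0) h
      rw [ra_iter, hx0, hx] at e
      apply ι.injective
      exact e.symm.trans (map_zero ι).symm
    · apply ι.injective
      show ι (AlgEquiv.restrictNormalHom g.SplittingField σ x0) = ι x0
      rw [hσ, hx0]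
      exact hfix
  · rintro ⟨x0, hx0, hfix⟩
    rw [EBe_mem hn] at hx0
    refine ⟨ι x0, ?_, ?_⟩
    · rw [EBe_mem hn, ← ra_iter, Polynomial.aeval_algHom_apply, hx0, map_zero]
    · show σ (ι x0) = ι x0
      rw [← hσ]
      exact congrArg ι hfix

end Pool.Agent.H42.RM
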