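/-
ROW EFa. Frobenius elements fix a point of the orbit. PROOF. As frob_in (PCM/E3.lean, section EFr; copy
the private lemmas EFr_int, EFr_int_eq, EFr_val, EFr_exp, EFr_over under new names, and EFr_lev with
`RP p q β t`, rp_root, rp_ne). Changes: the bad set is
`{v | ¬ GoodR p q β M (max 1 n0) v}` (goodR_finite, row ECb, `Disj p q β M` from disj_hom, row EAc, and
IsAlgClosed.lift) together with `hbad` as before. For a good `v ∈ SR`: instead of place_over use
lsys_over and near_h (row ECd): `hS : LSys (mkLoc K w) (RA p q β L) b ..` and a root `y` of `h` in `L`,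
on the cycle. We need a point `x ∈ OR .. t` with `LOn x`: start from `y` (level `n0`) and
use lon_up (row LCb) `t - n0` times to get `x` with `(RA p q β L)^[t - n0] x = y`, `LOn x`
(induction; `lev_up` for the levels; `y ∈ lev n0` by r_sub of row EBd). So `x ∈ OR .. t` by definition
of OR. `LOn x` gives `k'` with `w (x - F^[k'] b) < 1`. The end of the proof is as in frob_in with
ra_base, ra_smul in place of FA_base, FA_smul.
-/
import Pool.Agent.H42.RM.ECb
import Pool.Agent.H42.RM.ECd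
import Pool.Agent.H42.RM.EBd
import Pool.Agent.H42.RM.LCb
import Pool.Agent.H42.PCM.E3

set_option autoImplicit false

namespace Pool.Agent.H42.RM

open Pool.Agent.H42.PC Polynomial NumberField IsDedekindDomain WithZero

open scoped Classical Pointwise

theorem EFa_int {K L : Type} [Field K] [NumberField K] [Field L] [NumberField L]
    [Algebra K L] (w : HeightOneSpectrum (𝓞 L)) (g : L ≃ₐ[K] L)
    (hg : g • w.asIdeal = w.asIdeal) (a : 𝓞 L) (n : ℕ) :
    w.intValuation (g • a) ≤ exp (-(n : ℤ)) ↔ w.intValuation a ≤ exp (-(n : ℤ)) := by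
  rw [w.intValuation_le_pow_iff_mem, w.intValuation_le_pow_iff_mem]
  have h : g • (w.asIdeal ^ n) = w.asIdeal ^ n := by
    rw [smul_pow', hg]
  constructor
  · intro h1
    rw [← h] at h1
    exact Ideal.smul_mem_pointwise_smul_iff.1 h1
  · intro h1
    rw [← h]
    exact Ideal.smul_mem_pointwise_smul_iff.2 h1

theorem EFa_int_eq {K L : Type} [Field K] [NumberField K] [Field L] [NumberField L]
    [Algebra K L] (w : HeightOneSpectrum (𝓞 L)) (g : L ≃ₐ[K] L)
    (hg : g • w.asIdeal = w.asIdeal) (a : 𝓞 L) :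
    w.intValuation (g • a) = w.intValuation a := by
  by_cases ha : a = 0
  · simp [ha]
  have hga : g • a ≠ 0 := (smul_ne_zero_iff_ne g).2 ha
  have h1 := w.intValuation_if_neg ha
  have h2 := w.intValuation_if_neg hga
  apply le_antisymm
  · rw [h1]
    rw [EFa_int w g hg a, h1]
  · rw [h2]
    rw [← EFa_int w g hg a, h2]

theorem EFa_val {K L : Type} [Field K] [NumberField K] [Field L] [NumberField L]
    [Algebra K L] (w : HeightOneSpectrum (𝓞 L)) (g : L ≃ₐ[K] L)
    (hg : g • w.asIdeal = w.asIdeal) (y : L) :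
    w.valuation L (g • y) = w.valuation L y := by
  obtain ⟨a, c, hc, rfl⟩ := IsFractionRing.div_surjective (A := 𝓞 L) y
  have e1 : g • (algebraMap (𝓞 L) L a / algebraMap (𝓞 L) L c) =
      algebraMap (𝓞 L) L (g • a) / algebraMap (𝓞 L) L (g • c) := by
    rw [AlgEquiv.smul_def, map_div₀]
    rfl
  rw [e1, map_div₀, map_div₀]
  simp only [HeightOneSpectrum.valuation_of_algebraMap, EFa_int_eq w g hg]

theorem EFa_exp {z : ℤᵐ⁰} (h0 : z ≠ 0) (h1 : z < 1) :
    ∃ n : ℕ, 1 ≤ n ∧ z = exp (-(n : ℤ)) := by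
  have hz : z = exp (log z) := (exp_log h0).symm
  rw [hz, ← exp_zero, exp_lt_exp] at h1
  refine ⟨(-log z).toNat, by omega, ?_⟩
  rw [Int.toNat_of_nonneg (by omega), neg_neg]
  exact hz

theorem EFa_over {K L : Type} [Field K] [NumberField K] [Field L] [NumberField L]
    [Algebra K L] (S : Set (HeightOneSpectrum (𝓞 L))) (hS : S.Finite) :
    {v : HeightOneSpectrum (𝓞 K) | ∃ w ∈ S, w.asIdeal.LiesOver v.asIdeal}.Finite := by
  have : {v : HeightOneSpectrum (𝓞 K) | ∃ w ∈ S, w.asIdeal.LiesOver v.asIdeal} =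
      ⋃ w ∈ S, {v : HeightOneSpectrum (𝓞 K) | w.asIdeal.LiesOver v.asIdeal} := by
    ext v; simp
  rw [this]
  refine hS.biUnion fun w _ => ?_
  apply Set.Subsingleton.finite
  intro v hv v' hv'
  apply HeightOneSpectrum.ext
  have h1 : v.asIdeal = w.asIdeal.under (𝓞 K) := hv.over
  have h2 : v'.asIdeal = w.asIdeal.under (𝓞 K) := hv'.over
  rw [h1, h2]

theorem EFa_lev {K L : Type} [Field K] [Field L] [Algebra K L] {p q : K[X]} {β : K}
    (hB : RB p q β) (t : ℕ) : (lev (RA p q β L) (algebraMap K L β) t).Finite := by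
  refine ((RP p q β t).rootSet_finite L).subset ?_
  intro x hx
  rw [mem_rootSet]
  exact ⟨rp_ne hB.qdeg t, (rp_root hB t x).2 hx⟩

theorem EFa_up {G L : Type} [Group G] [Field L] [MulSemiringAction G L] {Λ : Loc G L}
    {F : L → L} {b : L} {W : Finset L} {mu : L → ℕ} {RI : Set L} {J N : ℕ}
    (hS : LSys Λ F b W mu RI J N) {n : ℕ} (hn : 1 ≤ n) (hb : Λ.V (F^[n] b - b) < 1) {n0 : ℕ}
    {y : L} (hy : y ∈ lev F b n0) (hon : LOn Λ F b y) (u : ℕ) (hu : n0 + u ≤ N) :
    ∃ x, x ∈ lev F b (n0 + u) ∧ F^[u] x = y ∧ LOn Λ F b x := by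
  induction u with
  | zero => exact ⟨y, hy, rfl, hon⟩
  | succ u ih =>
    obtain ⟨x, hx, hxy, hx1⟩ := ih (by omega)
    obtain ⟨z, hz, hz1⟩ := lon_up hS hn hb (t := n0 + u) (by omega) hx hx1
    refine ⟨z, ?_, ?_, hz1⟩
    · show F^[n0 + u + 1] z = b
      rw [Function.iterate_succ_apply, hz]
      exact hx
    · rw [Function.iterate_succ_apply, hz]
      exact hxy

theorem r_frob {K M L : Type} [Field K] [NumberField K] [Field M] [NumberField M] [Field L]
    [NumberField L] [Algebra K M] [Algebra M L] [Algebra K L] [IsScalarTower K M L] [IsGalois K L]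
    {p q h : K[X]} {β : K} (hB : RB p q β) (hD : Disj p q β (AlgebraicClosure K))
    (hM : ((wr p q).map (algebraMap K M)).Splits) {n0 t : ℕ} (hn0 : n0 ≤ t)
    (hT : Tree (L ≃ₐ[K] L) (RA p q β L) (algebraMap K L β) p.natDegree t)
    (hs : ∀ u ≤ t, ((RP p q β u).map (algebraMap K L)).Splits)
    (hm : h.Monic) (hdvd : h ∣ RP p q β n0) :
    {v | v ∈ SR p q h β ∧ ¬ ∃ g : L ≃ₐ[K] L, (∃ x ∈ OR p q β h n0 L t, g • x = x) ∧
      IsFr K L v g}.Finite := by
  have hDM : Disj p q β M :=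
    disj_hom (IsAlgClosed.lift (R := K) (S := M) (M := AlgebraicClosure K)) hD
  have hlev : (lev (RA p q β L) (algebraMap K L β) t).Finite := EFa_lev hB t
  have hbad : {v : HeightOneSpectrum (𝓞 K) | ∃ w ∈ (⋃ x ∈ lev (RA p q β L) (algebraMap K L β) t,
      ⋃ x' ∈ lev (RA p q β L) (algebraMap K L β) t,
        {w : HeightOneSpectrum (𝓞 L) | x ≠ x' ∧ w.valuation L (x - x') ≠ 1}),
      w.asIdeal.LiesOver v.asIdeal}.Finite := by
    refine EFa_over _ (hlev.biUnion fun x _ => hlev.biUnion fun x' _ => ?_)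
    by_cases hxx : x = x'
    · simp [hxx]
    · exact (val_ne_one_finite (sub_ne_zero.2 hxx)).subset fun w hw => hw.2
  refine ((goodR_finite (M := M) hB hDM (max 1 n0)).union hbad).subset ?_
  rintro v ⟨⟨⟨n, hn, hvn⟩, k, hk⟩, hno⟩
  by_contra hv
  rw [Set.mem_union, not_or, Set.mem_ofPred_eq, not_not] at hv
  obtain ⟨hgood, hb⟩ := hv
  apply hno
  obtain ⟨w, hw⟩ := exists_over (K := K) (L := L) v
  have hne : (RA p q β K)^[n] β - β ≠ 0 := by
    rw [sub_ne_zero]
    exact r_aper (A := K) hB hn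
  obtain ⟨v0, hv0, hval⟩ := EFa_exp ((Valuation.ne_zero_iff _).2 hne) hvn
  obtain ⟨hS, hval', -⟩ := lsys_over hB hM hgood hT hn hv0 hval w hw
  have hshL : (h.map (algebraMap K L)).Splits := by
    refine (hs n0 hn0).of_dvd ?_ (Polynomial.map_dvd _ hdvd)
    rw [Ne, Polynomial.map_eq_zero]
    exact rp_ne hB.qdeg n0
  obtain ⟨y, hy, hony⟩ := near_h (L := L) hm hshL hk w hw
  have hylev : y ∈ lev (RA p q β L) (algebraMap K L β) n0 :=
    r_sub hB hdvd n0 ⟨y, hy, Or.inl ⟨le_rfl, by rw [Nat.sub_self]; rfl⟩⟩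
  have hblt : (mkLoc K w).V ((RA p q β L)^[n] (algebraMap K L β) - algebraMap K L β) < 1 := by
    rw [hval', ← exp_zero, exp_lt_exp]
    have h0 : 0 < Nat.card (mkLoc K w).I := Nat.card_pos
    have h1 : (0 : ℤ) < (Nat.card (mkLoc K w).I : ℤ) := by exact_mod_cast h0
    have h2 : (0 : ℤ) < (v0 : ℤ) := by exact_mod_cast hv0
    have := mul_pos h2 h1
    linarith
  obtain ⟨x, hx, hxy, hon⟩ := EFa_up hS hn hblt hylev hony (t - n0) (by omega)
  rw [Nat.add_sub_cancel' hn0] at hx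
  have hxO : x ∈ OR p q β h n0 L t := ⟨y, hy, Or.inl ⟨hn0, hxy⟩⟩
  obtain ⟨k', hk'⟩ := hon
  have hclose : w.valuation L (x - (RA p q β L)^[k'] (algebraMap K L β)) < 1 := hk'
  have hfin : Finite (𝓞 L ⧸ w.asIdeal) := Ideal.finiteQuotientOfFreeOfNeBot w.asIdeal w.ne_bot
  obtain ⟨g, hg⟩ := IsArithFrobAt.exists_of_isInvariant (𝓞 K) (L ≃ₐ[K] L) w.asIdeal
  have hgw : g • w.asIdeal = w.asIdeal := MulAction.mem_stabilizer_iff.1 hg.mem_stabilizer
  refine ⟨g, ⟨x, hxO, ?_⟩, w, hw, hg⟩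
  by_contra hgx
  have hz : g • (RA p q β L)^[k'] (algebraMap K L β) = (RA p q β L)^[k'] (algebraMap K L β) := by
    rw [← ra_base, AlgEquiv.smul_def, AlgEquiv.commutes]
  have h1 : w.valuation L (g • x - (RA p q β L)^[k'] (algebraMap K L β)) < 1 := by
    have h2 := EFa_val w g hgw (x - (RA p q β L)^[k'] (algebraMap K L β))
    rw [smul_sub, hz] at h2
    rw [h2]
    exact hclose
  have h3 : w.valuation L (g • x - x) < 1 := by
    have e : g • x - x = (g • x - (RA p q β L)^[k'] (algebraMap K L β)) +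
        ((RA p q β L)^[k'] (algebraMap K L β) - x) := by ring
    rw [e]
    refine Valuation.map_add_lt _ h1 ?_
    rw [Valuation.map_sub_swap]
    exact hclose
  have hgxl : g • x ∈ lev (RA p q β L) (algebraMap K L β) t := by
    change (RA p q β L)^[t] (g • x) = algebraMap K L β
    rw [← ra_smul]
    have hx2 : (RA p q β L)^[t] x = algebraMap K L β := hx
    rw [hx2, AlgEquiv.smul_def, AlgEquiv.commutes]
  apply hb
  refine ⟨w, ?_, hw⟩
  simp only [Set.mem_iUnion]
  exact ⟨g • x, hgxl, x, hx, hgx, h3.ne⟩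

end Pool.Agent.H42.RM
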