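/-
ROW ECc. From a good prime of `K` to a good valuation of `L`. PROOF. As good_of_goodK (PCM/E1, section
EGd): let `q0` be the prime of `M` below `w`; EGd_val gives exponents `e, e' ≥ 1` with
`w (algebraMap M L z) = q0(z)^e`, `w (algebraMap K L z) = v(z)^e'`. `(mkLoc K w).V = w.valuation L`
by definition. Let `F = RA p q β L = fr (p.map _) (q.map _) (algebraMap K L (ro p q β))`;
`F^[i] (algebraMap M L c) = algebraMap M L ((RA p q β M)^[i] c)` (ra_iter, row EAb, for
IsScalarTower.toAlgHom K M L). Fields: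
* pc, qc, oc, fixb: `g.commutes`. deg, qdeg: natDegree_map. pint, qint, plead, bint: EGd_val. bez: map the
  identity. wlead: wr_map (row EAd), leadingCoeff_map. wspl: wr_map and hM mapped to `L`.
* breg: wan_base (row EAc), eval_map_algebraMap. onl: r_onl (row EAc). bW: image of
  `algebraMap K M β` (mem_Wr, row EAd: hB.crit, wan_base).
* Wsmul: `c = algebraMap M L c0`, `c0 ∈ Wr p q β M`. `g • c` is a root of `wr p q` in `L` (ra_smul is not
  needed: aeval_algHom_apply), hence the image of a root `c1 : M` (hM splits; see hcrit in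
  good_of_goodK). `Wan p q β (g • c)` by wan_hom for the K-algebra map `g : L →ₐ[K] L` and for `M → L`;
  so `c1 ∈ Wr` (mem_Wr) and `g • c = algebraMap M L c1`.
* Wmu: mu_map (row EAd), mlt_two (row EAd) and hv.Wmu. Wg: map the identity of hv.Wg to `L`
  (mu_map), the value of `(g.map _).eval (algebraMap M L c) = algebraMap M L (g.eval c)` by EGd_val.
* Wreg, G2: hv.Wreg, hv.G2 through ra_iter and EGd_val (pow_lt_one_iff, `e ≠ 0`).
* G3: a root `c` of `wr` in `L` is the image of a root `c0 : M`; `c0 ∉ Wr` (otherwise `c ∈ W`);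
  translate the pole condition and use hv.G3.
-/
import Pool.Agent.H42.RM.ECa

set_option autoImplicit false

namespace Pool.Agent.H42.RM

open Pool.Agent.H42.PC Polynomial NumberField IsDedekindDomain

open scoped Classical

theorem qgood_of_goodR {K M L : Type} [Field K] [NumberField K] [Field M] [NumberField M]
    [Field L] [NumberField L] [Algebra K M] [Algebra M L] [Algebra K L] [IsScalarTower K M L]
    [IsGalois K L] {p q : K[X]} {β : K} (hB : RB p q β)
    (hM : ((wr p q).map (algebraMap K M)).Splits) {J : ℕ} {v : HeightOneSpectrum (𝓞 K)}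
    (hv : GoodR p q β M J v) (w : HeightOneSpectrum (𝓞 L)) (hw : w.asIdeal.LiesOver v.asIdeal) :
    QGood (mkLoc K w) (p.map (algebraMap K L)) (q.map (algebraMap K L))
      (algebraMap K L (ro p q β)) (algebraMap K L β)
      ((Wr p q β M).image (algebraMap M L)) (mu p q L) J := by
  have hq0 : q ≠ 0 := by
    intro h0
    have h1 : aeval β q ≠ 0 := hB.wan.1 0
    rw [h0, map_zero] at h1
    exact h1 rfl
  have hder : wr p q ≠ 0 := (wr_lead hq0 hB.qdeg).1
  let qM : HeightOneSpectrum (𝓞 M) := HeightOneSpectrum.under (𝓞 M) w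
  have := hw
  have hwq : w.asIdeal.LiesOver qM.asIdeal := Ideal.over_under _
  have hqv : qM.asIdeal.LiesOver v.asIdeal :=
    Ideal.LiesOver.tower_bot w.asIdeal qM.asIdeal v.asIdeal
  obtain ⟨e, he, hq⟩ := EGd_val qM w hwq
  obtain ⟨e', he', hv'⟩ := EGd_val v w hw
  let ι : M →ₐ[K] L := IsScalarTower.toAlgHom K M L
  have hι : ∀ x, ι x = algebraMap M L x := fun x => rfl
  have hmap : ∀ f : K[X], f.map (algebraMap K L) = (f.map (algebraMap K M)).map (algebraMap M L) := by
    intro f
    rw [Polynomial.map_map, ← IsScalarTower.algebraMap_eq]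
  have hcrit : ∀ c : L, (wr (p.map (algebraMap K L)) (q.map (algebraMap K L))).eval c = 0 →
      ∃ c0 : M, aeval c0 (wr p q) = 0 ∧ algebraMap M L c0 = c := by
    intro c hc
    have h1 : ((wr p q).map (algebraMap K M)) ≠ 0 :=
      (Polynomial.map_ne_zero_iff (algebraMap K M).injective).2 hder
    have h2 : (((wr p q).map (algebraMap K M)).map (algebraMap M L)).IsRoot c := by
      rw [← hmap, IsRoot.def, wr_map]
      exact hc
    obtain ⟨c0, hc0⟩ := hM.mem_range_of_isRoot h1 h2
    refine ⟨c0, ?_, hc0⟩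
    rw [← hc0] at h2
    have h3 := h2
    rw [IsRoot.def, Polynomial.eval_map, Polynomial.eval₂_at_apply] at h3
    rw [← Polynomial.eval_map_algebraMap]
    exact (map_eq_zero (algebraMap M L)).1 h3
  have hev : ∀ (f : K[X]) (c0 : M), (f.map (algebraMap K L)).eval (algebraMap M L c0) =
      algebraMap M L (aeval c0 f) := by
    intro f c0
    rw [Polynomial.eval_map_algebraMap, ← hι, ← hι, Polynomial.aeval_algHom_apply]
  have hit : ∀ (c0 : M) (t : ℕ), (fr (p.map (algebraMap K L)) (q.map (algebraMap K L))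
      (algebraMap K L (ro p q β)))^[t] (algebraMap M L c0) =
      algebraMap M L ((RA p q β M)^[t] c0) := by
    intro c0 t
    exact (ra_iter ι c0 t).symm
  have hbeta : algebraMap K L β = algebraMap M L (algebraMap K M β) :=
    IsScalarTower.algebraMap_apply K M L β
  have hinj : Function.Injective (algebraMap M L) := (algebraMap M L).injective
  refine ⟨?_, ?_, ?_, ?_, ?_, ?_, ?_, ?_, ?_, ?_, ?_, ?_, ?_, ?_, ?_, ?_, ?_, ?_, ?_, ?_, ?_, ?_⟩
  · intro g i
    rw [Polynomial.coeff_map]
    exact g.commutes _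
  · intro g i
    rw [Polynomial.coeff_map]
    exact g.commutes _
  · intro g
    exact g.commutes _
  · intro g
    exact g.commutes _
  · rw [Polynomial.natDegree_map]
    exact hB.deg
  · rw [Polynomial.natDegree_map, Polynomial.natDegree_map]
    exact hB.qdeg
  · intro i
    rw [Polynomial.coeff_map]
    show w.valuation L _ ≤ 1
    rw [hv']
    exact pow_le_one' (hv.pint i) e'
  · intro i
    rw [Polynomial.coeff_map]
    show w.valuation L _ ≤ 1
    rw [hv']
    exact pow_le_one' (hv.qint i) e'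
  · rw [Polynomial.leadingCoeff_map]
    show w.valuation L _ = 1
    rw [hv', hv.plead, one_pow]
  · obtain ⟨r, s, h1, h2, h3⟩ := hv.bez
    refine ⟨r.map (algebraMap K L), s.map (algebraMap K L), ?_, ?_, ?_⟩
    · intro i
      rw [Polynomial.coeff_map]
      show w.valuation L _ ≤ 1
      rw [hv']
      exact pow_le_one' (h1 i) e'
    · intro i
      rw [Polynomial.coeff_map]
      show w.valuation L _ ≤ 1
      rw [hv']
      exact pow_le_one' (h2 i) e'
    · rw [← Polynomial.map_mul, ← Polynomial.map_mul, ← Polynomial.map_add, h3,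
        Polynomial.map_one]
  · rw [← wr_map, Polynomial.leadingCoeff_map]
    show w.valuation L _ = 1
    rw [hv', hv.wlead, one_pow]
  · rw [← wr_map, hmap]
    exact hM.map _
  · show w.valuation L _ ≤ 1
    rw [hv']
    exact pow_le_one' hv.bint e'
  · intro i
    rw [Polynomial.eval_map_algebraMap]
    exact (wan_base (A := L) hB).1 i
  · intro t
    exact r_onl hB t
  · rw [Finset.mem_image]
    refine ⟨algebraMap K M β, (mem_Wr hq0 hB.qdeg _).2 ⟨?_, wan_base hB⟩, hbeta.symm⟩
    rw [Polynomial.aeval_algebraMap_apply, Polynomial.coe_aeval_eq_eval, hB.crit, map_zero]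
  · intro g c hc
    obtain ⟨c0, hc0, rfl⟩ := Finset.mem_image.1 hc
    obtain ⟨h1, h2⟩ := (mem_Wr hq0 hB.qdeg _).1 hc0
    have h3 : (wr (p.map (algebraMap K L)) (q.map (algebraMap K L))).eval
        (g • algebraMap M L c0) = 0 := by
      have h4 : aeval ((g : L →ₐ[K] L) (algebraMap M L c0)) (wr p q) = 0 := by
        rw [Polynomial.aeval_algHom_apply, ← hι, Polynomial.aeval_algHom_apply, h1, map_zero,
          map_zero]
      rw [← wr_map, Polynomial.eval_map_algebraMap]
      exact h4
    obtain ⟨c1, h5, h6⟩ := hcrit _ h3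
    rw [Finset.mem_image]
    refine ⟨c1, (mem_Wr hq0 hB.qdeg _).2 ⟨h5, ?_⟩, h6⟩
    refine (wan_hom ι c1).1 ?_
    rw [hι, h6]
    exact (wan_hom (g : L →ₐ[K] L) (algebraMap M L c0)).2 ((wan_hom ι c0).2 h2)
  · intro c hc
    obtain ⟨c0, hc0, rfl⟩ := Finset.mem_image.1 hc
    obtain ⟨h1, h2⟩ := (mem_Wr hq0 hB.qdeg _).1 hc0
    rw [mu_map]
    constructor
    · refine mlt_two ?_ ?_ ?_
      · rw [Polynomial.natDegree_map, Polynomial.natDegree_map]
        exact hB.qdeg
      · rw [Polynomial.eval_map_algebraMap]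
        exact h2.1 0
      · rw [← wr_map, Polynomial.eval_map_algebraMap]
        exact h1
    · show w.valuation L _ = 1
      have h3 : ((mu p q M c0 : ℕ) : L) = algebraMap K L ((mu p q M c0 : ℕ) : K) :=
        (map_natCast (algebraMap K L) _).symm
      rw [h3, hv', hv.Wmu c0 hc0, one_pow]
  · intro c hc
    obtain ⟨c0, hc0, rfl⟩ := Finset.mem_image.1 hc
    obtain ⟨g, h1, h2⟩ := hv.Wg qM hqv c0 hc0
    refine ⟨g.map (algebraMap M L), ?_, ?_⟩
    · rw [mu_map, hev, hev, hmap p, hmap q]
      have h3 := congrArg (Polynomial.map (algebraMap M L)) h1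
      rw [Polynomial.map_sub, Polynomial.map_mul, Polynomial.map_mul, Polynomial.map_mul,
        Polynomial.map_pow, Polynomial.map_sub, Polynomial.map_X, Polynomial.map_C,
        Polynomial.map_C, Polynomial.map_C] at h3
      exact h3
    · show w.valuation L _ = 1
      rw [Polynomial.eval_map_apply, hq, h2, one_pow]
  · intro c hc i hi
    obtain ⟨c0, hc0, rfl⟩ := Finset.mem_image.1 hc
    obtain ⟨h1, h2⟩ := hv.Wreg qM hqv c0 hc0 i hi
    rw [hit, hev]
    constructor
    · show w.valuation L _ ≤ 1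
      rw [hq]
      exact pow_le_one' h1 e
    · show w.valuation L _ = 1
      rw [hq, h2, one_pow]
  · intro c hc c' hc' i hi j hj h
    obtain ⟨c0, h0, rfl⟩ := Finset.mem_image.1 hc
    obtain ⟨c1, h1, rfl⟩ := Finset.mem_image.1 hc'
    change w.valuation L _ < 1 at h
    rw [hit, hit, ← map_sub, hq] at h
    have h2 := hv.G2 qM hqv c0 h0 c1 h1 i hi j hj ((pow_lt_one_iff he).1 h)
    exact ⟨by rw [h2.1], h2.2⟩
  · intro c hc hcW t hreg h
    obtain ⟨c0, h0, rfl⟩ := hcrit c hc
    change w.valuation L _ < 1 at h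
    rw [hit, hbeta, ← map_sub, hq] at h
    refine hv.G3 qM hqv c0 h0 (fun hm => hcW (Finset.mem_image_of_mem _ hm)) t ?_
      ((pow_lt_one_iff he).1 h)
    intro i hi h3
    refine hreg i hi ?_
    rw [hit, hev, h3, map_zero]

end Pool.Agent.H42.RM
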