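/-
ROW ECe. The orbit of `β` at a good prime. PROOF. `M` is Galois over `K` (splitting field, characteristic
0: IsGalois.of_separable_splitting_field or Normal.of_isSplittingField and separability). Let `w` be a
prime of `M` above `v` (exists_over, PCM/E2); qgood_of_goodR (row ECc) with `L = M` gives
`hQ : QGood (mkLoc K w) ..`; EGd_val (PCM/E1): `w (algebraMap K M z) = v(z)^e`, `e ≠ 0`, so
`w (..) < 1 ↔ v z < 1`, `≤ 1`, `= 1` similarly. `(RA p q β M)^[i] b = algebraMap K M ((RA p q β K)^[i] β)`
(ra_base). (1) is orb_reg (row QAb). (2): induction on `k` with fr_sub_le (row QAa) at the regular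
points of the orbit. (3): induction on `m` with (2): `F^[(m+1) n] β = F^[mn + n] β` is near
`F^[0 + n] β = F^[n] β`, which is near `β`.
-/
import Pool.Agent.H42.RM.ECc
import Pool.Agent.H42.RM.QAb
import Pool.Agent.H42.PCM.E2

set_option autoImplicit false

namespace Pool.Agent.H42.RM

open Pool.Agent.H42.PC Polynomial NumberField IsDedekindDomain WithZero

theorem good_orb {K M : Type} [Field K] [NumberField K] [Field M] [NumberField M]
    [Algebra K M] {p q : K[X]} {β : K} [IsSplittingField K M (wr p q)] (hB : RB p q β) {J n : ℕ}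
    {v : HeightOneSpectrum (𝓞 K)} (hv : GoodR p q β M J v) (hn : 1 ≤ n)
    (hval : v.valuation K ((RA p q β K)^[n] β - β) < 1) :
    (∀ i, v.valuation K ((RA p q β K)^[i] β) ≤ 1 ∧
      v.valuation K (q.eval ((RA p q β K)^[i] β)) = 1) ∧
    (∀ i j, v.valuation K ((RA p q β K)^[i] β - (RA p q β K)^[j] β) < 1 → ∀ k,
      v.valuation K ((RA p q β K)^[i + k] β - (RA p q β K)^[j + k] β) < 1) ∧
    ∀ m, v.valuation K ((RA p q β K)^[m * n] β - β) < 1 := by
  have : Normal K M := Normal.of_isSplittingField (wr p q)
  have : IsGalois K M := isGalois_iff.2 ⟨inferInstance, inferInstance⟩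
  have hM := IsSplittingField.splits M (wr p q)
  obtain ⟨w, hw⟩ := exists_over (L := M) v
  obtain ⟨e, he, hv'⟩ := EGd_val v w hw
  have hQ := qgood_of_goodR (K := K) (M := M) (L := M) hB hM hv w hw
  have hlt : ∀ z : K, w.valuation M (algebraMap K M z) < 1 ↔ v.valuation K z < 1 := fun z => by
    rw [hv', pow_lt_one_iff he]
  have hle : ∀ z : K, w.valuation M (algebraMap K M z) ≤ 1 ↔ v.valuation K z ≤ 1 := fun z => by
    rw [hv']
    exact pow_le_one_iff he
  have heq : ∀ z : K, w.valuation M (algebraMap K M z) = 1 ↔ v.valuation K z = 1 := fun z => by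
    rw [hv']
    constructor
    · intro h
      refine le_antisymm ((pow_le_one_iff he).1 h.le) (not_lt.1 fun h1 => ?_)
      exact ((pow_lt_one_iff he).2 h1).ne h
    · intro h
      rw [h, one_pow]
  have hit : ∀ i, (RA p q β M)^[i] (algebraMap K M β) = algebraMap K M ((RA p q β K)^[i] β) :=
    fun i => (ra_base β i).symm
  have hnear : ∀ i j, (mkLoc K w).V ((RA p q β M)^[i] (algebraMap K M β) -
      (RA p q β M)^[j] (algebraMap K M β)) < 1 ↔
      v.valuation K ((RA p q β K)^[i] β - (RA p q β K)^[j] β) < 1 := by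
    intro i j
    rw [hit, hit, ← map_sub]
    exact hlt _
  have hb : (mkLoc K w).V ((RA p q β M)^[n] (algebraMap K M β) - algebraMap K M β) < 1 :=
    (hnear n 0).2 hval
  have horb : ∀ i, (RA p q β M)^[i] (algebraMap K M β) ∈
      RIQ (mkLoc K w) (q.map (algebraMap K M)) := fun i => orb_reg hQ hn hb i
  have h2 : ∀ i j, v.valuation K ((RA p q β K)^[i] β - (RA p q β K)^[j] β) < 1 → ∀ k,
      v.valuation K ((RA p q β K)^[i + k] β - (RA p q β K)^[j + k] β) < 1 := by
    intro i j h k
    rw [← hnear]
    rw [← hnear] at h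
    induction k with
    | zero => exact h
    | succ k ih =>
      rw [← Nat.add_assoc, ← Nat.add_assoc, Function.iterate_succ_apply',
        Function.iterate_succ_apply']
      exact (fr_sub_le hQ (horb (j + k)) ih).trans_lt ih
  refine ⟨fun i => ?_, h2, fun m => ?_⟩
  · obtain ⟨h3, h4⟩ := horb i
    rw [hit] at h3 h4
    refine ⟨(hle _).1 h3, (heq _).1 ?_⟩
    rw [Polynomial.eval_map_algebraMap, Polynomial.aeval_algebraMap_apply,
      Polynomial.coe_aeval_eq_eval] at h4
    exact h4
  · induction m with
    | zero =>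
      have h3 : (RA p q β K)^[0 * n] β - β = 0 := by
        rw [Nat.zero_mul, Function.iterate_zero_apply, sub_self]
      rw [h3, map_zero]
      exact zero_lt_one
    | succ m ih =>
      have h3 := h2 (m * n) 0 ih n
      rw [Nat.zero_add] at h3
      have h4 : (RA p q β K)^[(m + 1) * n] β - β =
          ((RA p q β K)^[m * n + n] β - (RA p q β K)^[n] β) + ((RA p q β K)^[n] β - β) := by
        rw [Nat.add_mul, Nat.one_mul]
        ring
      rw [h4]
      exact Valuation.map_add_lt _ h3 hval

end Pool.Agent.H42.RM
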