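/-
ROW EFb. Every prime (up to finitely many) belongs to some factor `h`. PROOF of r_fac_finite: as
fac_finite (PCM/E4.lean, section ECov) with rp_ne (row EAa); or `ELoc_fin` of PCM/E4.
PROOF of r_cover: as cover (PCM/E4.lean, section ECov). Bad primes: those which are not
`GoodR p q β M 0` (goodR_finite, row ECb), those where `(RP p q β n0).leadingCoeff` has value `≠ 1`, and
those where a coefficient of `(PQ p q n0).2` has value `> 1` (bad_K, row ECa). Let `v` be a good prime
with `v (F^[n] β - β) < 1`, `F = RA p q β K`, `N = (n0+1) n ≥ n0`, `y = F^[N - n0] β`. good_orb (row ECe):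
`v (F^[N] β - β) < 1`, `v y ≤ 1`. By pq_iter (row EAb; no poles by hB.wan)
`F^[n0] y = P(y)/Q(y)`, `Q(y) ≠ 0`, `(P, Q) = PQ p q n0`, so
`(RP p q β n0).eval y = Q(y) (F^[n0] y - β) = Q(y) (F^[N] β - β)` has value `< 1`
(`v (Q(y)) ≤ 1`, eval_int of PCM/D1). Then factor `RP p q β n0` as in cover
(normalizedFactors) to get a monic irreducible factor `h` with `v (h.eval y) < 1`.
-/
import Pool.Agent.H42.RM.ECb
import Pool.Agent.H42.RM.ECe
import Pool.Agent.H42.PCM.E4

set_option autoImplicit false

namespace Pool.Agent.H42.RM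

open Pool.Agent.H42.PC Polynomial NumberField IsDedekindDomain

theorem r_fac_finite {K : Type} [Field K] {p q : K[X]} {β : K}
    (hqd : q.natDegree < p.natDegree) (n : ℕ) :
    {g : K[X] | g.Monic ∧ Irreducible g ∧ g ∣ RP p q β n}.Finite := by
  classical
  have hP : RP p q β n ≠ 0 := rp_ne hqd n
  refine ((UniqueFactorizationMonoid.normalizedFactors
    (RP p q β n)).toFinset.finite_toSet).subset ?_
  rintro g ⟨hm, hi, hg⟩
  obtain ⟨r, hr, hgr⟩ := UniqueFactorizationMonoid.exists_mem_normalizedFactors_of_dvd hP hi hg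
  have hr0 := (UniqueFactorizationMonoid.irreducible_of_normalized_factor r hr).ne_zero
  have hrm : r.Monic := by
    have := UniqueFactorizationMonoid.normalize_normalized_factor r hr
    rw [← this]
    exact Polynomial.monic_normalize hr0
  have := eq_of_monic_of_associated hm hrm hgr
  rw [Finset.mem_coe, Multiset.mem_toFinset, this]
  exact hr

private theorem EFb_prod {K : Type} [Field K] {V : Valuation K (WithZero (Multiplicative ℤ))} {z : K}
    (s : Multiset K[X]) (hs : ∀ h ∈ s, 1 ≤ V (h.eval z)) : 1 ≤ V (s.prod.eval z) := by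
  induction s using Multiset.induction with
  | empty => simp
  | cons a s ih =>
    rw [Multiset.prod_cons, eval_mul, map_mul]
    have h1 := mul_le_mul' (hs a (Multiset.mem_cons_self a s))
      (ih fun h hh => hs h (Multiset.mem_cons_of_mem hh))
    rwa [one_mul] at h1

private theorem EFb_one {K : Type} [Field K] [NumberField K] (z : K) :
    {v : HeightOneSpectrum (𝓞 K) | ¬ v.valuation K z ≤ 1}.Finite := by
  rcases eq_or_ne z 0 with rfl | hz
  · simp
  · refine (val_ne_one_finite hz).subset ?_
    intro v hv h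
    exact hv h.le

theorem r_cover {K M : Type} [Field K] [NumberField K] [Field M] [NumberField M] [Algebra K M]
    {p q : K[X]} {β : K} [IsSplittingField K M (wr p q)] (hB : RB p q β) (hD : Disj p q β M)
    (n0 : ℕ) :
    ({v : HeightOneSpectrum (𝓞 K) | ∃ n, 1 ≤ n ∧ v.valuation K ((RA p q β K)^[n] β - β) < 1} \
      ⋃ h ∈ {g : K[X] | g.Monic ∧ Irreducible g ∧ g ∣ RP p q β n0},
        SR p q h β).Finite := by
  classical
  have hP : RP p q β n0 ≠ 0 := rp_ne hB.qdeg n0
  have hbad : ({v : HeightOneSpectrum (𝓞 K) | ¬ GoodR p q β M 0 v} ∪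
      ((⋃ i ∈ (PQ p q n0).2.support,
        {v : HeightOneSpectrum (𝓞 K) | ¬ v.valuation K ((PQ p q n0).2.coeff i) ≤ 1}) ∪
      {v : HeightOneSpectrum (𝓞 K) |
        v.valuation K (RP p q β n0).leadingCoeff ≠ 1})).Finite := by
    refine Set.Finite.union (goodR_finite hB hD 0) (Set.Finite.union ?_ ?_)
    · exact Set.Finite.biUnion (Finset.finite_toSet _) fun i _ => EFb_one _
    · exact val_ne_one_finite (leadingCoeff_ne_zero.2 hP)
  refine hbad.subset ?_
  rintro v ⟨⟨n, hn, hv⟩, hnot⟩
  by_contra hgood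
  simp only [Set.mem_union, Set.mem_iUnion, Set.mem_ofPred_eq, not_or, not_exists, not_not,
    exists_prop, not_and, ne_eq] at hgood
  obtain ⟨h1, h2, h3⟩ := hgood
  obtain ⟨horb, -, hj⟩ := good_orb hB h1 hn hv
  have hi : ∀ i, v.valuation K ((PQ p q n0).2.coeff i) ≤ 1 := by
    intro i
    by_cases hc : i ∈ (PQ p q n0).2.support
    · exact h2 i hc
    · rw [notMem_support_iff.1 hc, map_zero]
      exact zero_le_one
  have hk : n0 ≤ (n0 + 1) * n := by nlinarith
  obtain ⟨y, hy⟩ : ∃ y : K, y = (RA p q β K)^[(n0 + 1) * n - n0] β := ⟨_, rfl⟩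
  have hyi : ∀ i, (RA p q β K)^[i] y = (RA p q β K)^[i + ((n0 + 1) * n - n0)] β := by
    intro i
    rw [hy, ← Function.iterate_add_apply]
  have hreg : ∀ i < n0, aeval ((RA p q β K)^[i] y) q ≠ 0 := by
    intro i _
    rw [hyi]
    exact hB.wan.1 _
  obtain ⟨hQ, hit⟩ := pq_iter (β := β) hB.qdeg hreg
  have hz : v.valuation K ((RP p q β n0).eval y) < 1 := by
    have e1 : (RP p q β n0).eval y =
        (PQ p q n0).2.eval y * ((RA p q β K)^[(n0 + 1) * n] β - β) := by
      have e2 : (RA p q β K)^[(n0 + 1) * n] β = (RA p q β K)^[n0] y := by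
        rw [hyi, Nat.add_sub_cancel' hk]
      rw [e2, hit, coe_aeval_eq_eval, RP, Polynomial.eval_sub, eval_mul, eval_C]
      rw [coe_aeval_eq_eval] at hQ
      have hQ' : (PQ p q n0).2.eval y ≠ 0 := hQ
      have e3 : (PQ p q n0).2.eval y * ((PQ p q n0).1.eval y / (PQ p q n0).2.eval y) =
          (PQ p q n0).1.eval y := mul_div_cancel₀ _ hQ'
      rw [mul_sub, e3]
      ring
    rw [e1, map_mul]
    have hyint : v.valuation K y ≤ 1 := by
      rw [hy]
      exact (horb _).1
    calc v.valuation K ((PQ p q n0).2.eval y) *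
          v.valuation K ((RA p q β K)^[(n0 + 1) * n] β - β)
        ≤ 1 * v.valuation K ((RA p q β K)^[(n0 + 1) * n] β - β) :=
          mul_le_mul' (eval_int hi hyint) le_rfl
      _ < 1 := by
          rw [one_mul]
          exact hj (n0 + 1)
  apply hnot
  have hex : ∃ h ∈ UniqueFactorizationMonoid.normalizedFactors (RP p q β n0),
      v.valuation K (h.eval y) < 1 := by
    by_contra hno
    push Not at hno
    have e3 := leadingCoeff_mul_prod_normalizedFactors (RP p q β n0)
    have e4 := EFb_prod (V := v.valuation K) _ hno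
    rw [← e3, eval_mul, eval_C, map_mul, h3, one_mul] at hz
    exact absurd hz (not_lt.2 e4)
  obtain ⟨h, hh, hlt⟩ := hex
  have hirr := UniqueFactorizationMonoid.irreducible_of_normalized_factor h hh
  have hm : h.Monic := by
    have := UniqueFactorizationMonoid.normalize_normalized_factor h hh
    rw [← this]
    exact Polynomial.monic_normalize hirr.ne_zero
  refine Set.mem_biUnion (show h ∈ {g : K[X] | g.Monic ∧ Irreducible g ∧
    g ∣ RP p q β n0} from ⟨hm, hirr,
      UniqueFactorizationMonoid.dvd_of_mem_normalizedFactors hh⟩) ?_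
  refine ⟨⟨n, hn, hv⟩, (n0 + 1) * n - n0, ?_⟩
  rw [← hy]
  exact hlt

end Pool.Agent.H42.RM
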