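/-
ROW EDa. Full places over good primes (simple critical points). PROOF. exists_over (PCM/E2) gives `w`
above `v`. lsys_over, min_over, near_h (row ECd; `h.map` splits because it divides the mapped
`RP p q β n0`, rp_ne) with `hM := IsSplittingField.splits M (wr p q)`. For `c ∈ W = (Wr p q β M).image`:
`mu p q L c = 2`: `c = algebraMap M L c0`, mu_map (row EAd) twice: with an embedding
`ι : M →ₐ[K] AlgebraicClosure K` (IsAlgClosed.lift, `M` is algebraic over `K`; regard
`AlgebraicClosure K` as an `M`-algebra through `ι` or use eq_rootMultiplicity_map directly),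
`mu p q M c0 = mu p q (AlgebraicClosure K) (ι c0) = 2` by hmu (`ι c0` is critical and wandering:
wan_hom, mem_Wr). `s = (Wr p q β M).card ≥ W.card` (Finset.card_image_le).
`P = lPlace hS hmu' hs` and full_lsys (row LDb) give `Full P n (n * (v0 + 2 * (n * v0)))`. InO:
inO_of_one (PCM/G2, section EIn) with `hC = Full.toCyc`, `hn0`, `hJ0`, `y0 = y ∈ OR .. n0`
(`⟨y, hy, Or.inl ⟨le_rfl, by simp⟩⟩`) and onC_iff (row LDa).
-/
import Pool.Agent.H42.RM.ECd
import Pool.Agent.H42.RM.LDb

set_option autoImplicit false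

namespace Pool.Agent.H42.RM

open Pool.Agent.H42.PC Polynomial NumberField IsDedekindDomain WithZero

theorem EDa_mu {K M A : Type} [Field K] [Field M] [Field A] [Algebra K M] [Algebra K A]
    (ι : M →ₐ[K] A) (p q : K[X]) (c : M) : mu p q A (ι c) = mu p q M c := by
  let _ : Algebra M A := ι.toRingHom.toAlgebra
  have : IsScalarTower K M A := IsScalarTower.of_algebraMap_eq fun x => (ι.commutes x).symm
  exact mu_map p q c

theorem r_place {K M L : Type} [Field K] [NumberField K] [Field M] [NumberField M]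
    [Field L] [NumberField L] [Algebra K M] [Algebra M L] [Algebra K L] [IsScalarTower K M L]
    [IsGalois K L] {p q h : K[X]} {β : K} [IsSplittingField K M (wr p q)] (hB : RB p q β)
    (hmu : ∀ c : AlgebraicClosure K, aeval c (wr p q) = 0 → Wan p q β c →
      mu p q (AlgebraicClosure K) c = 2)
    {J n0 N n v0 : ℕ}
    {v : HeightOneSpectrum (𝓞 K)} (hv : GoodR p q β M J v) (hn0 : n0 ≤ N) (hJ0 : n0 ≤ J)
    (hT : Tree (L ≃ₐ[K] L) (RA p q β L) (algebraMap K L β) p.natDegree N)
    (hO : Orb (L ≃ₐ[K] L) (RA p q β L) (algebraMap K L β) n0 N (OR p q β h n0 L))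
    (hs : ∀ t ≤ N, ((RP p q β t).map (algebraMap K L)).Splits)
    (hm : h.Monic) (hdvd : h ∣ RP p q β n0) (hn : 1 ≤ n) (hv0 : 1 ≤ v0)
    (hval : v.valuation K ((RA p q β K)^[n] β - β) = WithZero.exp (-(v0 : ℤ)))
    (hmin : ∀ i, 1 ≤ i → i < n → ¬ v.valuation K ((RA p q β K)^[i] β - β) < 1)
    {k : ℕ} (hk : v.valuation K (h.eval ((RA p q β K)^[k] β)) < 1) :
    ∃ P : Place (L ≃ₐ[K] L) (RA p q β L) (algebraMap K L β) (Wr p q β M).card J N,
      Full P n (n * (v0 + 2 * (n * v0))) ∧ InO P (OR p q β h n0 L) := by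
  classical
  have hq0 : q ≠ 0 := by
    intro h0
    have h1 : aeval β q ≠ 0 := hB.wan.1 0
    rw [h0, map_zero] at h1
    exact h1 rfl
  obtain ⟨w, hw⟩ := exists_over (K := K) (L := L) v
  have hM : ((wr p q).map (algebraMap K M)).Splits := IsSplittingField.splits M (wr p q)
  obtain ⟨hS, hb, hri⟩ := lsys_over hB hM hv hT hn hv0 hval w hw
  have hmin' := min_over (L := L) (p := p) (q := q) (β := β) hmin w hw
  have hspl : (h.map (algebraMap K L)).Splits :=
    (hs n0 hn0).of_dvd ((Polynomial.map_ne_zero_iff (algebraMap K L).injective).2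
      (rp_ne hB.qdeg n0)) (Polynomial.map_dvd _ hdvd)
  obtain ⟨y, hy, hyon⟩ := near_h (L := L) hm hspl hk w hw
  let ι : M →ₐ[K] AlgebraicClosure K := IsAlgClosed.lift
  have hmu' : ∀ c0 ∈ Wr p q β M, mu p q L (algebraMap M L c0) = 2 := by
    intro c0 hc0
    obtain ⟨h1, h2⟩ := (mem_Wr hq0 hB.qdeg _).1 hc0
    rw [mu_map, ← EDa_mu ι]
    refine hmu (ι c0) ?_ ((wan_hom ι c0).2 h2)
    rw [aeval_algHom_apply, h1, map_zero]
  have hmu2 : ∀ c ∈ @Finset.image M L (fun a b => Classical.propDecidable (a = b))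
      (algebraMap M L) (Wr p q β M), mu p q L c = 2 := by
    intro c hc
    obtain ⟨c0, hc0, rfl⟩ := Finset.mem_image.1 hc
    exact hmu' c0 hc0
  have hcard : (@Finset.image M L (fun a b => Classical.propDecidable (a = b))
      (algebraMap M L) (Wr p q β M)).card ≤ (Wr p q β M).card := Finset.card_image_le
  have hF := full_lsys hS hmu2 hcard hri hn hv0 hb hmin'
  refine ⟨lPlace hS hmu2 hcard, hF, ?_⟩
  refine inO_of_one hT hO hF.toCyc hn0 hJ0 (y0 := y) ?_ ?_
  · exact ⟨y, hy, Or.inl ⟨le_rfl, by simp⟩⟩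
  · exact (onC_iff hS hmu2 hcard y).2 hyon

end Pool.Agent.H42.RM
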