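/-
ROW ELa. The proportions tend to zero. PROOF. As EBa of AD (AD/EBa.lean: EBa_fld, qq_tendsto2), with
`d = p.natDegree`, `s = (Wr p q β M).card`. Differences:
* field: r_field (row EBb), r_tree (row EBa; `Disj p q β L` by disj_hom of row EAc and IsAlgClosed.lift,
  `L` algebraic over `K`), r_orb (row EBd) give `L` with Tree and Orb up to level `N`.
* nonnegativity and antitonicity (for limit_zero2, AD/GFc.lean) as in qq_tendsto2 with q_anti (PCM/G2)
  and r_indep (row EBe).
* primes: r_prime (row ZDa) twice: first with `J = max n0 1`, `B0 = N0*(s^2*(N0+3))*s + 1`, giving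
  `v', n', v0', k'`, `t' = n' * (v0' + 2 * (n' * v0'))`; then with
  `J = max n0 (2*((s+1)*n')*(k*d*s+1) + 2*t' + 2*((s+1)*n') + 1)`, `B0 = n' + 1`, giving `v, n, v0, k2`,
  `t0 = max n0 (n * (v0 + 2 * (n * v0)))`.
* places: r_place (row EDa) instead of pl_full. Full.mono (AD/GHb.lean) raises the level to `t0`.
* group_main (AD/GMc.lean) and the final computation are unchanged (qq replaced by qr).
-/
import Pool.Agent.H42.RM.EDa
import Pool.Agent.H42.RM.EBa
import Pool.Agent.H42.RM.EBb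
import Pool.Agent.H42.RM.EBd
import Pool.Agent.H42.RM.EBe
import Pool.Agent.H42.RM.ZDa
import Pool.Agent.H42.AD.GMc
import Pool.Agent.H42.AD.EBa

set_option autoImplicit false

namespace Pool.Agent.H42.RM

open Pool.Agent.H42.PC Polynomial NumberField IsDedekindDomain Filter Topology

open scoped Classical

theorem r_fld {K M : Type} [Field K] [NumberField K] [Field M] [NumberField M]
    [Algebra K M] {p q h : K[X]} {β : K} [IsSplittingField K M (wr p q)] (hB : RB p q β)
    (hD : Disj p q β (AlgebraicClosure K)) {n0 : ℕ} (hst : StabR p q β n0) (hm : h.Monic)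
    (hi : Irreducible h) (hdvd : h ∣ RP p q β n0) (N : ℕ) (hN : n0 ≤ N) :
    ∃ (L : Type) (_ : Field L) (_ : NumberField L) (_ : Algebra K L) (_ : Algebra M L)
      (_ : IsScalarTower K M L) (_ : IsGalois K L),
      (∀ t ≤ N, ((RP p q β t).map (algebraMap K L)).Splits) ∧
      Tree (L ≃ₐ[K] L) (RA p q β L) (algebraMap K L β) p.natDegree N ∧
      Orb (L ≃ₐ[K] L) (RA p q β L) (algebraMap K L β) n0 N (OR p q β h n0 L) := by
  obtain ⟨L, i1, i2, i3, i4, i5, i6, hs⟩ := r_field (M := M) p q β N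
  have hfin : Module.Finite K L := Module.Finite.of_restrictScalars_finite ℚ K L
  have halg : Algebra.IsAlgebraic K L := inferInstance
  have hDL : Disj p q β L := disj_hom (IsAlgClosed.lift : L →ₐ[K] AlgebraicClosure K) hD
  have hT := r_tree (L := L) hB hDL hs
  exact ⟨L, i1, i2, i3, i4, i5, i6, hs, hT, r_orb hB hN hT hs hst hm hi hdvd⟩

theorem r_tendsto {K M : Type} [Field K] [NumberField K] [Field M] [NumberField M]
    [Algebra K M] {p q h : K[X]} {β : K} [IsSplittingField K M (wr p q)] (hB : RB p q β)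
    (hD : Disj p q β (AlgebraicClosure K))
    (hmu : ∀ c : AlgebraicClosure K, aeval c (wr p q) = 0 → Wan p q β c →
      mu p q (AlgebraicClosure K) c = 2)
    {n0 : ℕ} (hst : StabR p q β n0) (hm : h.Monic) (hi : Irreducible h)
    (hdvd : h ∣ RP p q β n0) : Tendsto (fun t => qr p q h β n0 t) atTop (𝓝 0) := by
  obtain ⟨s, hs⟩ : ∃ s, s = (Wr p q β M).card := ⟨_, rfl⟩
  have hdeg := hB.deg
  refine limit_zero2 _ n0 ?_ ?_ ?_
  · intro t
    exact div_nonneg (Nat.cast_nonneg _) (Nat.cast_nonneg _)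
  · intro t ht
    obtain ⟨L, i1, i2, i3, i4, i5, i6, hsp, hT, hO⟩ :=
      r_fld (M := M) hB hD hst hm hi hdvd (t + 1) (by omega)
    have hfin : FiniteDimensional K L := Module.Finite.of_restrictScalars_finite ℚ K L
    have := q_anti hT hO (t := t) (by omega)
    rwa [r_indep hB (by omega) hdvd (hsp _ (by omega)),
      r_indep hB ht hdvd (hsp _ (by omega))] at this
  · intro k hk
    obtain ⟨D, hDD⟩ : ∃ D, D = (k * p.natDegree) ^ (k * p.natDegree) := ⟨_, rfl⟩
    have hD1 : 1 ≤ D := by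
      rw [hDD]
      exact Nat.pow_pos (Nat.mul_pos hk (by omega))
    obtain ⟨N0, hN0⟩ : ∃ N0, N0 = (k + 1) * D := ⟨_, rfl⟩
    have hN01 : 1 ≤ N0 := by
      rw [hN0]
      exact Nat.mul_pos (by omega) hD1
    obtain ⟨v', n', v0', k', hg', hp', hB', hv0', hval', hmin', hk'⟩ :=
      r_prime (M := M) hB hD hm hi hdvd (max n0 1) (N0 * (s ^ 2 * (N0 + 3)) * s + 1)
    obtain ⟨t', ht'⟩ : ∃ t', t' = n' * (v0' + 2 * (n' * v0')) := ⟨_, rfl⟩
    obtain ⟨v, n, v0, k2, hg, hp, hBn, hv0, hval, hmin, hk2⟩ :=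
      r_prime (M := M) hB hD hm hi hdvd
        (max n0 (2 * ((s + 1) * n') * (k * p.natDegree * s + 1) + 2 * t' + 2 * ((s + 1) * n') + 1))
        (n' + 1)
    have hco : Nat.Coprime n n' := (Nat.coprime_primes hp hp').2 (by omega)
    obtain ⟨t0, ht0⟩ : ∃ t0, t0 = max n0 (n * (v0 + 2 * (n * v0))) := ⟨_, rfl⟩
    obtain ⟨N, hN⟩ : ∃ N, N = max (max n0 (max t' (t0 + n * (t0 + 3 * s + 1)))) ((N0 + 1) * n) +
      n * (n' + N0 + 2) := ⟨_, rfl⟩
    have hn0N : n0 ≤ N := by
      rw [hN]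
      exact (le_max_left _ _).trans ((le_max_left _ _).trans (Nat.le_add_right _ _))
    obtain ⟨L, i1, i2, i3, i4, i5, i6, hsp, hT, hO⟩ :=
      r_fld (M := M) hB hD hst hm hi hdvd N hn0N
    have hfin : FiniteDimensional K L := Module.Finite.of_restrictScalars_finite ℚ K L
    obtain ⟨P', hF', hI'⟩ := r_place hB hmu hg' hn0N (le_max_left _ _) hT hO hsp hm hdvd
      hp'.one_lt.le hv0' hval' hmin' hk'
    obtain ⟨P, hF, hI⟩ := r_place hB hmu hg hn0N (le_max_left _ _) hT hO hsp hm hdvd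
      hp.one_lt.le hv0 hval hmin hk2
    rw [← ht'] at hF'
    subst hs
    obtain ⟨l, hl1, hl2, hl3⟩ := group_main hT hO (by omega) hF' hI'
      (hF.mono (t1 := t0) (by rw [ht0]; exact le_max_right _ _)) hI
      (by rw [ht0]; exact le_max_left _ _) hco hk hN01 (by omega) (le_max_right _ _)
      (le_of_eq hN.symm)
    refine ⟨l, hl1, ?_⟩
    rw [r_indep hB hl1 hdvd (hsp _ hl2), ← hDD, hN0] at hl3
    have hDp : (0 : ℝ) < (D : ℝ) := by exact_mod_cast hD1
    have hkp : (0 : ℝ) < (k : ℝ) + 1 := by positivity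
    rw [le_div_iff₀ hkp]
    have h1 : (((k + 1) * D : ℕ) : ℝ) * (qr p q h β n0 l - 1 / ((k : ℝ) + 1)) =
        D * (qr p q h β n0 l * ((k : ℝ) + 1) - 1) := by
      push_cast
      field_simp
    rw [h1] at hl3
    have h2 : qr p q h β n0 l * ((k : ℝ) + 1) - 1 ≤ 1 := by
      by_contra hcon
      push Not at hcon
      have := mul_lt_mul_of_pos_left hcon hDp
      linarith
    linarith

end Pool.Agent.H42.RM
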