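/-
ROW EFc. Density zero for rational maps with simple wandering critical points. PROOF: copy
AD/EBb.lean (EFin_SS2, density_zero2): `(derivative f).SplittingField` becomes
`(wr p q).SplittingField`, qq_tendsto2 becomes r_tendsto (row ELa), exists_field r_field (row EBb),
tree_of_splits r_tree (row EBa), orb_of_stab r_orb (row EBd), frob_in r_frob (row EFa; it does not need
hO), q_indep r_indep (row EBe), GP_hom disj_hom (row EAc), exists_stab r_stab (row EBb), cover r_cover
(row EFb; `M = (wr p q).SplittingField`), fac_finite r_fac_finite (row EFb). In r_density there is no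
case distinction (hB contains that `β` is wandering).
-/
import Pool.Agent.H42.RM.ELa
import Pool.Agent.H42.RM.EFa
import Pool.Agent.H42.RM.EFb
import Pool.Agent.H42.PCM.E4

set_option autoImplicit false

namespace Pool.Agent.H42.RM

open Pool.Agent.H42.PC Polynomial NumberField IsDedekindDomain Filter Topology

open scoped Classical

theorem r_SS (hPIT : ∀ (E : Type) [Field E] [NumberField E], PITh E)
    {K : Type} [Field K] [NumberField K] {p q h : K[X]} {β : K} (hB : RB p q β)
    (hD : Disj p q β (AlgebraicClosure K))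
    (hmu : ∀ c : AlgebraicClosure K, aeval c (wr p q) = 0 → Wan p q β c →
      mu p q (AlgebraicClosure K) c = 2)
    {n0 : ℕ} (hst : StabR p q β n0) (hm : h.Monic) (hi : Irreducible h)
    (hdvd : h ∣ RP p q β n0) : EFinSm K (SR p q h β) := by
  classical
  have hM : NumberField (wr p q).SplittingField :=
    NumberField.of_module_finite K (wr p q).SplittingField
  have hq := r_tendsto (M := (wr p q).SplittingField) hB hD hmu hst hm hi hdvd
  intro ε hε
  obtain ⟨t, hqt, hnt⟩ : ∃ t, qr p q h β n0 t < ε / 4 ∧ n0 ≤ t := by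
    have h1 : ∀ᶠ t in atTop, qr p q h β n0 t < ε / 4 := hq.eventually_lt_const (by positivity)
    exact (h1.and (eventually_ge_atTop n0)).exists
  obtain ⟨L, iF, iN, iKL, iML, iT, iG, hs⟩ := r_field (K := K)
    (M := (wr p q).SplittingField) p q β t
  have hDL : Disj p q β L :=
    disj_hom (IsAlgClosed.lift (R := K) (S := L) (M := AlgebraicClosure K)) hD
  have hT := r_tree (L := L) hB hDL hs
  have hO := r_orb (L := L) hB hnt hT hs hst hm hi hdvd
  have hfr := r_frob (M := (wr p q).SplittingField) (L := L) hB hD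
    (IsSplittingField.splits _ _) hnt hT hs hm hdvd
  have hOfin : (OR p q β h n0 L t).Finite := (EFa_lev hB t).subset (hO.sub t le_rfl)
  have hden := frobenius_density (K := K) (L := L) (hPIT K) (fun M => hPIT M) (OR p q β h n0 L t)
    hOfin (fun g x hx => hO.inv t le_rfl g x hx) (ε := ε / 4) (by positivity)
  have hqe : PC.q (L ≃ₐ[K] L) (OR p q β h n0 L) t = qr p q h β n0 t :=
    r_indep (L := L) hB hnt hdvd (hs t le_rfl)
  have hE := EFin_fin (hPIT K) hfr (ε / 4) (by positivity)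
  filter_upwards [hden, hE] with X h1 h2
  have h3 : SR p q h β ⊆ {v | v ∈ SR p q h β ∧ ¬ ∃ g : L ≃ₐ[K] L,
      (∃ x ∈ OR p q β h n0 L t, g • x = x) ∧ IsFr K L v g} ∪
      {v | ∃ g : L ≃ₐ[K] L, (∃ x ∈ OR p q β h n0 L t, g • x = x) ∧ IsFr K L v g} := by
    intro v hv
    by_cases hg : ∃ g : L ≃ₐ[K] L, (∃ x ∈ OR p q β h n0 L t, g • x = x) ∧ IsFr K L v g
    · exact Or.inr hg
    · exact Or.inl ⟨hv, hg⟩
  have h4 := (EFin_mono_prc h3 X).trans (EFin_union_prc _ _ X)
  have h5 : (prc K (SR p q h β) X : ℝ) ≤ (prc K {v | v ∈ SR p q h β ∧ ¬ ∃ g : L ≃ₐ[K] L,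
      (∃ x ∈ OR p q β h n0 L t, g • x = x) ∧ IsFr K L v g} X : ℝ) +
      (prc K {v | ∃ g : L ≃ₐ[K] L, (∃ x ∈ OR p q β h n0 L t, g • x = x) ∧ IsFr K L v g} X : ℝ) := by
    exact_mod_cast h4
  have h6 : (Nat.card {g : L ≃ₐ[K] L // ∃ x ∈ OR p q β h n0 L t, g • x = x} : ℝ) /
      Nat.card (L ≃ₐ[K] L) < ε / 4 := by
    have : PC.q (L ≃ₐ[K] L) (OR p q β h n0 L) t < ε / 4 := by rw [hqe]; exact hqt
    exact this
  have h7 : (0 : ℝ) ≤ prc K Set.univ X := Nat.cast_nonneg _
  have h8 : ((Nat.card {g : L ≃ₐ[K] L // ∃ x ∈ OR p q β h n0 L t, g • x = x} : ℝ) /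
      Nat.card (L ≃ₐ[K] L) + ε / 4) * prc K Set.univ X ≤ (ε / 4 + ε / 4) * prc K Set.univ X :=
    mul_le_mul_of_nonneg_right (by linarith) h7
  nlinarith

theorem r_density (hPIT : ∀ (E : Type) [Field E] [NumberField E], PITh E)
    {K : Type} [Field K] [NumberField K] {p q : K[X]} {β : K} (hB : RB p q β)
    (hD : Disj p q β (AlgebraicClosure K))
    (hmu : ∀ c : AlgebraicClosure K, aeval c (wr p q) = 0 → Wan p q β c →
      mu p q (AlgebraicClosure K) c = 2) (hES : ESR p q β) :
    EFinSm K {v | ∃ n, 1 ≤ n ∧ v.valuation K ((RA p q β K)^[n] β - β) < 1} := by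
  have hM : NumberField (wr p q).SplittingField :=
    NumberField.of_module_finite K (wr p q).SplittingField
  have hDM : Disj p q β (wr p q).SplittingField :=
    disj_hom (IsAlgClosed.lift (R := K) (S := (wr p q).SplittingField)
      (M := AlgebraicClosure K)) hD
  obtain ⟨n0, hst⟩ := r_stab hB hES
  have hc := r_cover (M := (wr p q).SplittingField) hB hDM n0
  have hS : EFinSm K (⋃ h ∈ {g : K[X] | g.Monic ∧ Irreducible g ∧ g ∣ RP p q β n0},
      SR p q h β) := EFin_bUnion (hPIT K) (r_fac_finite hB.qdeg n0) _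
    (fun h hh => r_SS hPIT hB hD hmu hst hh.1 hh.2.1 hh.2.2)
  refine EFin_mono ?_ (EFin_union (EFin_fin (hPIT K) hc) hS)
  intro v hv
  by_cases hv2 : v ∈ ⋃ h ∈ {g : K[X] | g.Monic ∧ Irreducible g ∧ g ∣ RP p q β n0},
      SR p q h β
  · exact Or.inr hv2
  · exact Or.inl ⟨hv, hv2⟩

end Pool.Agent.H42.RM
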