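/-
ROW LOb. PROOFS.
* facs_eq: as hS in the proof of exists_stab (PCM/E2.lean, section ESt): the monic irreducible factors of
  `RP p q β n` are the minimal polynomials of its roots in `AlgebraicClosure K` (rp_root, row EAc).
* facs_mono: as hwd, hsurj, himg, hstep there (see the header of row EBb): the set of level `n` is the
  image of the set of level `n+1` under `minpoly x ↦ minpoly (F x)`; the sets are finite
  (`ELoc_fin` of PCM/E4 with rp_ne).
* facs_le: monotonicity (Nat.le_induction).
-/
import Pool.Agent.H42.RM.EAc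
import Pool.Agent.H42.PCM.E4

set_option autoImplicit false

namespace Pool.Agent.H42.RM

open Pool.Agent.H42.PC Polynomial

variable {K : Type} [Field K] {p q : K[X]} {β : K}

theorem LOb_surj (hB : RB p q β) (y : AlgebraicClosure K) :
    ∃ x : AlgebraicClosure K, RA p q β (AlgebraicClosure K) x = y := by
  have hlt : (C y * q.map (algebraMap K (AlgebraicClosure K))).natDegree <
      (p.map (algebraMap K (AlgebraicClosure K))).natDegree := by
    refine (natDegree_C_mul_le _ _).trans_lt ?_
    rw [natDegree_map, natDegree_map]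
    exact hB.qdeg
  have hnd : (p.map (algebraMap K (AlgebraicClosure K)) -
      C y * q.map (algebraMap K (AlgebraicClosure K))).natDegree = p.natDegree := by
    rw [natDegree_sub_eq_left_of_natDegree_lt hlt, natDegree_map]
  obtain ⟨x, hx⟩ := IsAlgClosed.exists_root (p.map (algebraMap K (AlgebraicClosure K)) -
      C y * q.map (algebraMap K (AlgebraicClosure K))) (by
    intro h0
    have h2 := natDegree_eq_zero_iff_degree_le_zero.2 h0.le
    have h3 := hB.deg
    omega)
  have h1 : aeval x p - y * aeval x q = 0 := by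
    have h2 := hx
    rwa [IsRoot.def, Polynomial.eval_sub, eval_mul, eval_C, eval_map_algebraMap,
      eval_map_algebraMap] at h2
  have hq : aeval x q ≠ 0 := by
    intro h0
    rw [h0, mul_zero, sub_zero] at h1
    obtain ⟨u, v, huv⟩ := hB.cop
    have h2 := congrArg (aeval x) huv
    rw [map_add, map_mul, map_mul, h0, h1, mul_zero, mul_zero, add_zero, map_one] at h2
    exact zero_ne_one h2
  refine ⟨x, ?_⟩
  rw [ra_ne hq, div_eq_iff hq]
  exact sub_eq_zero.1 h1

theorem LOb_int (x : AlgebraicClosure K) : IsIntegral K x := Algebra.IsIntegral.isIntegral x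

theorem LOb_wd {x x' : AlgebraicClosure K} (hxx : minpoly K x = minpoly K x') :
    minpoly K (RA p q β (AlgebraicClosure K) x) = minpoly K (RA p q β (AlgebraicClosure K) x') := by
  obtain ⟨σ, hσ⟩ := (Normal.minpoly_eq_iff_mem_orbit (F := K) (AlgebraicClosure K)).1 hxx.symm
  have h1 : σ x = x' := hσ
  have h2 : σ (RA p q β (AlgebraicClosure K) x) = RA p q β (AlgebraicClosure K) x' := by
    rw [← h1]
    exact ra_hom (σ : AlgebraicClosure K →ₐ[K] AlgebraicClosure K) x
  rw [← h2]
  exact (minpoly.algEquiv_eq σ _).symm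

theorem facs_eq (hB : RB p q β) (n : ℕ) :
    {g : K[X] | g.Monic ∧ Irreducible g ∧ g ∣ RP p q β n} =
      minpoly K '' {x : AlgebraicClosure K | (RA p q β (AlgebraicClosure K))^[n] x =
        algebraMap K (AlgebraicClosure K) β} := by
  ext g
  constructor
  · rintro ⟨h1, h2, h3⟩
    obtain ⟨x, hx⟩ := IsAlgClosed.exists_aeval_eq_zero (AlgebraicClosure K) g (by
      intro h0
      exact h2.not_isUnit (isUnit_iff_degree_eq_zero.2 h0))
    refine ⟨x, ?_, (minpoly.eq_of_irreducible_of_monic h2 hx h1).symm⟩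
    have h4 : aeval x (RP p q β n) = 0 := by
      obtain ⟨w, hw⟩ := h3
      rw [hw, map_mul, hx, zero_mul]
    exact (rp_root hB n x).1 h4
  · rintro ⟨x, hx, rfl⟩
    exact ⟨minpoly.monic (LOb_int x), minpoly.irreducible (LOb_int x),
      minpoly.dvd K x ((rp_root hB n x).2 hx)⟩

theorem facs_mono (hB : RB p q β) (n : ℕ) :
    {g : K[X] | g.Monic ∧ Irreducible g ∧ g ∣ RP p q β n}.ncard ≤
      {g : K[X] | g.Monic ∧ Irreducible g ∧ g ∣ RP p q β (n + 1)}.ncard := by
  classical
  have hfin := ELoc_fin (rp_ne (β := β) hB.qdeg (n + 1))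
  rw [facs_eq hB n, facs_eq hB (n + 1)]
  rw [facs_eq hB (n + 1)] at hfin
  obtain ⟨φ, hφ⟩ : ∃ φ : K[X] → K[X], ∀ x : AlgebraicClosure K,
      φ (minpoly K x) = minpoly K (RA p q β (AlgebraicClosure K) x) := by
    refine ⟨fun g => if h : ∃ x : AlgebraicClosure K, minpoly K x = g then
      minpoly K (RA p q β (AlgebraicClosure K) h.choose) else 0, fun x => ?_⟩
    have hex : ∃ y : AlgebraicClosure K, minpoly K y = minpoly K x := ⟨x, rfl⟩
    show (if h : ∃ y : AlgebraicClosure K, minpoly K y = minpoly K x then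
      minpoly K (RA p q β (AlgebraicClosure K) h.choose) else 0) = _
    rw [dif_pos hex]
    exact LOb_wd hex.choose_spec
  refine le_trans (Set.ncard_le_ncard ?_ (hfin.image φ)) (Set.ncard_image_le hfin)
  rintro g ⟨y, hy, rfl⟩
  obtain ⟨x, hx⟩ := LOb_surj hB y
  refine ⟨minpoly K x, ⟨x, ?_, rfl⟩, ?_⟩
  · show (RA p q β (AlgebraicClosure K))^[n + 1] x = algebraMap K (AlgebraicClosure K) β
    rw [Function.iterate_succ_apply, hx]
    exact hy
  · rw [hφ, hx]

theorem facs_le (hB : RB p q β) {n m : ℕ} (h : n ≤ m) :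
    {g : K[X] | g.Monic ∧ Irreducible g ∧ g ∣ RP p q β n}.ncard ≤
      {g : K[X] | g.Monic ∧ Irreducible g ∧ g ∣ RP p q β m}.ncard := by
  induction m, h using Nat.le_induction with
  | base => exact le_rfl
  | succ m hm ih => exact ih.trans (facs_mono hB m)

end Pool.Agent.H42.RM
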