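/-
ROW FAa. The map on `P¹(A) = Option A` (`none` is infinity). Let `F = RA p q β A`. PROOFS.
* rm_iter: induction on `n` (iterate_succ_apply'): `(ratMap p q A)^[n] (some x) = some y` iff
  (no pole among `F^[i] x`, `i < n`, and `y = F^[n] x`). If `(ratMap)^[n] (some x) = some z` then
  `(ratMap)^[n+1] (some x) = ratMap (some z)`, which is `none` if `aeval z q = 0` and
  `some (aeval z p / aeval z q) = some (F z)` otherwise (ra_ne, row EAb); if it is `none` then it
  stays `none` and there is a pole before `n`, so both sides are false.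
* rm_wan: if no pole occurs, `(ratMap)^[n] (some c) = some (F^[n] c)` for all `n` and the two ranges
  correspond under the injective `some`. If a pole occurs, at time `i`, then the orbit on `Option A` is
  eventually `none`, so its range is finite and both sides are false.
* rm_es: the `n`-th set in the definition of eventual stability equals the set of monic
  irreducible factors of `RP p q β n` (facs_eq of row LOb): by rm_iter and reach_reg (row EAc),
  `(ratMap)^[n] (some x) = some β` iff `F^[n] x = β`.
* rm_fin (preperiodic case): the range of the orbit is finite; the set is contained in the finite union over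
  the `x : K` with `some x` in the orbit and `x ≠ β` of `{v | v (x - β) ≠ 1}` (val_ne_one_finite,
  PCM/E1; `x ≠ β` since `(ratMap)^[n] (some β) ≠ some β`).
-/
import Pool.Agent.H42.RM.LOb

set_option autoImplicit false

namespace Pool.Agent.H42.RM

open Pool.Agent.H42.PC Polynomial NumberField IsDedekindDomain

open scoped Classical in
/-- The rational map `p / q` (`deg q < deg p`) on `P¹(A)`; `none` is the point at infinity, which is
fixed. -/
noncomputable def ratMap {K : Type} [Field K] (p q : K[X]) (A : Type) [Field A] [Algebra K A] :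
    Option A → Option A
  | none => none
  | some x => if aeval x q = 0 then none else some (aeval x p / aeval x q)

variable {K : Type} [Field K] {p q : K[X]} {β : K} {A : Type} [Field A] [Algebra K A]

theorem FAa_some (β : K) {x : A} (h : aeval x q ≠ 0) :
    ratMap p q A (some x) = some (RA p q β A x) := by
  rw [ra_ne h]
  exact if_neg h

theorem FAa_pole {x : A} (h : aeval x q = 0) : ratMap p q A (some x) = none := if_pos h

theorem FAa_none (n : ℕ) : (ratMap p q A)^[n] none = none := by
  induction n with
  | zero => rfl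
  | succ n ih =>
    rw [Function.iterate_succ_apply', ih]
    rfl

theorem FAa_reg (β : K) (n : ℕ) (x : A) (h : ∀ i < n, aeval ((RA p q β A)^[i] x) q ≠ 0) :
    (ratMap p q A)^[n] (some x) = some ((RA p q β A)^[n] x) := by
  induction n with
  | zero => rfl
  | succ n ih =>
    rw [Function.iterate_succ_apply', ih fun i hi => h i (by omega), FAa_some β (h n (by omega)),
      Function.iterate_succ_apply']

theorem FAa_sing (β : K) (n i : ℕ) (hi : i < n) (x : A) (h : aeval ((RA p q β A)^[i] x) q = 0) :
    (ratMap p q A)^[n] (some x) = none := by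
  classical
  have hex : ∃ i, aeval ((RA p q β A)^[i] x) q = 0 := ⟨i, h⟩
  have h1 := Nat.find_spec hex
  have h2 : Nat.find hex ≤ i := Nat.find_min' hex h
  have h3 : (ratMap p q A)^[Nat.find hex] (some x) = some ((RA p q β A)^[Nat.find hex] x) :=
    FAa_reg β _ x fun j hj => Nat.find_min hex hj
  have h4 : (ratMap p q A)^[Nat.find hex + 1] (some x) = none := by
    rw [Function.iterate_succ_apply', h3, FAa_pole h1]
  have h5 : n = (n - (Nat.find hex + 1)) + (Nat.find hex + 1) := by omega
  rw [h5, Function.iterate_add_apply, h4, FAa_none]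

theorem rm_iter (β : K) (n : ℕ) (x y : A) :
    (ratMap p q A)^[n] (some x) = some y ↔
      (∀ i < n, aeval ((RA p q β A)^[i] x) q ≠ 0) ∧ (RA p q β A)^[n] x = y := by
  by_cases h : ∀ i < n, aeval ((RA p q β A)^[i] x) q ≠ 0
  · rw [FAa_reg β n x h, Option.some_inj]
    exact ⟨fun h1 => ⟨h, h1⟩, fun h1 => h1.2⟩
  · have h' := h
    push Not at h'
    obtain ⟨i, hi, h0⟩ := h'
    rw [FAa_sing β n i hi x h0]
    exact ⟨fun h1 => absurd h1 (by simp), fun h1 => absurd h1.1 h⟩

theorem rm_wan (β : K) (c : A) :
    (Set.range fun n : ℕ => (ratMap p q A)^[n] (some c)).Infinite ↔ Wan p q β c := by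
  by_cases h : ∀ n : ℕ, aeval ((RA p q β A)^[n] c) q ≠ 0
  · have e : (Set.range fun n : ℕ => (ratMap p q A)^[n] (some c)) =
        some '' (Set.range fun n : ℕ => (RA p q β A)^[n] c) := by
      rw [← Set.range_comp]
      congr 1
      funext n
      exact FAa_reg β n c fun i _ => h i
    rw [e, Set.infinite_image_iff (Option.some_injective A).injOn]
    exact ⟨fun h1 => ⟨h, h1⟩, fun h1 => h1.2⟩
  · have h' := h
    push Not at h'
    obtain ⟨i, h0⟩ := h'
    have hfin : (Set.range fun n : ℕ => (ratMap p q A)^[n] (some c)).Finite := by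
      refine (((Set.finite_Iic i).image fun n : ℕ => (ratMap p q A)^[n] (some c)).union
        (Set.finite_singleton (none : Option A))).subset ?_
      rintro _ ⟨n, rfl⟩
      by_cases hn : n ≤ i
      · exact Or.inl ⟨n, hn, rfl⟩
      · exact Or.inr (FAa_sing β n i (by omega) c h0)
    exact ⟨fun h1 => absurd hfin h1, fun h1 => absurd h1.1 h⟩

theorem rm_es (hB : RB p q β) (n : ℕ) :
    {g : K[X] | ∃ x : AlgebraicClosure K, (ratMap p q (AlgebraicClosure K))^[n] (some x) =
      some (algebraMap K (AlgebraicClosure K) β) ∧ g = minpoly K x} =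
    {g : K[X] | g.Monic ∧ Irreducible g ∧ g ∣ RP p q β n} := by
  rw [facs_eq hB n]
  ext g
  constructor
  · rintro ⟨x, hx, rfl⟩
    exact ⟨x, ((rm_iter β n x _).1 hx).2, rfl⟩
  · rintro ⟨x, hx, rfl⟩
    exact ⟨x, (rm_iter β n x _).2 ⟨fun i _ => reach_reg hB hx i, hx⟩, rfl⟩

theorem rm_fin {K : Type} [Field K] [NumberField K] {p q : K[X]} {β : K}
    (h : (Set.range fun n : ℕ => (ratMap p q K)^[n] (some β)).Finite)
    (hper : ∀ n, 1 ≤ n → (ratMap p q K)^[n] (some β) ≠ some β) :
    {v : HeightOneSpectrum (𝓞 K) | ∃ n, 1 ≤ n ∧ ∃ x : K,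
      (ratMap p q K)^[n] (some β) = some x ∧ v.valuation K (x - β) < 1}.Finite := by
  refine (Set.Finite.biUnion h (t := fun y => {v : HeightOneSpectrum (𝓞 K) | ∃ x : K,
    y = some x ∧ x ≠ β ∧ v.valuation K (x - β) ≠ 1}) fun y _ => ?_).subset ?_
  · rcases y with _ | x
    · refine Set.finite_empty.subset ?_
      rintro v ⟨x, hx, -⟩
      exact absurd hx (by simp)
    · by_cases hxb : x = β
      · refine Set.finite_empty.subset ?_
        rintro v ⟨x', hx', hne, -⟩
        rw [Option.some_inj] at hx'
        subst hx'
        exact hne hxb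
      · refine (val_ne_one_finite (sub_ne_zero.2 hxb)).subset ?_
        rintro v ⟨x', hx', -, hv⟩
        rw [Option.some_inj] at hx'
        subst hx'
        exact hv
  · rintro v ⟨n, hn, x, hx, hv⟩
    rw [Set.mem_iUnion₂]
    refine ⟨some x, ⟨n, hx⟩, x, rfl, ?_, hv.ne⟩
    rintro rfl
    exact hper n hn hx

end Pool.Agent.H42.RM
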