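/-
LOa: Counting factors of a polynomial congruent to a power of `X - b`.
PROOF. (1) the case `b = 0` (with hypothesis `hlow : ∀ i < natDegree R, V (R.coeff i) < 1`) is
ELo2_count of PCM/E4.lean (section ELo2) with `f0.comp^[n] X` replaced by the lift `R0` of `R` to
`V.valuationSubring[X]`: `R0.natDegree = natDegree R`, the leading coefficient of `R0` is a unit, the
image of `R0` in the residue field polynomials is `C A * X^N` (`A ≠ 0`), so every monic `g0 ∣ R0` of
positive degree has `V (g0.eval 0) < 1` (copy ELo2_factor). Copy the proof of ELo2_count.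
(2) general `b`: apply (1) to `R.comp (X + C b)` (same degree and leading coefficient: natDegree_comp,
leadingCoeff_comp; value at `0` is `R.eval b`; its coefficients are integral: for `i < natDegree` by
hlow, the leading one by hlead) and to the image of `S` under the injective map
`g ↦ g.comp (X + C b)` (monic: Monic.comp_X_add_C; irreducible: ELo2_irr; divisibility: mul_comp).
-/
import Pool.Agent.H42.PCM.E4

set_option autoImplicit false

namespace Pool.Agent.H42.RM

open Pool.Agent.H42.PC Polynomial WithZero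

theorem LOa_form {K : Type} [Field K] {V : Valuation K ℤᵐ⁰} {R0 : V.valuationSubring[X]}
    (hlow : ∀ i < R0.natDegree, V (R0.coeff i : K) < 1) :
    R0.map (IsLocalRing.residue V.valuationSubring) =
      C (IsLocalRing.residue V.valuationSubring (R0.coeff R0.natDegree)) * X ^ R0.natDegree := by
  ext i
  rw [coeff_map, coeff_C_mul, coeff_X_pow]
  rcases lt_trichotomy i R0.natDegree with h1 | h1 | h1
  · rw [if_neg (by omega), (ELoc_res V).2 (hlow i h1), mul_zero]
  · rw [if_pos h1, h1, mul_one]
  · rw [if_neg (by omega), coeff_eq_zero_of_natDegree_lt h1, map_zero, mul_zero]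

theorem LOa_factor {K : Type} [Field K] {V : Valuation K ℤᵐ⁰} {R0 : V.valuationSubring[X]}
    (hlead : V (R0.leadingCoeff : K) = 1)
    (hlow : ∀ i < R0.natDegree, V (R0.coeff i : K) < 1)
    {g : V.valuationSubring[X]} (hg : g.Monic) (hgd : g.natDegree ≠ 0)
    (hdiv : g ∣ R0) : V ((g.eval 0 : V.valuationSubring) : K) < 1 := by
  have hA : IsLocalRing.residue V.valuationSubring (R0.coeff R0.natDegree) ≠ 0 := by
    intro h0
    rw [ELoc_res] at h0
    rw [leadingCoeff] at hlead
    exact h0.ne hlead
  have hd2 : g.map (IsLocalRing.residue V.valuationSubring) ∣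
      C (IsLocalRing.residue V.valuationSubring (R0.coeff R0.natDegree)) *
        X ^ R0.natDegree := by
    rw [← LOa_form hlow]
    exact Polynomial.map_dvd _ hdiv
  have hd3 : g.map (IsLocalRing.residue V.valuationSubring) ∣ X ^ R0.natDegree :=
    ((isUnit_C.2 (IsUnit.mk0 _ hA)).dvd_mul_left).1 hd2
  obtain ⟨i, _, hi⟩ := (dvd_prime_pow prime_X _).1 hd3
  have hi0 : i ≠ 0 := by
    rintro rfl
    rw [pow_zero] at hi
    have h1 : IsUnit (g.map (IsLocalRing.residue V.valuationSubring)) :=
      (hi.isUnit_iff).2 isUnit_one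
    have h2 := natDegree_eq_zero_of_isUnit h1
    rw [hg.natDegree_map] at h2
    exact hgd h2
  have h4 : X ∣ g.map (IsLocalRing.residue V.valuationSubring) :=
    (dvd_pow_self _ hi0).trans hi.symm.dvd
  rw [X_dvd_iff, coeff_map, coeff_zero_eq_eval_zero, ELoc_res] at h4
  exact h4

theorem LOa_count {K : Type} [Field K] {V : Valuation K ℤᵐ⁰} {R0 : V.valuationSubring[X]}
    (hlead : V (R0.leadingCoeff : K) = 1)
    (hlow : ∀ i < R0.natDegree, V (R0.coeff i : K) < 1) {ν : ℕ}
    (hν : V ((R0.eval 0 : V.valuationSubring) : K) = exp (-(ν : ℤ)))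
    (S : Finset K[X]) (hS : ∀ g ∈ S, g.Monic ∧ Irreducible g ∧
      g ∣ R0.map (algebraMap V.valuationSubring K)) : S.card ≤ ν := by
  classical
  obtain ⟨u, hu⟩ : IsUnit R0.leadingCoeff :=
    ((Valuation.valuationSubring.integers V).isUnit_iff_valuation_eq_one).2 hlead
  have hmon : (C ((u⁻¹ : V.valuationSubringˣ) : V.valuationSubring) * R0).Monic := by
    apply monic_C_mul_of_mul_leadingCoeff_eq_one
    rw [← hu]
    simp
  have hinj : Function.Injective (algebraMap V.valuationSubring K) := IsFractionRing.injective _ _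
  have hlift : ∀ g : K[X], g ∈ S → ∃ g0 : V.valuationSubring[X], g0.Monic ∧
      g0.map (algebraMap V.valuationSubring K) = g := by
    intro g hg
    obtain ⟨h1, h2, h3⟩ := hS g hg
    have h4 : g ∣ (C ((u⁻¹ : V.valuationSubringˣ) : V.valuationSubring) * R0).map
        (algebraMap V.valuationSubring K) := by
      rw [Polynomial.map_mul]
      exact h3.mul_left _
    obtain ⟨g0, hg0⟩ := IsIntegrallyClosed.eq_map_mul_C_of_dvd K hmon h4
    rw [h1.leadingCoeff, C_1, mul_one] at hg0
    refine ⟨g0, ?_, hg0⟩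
    apply monic_of_injective hinj
    rw [hg0]
    exact h1
  choose! φ hφ using hlift
  have hG : (∏ g ∈ S, φ g).Monic := monic_prod_of_monic _ _ (fun g hg => (hφ g hg).1)
  have hGm : (∏ g ∈ S, φ g).map (algebraMap V.valuationSubring K) = ∏ g ∈ S, g := by
    rw [Polynomial.map_prod]
    exact Finset.prod_congr rfl (fun g hg => (hφ g hg).2)
  have hdv : (∏ g ∈ S, g) ∣ R0.map (algebraMap V.valuationSubring K) := by
    apply Finset.prod_dvd_of_coprime
    · intro g hg g' hg' hne
      have h1 := hS g (Finset.mem_coe.1 hg)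
      have h2 := hS g' (Finset.mem_coe.1 hg')
      show IsCoprime g g'
      rw [h1.2.1.coprime_iff_not_dvd]
      intro h3
      exact absurd (eq_of_monic_of_associated h1.1 h2.1 (h1.2.1.associated_of_dvd h2.2.1 h3)) hne
    · intro g hg
      exact (hS g hg).2.2
  rw [← hGm, map_dvd_map _ hinj hG] at hdv
  obtain ⟨q, hq⟩ := hdv
  have hg1 : ∀ g ∈ S, V (((φ g).eval 0 : V.valuationSubring) : K) ≤ exp (-1) := by
    intro g hg
    have h1 : V (((φ g).eval 0 : V.valuationSubring) : K) < 1 := by
      apply LOa_factor hlead hlow (hφ g hg).1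
      · intro h0
        have h2 := (hS g hg).2.1.natDegree_pos
        rw [← (hφ g hg).2, natDegree_map_eq_of_injective hinj] at h2
        omega
      · rw [hq]
        exact (Finset.dvd_prod_of_mem φ hg).mul_right q
    exact ELoc_lt1 h1
  have hval : V ((R0.eval 0 : V.valuationSubring) : K) ≤ exp (-(S.card : ℤ)) := by
    rw [hq, Polynomial.eval_mul, eval_prod]
    push_cast
    rw [map_mul, map_prod]
    have h1 : ∏ g ∈ S, V (((φ g).eval 0 : V.valuationSubring) : K) ≤ ∏ g ∈ S, (exp (-1) : ℤᵐ⁰) :=
      Finset.prod_le_prod' hg1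
    have h2 : V ((q.eval 0 : V.valuationSubring) : K) ≤ 1 := (q.eval 0).2
    calc _ ≤ (∏ g ∈ S, (exp (-1) : ℤᵐ⁰)) * 1 := mul_le_mul' h1 h2
      _ = exp (-(S.card : ℤ)) := by
        rw [mul_one, Finset.prod_const, ← exp_nsmul]
        simp
  rw [hν] at hval
  rw [exp_le_exp] at hval
  omega

theorem LOa_zero {K : Type} [Field K] (V : Valuation K ℤᵐ⁰) {R : K[X]}
    (hlead : V R.leadingCoeff = 1)
    (hlow : ∀ i < R.natDegree, V (R.coeff i) < 1) {ν : ℕ}
    (hν : V (R.eval 0) = exp (-(ν : ℤ))) (S : Finset K[X])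
    (hS : ∀ g ∈ S, g.Monic ∧ Irreducible g ∧ g ∣ R) : S.card ≤ ν := by
  have hcoef : ∀ i, V (R.coeff i) ≤ 1 := by
    intro i
    rcases lt_trichotomy i R.natDegree with h1 | h1 | h1
    · exact (hlow i h1).le
    · rw [h1]
      exact hlead.le
    · rw [coeff_eq_zero_of_natDegree_lt (by omega), map_zero]
      exact zero_le
  obtain ⟨f0, hf0⟩ : ∃ f0 : V.valuationSubring[X], f0.map (algebraMap V.valuationSubring K) = R := by
    have : R ∈ lifts (algebraMap V.valuationSubring K) := by
      rw [lifts_iff_coeff_lifts]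
      intro i
      exact ⟨⟨R.coeff i, hcoef i⟩, rfl⟩
    exact (mem_lifts R).1 this
  have hinj : Function.Injective (algebraMap V.valuationSubring K) := IsFractionRing.injective _ _
  have hco : ∀ i, (f0.coeff i : K) = R.coeff i := by
    intro i
    rw [← hf0, coeff_map]
    rfl
  have hdg : f0.natDegree = R.natDegree := by
    rw [← natDegree_map_eq_of_injective hinj, hf0]
  have he0 : ((f0.eval 0 : V.valuationSubring) : K) = R.eval 0 := by
    have h1 := ELoc_eval (algebraMap V.valuationSubring K) f0 0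
    rw [hf0, map_zero] at h1
    exact h1.symm
  refine LOa_count (R0 := f0) ?_ ?_ ?_ S ?_
  · rw [leadingCoeff, hco, hdg]
    exact hlead
  · intro i hi
    rw [hco]
    exact hlow i (by rw [← hdg]; exact hi)
  · rw [he0]
    exact hν
  · rw [hf0]
    exact hS

theorem fac_count {K : Type} [Field K] (V : Valuation K ℤᵐ⁰) {R : K[X]} {b : K}
    (hlead : V R.leadingCoeff = 1)
    (hlow : ∀ i < R.natDegree, V ((R.comp (X + C b)).coeff i) < 1) {ν : ℕ}
    (hν : V (R.eval b) = exp (-(ν : ℤ))) (S : Finset K[X])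
    (hS : ∀ g ∈ S, g.Monic ∧ Irreducible g ∧ g ∣ R) : S.card ≤ ν := by
  classical
  have hnd : (R.comp (X + C b)).natDegree = R.natDegree := by
    rw [natDegree_comp, natDegree_X_add_C, mul_one]
  have hlc : (R.comp (X + C b)).leadingCoeff = R.leadingCoeff := by
    rw [leadingCoeff_comp (by rw [natDegree_X_add_C]; omega), leadingCoeff_X_add_C, one_pow,
      mul_one]
  have hinj : Function.Injective (fun p : K[X] => p.comp (X + C b)) := by
    intro p q hpq
    exact (algEquivAevalXAddC b).injective hpq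
  have h1 := LOa_zero V (R := R.comp (X + C b)) (ν := ν) (by rw [hlc]; exact hlead)
    (by rw [hnd]; exact hlow) (by
      rw [eval_comp, eval_add, eval_X, eval_C, zero_add]
      exact hν) (S.image (fun p => p.comp (X + C b))) (by
      intro g hg
      obtain ⟨p, hp, rfl⟩ := Finset.mem_image.1 hg
      obtain ⟨a1, a2, a3⟩ := hS p hp
      refine ⟨a1.comp_X_add_C b, (ELo2_irr b p).2 a2, ?_⟩
      obtain ⟨q, hq⟩ := a3
      refine ⟨q.comp (X + C b), ?_⟩
      rw [hq, mul_comp])
  rwa [Finset.card_image_of_injective _ hinj] at h1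

end Pool.Agent.H42.RM
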