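/-
ROW LOc. Local condition A: `β` is a totally ramified fixed point of the reduced map.
Let `d = natDegree p`, `ρ = p - C β * q`, `(P, Q) = PQ p q n`, `R_n = RP p q β n`, `F = RA p q β K`
(`= fr p q (ro p q β)`, map by algebraMap K K is the identity: Algebra.algebraMap_self, map_id).
Write `f ≡ g` for polynomials (or elements) over the valuation ring with the same image in the residue
field `k = ResidueField V.valuationSubring`. hlow says `ρ(X + β) ≡ lc X^d`, i.e. `ρ ≡ lc (X - β)^d`
(`natDegree ρ = d`, leading coefficient `lc = lc(p)`, a unit).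
PROOFS.
* locA_red: induction on `n`: the coefficients of `P_n, Q_n` are integral, the leading coefficient of
  `P_n` (degree `d^n`, pq_deg of row EAa) is a unit, `R_n ≡ A_n (X - β)^(d^n)` with `A_n ≠ 0` in `k`, and
  `V (Q_n(β)) = 1`. `n = 0`: `R_0 = X - β`, `Q_0 = 1`. Step:
  `R_{n+1} = ∑ ρ_i P^i Q^(d-i)`, the homogenisation of `ρ ≡ lc (X-β)^d`, which is
  `≡ lc (P - β Q)^d = lc R_n^d ≡ lc A_n^d (X-β)^(d^(n+1))`. (Homogenisation commutes with the
  reduction; the homogenisation of `(X - β)^d` in degree `d` is `(P - β Q)^d`: binomial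
  theorem.) `P_n(β) ≡ β Q_n(β)` as `R_n(β) ≡ 0`, so `Q_{n+1}(β) = ∑ q_i P_n(β)^i Q_n(β)^(d-i)
  ≡ Q_n(β)^d q(β)`, a unit. Finally `(R_n.comp (X + C β)) ≡ A_n X^(d^n)` gives the claim on the
  coefficients.
* locA_rigid: `ρ0 := V (F β - β) < 1`: `F β - β = ρ(β)/q(β)`, `V (ρ(β)) = ρ0` and `ρ(β)` is the
  coefficient `0` of `ρ(X+β)`. Let `V (x - β) ≤ ρ0`. Then `V (q x) = 1` (`V (q x - q β) < 1`: eval_sub_le of
  PCM/D1), `F x - β = ρ(x)/q(x)`, `ρ(x) = ∑ ρ'_i (x-β)^i` with `ρ' = ρ.comp (X + C β)`; the terms with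
  `1 ≤ i < d` have value `< ρ0` (V ρ'_i < 1, `V (x-β) ≤ ρ0 ≤ 1`) and the one with `i = d ≥ 2` has value
  `≤ ρ0^2 < ρ0` (`ρ0 ≠ 0` by r_aper of row EAc). So `V (F x - β) = ρ0`. Induction on `n`.
* loc_A: `R_n(β) = Q_n(β) (F^[n] β - β)` (pq_iter, row EAb) has value `ρ0 = exp (-ν)` for `n ≥ 1`.
  fac_count (row LOa) bounds the number of factors by `ν` for `n ≥ 1` (every finite subset of the set of
  factors has at most `ν` elements; `ELoc_fin` gives finiteness). For `n = 0` use facs_le (row LOb) with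
  `n = 0 ≤ 1`. (`V (R_n.leadingCoeff) = 1`: it is the leading coefficient of `P_n`.)
-/
import Pool.Agent.H42.RM.LOa
import Pool.Agent.H42.RM.LOb

set_option autoImplicit false

namespace Pool.Agent.H42.RM

open Pool.Agent.H42.PC Polynomial WithZero

variable {K : Type} [Field K] {p q : K[X]} {β : K}

/-- integral coefficients -/
private def LIn (V : Valuation K ℤᵐ⁰) (f : K[X]) : Prop := ∀ i, V (f.coeff i) ≤ 1

/-- small coefficients -/
private def LSm (V : Valuation K ℤᵐ⁰) (f : K[X]) : Prop := ∀ i, V (f.coeff i) < 1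

private theorem lin_C {V : Valuation K ℤᵐ⁰} {a : K} (ha : V a ≤ 1) : LIn V (C a) := by
  intro i
  rw [coeff_C]
  split_ifs
  · exact ha
  · rw [map_zero]
    exact zero_le_one

private theorem lin_X {V : Valuation K ℤᵐ⁰} : LIn V (X : K[X]) := by
  intro i
  rw [coeff_X]
  split_ifs
  · rw [map_one]
  · rw [map_zero]
    exact zero_le_one

private theorem lin_add {V : Valuation K ℤᵐ⁰} {f g : K[X]} (hf : LIn V f) (hg : LIn V g) :
    LIn V (f + g) := by
  intro i
  rw [coeff_add]
  exact Valuation.map_add_le _ (hf i) (hg i)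

private theorem lin_sub {V : Valuation K ℤᵐ⁰} {f g : K[X]} (hf : LIn V f) (hg : LIn V g) :
    LIn V (f - g) := by
  intro i
  rw [coeff_sub]
  exact Valuation.map_sub_le _ (hf i) (hg i)

private theorem lin_mul {V : Valuation K ℤᵐ⁰} {f g : K[X]} (hf : LIn V f) (hg : LIn V g) :
    LIn V (f * g) := by
  intro i
  rw [coeff_mul]
  refine Valuation.map_sum_le _ fun x _ => ?_
  rw [map_mul]
  exact mul_le_one' (hf _) (hg _)

private theorem lin_one {V : Valuation K ℤᵐ⁰} : LIn V (1 : K[X]) := by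
  have := lin_C (V := V) (a := (1 : K)) (by rw [map_one])
  rwa [map_one] at this

private theorem lin_pow {V : Valuation K ℤᵐ⁰} {f : K[X]} (hf : LIn V f) (n : ℕ) :
    LIn V (f ^ n) := by
  induction n with
  | zero => rw [pow_zero]; exact lin_one
  | succ n ih => rw [pow_succ]; exact lin_mul ih hf

private theorem lin_sum {V : Valuation K ℤᵐ⁰} {ι : Type} (s : Finset ι) (f : ι → K[X])
    (hf : ∀ i ∈ s, LIn V (f i)) : LIn V (∑ i ∈ s, f i) := by
  intro i
  rw [finsetSum_coeff]
  exact Valuation.map_sum_le _ fun x hx => hf x hx i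

private theorem lsm_in {V : Valuation K ℤᵐ⁰} {f : K[X]} (hf : LSm V f) : LIn V f :=
  fun i => (hf i).le

private theorem lsm_add {V : Valuation K ℤᵐ⁰} {f g : K[X]} (hf : LSm V f) (hg : LSm V g) :
    LSm V (f + g) := by
  intro i
  rw [coeff_add]
  exact Valuation.map_add_lt _ (hf i) (hg i)

private theorem lsm_mul {V : Valuation K ℤᵐ⁰} {f g : K[X]} (hf : LSm V f) (hg : LIn V g) :
    LSm V (f * g) := by
  intro i
  rw [coeff_mul]
  refine Valuation.map_sum_lt _ one_ne_zero fun x _ => ?_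
  rw [map_mul]
  exact mul_lt_one_of_lt_of_le (hf _) (hg _)

private theorem lsm_sum {V : Valuation K ℤᵐ⁰} {ι : Type} (s : Finset ι) (f : ι → K[X])
    (hf : ∀ i ∈ s, LSm V (f i)) : LSm V (∑ i ∈ s, f i) := by
  intro i
  rw [finsetSum_coeff]
  exact Valuation.map_sum_lt _ one_ne_zero fun x hx => hf x hx i

private theorem lsm_C {V : Valuation K ℤᵐ⁰} {a : K} (ha : V a < 1) : LSm V (C a) := by
  intro i
  rw [coeff_C]
  split_ifs
  · exact ha
  · rw [map_zero]
    exact zero_lt_one

private theorem lin_comp {V : Valuation K ℤᵐ⁰} {f g : K[X]} (hf : LIn V f) (hg : LIn V g) :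
    LIn V (f.comp g) := by
  rw [comp_eq_sum_left, Polynomial.sum]
  exact lin_sum _ _ fun i _ => lin_mul (lin_C (hf i)) (lin_pow hg i)

private theorem lsm_comp {V : Valuation K ℤᵐ⁰} {f g : K[X]} (hf : LSm V f) (hg : LIn V g) :
    LSm V (f.comp g) := by
  rw [comp_eq_sum_left, Polynomial.sum]
  exact lsm_sum _ _ fun i _ => lsm_mul (lsm_C (hf i)) (lin_pow hg i)

/-- powers of congruent polynomials -/
private theorem lsm_pow {V : Valuation K ℤᵐ⁰} {f g : K[X]} (hf : LIn V f) (hg : LIn V g)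
    (h : LSm V (f - g)) (n : ℕ) : LSm V (f ^ n - g ^ n) := by
  induction n with
  | zero =>
    rw [pow_zero, pow_zero, sub_self]
    intro i
    rw [coeff_zero, map_zero]
    exact zero_lt_one
  | succ n ih =>
    have e : f ^ (n + 1) - g ^ (n + 1) = (f ^ n - g ^ n) * f + (f - g) * g ^ n := by ring
    rw [e]
    exact lsm_add (lsm_mul ih hf) (lsm_mul h (lin_pow hg n))

private theorem hom2_add (D : ℕ) (f g P Q : K[X]) :
    hom2 D (f + g) P Q = hom2 D f P Q + hom2 D g P Q := by
  unfold hom2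
  rw [← Finset.sum_add_distrib]
  refine Finset.sum_congr rfl fun i _ => ?_
  rw [coeff_add, map_add]
  ring

private theorem hom2_Cmul (D : ℕ) (a : K) (f P Q : K[X]) :
    hom2 D (C a * f) P Q = C a * hom2 D f P Q := by
  unfold hom2
  rw [Finset.mul_sum]
  refine Finset.sum_congr rfl fun i _ => ?_
  rw [coeff_C_mul, map_mul]
  ring

private theorem hom2_in {V : Valuation K ℤᵐ⁰} (D : ℕ) {f P Q : K[X]} (hf : LIn V f)
    (hP : LIn V P) (hQ : LIn V Q) : LIn V (hom2 D f P Q) :=
  lin_sum _ _ fun i _ => lin_mul (lin_mul (lin_C (hf i)) (lin_pow hP i)) (lin_pow hQ _)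

private theorem hom2_sm {V : Valuation K ℤᵐ⁰} (D : ℕ) {f P Q : K[X]} (hf : LSm V f)
    (hP : LIn V P) (hQ : LIn V Q) : LSm V (hom2 D f P Q) :=
  lsm_sum _ _ fun i _ => lsm_mul (lsm_mul (lsm_C (hf i)) (lin_pow hP i)) (lin_pow hQ _)

private theorem hom2_pow (D : ℕ) (β : K) (P Q : K[X]) :
    hom2 D ((X - C β) ^ D) P Q = (P - C β * Q) ^ D := by
  unfold hom2
  rw [sub_eq_add_neg P, add_pow]
  refine Finset.sum_congr rfl fun i _ => ?_
  rw [sub_eq_add_neg X, ← C_neg, coeff_X_add_C_pow, map_mul, map_pow, C_neg, map_natCast,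
    ← neg_mul, mul_pow]
  ring

/-- the form of a polynomial which reduces to a power of `X - β` -/
private theorem red_form {V : Valuation K ℤᵐ⁰} (hb : V β ≤ 1) {f : K[X]} {D : ℕ}
    (hd : f.natDegree = D) (hlow : ∀ i < D, V ((f.comp (X + C β)).coeff i) < 1) :
    LSm V (f - C f.leadingCoeff * (X - C β) ^ D) := by
  have h1 : LSm V (f.comp (X + C β) - C f.leadingCoeff * X ^ D) := by
    intro i
    rw [coeff_sub, coeff_C_mul, coeff_X_pow]
    rcases lt_trichotomy i D with h | h | h
    · rw [if_neg h.ne, mul_zero, sub_zero]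
      exact hlow i h
    · rw [if_pos h, mul_one]
      have h2 : (f.comp (X + C β)).leadingCoeff = f.leadingCoeff := by
        rw [leadingCoeff_comp (by rw [natDegree_X_add_C]; exact one_ne_zero),
          leadingCoeff_X_add_C, one_pow, mul_one]
      have h3 : (f.comp (X + C β)).natDegree = D := by
        rw [natDegree_comp, natDegree_X_add_C, mul_one, hd]
      have h4 : (f.comp (X + C β)).coeff i = f.leadingCoeff := by
        rw [← h2, leadingCoeff, h3, h]
      rw [h4, sub_self, map_zero]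
      exact zero_lt_one
    · rw [if_neg h.ne', mul_zero, sub_zero, coeff_eq_zero_of_natDegree_lt, map_zero]
      · exact zero_lt_one
      · rw [natDegree_comp, natDegree_X_add_C, mul_one, hd]
        exact h
  have h2 : (f.comp (X + C β) - C f.leadingCoeff * X ^ D).comp (X - C β) =
      f - C f.leadingCoeff * (X - C β) ^ D := by
    rw [sub_comp, mul_comp, C_comp, pow_comp, X_comp, comp_assoc, add_comp, X_comp, C_comp,
      sub_add_cancel, comp_X]
  rw [← h2]
  exact lsm_comp h1 (lin_sub lin_X (lin_C hb))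

private theorem rho_deg (hB : RB p q β) : (p - C β * q).natDegree = p.natDegree := by
  rw [natDegree_sub_eq_left_of_natDegree_lt]
  exact (natDegree_C_mul_le _ _).trans_lt hB.qdeg

private theorem rho_lead (hB : RB p q β) : (p - C β * q).leadingCoeff = p.leadingCoeff := by
  rw [leadingCoeff, rho_deg hB, coeff_sub, coeff_C_mul, coeff_eq_zero_of_natDegree_lt hB.qdeg,
    mul_zero, sub_zero]
  rfl

private theorem hom2_rho (D : ℕ) (P Q : K[X]) :
    hom2 D p P Q - C β * hom2 D q P Q = hom2 D (p - C β * q) P Q := by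
  have h : p = (p - C β * q) + C β * q := by ring
  conv_lhs => rw [h, hom2_add, hom2_Cmul]
  ring

private theorem locA_inv (hB : RB p q β) (V : Valuation K ℤᵐ⁰) (hp : ∀ i, V (p.coeff i) ≤ 1)
    (hq : ∀ i, V (q.coeff i) ≤ 1) (hb : V β ≤ 1) (hl : V p.leadingCoeff = 1)
    (hqb : V (q.eval β) = 1)
    (hlow : ∀ i < p.natDegree, V (((p - C β * q).comp (X + C β)).coeff i) < 1) (n : ℕ) :
    LIn V (PQ p q n).1 ∧ LIn V (PQ p q n).2 ∧ V ((PQ p q n).2.eval β) = 1 ∧
      ∃ a : K, V a = 1 ∧ LSm V (RP p q β n - C a * (X - C β) ^ (p.natDegree ^ n)) := by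
  induction n with
  | zero =>
    refine ⟨lin_X, lin_one, ?_, 1, map_one _, ?_⟩
    · change V ((1 : K[X]).eval β) = 1
      rw [eval_one, map_one]
    · have e : RP p q β 0 - C 1 * (X - C β) ^ (p.natDegree ^ 0) = 0 := by
        change (X : K[X]) - C β * 1 - _ = 0
        rw [map_one, pow_zero, pow_one]
        ring
      rw [e]
      intro i
      rw [coeff_zero, map_zero]
      exact zero_lt_one
  | succ n ih =>
    obtain ⟨hP, hQ, hQb, a, ha, hR⟩ := ih
    have hXb : LIn V (X - C β) := lin_sub lin_X (lin_C hb)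
    have hQb0 : aeval β (PQ p q n).2 ≠ 0 := by
      rw [coe_aeval_eq_eval]
      intro h0
      rw [h0, map_zero] at hQb
      exact zero_ne_one hQb
    have hRin : LIn V (RP p q β n) := lin_sub hP (lin_mul (lin_C hb) hQ)
    refine ⟨hom2_in _ hp hP hQ, hom2_in _ hq hP hQ, ?_, p.leadingCoeff * a ^ p.natDegree, ?_, ?_⟩
    · have e1 : (PQ p q (n + 1)).2.eval β = (PQ p q n).2.eval β ^ p.natDegree *
          q.eval ((PQ p q n).1.eval β / (PQ p q n).2.eval β) := by
        have := hom2_eval (D := p.natDegree) (f := q) (P := (PQ p q n).1) hB.qdeg.le hQb0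
        rw [coe_aeval_eq_eval, coe_aeval_eq_eval] at this
        exact this
      rw [e1, map_mul, map_pow, hQb, one_pow, one_mul]
      obtain ⟨z, hz⟩ : ∃ z, z = (PQ p q n).1.eval β / (PQ p q n).2.eval β := ⟨_, rfl⟩
      rw [← hz]
      rw [coe_aeval_eq_eval] at hQb0
      have h1 : V (z - β) < 1 := by
        have e2 : z - β = (RP p q β n).eval β / (PQ p q n).2.eval β := by
          rw [hz, RP, Polynomial.eval_sub, eval_mul, eval_C]
          field_simp
        rw [e2, map_div₀, hQb, div_one]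
        have e3 : (RP p q β n).eval β =
            (RP p q β n - C a * (X - C β) ^ (p.natDegree ^ n)).eval β := by
          rw [Polynomial.eval_sub, eval_mul, eval_pow, Polynomial.eval_sub, eval_X, eval_C, eval_C, sub_self,
            zero_pow (by
              have := hB.deg
              exact pow_ne_zero _ (by omega)), mul_zero, sub_zero]
        rw [e3, eval_eq_sum_range]
        refine Valuation.map_sum_lt _ one_ne_zero fun i _ => ?_
        rw [map_mul, map_pow]
        exact mul_lt_one_of_lt_of_le (hR i) (pow_le_one' hb i)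
      have hz1 : V z ≤ 1 := by
        have : z = (z - β) + β := by ring
        rw [this]
        exact Valuation.map_add_le _ h1.le hb
      have h2 : V (q.eval z - q.eval β) < 1 := lt_of_le_of_lt (eval_sub_le hq hz1 hb) h1
      have h3 : q.eval z = q.eval β + (q.eval z - q.eval β) := by ring
      rw [h3, Valuation.map_add_eq_of_lt_left _ (by rw [hqb]; exact h2), hqb]
    · rw [map_mul, map_pow, hl, ha, one_pow, one_mul]
    · have hρ := red_form hb (rho_deg hB) hlow
      rw [rho_lead hB] at hρ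
      obtain ⟨σ, hσ⟩ : ∃ σ, σ = (p - C β * q) - C p.leadingCoeff * (X - C β) ^ p.natDegree :=
        ⟨_, rfl⟩
      rw [← hσ] at hρ
      have e1 : RP p q β (n + 1) = C p.leadingCoeff * (RP p q β n) ^ p.natDegree +
          hom2 p.natDegree σ (PQ p q n).1 (PQ p q n).2 := by
        change hom2 p.natDegree p (PQ p q n).1 (PQ p q n).2 -
          C β * hom2 p.natDegree q (PQ p q n).1 (PQ p q n).2 = _
        have e2 : p - C β * q = C p.leadingCoeff * (X - C β) ^ p.natDegree + σ := by
          rw [hσ]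
          ring
        rw [hom2_rho, e2, hom2_add, hom2_Cmul, hom2_pow]
        rfl
      have e3 : RP p q β (n + 1) - C (p.leadingCoeff * a ^ p.natDegree) *
          (X - C β) ^ (p.natDegree ^ (n + 1)) =
          ((RP p q β n) ^ p.natDegree - (C a * (X - C β) ^ (p.natDegree ^ n)) ^ p.natDegree) *
            C p.leadingCoeff + hom2 p.natDegree σ (PQ p q n).1 (PQ p q n).2 := by
        rw [e1, mul_pow, ← pow_mul, ← pow_succ, map_mul, map_pow]
        ring
      rw [e3]
      refine lsm_add (lsm_mul (lsm_pow hRin ?_ hR _) (lin_C hl.le)) (hom2_sm _ hρ hP hQ)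
      exact lin_mul (lin_C ha.le) (lin_pow hXb _)

theorem locA_red (hB : RB p q β) (V : Valuation K ℤᵐ⁰) (hp : ∀ i, V (p.coeff i) ≤ 1)
    (hq : ∀ i, V (q.coeff i) ≤ 1) (hb : V β ≤ 1) (hl : V p.leadingCoeff = 1)
    (hqb : V (q.eval β) = 1)
    (hlow : ∀ i < p.natDegree, V (((p - C β * q).comp (X + C β)).coeff i) < 1) (n : ℕ) :
    V (RP p q β n).leadingCoeff = 1 ∧ V ((PQ p q n).2.eval β) = 1 ∧
      ∀ i < p.natDegree ^ n, V (((RP p q β n).comp (X + C β)).coeff i) < 1 := by
  obtain ⟨hP, hQ, hQb, a, ha, hR⟩ := locA_inv hB V hp hq hb hl hqb hlow n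
  refine ⟨?_, hQb, ?_⟩
  · have h1 := hR (p.natDegree ^ n)
    have h2 : ((X - C β) ^ (p.natDegree ^ n)).coeff (p.natDegree ^ n) = 1 := by
      rw [sub_eq_add_neg X, ← C_neg, coeff_X_add_C_pow, Nat.sub_self, pow_zero, Nat.choose_self,
        Nat.cast_one, mul_one]
    rw [coeff_sub, coeff_C_mul, h2, mul_one] at h1
    rw [leadingCoeff, rp_deg hB.qdeg]
    have h3 : (RP p q β n).coeff (p.natDegree ^ n) =
        a + ((RP p q β n).coeff (p.natDegree ^ n) - a) := by ring
    rw [h3, Valuation.map_add_eq_of_lt_left _ (by rw [ha]; exact h1), ha]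
  · intro i hi
    have h1 := lsm_comp hR (lin_add lin_X (lin_C hb)) i
    rw [sub_comp, mul_comp, C_comp, pow_comp, sub_comp, X_comp, C_comp, add_sub_cancel_right,
      coeff_sub, coeff_C_mul, coeff_X_pow, if_neg hi.ne, mul_zero, sub_zero] at h1
    exact h1

theorem locA_rigid (hB : RB p q β) (V : Valuation K ℤᵐ⁰) (hp : ∀ i, V (p.coeff i) ≤ 1)
    (hq : ∀ i, V (q.coeff i) ≤ 1) (hb : V β ≤ 1) (hl : V p.leadingCoeff = 1)
    (hqb : V (q.eval β) = 1)
    (hlow : ∀ i < p.natDegree, V (((p - C β * q).comp (X + C β)).coeff i) < 1) :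
    V (RA p q β K β - β) < 1 ∧
      ∀ n, 1 ≤ n → V ((RA p q β K)^[n] β - β) = V (RA p q β K β - β) := by
  have hd := hB.deg
  have hqb0 : q.eval β ≠ 0 := by
    intro h0
    rw [h0, map_zero] at hqb
    exact zero_ne_one hqb
  obtain ⟨r, hr⟩ : ∃ r, r = (p - C β * q).comp (X + C β) := ⟨_, rfl⟩
  rw [← hr] at hlow
  have hrin : LIn V r := by
    rw [hr]
    exact lin_comp (lin_sub hp (lin_mul (lin_C hb) hq)) (lin_add lin_X (lin_C hb))
  -- the map near `β`
  have hF : ∀ x : K, q.eval x ≠ 0 → RA p q β K x - β = r.eval (x - β) / q.eval x := by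
    intro x hx
    have h1 : RA p q β K x = p.eval x / q.eval x := by
      have := ra_ne (p := p) (β := β) (x := x) (by rwa [coe_aeval_eq_eval])
      rwa [coe_aeval_eq_eval] at this
    rw [h1, hr, eval_comp, eval_add, eval_X, eval_C, sub_add_cancel, Polynomial.eval_sub, eval_mul, eval_C]
    field_simp
  have h0 : RA p q β K β - β = r.coeff 0 / q.eval β := by
    rw [hF β hqb0, sub_self, ← coeff_zero_eq_eval_zero]
  have hρ : V (RA p q β K β - β) = V (r.coeff 0) := by
    rw [h0, map_div₀, hqb, div_one]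
  have hρ1 : V (r.coeff 0) < 1 := hlow 0 (by omega)
  have hne : V (r.coeff 0) ≠ 0 := by
    rw [← hρ, ne_eq, map_eq_zero, sub_eq_zero]
    exact r_aper (A := K) hB (t := 1) le_rfl
  refine ⟨by rw [hρ]; exact hρ1, ?_⟩
  rw [hρ]
  have hstep : ∀ x : K, V (x - β) ≤ V (r.coeff 0) → V (RA p q β K x - β) = V (r.coeff 0) := by
    intro x hx
    have hx1 : V (x - β) < 1 := lt_of_le_of_lt hx hρ1
    have hxi : V x ≤ 1 := by
      have : x = (x - β) + β := by ring
      rw [this]
      exact Valuation.map_add_le _ hx1.le hb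
    have hqx : V (q.eval x) = 1 := by
      have h2 : V (q.eval x - q.eval β) < 1 := lt_of_le_of_lt (eval_sub_le hq hxi hb) hx1
      have h3 : q.eval x = q.eval β + (q.eval x - q.eval β) := by ring
      rw [h3, Valuation.map_add_eq_of_lt_left _ (by rw [hqb]; exact h2), hqb]
    have hqx0 : q.eval x ≠ 0 := by
      intro h0
      rw [h0, map_zero] at hqx
      exact zero_ne_one hqx
    rw [hF x hqx0, map_div₀, hqx, div_one]
    have hdin : ∀ i, V (r.divX.coeff i) ≤ 1 := by
      intro i
      rw [coeff_divX]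
      exact hrin _
    have hD : V (r.divX.eval (x - β)) < 1 := by
      have h1 : V (r.divX.eval (x - β) - r.divX.eval 0) < 1 := by
        refine lt_of_le_of_lt (eval_sub_le hdin hx1.le (by rw [map_zero]; exact zero_le_one)) ?_
        rw [sub_zero]
        exact hx1
      have h2 : V (r.divX.eval 0) < 1 := by
        rw [← coeff_zero_eq_eval_zero, coeff_divX]
        exact hlow _ (by omega)
      have h3 : r.divX.eval (x - β) = (r.divX.eval (x - β) - r.divX.eval 0) + r.divX.eval 0 := by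
        ring
      rw [h3]
      exact Valuation.map_add_lt _ h1 h2
    have e : r.eval (x - β) = r.coeff 0 + r.divX.eval (x - β) * (x - β) := by
      conv_lhs => rw [← divX_mul_X_add r]
      rw [eval_add, eval_mul, eval_X, eval_C]
      ring
    rw [e]
    refine Valuation.map_add_eq_of_lt_left _ ?_
    rw [map_mul]
    calc V (r.divX.eval (x - β)) * V (x - β) ≤ V (r.divX.eval (x - β)) * V (r.coeff 0) :=
          mul_le_mul_right hx _
      _ < 1 * V (r.coeff 0) := mul_lt_mul_of_pos_right hD (zero_lt_iff.2 hne)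
      _ = V (r.coeff 0) := one_mul _
  intro n hn
  induction n, hn using Nat.le_induction with
  | base =>
    rw [Function.iterate_one]
    exact hρ
  | succ n hn ih =>
    rw [Function.iterate_succ_apply']
    exact hstep _ ih.le

theorem loc_A (hB : RB p q β) (V : Valuation K ℤᵐ⁰) (hp : ∀ i, V (p.coeff i) ≤ 1)
    (hq : ∀ i, V (q.coeff i) ≤ 1) (hb : V β ≤ 1) (hl : V p.leadingCoeff = 1)
    (hqb : V (q.eval β) = 1)
    (hlow : ∀ i < p.natDegree, V (((p - C β * q).comp (X + C β)).coeff i) < 1) :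
    ESR p q β := by
  obtain ⟨hρ1, hρn⟩ := locA_rigid hB V hp hq hb hl hqb hlow
  have hne : V (RA p q β K β - β) ≠ 0 := by
    rw [ne_eq, map_eq_zero, sub_eq_zero]
    exact r_aper (A := K) hB (t := 1) le_rfl
  obtain ⟨ν, hν⟩ : ∃ ν : ℕ, V (RA p q β K β - β) = exp (-(ν : ℤ)) := by
    have h1 := exp_log hne
    rw [← h1, ← exp_zero, exp_lt_exp] at hρ1
    refine ⟨(-log (V (RA p q β K β - β))).toNat, ?_⟩
    rw [Int.toNat_of_nonneg (by omega), neg_neg, h1]
  have key : ∀ n, 1 ≤ n → {g : K[X] | g.Monic ∧ Irreducible g ∧ g ∣ RP p q β n}.ncard ≤ ν := by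
    intro n hn
    obtain ⟨h1, h2, h3⟩ := locA_red hB V hp hq hb hl hqb hlow n
    have hfin := ELoc_fin (rp_ne (β := β) hB.qdeg n)
    rw [Set.ncard_eq_toFinset_card _ hfin]
    refine fac_count V (b := β) h1 (by rw [rp_deg hB.qdeg]; exact h3) (ν := ν) ?_ _ fun g hg => ?_
    · obtain ⟨h4, h5⟩ := pq_iter (β := β) (A := K) hB.qdeg (x := β) (n := n)
        fun i _ => hB.wan.1 i
      rw [coe_aeval_eq_eval] at h4
      rw [coe_aeval_eq_eval] at h5
      have h6 : (RP p q β n).eval β = (PQ p q n).2.eval β * ((RA p q β K)^[n] β - β) := by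
        rw [h5, RP, Polynomial.eval_sub, eval_mul, eval_C]
        field_simp
      rw [h6, map_mul, h2, one_mul, hρn n hn, hν]
    · exact (Set.Finite.mem_toFinset hfin).1 hg
  refine ⟨ν, fun n => ?_⟩
  rcases Nat.eq_zero_or_pos n with rfl | hn
  · exact (facs_le hB (Nat.zero_le 1)).trans (key 1 le_rfl)
  · exact key n hn

end Pool.Agent.H42.RM
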