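/-
ROW LOd. Local condition B (1): `p ≡ a X^d + c`, `q ≡ e` (nonzero constants `a, e`) modulo `V`, `d = l^r`,
`V l < 1`. Let `k` be the residue field (characteristic `l`), `F = fr p q (ro p q β)`.
PROOFS.
* locB_red: by induction the images of `P_n, Q_n` in `k[X]` are `A_n X^(d^n) + B_n`, `C_n` with
  `A_n, C_n ≠ 0`: `P_{n+1} = ∑ p_i P^i Q^(d-i) ≡ a P^d + c Q^d`, and `(A X^N + B)^d = A^d X^(N d) + B^d` in
  characteristic `l` (add_pow_char_pow; see ELoc_iter in PCM/E4), `Q_{n+1} ≡ e Q^d`. In particular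
  `V (Q_n(x)) = 1` for integral `x` and the leading coefficient of `P_n` is a unit. Let
  `V (F^[n] β - β) < 1`, `V β ≤ 1`: `R_n(β) = Q_n(β) (F^[n] β - β)` (pq_iter, row EAb), so the image of
  `R_n`, `A X^(d^n) + B - β C`, has the root `β`: it equals `A (X - β)^(d^n)` (`X^N - β^N = (X-β)^N` for
  `N = l^(rn)`), hence the claim on the coefficients of `R_n.comp (X + C β)`.
* locB_sub: for integral `x, y`: `F x - F y = (p x q y - p y q x)/(q x q y)`, denominators units.
  `p x q y - p y q x ≡ e (p x - p y) ≡ a e (x^d - y^d) = a e (x - y)^d` in `k`. So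
  `V (F x - F y) < 1` implies `V (x - y) < 1` (first claim). For the second: let `V (x - y) < 1`,
  `x ≠ y`. The polynomial `h(T) = q(y) p(T) - p(y) q(T)` has `h(y) = 0` and
  `h'(y) = q(y) p'(y) - p(y) q'(y)`, `V (h'(y)) < 1` because `p' ≡ d a X^(d-1) ≡ 0`, `q' ≡ 0` in `k[X]`.
  eval_sub (PCM/D1): `h(x) - h(y) = (x-y) (h'(y) + (x-y) s)`, `V s ≤ 1`; so
  `V (h x) < V (x - y)`.
-/
import Pool.Agent.H42.RM.LOb
import Pool.Agent.H42.RM.QAa

set_option autoImplicit false

namespace Pool.Agent.H42.RM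

open Pool.Agent.H42.PC Polynomial WithZero

/-- Condition B. -/
structure LocB {K : Type} [Field K] (V : Valuation K ℤᵐ⁰) (p q : K[X]) (l r : ℕ) : Prop where
  lp : l.Prime
  dg : p.natDegree = l ^ r
  vl : V (l : K) < 1
  hl : V p.leadingCoeff = 1
  hp : ∀ i, 1 ≤ i → i < p.natDegree → V (p.coeff i) < 1
  hp0 : V (p.coeff 0) ≤ 1
  hq : ∀ i, 1 ≤ i → V (q.coeff i) < 1
  hq0 : V (q.coeff 0) = 1

variable {K : Type} [Field K] {p q : K[X]} {β : K} {V : Valuation K ℤᵐ⁰} {l r : ℕ}

theorem lod_small {f : K[X]} {y : K} (hy : V y ≤ 1) (h : ∀ i, V (f.coeff i) < 1) :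
    V (f.eval y) < 1 := by
  rw [eval_eq_sum_range]
  refine V.map_sum_lt one_ne_zero fun i _ => ?_
  rw [map_mul, map_pow]
  calc V (f.coeff i) * V y ^ i ≤ V (f.coeff i) * 1 := mul_le_mul_right (pow_le_one' hy i) _
    _ = V (f.coeff i) := mul_one _
    _ < 1 := h i

theorem locB_unit (hL : LocB V p q l r) {x : K} (hx : V x ≤ 1) : V (q.eval x) = 1 := by
  have h2 : V ((q - C (q.coeff 0)).eval x) < 1 := by
    refine lod_small hx fun i => ?_
    rw [coeff_sub, coeff_C]
    split_ifs with h
    · rw [h, sub_self, map_zero]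
      exact zero_lt_one
    · rw [sub_zero]
      exact hL.hq i (by omega)
  have h3 : q.eval x = q.coeff 0 + (q - C (q.coeff 0)).eval x := by
    rw [Polynomial.eval_sub, eval_C]
    ring
  rw [h3, Valuation.map_add_eq_of_lt_left, hL.hq0]
  rw [hL.hq0]
  exact h2

theorem lod_pint (hL : LocB V p q l r) (i : ℕ) : V (p.coeff i) ≤ 1 := by
  rcases Nat.eq_zero_or_pos i with h | h
  · rw [h]
    exact hL.hp0
  · rcases lt_trichotomy i p.natDegree with h1 | h1 | h1
    · exact (hL.hp i h h1).le
    · rw [h1]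
      exact hL.hl.le
    · rw [coeff_eq_zero_of_natDegree_lt h1, map_zero]
      exact zero_le_one

theorem lod_qint (hL : LocB V p q l r) (i : ℕ) : V (q.coeff i) ≤ 1 := by
  rcases Nat.eq_zero_or_pos i with h | h
  · rw [h]
    exact hL.hq0.le
  · exact (hL.hq i h).le

theorem lod_lift {f : K[X]} (h : ∀ i, V (f.coeff i) ≤ 1) :
    ∃ g : V.valuationSubring[X], g.map (algebraMap V.valuationSubring K) = f := by
  refine ⟨∑ i ∈ Finset.range (f.natDegree + 1), C ⟨f.coeff i, h i⟩ * X ^ i, ?_⟩
  rw [Polynomial.map_sum]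
  conv_rhs => rw [f.as_sum_range_C_mul_X_pow]
  refine Finset.sum_congr rfl fun i _ => ?_
  rw [Polynomial.map_mul, map_C, Polynomial.map_pow, map_X]
  rfl

/-- `hom2` over a ring -/
noncomputable def lodH {R : Type} [CommRing R] (D : ℕ) (f P Q : R[X]) : R[X] :=
  ∑ i ∈ Finset.range (D + 1), C (f.coeff i) * P ^ i * Q ^ (D - i)

/-- `PQ` over a ring -/
noncomputable def lodPQ {R : Type} [CommRing R] (D : ℕ) (p q : R[X]) : ℕ → R[X] × R[X]
  | 0 => (X, 1)
  | n + 1 => (lodH D p (lodPQ D p q n).1 (lodPQ D p q n).2,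
      lodH D q (lodPQ D p q n).1 (lodPQ D p q n).2)

theorem lodPQ_eq (n : ℕ) : lodPQ p.natDegree p q n = PQ p q n := by
  induction n with
  | zero => rfl
  | succ n ih =>
    rw [lodPQ, PQ, ih]
    rfl

theorem lodH_map {R S : Type} [CommRing R] [CommRing S] (φ : R →+* S) (D : ℕ) (f P Q : R[X]) :
    (lodH D f P Q).map φ = lodH D (f.map φ) (P.map φ) (Q.map φ) := by
  unfold lodH
  rw [Polynomial.map_sum]
  refine Finset.sum_congr rfl fun i _ => ?_
  rw [Polynomial.map_mul, Polynomial.map_mul, map_C, Polynomial.map_pow, Polynomial.map_pow,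
    coeff_map]

theorem lodPQ_map {R S : Type} [CommRing R] [CommRing S] (φ : R →+* S) (D : ℕ) (p q : R[X])
    (n : ℕ) : lodPQ D (p.map φ) (q.map φ) n =
      ((lodPQ D p q n).1.map φ, (lodPQ D p q n).2.map φ) := by
  induction n with
  | zero => simp [lodPQ]
  | succ n ih => rw [lodPQ, ih, lodPQ, lodH_map, lodH_map]

theorem lodH_lin {R : Type} [CommRing R] (D : ℕ) (a c : R) (P Q : R[X]) :
    lodH D (C a * X ^ D + C c) P Q = C a * P ^ D + C c * Q ^ D := by
  unfold lodH
  have h : ∀ i ∈ Finset.range (D + 1),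
      C ((C a * X ^ D + C c).coeff i) * P ^ i * Q ^ (D - i) =
      (if i = D then C a * P ^ i * Q ^ (D - i) else 0) +
        (if i = 0 then C c * P ^ i * Q ^ (D - i) else 0) := by
    intro i _
    rw [coeff_add, coeff_C_mul, coeff_X_pow, coeff_C, C_add, add_mul, add_mul]
    congr 1
    · split_ifs <;> simp
    · split_ifs <;> simp
  rw [Finset.sum_congr rfl h, Finset.sum_add_distrib, Finset.sum_ite_eq', Finset.sum_ite_eq',
    if_pos (Finset.mem_range.2 (Nat.lt_succ_self D)), if_pos (Finset.mem_range.2 (Nat.succ_pos D))]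
  simp

theorem lodH_const {R : Type} [CommRing R] (D : ℕ) (c : R) (P Q : R[X]) :
    lodH D (C c) P Q = C c * Q ^ D := by
  have h := lodH_lin D 0 c P Q
  rw [C_0, zero_mul, zero_add, zero_mul, zero_add] at h
  exact h

theorem lod_form {k : Type} [Field k] {l : ℕ} [CharP k l] [Fact l.Prime] {r : ℕ} {a c e : k}
    (ha : a ≠ 0) (he : e ≠ 0) (n : ℕ) : ∃ A B E : k, A ≠ 0 ∧ E ≠ 0 ∧
      lodPQ (l ^ r) (C a * X ^ (l ^ r) + C c) (C e) n =
        (C A * X ^ (l ^ (r * n)) + C B, C E) := by
  induction n with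
  | zero => exact ⟨1, 0, 1, one_ne_zero, one_ne_zero, by simp [lodPQ]⟩
  | succ n ih =>
    obtain ⟨A, B, E, hA, hE, h⟩ := ih
    refine ⟨a * A ^ (l ^ r), a * B ^ (l ^ r) + c * E ^ (l ^ r), e * E ^ (l ^ r),
      mul_ne_zero ha (pow_ne_zero _ hA), mul_ne_zero he (pow_ne_zero _ hE), ?_⟩
    rw [lodPQ, h, lodH_lin, lodH_const]
    have e1 : r * n + r = r * (n + 1) := by ring
    refine Prod.ext ?_ ?_
    · simp only []
      rw [add_pow_char_pow, mul_pow, ← pow_mul, ← pow_add, e1]
      simp only [C_mul, C_add, C_pow]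
      ring
    · simp only []
      simp only [C_mul, C_pow]

theorem lod_char (hL : LocB V p q l r) :
    CharP (IsLocalRing.ResidueField V.valuationSubring) l := by
  have h1 : ((l : ℕ) : IsLocalRing.ResidueField V.valuationSubring) = 0 := by
    have h2 : IsLocalRing.residue V.valuationSubring ((l : ℕ) : V.valuationSubring) = 0 := by
      rw [ELoc_res]
      simpa using hL.vl
    simpa using h2
  exact (CharP.charP_iff_prime_eq_zero hL.lp).2 h1

theorem lod_one (x : V.valuationSubring) (h : IsLocalRing.residue V.valuationSubring x ≠ 0) :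
    V (x : K) = 1 :=
  le_antisymm x.2 (not_lt.1 fun hlt => h ((ELoc_res V).2 hlt))

theorem lod_data (hL : LocB V p q l r) : ∃ (p0 q0 : V.valuationSubring[X])
    (a c e : IsLocalRing.ResidueField V.valuationSubring), a ≠ 0 ∧ e ≠ 0 ∧
    p0.map (algebraMap V.valuationSubring K) = p ∧
    q0.map (algebraMap V.valuationSubring K) = q ∧
    p0.map (IsLocalRing.residue V.valuationSubring) = C a * X ^ (l ^ r) + C c ∧
    q0.map (IsLocalRing.residue V.valuationSubring) = C e := by
  obtain ⟨p0, hp0⟩ := lod_lift (lod_pint hL)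
  obtain ⟨q0, hq0⟩ := lod_lift (lod_qint hL)
  have hinj : Function.Injective (algebraMap V.valuationSubring K) := Subtype.val_injective
  have hpc : ∀ i, ((p0.coeff i : V.valuationSubring) : K) = p.coeff i := by
    intro i
    rw [← hp0, coeff_map]
    rfl
  have hqc : ∀ i, ((q0.coeff i : V.valuationSubring) : K) = q.coeff i := by
    intro i
    rw [← hq0, coeff_map]
    rfl
  have hd0 : p0.natDegree = l ^ r := by
    rw [← hL.dg, ← hp0, natDegree_map_eq_of_injective hinj]
  have h1 : 1 ≤ l ^ r := Nat.one_le_iff_ne_zero.2 (pow_ne_zero r hL.lp.ne_zero)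
  refine ⟨p0, q0, IsLocalRing.residue V.valuationSubring (p0.coeff (l ^ r)),
    IsLocalRing.residue V.valuationSubring (p0.coeff 0),
    IsLocalRing.residue V.valuationSubring (q0.coeff 0), ?_, ?_, hp0, hq0, ?_, ?_⟩
  · intro h
    rw [ELoc_res, hpc, ← hL.dg] at h
    exact h.ne hL.hl
  · intro h
    rw [ELoc_res, hqc] at h
    exact h.ne hL.hq0
  · refine ELoc_form V h1 hd0 fun i hi1 hi2 => ?_
    rw [hpc]
    exact hL.hp i hi1 (by rw [hL.dg]; exact hi2)
  · ext i
    rw [coeff_map, coeff_C]
    split_ifs with h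
    · rw [h]
    · rw [ELoc_res, hqc]
      exact hL.hq i (by omega)

theorem locB_red (hB : RB p q β) (hL : LocB V p q l r) (hb : V β ≤ 1) (n : ℕ)
    (hn : V ((RA p q β K)^[n] β - β) < 1) :
    V (RP p q β n).leadingCoeff = 1 ∧ V ((PQ p q n).2.eval β) = 1 ∧
      ∀ i < p.natDegree ^ n, V (((RP p q β n).comp (X + C β)).coeff i) < 1 := by
  obtain ⟨p0, q0, a, c, e, ha, he, hp0, hq0, hpr, hqr⟩ := lod_data hL
  have hchar := lod_char hL
  have hfact : Fact l.Prime := ⟨hL.lp⟩
  obtain ⟨A, B, E, hA, hE, hAB⟩ := lod_form (l := l) (r := r) (c := c) ha he n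
  obtain ⟨b0, hb0⟩ : ∃ b0 : V.valuationSubring, algebraMap V.valuationSubring K b0 = β :=
    ⟨⟨β, hb⟩, rfl⟩
  have hN : p.natDegree ^ n = l ^ (r * n) := by rw [hL.dg, pow_mul]
  have hN1 : l ^ (r * n) ≠ 0 := pow_ne_zero _ hL.lp.ne_zero
  have hPQ : PQ p q n = ((lodPQ (l ^ r) p0 q0 n).1.map (algebraMap V.valuationSubring K),
      (lodPQ (l ^ r) p0 q0 n).2.map (algebraMap V.valuationSubring K)) := by
    rw [← lodPQ_map, hp0, hq0, ← hL.dg, lodPQ_eq]
  have hres : ((lodPQ (l ^ r) p0 q0 n).1.map (IsLocalRing.residue V.valuationSubring),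
      (lodPQ (l ^ r) p0 q0 n).2.map (IsLocalRing.residue V.valuationSubring)) =
        (C A * X ^ (l ^ (r * n)) + C B, C E) := by
    rw [← lodPQ_map, hpr, hqr, hAB]
  rw [Prod.mk.injEq] at hres
  obtain ⟨hres1, hres2⟩ := hres
  -- Q_n(β)
  have hQ : V ((PQ p q n).2.eval β) = 1 := by
    rw [hPQ]
    simp only []
    rw [← hb0, ELoc_eval]
    refine lod_one _ ?_
    rw [← ELoc_eval, hres2, eval_C]
    exact hE
  -- the polynomial R_n
  obtain ⟨R0, hR0⟩ : ∃ R0 : V.valuationSubring[X],
      R0 = (lodPQ (l ^ r) p0 q0 n).1 - C b0 * (lodPQ (l ^ r) p0 q0 n).2 := ⟨_, rfl⟩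
  have hR0K : R0.map (algebraMap V.valuationSubring K) = RP p q β n := by
    rw [hR0, RP, hPQ, Polynomial.map_sub, Polynomial.map_mul, map_C, hb0]
  have hR0r : R0.map (IsLocalRing.residue V.valuationSubring) =
      C A * X ^ (l ^ (r * n)) + C (B - IsLocalRing.residue V.valuationSubring b0 * E) := by
    rw [hR0, Polynomial.map_sub, Polynomial.map_mul, map_C, hres1, hres2, C_sub, C_mul]
    ring
  have hev : V ((RP p q β n).eval β) < 1 := by
    obtain ⟨h1, h2⟩ := pq_iter (β := β) (x := β) (n := n) hB.qdeg fun i _ => hB.wan.1 i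
    rw [coe_aeval_eq_eval] at h1
    have h3 : (RP p q β n).eval β = (PQ p q n).2.eval β * ((RA p q β K)^[n] β - β) := by
      rw [h2, RP, Polynomial.eval_sub, eval_mul, eval_C, coe_aeval_eq_eval]
      field_simp
    rw [h3, map_mul, hQ, one_mul]
    exact hn
  have hroot : A * IsLocalRing.residue V.valuationSubring b0 ^ (l ^ (r * n)) +
      (B - IsLocalRing.residue V.valuationSubring b0 * E) = 0 := by
    have h1 : IsLocalRing.residue V.valuationSubring (R0.eval b0) = 0 := by
      rw [ELoc_res]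
      have h2 : ((R0.eval b0 : V.valuationSubring) : K) = (RP p q β n).eval β := by
        rw [← hR0K, ← hb0, ELoc_eval]
        rfl
      rw [h2]
      exact hev
    rw [← ELoc_eval, hR0r] at h1
    simpa using h1
  have hR0p : R0.map (IsLocalRing.residue V.valuationSubring) =
      C A * (X - C (IsLocalRing.residue V.valuationSubring b0)) ^ (l ^ (r * n)) := by
    rw [hR0r, sub_pow_char_pow, mul_sub, ← C_pow, ← C_mul]
    have : B - IsLocalRing.residue V.valuationSubring b0 * E =
        -(A * IsLocalRing.residue V.valuationSubring b0 ^ (l ^ (r * n))) := by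
      linear_combination hroot
    rw [this, C_neg]
    ring
  refine ⟨?_, hQ, ?_⟩
  · have h1 : (RP p q β n).leadingCoeff = ((R0.coeff (l ^ (r * n)) : V.valuationSubring) : K) := by
      rw [leadingCoeff, rp_deg hB.qdeg n, hN, ← hR0K, coeff_map]
      rfl
    rw [h1]
    refine lod_one _ ?_
    rw [← coeff_map, hR0r, coeff_add, coeff_C_mul, coeff_X_pow, if_pos rfl, coeff_C,
      if_neg hN1, mul_one, add_zero]
    exact hA
  · intro i hi
    rw [hN] at hi
    have h1 : ((RP p q β n).comp (X + C β)).coeff i =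
        (((R0.comp (X + C b0)).coeff i : V.valuationSubring) : K) := by
      rw [← hR0K, ← hb0]
      have h2 : (R0.map (algebraMap V.valuationSubring K)).comp
          (X + C (algebraMap V.valuationSubring K b0)) =
          (R0.comp (X + C b0)).map (algebraMap V.valuationSubring K) := by
        rw [map_comp, Polynomial.map_add, map_X, map_C]
      rw [h2, coeff_map]
      rfl
    rw [h1, ← ELoc_res, ← coeff_map, map_comp, Polynomial.map_add, map_X, map_C, hR0p, mul_comp,
      C_comp, pow_comp, sub_comp, X_comp, C_comp, add_sub_cancel_right, coeff_C_mul, coeff_X_pow,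
      if_neg (by omega), mul_zero]

theorem locB_sub (hL : LocB V p q l r) (hd : 2 ≤ p.natDegree) {o x y : K} (hx : V x ≤ 1)
    (hy : V y ≤ 1) :
    (V (fr p q o x - fr p q o y) < 1 → V (x - y) < 1) ∧
      (V (x - y) < 1 → x ≠ y → V (fr p q o x - fr p q o y) < V (x - y)) := by
  have hqx := locB_unit hL hx
  have hqy := locB_unit hL hy
  have hqx0 : q.eval x ≠ 0 := fun h => by
    rw [h, map_zero] at hqx
    exact zero_ne_one hqx
  have hqy0 : q.eval y ≠ 0 := fun h => by
    rw [h, map_zero] at hqy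
    exact zero_ne_one hqy
  have hval : V (fr p q o x - fr p q o y) = V (q.eval y * p.eval x - p.eval y * q.eval x) := by
    rw [fr_diff hqy0 hqx0, map_div₀, map_mul V (q.eval y) (q.eval x), hqx, hqy, mul_one, div_one]
  rw [hval]
  constructor
  · intro hlt
    obtain ⟨p0, q0, a, c, e, ha, he, hp0, hq0, hpr, hqr⟩ := lod_data hL
    have hchar := lod_char hL
    have hfact : Fact l.Prime := ⟨hL.lp⟩
    obtain ⟨x0, hx0⟩ : ∃ x0 : V.valuationSubring, algebraMap V.valuationSubring K x0 = x :=
      ⟨⟨x, hx⟩, rfl⟩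
    obtain ⟨y0, hy0⟩ : ∃ y0 : V.valuationSubring, algebraMap V.valuationSubring K y0 = y :=
      ⟨⟨y, hy⟩, rfl⟩
    have h1 : q.eval y * p.eval x - p.eval y * q.eval x =
        ((q0.eval y0 * p0.eval x0 - p0.eval y0 * q0.eval x0 : V.valuationSubring) : K) := by
      rw [← hp0, ← hq0, ← hx0, ← hy0, ELoc_eval, ELoc_eval, ELoc_eval, ELoc_eval, ← map_mul,
        ← map_mul, ← map_sub]
      rfl
    rw [h1, ← ELoc_res, map_sub, map_mul, map_mul, ← ELoc_eval, ← ELoc_eval, ← ELoc_eval,
      ← ELoc_eval, hpr, hqr] at hlt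
    simp only [eval_add, eval_mul, eval_C, eval_pow, eval_X] at hlt
    have h2 : e * a * (IsLocalRing.residue V.valuationSubring x0 -
        IsLocalRing.residue V.valuationSubring y0) ^ (l ^ r) = 0 := by
      rw [sub_pow_char_pow]
      linear_combination hlt
    have h3 : IsLocalRing.residue V.valuationSubring (x0 - y0) = 0 := by
      rw [map_sub]
      rcases mul_eq_zero.1 h2 with h2 | h2
      · exact absurd h2 (mul_ne_zero he ha)
      · exact (pow_eq_zero_iff (pow_ne_zero r hL.lp.ne_zero)).1 h2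
    rw [ELoc_res] at h3
    have h4 : x - y = ((x0 - y0 : V.valuationSubring) : K) := by
      rw [← hx0, ← hy0, ← map_sub]
      rfl
    rw [h4]
    exact h3
  · intro hlt hne
    have hr : r ≠ 0 := by
      rintro rfl
      have := hL.dg
      rw [pow_zero] at this
      omega
    have hVd : V ((p.natDegree : ℕ) : K) < 1 := by
      rw [hL.dg, Nat.cast_pow, map_pow]
      exact pow_lt_one₀ zero_le hL.vl hr
    have hnat : ∀ m : ℕ, V ((m : ℕ) : K) ≤ 1 := by
      intro m
      induction m with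
      | zero => simp
      | succ m ih =>
        rw [Nat.cast_succ]
        exact V.map_add_le ih (by rw [map_one])
    have hpd : ∀ i, V (p.derivative.coeff i) < 1 := by
      intro i
      rw [coeff_derivative, map_mul]
      rcases lt_trichotomy (i + 1) p.natDegree with h1 | h1 | h1
      · have h2 := hL.hp (i + 1) (by omega) h1
        have h3 := hnat (i + 1)
        rw [Nat.cast_succ] at h3
        calc V (p.coeff (i + 1)) * V ((i : K) + 1) ≤ V (p.coeff (i + 1)) * 1 :=
              mul_le_mul_right h3 _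
          _ = V (p.coeff (i + 1)) := mul_one _
          _ < 1 := h2
      · have h2 : V ((i : K) + 1) < 1 := by
          rw [← Nat.cast_succ, Nat.succ_eq_add_one, h1]
          exact hVd
        have h3 := lod_pint hL (i + 1)
        calc V (p.coeff (i + 1)) * V ((i : K) + 1) ≤ 1 * V ((i : K) + 1) :=
              mul_le_mul_left h3 _
          _ = V ((i : K) + 1) := one_mul _
          _ < 1 := h2
      · rw [coeff_eq_zero_of_natDegree_lt h1, map_zero, zero_mul]
        exact zero_lt_one
    have hqd : ∀ i, V (q.derivative.coeff i) < 1 := by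
      intro i
      rw [coeff_derivative, map_mul]
      have h2 := hL.hq (i + 1) (by omega)
      have h3 := hnat (i + 1)
      rw [Nat.cast_succ] at h3
      calc V (q.coeff (i + 1)) * V ((i : K) + 1) ≤ V (q.coeff (i + 1)) * 1 :=
            mul_le_mul_right h3 _
        _ = V (q.coeff (i + 1)) := mul_one _
        _ < 1 := h2
    have hpd2 := lod_small hy hpd
    have hqd2 := lod_small hy hqd
    have hpy : V (p.eval y) ≤ 1 := eval_int (lod_pint hL) hy
    have hint : ∀ i, V ((C (q.eval y) * p - C (p.eval y) * q).coeff i) ≤ 1 := by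
      intro i
      rw [coeff_sub, coeff_C_mul, coeff_C_mul]
      refine Valuation.map_sub_le _ ?_ ?_
      · rw [map_mul]
        exact mul_le_one' hqy.le (lod_pint hL i)
      · rw [map_mul]
        exact mul_le_one' hpy (lod_qint hL i)
    obtain ⟨ρ, hρ, h3⟩ := eval_sub hint hx hy
    have h4 : q.eval y * p.eval x - p.eval y * q.eval x =
        (C (q.eval y) * p - C (p.eval y) * q).eval x -
          (C (q.eval y) * p - C (p.eval y) * q).eval y := by
      simp only [Polynomial.eval_sub, eval_mul, eval_C]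
      ring
    rw [h4, h3, map_mul]
    have h5 : V ((C (q.eval y) * p - C (p.eval y) * q).derivative.eval y) < 1 := by
      rw [derivative_sub, derivative_C_mul, derivative_C_mul, Polynomial.eval_sub, eval_mul,
        eval_mul, eval_C, eval_C]
      refine V.map_sub_lt ?_ ?_
      · rw [map_mul, hqy, one_mul]
        exact hpd2
      · rw [map_mul]
        calc V (p.eval y) * V (q.derivative.eval y) ≤ 1 * V (q.derivative.eval y) :=
              mul_le_mul_left hpy _
          _ = V (q.derivative.eval y) := one_mul _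
          _ < 1 := hqd2
    have h6 : V ((x - y) * ρ) < 1 := by
      rw [map_mul]
      calc V (x - y) * V ρ ≤ V (x - y) * 1 := mul_le_mul_right hρ _
        _ = V (x - y) := mul_one _
        _ < 1 := hlt
    have h7 := V.map_add_lt h5 h6
    have h8 : 0 < V (x - y) := by
      rw [Valuation.pos_iff]
      exact sub_ne_zero.2 hne
    exact mul_lt_of_lt_one_right h8 h7

end Pool.Agent.H42.RM
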