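/-
ROW LOe. Local condition B (2). Let `F = RA p q β K = fr p q (ro p q β)` (Algebra.algebraMap_self, map_id).
PROOF. All `x i = F^[i] β` are integral (`V (p x) ≤ 1`, `V (q x) = 1`: eval_int of PCM/D1, locB_unit).
(1) There is `m ≥ 1` with `V (F^[m] β - β) < 1`: the residue field of `v` is finite (in the valuation
ring the set of classes of integral elements of `K` modulo `V (x - y) < 1` is finite: see the proof of
es_of_local in PCM/E4.lean, section ELoc), so there are `i < j` with `V (x i - x j) < 1`; by the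
first part of locB_sub (row LOd), `i` times, `V (x 0 - x (j-i)) < 1`.
(2) For `j ≥ 1`, `V (F^[j m] β - β) = V (F^[m] β - β) =: ρ ≠ 0` (r_aper, row EAc): induction on `j`:
`V (F^[(j+1)m] β - F^[jm] β) < ρ` for `j ≥ 1`: it is `V (F^[m] u - F^[m] w)` with `u = F^[jm] β`,
`w = F^[(j-1)m] β`..., or simply: `F^[(j+1) m] β - F^[j m] β = F^[jm] (F^[m] β) - F^[jm] β`, and by the
second part of locB_sub each application of `F` to two different near integral points decreases
the value strictly, so the value is `< V (F^[m] β - β) = ρ` as `jm ≥ 1` (equal points: value 0). Then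
`F^[(j+1)m] β - β = (F^[(j+1)m] β - F^[jm] β) + (F^[jm] β - β)` has value `ρ`.
(3) For `n = j m`, `j ≥ 1`: `(RP p q β n).eval β = Q_n(β) (F^[n] β - β)` (pq_iter, row EAb) has value
`ρ = exp (-ν)`; by locB_red (row LOd) and fac_count (row LOa) the number of factors is `≤ ν`.
(4) For arbitrary `n`: `n ≤ (n+1) m` and facs_le (row LOb).
-/
import Pool.Agent.H42.RM.LOa
import Pool.Agent.H42.RM.LOd

set_option autoImplicit false

namespace Pool.Agent.H42.RM

open Pool.Agent.H42.PC Polynomial NumberField IsDedekindDomain WithZero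

section loe

variable {K : Type} [Field K] {p q : K[X]} {β : K} {V : Valuation K ℤᵐ⁰} {l r : ℕ} {o : K}

theorem LOe_map (p q : K[X]) (β : K) : RA p q β K = fr p q (ro p q β) := by
  unfold RA
  rw [Algebra.algebraMap_self, Polynomial.map_id, Polynomial.map_id]
  rfl

theorem LOe_int (hL : LocB V p q l r) {x : K} (hx : V x ≤ 1) : V (fr p q o x) ≤ 1 := by
  have hcoef : ∀ i, V (p.coeff i) ≤ 1 := by
    intro i
    rcases Nat.eq_zero_or_pos i with h | h
    · rw [h]
      exact hL.hp0
    · rcases lt_trichotomy i p.natDegree with h1 | h1 | h1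
      · exact (hL.hp i h h1).le
      · rw [h1]
        exact hL.hl.le
      · rw [coeff_eq_zero_of_natDegree_lt h1, map_zero]
        exact zero_le
  have h1 := locB_unit hL hx
  have h0 : q.eval x ≠ 0 := fun h => by
    rw [h, map_zero] at h1
    exact zero_ne_one h1
  rw [fr_ne h0, map_div₀, h1, div_one]
  exact eval_int hcoef hx

theorem LOe_intit (hL : LocB V p q l r) {x : K} (hx : V x ≤ 1) (n : ℕ) :
    V ((fr p q o)^[n] x) ≤ 1 := by
  induction n with
  | zero => exact hx
  | succ n ih =>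
    rw [Function.iterate_succ_apply']
    exact LOe_int hL ih

theorem LOe_inj (hL : LocB V p q l r) (hd : 2 ≤ p.natDegree) (i : ℕ) {x y : K} (hx : V x ≤ 1)
    (hy : V y ≤ 1) (h : V ((fr p q o)^[i] x - (fr p q o)^[i] y) < 1) : V (x - y) < 1 := by
  induction i generalizing x y with
  | zero => exact h
  | succ i ih =>
    rw [Function.iterate_succ_apply, Function.iterate_succ_apply] at h
    exact (locB_sub hL hd hx hy).1 (ih (LOe_int hL hx) (LOe_int hL hy) h)

theorem LOe_le (hL : LocB V p q l r) (hd : 2 ≤ p.natDegree) {x y : K} (hx : V x ≤ 1)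
    (hy : V y ≤ 1) (h : V (x - y) < 1) : V (fr p q o x - fr p q o y) ≤ V (x - y) := by
  by_cases he : x = y
  · rw [he, sub_self, map_zero]
    exact zero_le
  · exact ((locB_sub hL hd hx hy).2 h he).le

theorem LOe_weak (hL : LocB V p q l r) (hd : 2 ≤ p.natDegree) (i : ℕ) {x y : K} (hx : V x ≤ 1)
    (hy : V y ≤ 1) (h : V (x - y) < 1) :
    V ((fr p q o)^[i] x - (fr p q o)^[i] y) ≤ V (x - y) := by
  induction i with
  | zero => exact le_rfl
  | succ i ih =>
    rw [Function.iterate_succ_apply', Function.iterate_succ_apply']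
    exact (LOe_le hL hd (LOe_intit hL hx i) (LOe_intit hL hy i) (lt_of_le_of_lt ih h)).trans ih

theorem LOe_strong (hL : LocB V p q l r) (hd : 2 ≤ p.natDegree) {i : ℕ} (hi : i ≠ 0) {x y : K}
    (hx : V x ≤ 1) (hy : V y ≤ 1) (h : V (x - y) < 1) (hne : x ≠ y) :
    V ((fr p q o)^[i] x - (fr p q o)^[i] y) < V (x - y) := by
  obtain ⟨k, rfl⟩ : ∃ k, i = k + 1 := ⟨i - 1, by omega⟩
  rw [Function.iterate_succ_apply, Function.iterate_succ_apply]
  have h1 := (locB_sub hL hd (o := o) hx hy).2 h hne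
  exact lt_of_le_of_lt (LOe_weak hL hd k (LOe_int hL hx) (LOe_int hL hy) (h1.trans h)) h1

theorem LOe_rigid (hL : LocB V p q l r) (hd : 2 ≤ p.natDegree) {m : ℕ} (hm : m ≠ 0) {b : K}
    (hb : V b ≤ 1) (h : V ((fr p q o)^[m] b - b) < 1) (hne : (fr p q o)^[m] b ≠ b) {j : ℕ}
    (hj : 1 ≤ j) : V ((fr p q o)^[j * m] b - b) = V ((fr p q o)^[m] b - b) := by
  induction j, hj using Nat.le_induction with
  | base => rw [one_mul]
  | succ j hj ih =>
    have h1 := LOe_strong (o := o) (i := j * m) hL hd (Nat.mul_ne_zero (by omega) hm)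
      (LOe_intit (o := o) hL hb m) hb h hne
    rw [← Function.iterate_add_apply, show j * m + m = (j + 1) * m by ring, ← ih] at h1
    have h2 : (fr p q o)^[(j + 1) * m] b - b = ((fr p q o)^[j * m] b - b) +
        ((fr p q o)^[(j + 1) * m] b - (fr p q o)^[j * m] b) := by ring
    rw [h2, Valuation.map_add_eq_of_lt_left _ h1, ih]

end loe

theorem loc_B {K : Type} [Field K] [NumberField K] {p q : K[X]} {β : K} (hB : RB p q β)
    (v : HeightOneSpectrum (𝓞 K)) {l r : ℕ} (hL : LocB (v.valuation K) p q l r)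
    (hb : v.valuation K β ≤ 1) : ESR p q β := by
  classical
  have hd := hB.deg
  obtain ⟨V, hV⟩ : ∃ V : Valuation K (WithZero (Multiplicative ℤ)), V = v.valuation K := ⟨_, rfl⟩
  rw [← hV] at hL hb
  obtain ⟨o, ho⟩ : ∃ o, o = ro p q β := ⟨_, rfl⟩
  have hF : RA p q β K = fr p q o := by rw [LOe_map, ho]
  have hVy : ∀ y : K, V y = v.valuation K y := fun y => by rw [hV]
  have hap : ∀ n : ℕ, ∃ a : 𝓞 K, V (algebraMap (𝓞 K) K a - (fr p q o)^[n] β) < 1 := fun n => by
    have hx : v.valuation K ((fr p q o)^[n] β) ≤ 1 := by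
      rw [← hV]
      exact LOe_intit hL hb n
    obtain ⟨a, ha⟩ := v.exists_valuation_sub_lt_of_integer hx 1
    refine ⟨a, ?_⟩
    rw [hVy]
    simpa using ha
  choose a ha using hap
  have hfin : Finite (𝓞 K ⧸ v.asIdeal) := Ring.HasFiniteQuotients.finiteQuotient v.ne_bot
  obtain ⟨i, j, hij, he⟩ := Finite.exists_ne_map_eq_of_infinite
    (fun i : ℕ => Ideal.Quotient.mk v.asIdeal (a i))
  have hclose : ∀ i j : ℕ, Ideal.Quotient.mk v.asIdeal (a i) = Ideal.Quotient.mk v.asIdeal (a j) →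
      V ((fr p q o)^[i] β - (fr p q o)^[j] β) < 1 := by
    intro i j he
    have he1 : V (algebraMap (𝓞 K) K (a i - a j)) < 1 := by
      rw [hVy]
      exact (v.valuation_lt_one_iff_mem _).2 (Ideal.Quotient.eq.1 he)
    rw [map_sub] at he1
    have h1 := ha i
    have h2 := ha j
    have e1 : (fr p q o)^[i] β - (fr p q o)^[j] β =
        (algebraMap (𝓞 K) K (a i) - algebraMap (𝓞 K) K (a j)) -
        (algebraMap (𝓞 K) K (a i) - (fr p q o)^[i] β) +
        (algebraMap (𝓞 K) K (a j) - (fr p q o)^[j] β) := by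
      ring
    rw [e1]
    exact V.map_add_lt (V.map_sub_lt he1 h1) h2
  obtain ⟨i, m, hm, him⟩ : ∃ i m : ℕ, m ≠ 0 ∧
      V ((fr p q o)^[i] ((fr p q o)^[m] β) - (fr p q o)^[i] β) < 1 := by
    rcases Nat.lt_or_gt_of_ne hij with h | h
    · refine ⟨i, j - i, by omega, ?_⟩
      rw [← Function.iterate_add_apply, show i + (j - i) = j by omega]
      exact hclose j i he.symm
    · refine ⟨j, i - j, by omega, ?_⟩
      rw [← Function.iterate_add_apply, show j + (i - j) = i by omega]
      exact hclose i j he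
  have hm1 := LOe_inj hL hd i (LOe_intit hL hb m) hb him
  have hmne : (fr p q o)^[m] β ≠ β := by
    have h1 := r_aper (A := K) hB (t := m) (by omega)
    rw [Algebra.algebraMap_self, RingHom.id_apply, hF] at h1
    exact h1
  have hval0 : V ((fr p q o)^[m] β - β) ≠ 0 := by
    rw [Valuation.ne_zero_iff]
    exact sub_ne_zero.2 hmne
  obtain ⟨ν, hν⟩ : ∃ ν : ℕ, V ((fr p q o)^[m] β - β) = WithZero.exp (-(ν : ℤ)) := by
    have h1 := hm1
    rw [← WithZero.exp_log hval0, ← WithZero.exp_zero, WithZero.exp_lt_exp] at h1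
    refine ⟨(-WithZero.log (V ((fr p q o)^[m] β - β))).toNat, ?_⟩
    rw [Int.toNat_of_nonneg (by omega), neg_neg, WithZero.exp_log hval0]
  refine ⟨ν, fun n => ?_⟩
  obtain ⟨N, hN⟩ : ∃ N, N = (n + 1) * m := ⟨_, rfl⟩
  refine (facs_le hB (show n ≤ N by rw [hN]; nlinarith [Nat.pos_of_ne_zero hm])).trans ?_
  have hr1 := LOe_rigid hL hd hm hb hm1 hmne (j := n + 1) (by omega)
  rw [← hN] at hr1
  obtain ⟨g1, g2, g3⟩ := locB_red hB hL hb N (by rw [hF, hr1]; exact hm1)
  have hfs := ELoc_fin (rp_ne (β := β) hB.qdeg N)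
  have hev : V ((RP p q β N).eval β) = WithZero.exp (-(ν : ℤ)) := by
    obtain ⟨h1, h2⟩ := pq_iter (β := β) hB.qdeg (x := β) (n := N) (fun i _ => hB.wan.1 i)
    rw [coe_aeval_eq_eval] at h1
    rw [coe_aeval_eq_eval, hF, eq_div_iff h1] at h2
    have h3 : (RP p q β N).eval β = (PQ p q N).2.eval β * ((fr p q o)^[N] β - β) := by
      unfold RP
      rw [Polynomial.eval_sub, eval_mul, eval_C, ← h2]
      ring
    rw [h3, map_mul, g2, one_mul, hr1, hν]
  rw [Set.ncard_eq_toFinset_card _ hfs]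
  refine fac_count V g1 (fun i hi => g3 i ?_) hev _ ?_
  · rw [rp_deg hB.qdeg] at hi
    exact hi
  · intro g hg
    exact hfs.mem_toFinset.1 hg

end Pool.Agent.H42.RM
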