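/-
ROW LOf. Local condition C: the reduced map is a polynomial and `β` reduces to infinity.
Let `N = natDegree p ^ n`, `(P, Q) = PQ p q n`, `R = RP p q β n = P - C β * Q`.
PROOFS.
* locC_red: induction on `n`. `n = 0`: `P = X`, `Q = 1`. Step: `P' = ∑ i ∈ range (d+1), C p_i P^i Q^(d-i)`,
  `Q' = ∑ i, C q_i P^i Q^(d-i)`, `d = natDegree p`. All coefficients are integral (Gauss norm: a product or
  sum of polynomials with integral coefficients has integral coefficients, see eval/coeff lemmas of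
  PCM/D1 and D2, or work in `V.valuationSubring[X]`). Leading coefficient of `P'`: `lc(p) lc(P)^d`
  (pq_deg, row EAa: `natDegree Q < natDegree P = d^n`, only the term `i = d` contributes to degree
  `d^(n+1)`). `Q'`: the terms `i ≥ 1` have all coefficients of value `< 1` (`V q_i < 1`); the term
  `i = 0` is `q_0 Q^d`; `Q = C (Q_0) + Q''` with `V (Q_0) = 1` and all coefficients of `Q''` of value `< 1`, so
  `Q^d` is `C (Q_0^d)` plus a polynomial with coefficients of value `< 1`. (In the residue field `k`: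
  the image of `Q'` is the constant `q_0 Q_0^d ≠ 0`.)
* loc_C: write `V β = exp ν`, `ν ≥ 1`. `R.coeff 0 = P_0 - β Q_0` has value `V β > 1` (`V P_0 ≤ 1`), so it is not
  `0`; `natDegree R = N` (rp_deg, row EAa). Let `R' = C β⁻¹ * R.reverse`: `natDegree R' = N`
  (reverse_natDegree, `R.coeff 0 ≠ 0`), `R'.leadingCoeff = β⁻¹ R.coeff 0` has value `1`, for `i < N`
  `R'.coeff i = β⁻¹ R.coeff (N - i)` (coeff_reverse, revAt) `= β⁻¹ P_j - Q_j` with `j = N - i ≥ 1` has
  value `< 1`, and `R'.eval 0 = R'.coeff 0 = β⁻¹ R.leadingCoeff = β⁻¹ P.leadingCoeff` has value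
  `exp (-ν)`. Let `S` be a finite set of monic irreducible factors of `R`. Every `g ∈ S` has
  `g.coeff 0 ≠ 0` (as `g ∣ R`, `R.coeff 0 ≠ 0`). The map `g ↦ C (g.coeff 0)⁻¹ * g.reverse` is injective
  on `S` (reverse_reverse for nonzero constant coefficient), its values are monic, irreducible
  (reverse_mul_of_domain: a factorisation of `g.reverse` gives one of `g = g.reverse.reverse`; degree
  considerations) and divide `R'` (reverse_mul_of_domain). fac_count (row LOa) with `b = 0`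
  (`comp (X + C 0)` is the identity) gives `S.card ≤ ν`. So the number of factors is `≤ ν`
  (finiteness: `ELoc_fin` of PCM/E4 with rp_ne; Set.ncard via the Finset of all factors).
-/
import Pool.Agent.H42.RM.LOa
import Pool.Agent.H42.RM.LOb

set_option autoImplicit false

namespace Pool.Agent.H42.RM

open Pool.Agent.H42.PC Polynomial WithZero

variable {K : Type} [Field K] {p q : K[X]} {β : K}

theorem LOf_mul {V : Valuation K ℤᵐ⁰} {f g : K[X]} (hf : ∀ i, V (f.coeff i) ≤ 1)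
    (hg : ∀ i, V (g.coeff i) ≤ 1) (i : ℕ) : V ((f * g).coeff i) ≤ 1 := by
  rw [coeff_mul]
  refine V.map_sum_le fun x _ => ?_
  rw [map_mul]
  exact mul_le_one' (hf _) (hg _)

theorem LOf_smul {V : Valuation K ℤᵐ⁰} {f g : K[X]} (hf : ∀ i, V (f.coeff i) ≤ 1)
    (hg : ∀ i, V (g.coeff i) < 1) (i : ℕ) : V ((f * g).coeff i) < 1 := by
  rw [coeff_mul]
  refine V.map_sum_lt one_ne_zero fun x _ => ?_
  rw [map_mul]
  exact lt_of_le_of_lt (mul_le_of_le_one_left' (hf _)) (hg _)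

theorem LOf_C {V : Valuation K ℤᵐ⁰} {a : K} (ha : V a ≤ 1) (i : ℕ) : V ((C a).coeff i) ≤ 1 := by
  rw [coeff_C]
  split_ifs
  · exact ha
  · rw [map_zero]
    exact zero_le

theorem LOf_pow {V : Valuation K ℤᵐ⁰} {f : K[X]} (hf : ∀ i, V (f.coeff i) ≤ 1) (k i : ℕ) :
    V ((f ^ k).coeff i) ≤ 1 := by
  induction k generalizing i with
  | zero =>
    rw [pow_zero, ← C_1]
    exact LOf_C (by rw [map_one]) i
  | succ k ih =>
    rw [pow_succ]
    exact LOf_mul ih hf i

theorem LOf_hom {V : Valuation K ℤᵐ⁰} {D : ℕ} {f P Q : K[X]} (hf : ∀ i, V (f.coeff i) ≤ 1)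
    (hP : ∀ i, V (P.coeff i) ≤ 1) (hQ : ∀ i, V (Q.coeff i) ≤ 1) (j : ℕ) :
    V ((hom2 D f P Q).coeff j) ≤ 1 := by
  rw [hom2, finset_sum_coeff]
  exact V.map_sum_le fun i _ => LOf_mul (LOf_mul (LOf_C (hf i)) (LOf_pow hP i)) (LOf_pow hQ _) j

theorem LOf_deg {P Q : K[X]} {D m i : ℕ} (hP : P.natDegree ≤ m) (hQ : Q.natDegree < m)
    (hi : i < D) (a : K) : (C a * P ^ i * Q ^ (D - i)).natDegree < D * m := by
  have h1 : (C a * P ^ i * Q ^ (D - i)).natDegree ≤ i * m + (D - i) * Q.natDegree := by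
    refine natDegree_mul_le.trans (add_le_add ?_ natDegree_pow_le)
    refine (natDegree_C_mul_le _ _).trans (natDegree_pow_le.trans ?_)
    gcongr
  have h2 : (D - i) * Q.natDegree < (D - i) * m := Nat.mul_lt_mul_of_pos_left hQ (by omega)
  have h3 : i * m + (D - i) * m = D * m := by
    rw [← add_mul, Nat.add_sub_of_le hi.le]
  omega

theorem LOf_top {P Q : K[X]} {D m : ℕ} (f : K[X]) (hP : P.natDegree = m) (hQ : Q.natDegree < m) :
    (hom2 D f P Q).coeff (D * m) = f.coeff D * P.leadingCoeff ^ D := by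
  rw [hom2, finset_sum_coeff, Finset.sum_range_succ, Finset.sum_eq_zero, zero_add, Nat.sub_self,
    pow_zero, mul_one, coeff_C_mul]
  · congr 1
    rw [← coeff_pow_mul_natDegree, hP]
  · intro i hi
    exact coeff_eq_zero_of_natDegree_lt (LOf_deg hP.le hQ (Finset.mem_range.1 hi) _)

theorem LOf_un {V : Valuation K ℤᵐ⁰} {Q : K[X]} {e : K} (he : V e ≤ 1)
    (hQi : ∀ i, V (Q.coeff i) ≤ 1) (hQ : ∀ i, V ((Q - C e).coeff i) < 1) (k : ℕ) (i : ℕ) :
    V ((Q ^ k - C (e ^ k)).coeff i) < 1 := by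
  induction k generalizing i with
  | zero =>
    rw [pow_zero, pow_zero, C_1, sub_self, coeff_zero, map_zero]
    exact zero_lt_one
  | succ k ih =>
    have e1 : Q ^ (k + 1) - C (e ^ (k + 1)) = Q * (Q ^ k - C (e ^ k)) + C (e ^ k) * (Q - C e) := by
      rw [pow_succ, pow_succ, C_mul]
      ring
    rw [e1, coeff_add]
    refine V.map_add_lt (LOf_smul hQi ih i) (LOf_smul (LOf_C ?_) hQ i)
    rw [map_pow]
    exact pow_le_one' he k

theorem LOf_small {V : Valuation K ℤᵐ⁰} {Q : K[X]} :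
    (V (Q.coeff 0) = 1 ∧ ∀ i, 1 ≤ i → V (Q.coeff i) < 1) ↔
      ∃ e : K, V e = 1 ∧ ∀ i, V ((Q - C e).coeff i) < 1 := by
  constructor
  · rintro ⟨h1, h2⟩
    refine ⟨Q.coeff 0, h1, fun i => ?_⟩
    rw [coeff_sub, coeff_C]
    split_ifs with h
    · rw [h, sub_self, map_zero]
      exact zero_lt_one
    · rw [sub_zero]
      exact h2 i (by omega)
  · rintro ⟨e, h1, h2⟩
    constructor
    · have h3 := h2 0
      rw [coeff_sub, coeff_C_zero] at h3
      have e1 : Q.coeff 0 = e + (Q.coeff 0 - e) := by ring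
      rw [e1, Valuation.map_add_eq_of_lt_left _ (by rw [h1]; exact h3), h1]
    · intro i hi
      have h3 := h2 i
      rwa [coeff_sub, coeff_C, if_neg (by omega), sub_zero] at h3

theorem LOf_int {V : Valuation K ℤᵐ⁰} {Q : K[X]} (h0 : V (Q.coeff 0) = 1)
    (h : ∀ i, 1 ≤ i → V (Q.coeff i) < 1) (i : ℕ) : V (Q.coeff i) ≤ 1 := by
  rcases Nat.eq_zero_or_pos i with h1 | h1
  · rw [h1]
    exact h0.le
  · exact (h i h1).le

theorem locC_red (hqd : q.natDegree < p.natDegree) (V : Valuation K ℤᵐ⁰)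
    (hp : ∀ i, V (p.coeff i) ≤ 1) (hl : V p.leadingCoeff = 1) (hq0 : V (q.coeff 0) = 1)
    (hq : ∀ i, 1 ≤ i → V (q.coeff i) < 1) (n : ℕ) :
    (∀ i, V ((PQ p q n).1.coeff i) ≤ 1) ∧ V (PQ p q n).1.leadingCoeff = 1 ∧
      V ((PQ p q n).2.coeff 0) = 1 ∧ ∀ i, 1 ≤ i → V ((PQ p q n).2.coeff i) < 1 := by
  induction n with
  | zero =>
    refine ⟨fun i => ?_, ?_, ?_, fun i hi => ?_⟩
    · show V ((X : K[X]).coeff i) ≤ 1
      rw [coeff_X]
      split_ifs
      · rw [map_one]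
      · rw [map_zero]
        exact zero_le
    · show V (X : K[X]).leadingCoeff = 1
      rw [leadingCoeff_X, map_one]
    · show V ((1 : K[X]).coeff 0) = 1
      rw [coeff_one_zero, map_one]
    · show V ((1 : K[X]).coeff i) < 1
      rw [coeff_one, if_neg (by omega), map_zero]
      exact zero_lt_one
  | succ n ih =>
    obtain ⟨h1, h2, h3, h4⟩ := ih
    obtain ⟨d1, d2⟩ := pq_deg (p := p) (q := q) hqd n
    have hQi := LOf_int h3 h4
    refine ⟨LOf_hom hp h1 hQi, ?_, LOf_small.2 ?_⟩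
    · have e1 : (PQ p q (n + 1)).1.natDegree = p.natDegree * p.natDegree ^ n := by
        rw [(pq_deg (p := p) (q := q) hqd (n + 1)).1, pow_succ, mul_comm]
      rw [leadingCoeff, e1]
      show V ((hom2 p.natDegree p (PQ p q n).1 (PQ p q n).2).coeff _) = 1
      rw [LOf_top p d1 d2, map_mul, map_pow, h2, one_pow, mul_one]
      exact hl
    · obtain ⟨e, he, hS⟩ := LOf_small.1 ⟨h3, h4⟩
      refine ⟨q.coeff 0 * e ^ p.natDegree, by rw [map_mul, map_pow, he, one_pow, mul_one, hq0],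
        fun j => ?_⟩
      show V ((hom2 p.natDegree q (PQ p q n).1 (PQ p q n).2 -
        C (q.coeff 0 * e ^ p.natDegree)).coeff j) < 1
      have e1 : hom2 p.natDegree q (PQ p q n).1 (PQ p q n).2 - C (q.coeff 0 * e ^ p.natDegree) =
          (∑ i ∈ Finset.range p.natDegree, C (q.coeff (i + 1)) * (PQ p q n).1 ^ (i + 1) *
            (PQ p q n).2 ^ (p.natDegree - (i + 1))) +
          C (q.coeff 0) * ((PQ p q n).2 ^ p.natDegree - C (e ^ p.natDegree)) := by
        rw [hom2, Finset.sum_range_succ', pow_zero, mul_one, Nat.sub_zero, C_mul]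
        ring
      rw [e1, coeff_add, finset_sum_coeff]
      refine V.map_add_lt (V.map_sum_lt one_ne_zero fun i _ => ?_)
        (LOf_smul (LOf_C hq0.le) (LOf_un he.le hQi hS _) j)
      rw [mul_comm (C (q.coeff (i + 1))), mul_right_comm, mul_comm]
      rw [mul_comm]
      refine LOf_smul (LOf_mul (LOf_pow h1 _) (LOf_pow hQi _)) (fun k => ?_) j
      rw [coeff_C]
      split_ifs
      · exact hq (i + 1) (by omega)
      · rw [map_zero]
        exact zero_lt_one

theorem LOf_nd {f : K[X]} (h : f.coeff 0 ≠ 0) : f.reverse.natDegree = f.natDegree := by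
  rw [reverse_natDegree, natTrailingDegree_eq_zero.2 (Or.inr h), Nat.sub_zero]

theorem LOf_rr {f : K[X]} (h : f.coeff 0 ≠ 0) : f.reverse.reverse = f := by
  have h1 := LOf_nd h
  unfold reverse at h1 ⊢
  rw [h1, reflect_reflect]

theorem LOf_lc {f : K[X]} (h : f.coeff 0 ≠ 0) : f.reverse.leadingCoeff = f.coeff 0 := by
  rw [reverse_leadingCoeff, trailingCoeff, natTrailingDegree_eq_zero.2 (Or.inr h)]

theorem LOf_unit {a : K[X]} (h : a.coeff 0 ≠ 0) (hu : IsUnit a.reverse) : IsUnit a := by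
  have h1 := natDegree_eq_zero_of_isUnit hu
  rw [LOf_nd h] at h1
  rw [eq_C_of_natDegree_eq_zero h1]
  exact isUnit_C.2 (IsUnit.mk0 _ h)

theorem LOf_irr {g : K[X]} (hg : Irreducible g) (h0 : g.coeff 0 ≠ 0) : Irreducible g.reverse := by
  constructor
  · intro hu
    apply hg.not_isUnit
    exact LOf_unit h0 hu
  · intro a b hab
    have h1 : a.coeff 0 * b.coeff 0 ≠ 0 := by
      rw [← mul_coeff_zero, ← hab, coeff_zero_reverse]
      exact leadingCoeff_ne_zero.2 hg.ne_zero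
    have h2 : g = a.reverse * b.reverse := by
      rw [← reverse_mul_of_domain, ← hab, LOf_rr h0]
    rcases hg.isUnit_or_isUnit h2 with h3 | h3
    · exact Or.inl (LOf_unit (left_ne_zero_of_mul h1) h3)
    · exact Or.inr (LOf_unit (right_ne_zero_of_mul h1) h3)

theorem LOf_count (V : Valuation K ℤᵐ⁰) {R : K[X]} {β : K} (hb : 1 < V β)
    (h0 : V (R.coeff 0) = V β) (hlc : V R.leadingCoeff = 1)
    (hmid : ∀ j, 1 ≤ j → j ≤ R.natDegree → V (β⁻¹ * R.coeff j) < 1) {ν : ℕ}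
    (hν : V β = exp (ν : ℤ)) (S : Finset K[X]) (hS : ∀ g ∈ S, g.Monic ∧ Irreducible g ∧ g ∣ R) :
    S.card ≤ ν := by
  classical
  have hβ : β ≠ 0 := by
    rintro rfl
    rw [map_zero] at hb
    exact not_lt_zero hb
  have hVβ : V β ≠ 0 := by rwa [Valuation.ne_zero_iff]
  have hR0 : R.coeff 0 ≠ 0 := by
    intro h
    rw [h, map_zero] at h0
    exact hVβ h0.symm
  obtain ⟨R', hR'⟩ : ∃ R' : K[X], R' = C β⁻¹ * R.reverse := ⟨_, rfl⟩
  have hnd : R'.natDegree = R.natDegree := by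
    rw [hR', natDegree_C_mul (inv_ne_zero hβ), LOf_nd hR0]
  have hlead : V R'.leadingCoeff = 1 := by
    rw [hR', leadingCoeff_mul, leadingCoeff_C, LOf_lc hR0, map_mul, map_inv₀, h0,
      inv_mul_cancel₀ hVβ]
  have hlow : ∀ i < R'.natDegree, V ((R'.comp (X + C 0)).coeff i) < 1 := by
    intro i hi
    rw [hnd] at hi
    rw [C_0, add_zero, comp_X, hR', coeff_C_mul, coeff_reverse, revAt_le hi.le]
    exact hmid _ (by omega) (by omega)
  have hev : V (R'.eval 0) = exp (-(ν : ℤ)) := by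
    rw [← coeff_zero_eq_eval_zero, hR', coeff_C_mul, coeff_zero_reverse, map_mul, map_inv₀, hlc,
      mul_one, hν, exp_neg]
  have hc0 : ∀ g ∈ S, g.coeff 0 ≠ 0 := by
    intro g hg h
    obtain ⟨w, hw⟩ := (hS g hg).2.2
    apply hR0
    rw [hw, mul_coeff_zero, h, zero_mul]
  have hinj : Set.InjOn (fun g : K[X] => C (g.coeff 0)⁻¹ * g.reverse) S := by
    intro g hg h hh he
    have he' : C (g.coeff 0)⁻¹ * g.reverse = C (h.coeff 0)⁻¹ * h.reverse := he
    have h1 := congrArg reverse he'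
    rw [reverse_mul_of_domain, reverse_mul_of_domain, reverse_C, reverse_C, LOf_rr (hc0 g hg),
      LOf_rr (hc0 h hh)] at h1
    have h2 := congrArg leadingCoeff h1
    rw [leadingCoeff_mul, leadingCoeff_mul, (hS g hg).1.leadingCoeff, (hS h hh).1.leadingCoeff,
      leadingCoeff_C, leadingCoeff_C, mul_one, mul_one] at h2
    rw [h2] at h1
    exact mul_left_cancel₀ (C_ne_zero.2 (inv_ne_zero (hc0 h hh))) h1
  rw [← Finset.card_image_of_injOn hinj]
  refine fac_count V hlead hlow hev _ ?_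
  intro g' hg'
  obtain ⟨g, hg, rfl⟩ := Finset.mem_image.1 hg'
  obtain ⟨a1, a2, a3⟩ := hS g hg
  have b0 := hc0 g hg
  refine ⟨?_, ?_, ?_⟩
  · apply monic_C_mul_of_mul_leadingCoeff_eq_one
    rw [LOf_lc b0]
    exact inv_mul_cancel₀ b0
  · rw [irreducible_isUnit_mul (isUnit_C.2 (IsUnit.mk0 _ (inv_ne_zero b0)))]
    exact LOf_irr a2 b0
  · obtain ⟨w, hw⟩ := a3
    rw [hR', hw, reverse_mul_of_domain]
    refine (((isUnit_C.2 (IsUnit.mk0 _ (inv_ne_zero b0))).mul_left_dvd).2 ?_)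
    exact Dvd.intro_left (C β⁻¹ * w.reverse) (by ring)

theorem loc_C (hB : RB p q β) (V : Valuation K ℤᵐ⁰) (hp : ∀ i, V (p.coeff i) ≤ 1)
    (hl : V p.leadingCoeff = 1) (hq0 : V (q.coeff 0) = 1)
    (hq : ∀ i, 1 ≤ i → V (q.coeff i) < 1) (hb : 1 < V β) : ESR p q β := by
  classical
  have hVβ : V β ≠ 0 := by
    intro h
    rw [h] at hb
    exact not_lt_zero hb
  obtain ⟨ν, hν⟩ : ∃ ν : ℕ, V β = exp (ν : ℤ) := by
    have h1 := hb
    rw [← exp_log hVβ, ← exp_zero, exp_lt_exp] at h1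
    refine ⟨(log (V β)).toNat, ?_⟩
    rw [Int.toNat_of_nonneg h1.le, exp_log hVβ]
  have hβi : V β⁻¹ < 1 := by
    rw [map_inv₀]
    exact inv_lt_one_of_one_lt₀ hb
  have hβ : β ≠ 0 := by
    rintro rfl
    exact hVβ (map_zero V)
  refine ⟨ν, fun n => ?_⟩
  obtain ⟨g1, g2, g3, g4⟩ := locC_red hB.qdeg V hp hl hq0 hq n
  obtain ⟨d1, d2⟩ := pq_deg (p := p) (q := q) hB.qdeg n
  have hfs := ELoc_fin (rp_ne (β := β) hB.qdeg n)
  rw [Set.ncard_eq_toFinset_card _ hfs]
  refine LOf_count V (R := RP p q β n) hb ?_ ?_ ?_ hν _ (fun g hg => hfs.mem_toFinset.1 hg)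
  · unfold RP
    rw [coeff_sub, coeff_C_mul]
    have h1 : V (β * (PQ p q n).2.coeff 0) = V β := by rw [map_mul, g3, mul_one]
    rw [Valuation.map_sub_swap, Valuation.map_sub_eq_of_lt_left _ (by
      rw [h1]; exact lt_of_le_of_lt (g1 0) hb), h1]
  · rw [leadingCoeff, rp_deg hB.qdeg n]
    unfold RP
    rw [coeff_sub, coeff_C_mul, coeff_eq_zero_of_natDegree_lt d2, mul_zero, sub_zero, ← d1]
    exact g2
  · intro j hj _
    unfold RP
    rw [coeff_sub, coeff_C_mul, mul_sub, ← mul_assoc, inv_mul_cancel₀ hβ, one_mul]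
    refine V.map_sub_lt ?_ (g4 j hj)
    rw [map_mul]
    exact mul_lt_one_of_lt_of_le hβi (g1 j)

end Pool.Agent.H42.RM
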