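/-
ROW LCa. Rigidity of the returns of `b`. PROOFS: as in PCM/D1.lean, section DRig (iter_crit_le,
ret_small, ret_step, rigid), with `ev f` replaced by `F`.
* near_ri: `F^[i] x` is near `F^[i] y ∈ RI` (it_sub of row LAa), ri_near.
* ret_le: `n = m + 1`; `F x`, `F x'` have orbits in RI (near_ri with `y = F b`), so
  `V (F^[m] (F x) - F^[m] (F x')) ≤ V (F x - F x')` (it_sub; `V (F x - F x') < 1` by c_sub_le), then
  c_sub_le (row LAb) for `c = b`.
* ret_sm: induction on `j`: `F^[(j+1)n] b - b = (F^[n] (F^[jn] b) - F^[n] b) + (F^[n] b - b)` has value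
  `< 1` and is fixed by `Λ.I` (it_b), so fixed_small (PCM/D1) applies.
* ret_st: induction on `j` with ret_le and ret_sm.
* rigid: induction on `j`: `V (F^[(j+1)n] b - F^[jn] b) ≤ exp (-((v0+j)|I|)) < exp (-(v0|I|))`
  for `j ≥ 1`.
-/
import Pool.Agent.H42.RM.LAa
import Pool.Agent.H42.RM.LAb

set_option autoImplicit false

namespace Pool.Agent.H42.RM

open Pool.Agent.H42.PC WithZero

variable {G L : Type} [Group G] [Field L] [MulSemiringAction G L] {Λ : Loc G L} {F : L → L}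
  {b : L} {W : Finset L} {mu : L → ℕ} {RI : Set L} {J N : ℕ}

theorem near_ri (hS : LSys Λ F b W mu RI J N) {x y : L} (hy : ∀ i : ℕ, F^[i] y ∈ RI)
    (h : Λ.V (x - y) < 1) (i : ℕ) : F^[i] x ∈ RI := by
  refine hS.ri_near _ (hy i) _ ?_
  exact lt_of_le_of_lt (it_sub hS (fun j _ => hy j) h) h

theorem LCa_near (hS : LSys Λ F b W mu RI J N) {x : L} (hx : Λ.V (x - b) < 1) (i : ℕ) :
    F^[i] (F x) ∈ RI := by
  refine near_ri hS (y := F b) (fun j => ?_) ?_ i
  · rw [← Function.iterate_succ_apply]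
    exact hS.ri_orb _
  · exact lt_of_le_of_lt (hS.ri_sub b (hS.ri_orb 0) x hx) hx

theorem ret_le (hS : LSys Λ F b W mu RI J N) {n : ℕ} (hn : 1 ≤ n) {x x' : L}
    (hx : Λ.V (x - b) < 1) (hx' : Λ.V (x' - b) < 1) :
    Λ.V (F^[n] x - F^[n] x') ≤ Λ.V (x - x') * max (Λ.V (x - b)) (Λ.V (x' - b)) := by
  obtain ⟨m, rfl⟩ : ∃ m, n = m + 1 := ⟨n - 1, by omega⟩
  rw [Function.iterate_succ_apply, Function.iterate_succ_apply]
  have h0 : Λ.V (F x - F x') < 1 := by
    have hb' : Λ.V (b - x') < 1 := by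
      rw [Valuation.map_sub_swap]
      exact hx'
    have hxx : Λ.V (x - x') < 1 := by
      rw [show x - x' = (x - b) + (b - x') by ring]
      exact Λ.V.map_add_lt hx hb'
    exact lt_of_le_of_lt (hS.ri_sub x' (hS.ri_near b (hS.ri_orb 0) x' hx') x hxx) hxx
  exact (it_sub hS (fun i _ => LCa_near hS hx' i) h0).trans (c_sub_le hS hS.bW hx hx')

theorem ret_sm [Finite G] (hS : LSys Λ F b W mu RI J N) {n v0 : ℕ} (hv : 1 ≤ v0)
    (hb : Λ.V (F^[n] b - b) = exp (-((v0 : ℤ) * (Nat.card Λ.I : ℤ)))) (j : ℕ) :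
    Λ.V (F^[j * n] b - b) ≤ exp (-(Nat.card Λ.I : ℤ)) := by
  have hE := Pool.Agent.H42.PC.card_pos Λ
  have hv' : (1 : ℤ) ≤ (v0 : ℤ) := by exact_mod_cast hv
  induction j with
  | zero =>
    rw [Nat.zero_mul, Function.iterate_zero, id, sub_self, map_zero]
    exact zero_le
  | succ j ih =>
    refine fixed_small Λ (fun g _ => ?_) ?_
    · rw [smul_sub, it_b hS, hS.fixb]
    · have e1 : F^[(j + 1) * n] b = F^[n] (F^[j * n] b) := by
        rw [← Function.iterate_add_apply]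
        congr 2
        ring
      have h1 : Λ.V (F^[n] (F^[j * n] b) - F^[n] b) < 1 := by
        have h3 : Λ.V (F^[j * n] b - b) < 1 := lt_of_le_of_lt ih (exp_E_lt Λ)
        exact lt_of_le_of_lt (it_sub hS (fun i _ => hS.ri_orb i) h3) h3
      have h2 : Λ.V (F^[n] b - b) < 1 := by
        rw [hb]
        exact exp_small hE hv'
      rw [e1, show F^[n] (F^[j * n] b) - b =
        (F^[n] (F^[j * n] b) - F^[n] b) + (F^[n] b - b) by ring]
      exact Λ.V.map_add_lt h1 h2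

theorem ret_st [Finite G] (hS : LSys Λ F b W mu RI J N) {n v0 : ℕ} (hn : 1 ≤ n) (hv : 1 ≤ v0)
    (hb : Λ.V (F^[n] b - b) = exp (-((v0 : ℤ) * (Nat.card Λ.I : ℤ)))) (j : ℕ) :
    Λ.V (F^[(j + 1) * n] b - F^[j * n] b) ≤ exp (-(((v0 : ℤ) + j) * (Nat.card Λ.I : ℤ))) := by
  induction j with
  | zero =>
    rw [Nat.zero_mul, Function.iterate_zero, id, zero_add, one_mul, hb, Nat.cast_zero, add_zero]
  | succ j ih =>
    have e1 : F^[(j + 1 + 1) * n] b = F^[n] (F^[(j + 1) * n] b) := by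
      rw [← Function.iterate_add_apply]
      congr 2
      ring
    have e2 : F^[(j + 1) * n] b = F^[n] (F^[j * n] b) := by
      rw [← Function.iterate_add_apply]
      congr 2
      ring
    have s1 := ret_sm hS hv hb (j + 1)
    have s2 := ret_sm hS hv hb j
    have h1 := ret_le hS hn (lt_of_le_of_lt s1 (exp_E_lt Λ)) (lt_of_le_of_lt s2 (exp_E_lt Λ))
    rw [e1]
    conv_lhs => rw [e2]
    rw [← e2]
    have h2 : Λ.V (F^[n] (F^[(j + 1) * n] b) - F^[n] (F^[j * n] b)) ≤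
        exp (-(((v0 : ℤ) + j) * (Nat.card Λ.I : ℤ))) * exp (-(Nat.card Λ.I : ℤ)) :=
      h1.trans (mul_le_mul' ih (max_le s1 s2))
    rw [← exp_add] at h2
    rw [← e2] at h2
    refine h2.trans (le_of_eq ?_)
    congr 1
    push_cast
    ring

theorem rigid [Finite G] (hS : LSys Λ F b W mu RI J N) {n v0 : ℕ} (hn : 1 ≤ n) (hv : 1 ≤ v0)
    (hb : Λ.V (F^[n] b - b) = exp (-((v0 : ℤ) * (Nat.card Λ.I : ℤ)))) {j : ℕ} (hj : 1 ≤ j) :
    Λ.V (F^[j * n] b - b) = exp (-((v0 : ℤ) * (Nat.card Λ.I : ℤ))) := by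
  have hE := Pool.Agent.H42.PC.card_pos Λ
  induction j, hj using Nat.le_induction with
  | base => rw [one_mul]; exact hb
  | succ j hj ih =>
    have h1 := ret_st hS hn hv hb j
    have h2 : Λ.V (F^[(j + 1) * n] b - F^[j * n] b) < Λ.V (F^[j * n] b - b) := by
      rw [ih]
      refine lt_of_le_of_lt h1 ?_
      rw [exp_lt_exp]
      have : (1 : ℤ) ≤ (j : ℤ) := by exact_mod_cast hj
      nlinarith
    rw [show F^[(j + 1) * n] b - b =
      (F^[j * n] b - b) + (F^[(j + 1) * n] b - F^[j * n] b) by ring]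
    rw [Valuation.map_add_eq_of_lt_left _ h2, ih]

end Pool.Agent.H42.RM
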