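/-
ROW ZAa. The chordal metric of an absolute value. `mx a x = max 1 (a x)`,
`dl a x y = a (x - y) / (mx x * mx y)`. PROOFS.
* mx_pos: `1 ≤ mx`. dl_nonneg, dl_symm, dl_pos: clear (AbsoluteValue.map_sub).
* dl_tri: after multiplication by `mx x * mx y * mx z` the claim is
  `a (x-z) mx y ≤ a (x-y) mx z + a (y-z) mx x`. If `a y ≤ 1` then `mx y = 1` and
  `a (x-z) ≤ a (x-y) + a (y-z)`, with `mx z, mx x ≥ 1`. If `a y > 1` then `mx y = a y` and
  `(x - z) y = (x - y) z + (y - z) x` gives `a (x-z) a y ≤ a (x-y) a z + a (y-z) a x`, and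
  `a z ≤ mx z`, `a x ≤ mx x`.
* poly_up: `a (f.eval x) ≤ ∑ a (f.coeff i) (a x)^i ≤ (∑ a (f.coeff i)) (mx x)^D` for
  `natDegree f ≤ D` (eval_eq_sum_range, AbsoluteValue.sum_le; `(a x)^i ≤ (mx x)^i ≤ (mx x)^D`); take
  `C = 1 + ∑`.
-/
import Pool.Agent.H42.AD.ZAa

set_option autoImplicit false

namespace Pool.Agent.H42.RM

open Polynomial

/-- `max 1 |x|` -/
noncomputable def mx {K : Type} [Field K] (a : AbsoluteValue K ℝ) (x : K) : ℝ := max 1 (a x)

/-- the chordal distance -/
noncomputable def dl {K : Type} [Field K] (a : AbsoluteValue K ℝ) (x y : K) : ℝ :=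
  a (x - y) / (mx a x * mx a y)

variable {K : Type} [Field K] (a : AbsoluteValue K ℝ)

theorem one_le_mx (x : K) : 1 ≤ mx a x := le_max_left _ _

theorem le_mx (x : K) : a x ≤ mx a x := le_max_right _ _

theorem mx_pos (x : K) : 0 < mx a x := lt_of_lt_of_le one_pos (one_le_mx a x)

theorem dl_nonneg (x y : K) : 0 ≤ dl a x y :=
  div_nonneg (a.nonneg _) (mul_pos (mx_pos a x) (mx_pos a y)).le

theorem dl_symm (x y : K) : dl a x y = dl a y x := by
  unfold dl
  rw [a.map_sub, mul_comm]

theorem dl_pos {x y : K} (h : x ≠ y) : 0 < dl a x y :=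
  div_pos (a.pos (sub_ne_zero.2 h)) (mul_pos (mx_pos a x) (mx_pos a y))

theorem dl_tri (x y z : K) : dl a x z ≤ dl a x y + dl a y z := by
  have hx := mx_pos a x
  have hy := mx_pos a y
  have hz := mx_pos a z
  have key : a (x - z) * mx a y ≤ a (x - y) * mx a z + a (y - z) * mx a x := by
    rcases le_total (a y) 1 with h | h
    · have h1 : mx a y = 1 := max_eq_left h
      rw [h1, mul_one]
      have h2 : a (x - z) ≤ a (x - y) + a (y - z) := a.sub_le _ _ _
      have h3 : a (x - y) ≤ a (x - y) * mx a z :=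
        le_mul_of_one_le_right (a.nonneg _) (one_le_mx a z)
      have h4 : a (y - z) ≤ a (y - z) * mx a x :=
        le_mul_of_one_le_right (a.nonneg _) (one_le_mx a x)
      linarith
    · have h1 : mx a y = a y := max_eq_right h
      rw [h1]
      have h2 : a ((x - z) * y) ≤ a ((x - y) * z) + a ((y - z) * x) := by
        have e : (x - z) * y = (x - y) * z + (y - z) * x := by ring
        rw [e]
        exact a.add_le _ _
      rw [map_mul, map_mul, map_mul] at h2
      have h3 : a (x - y) * a z ≤ a (x - y) * mx a z :=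
        mul_le_mul_of_nonneg_left (le_mx a z) (a.nonneg _)
      have h4 : a (y - z) * a x ≤ a (y - z) * mx a x :=
        mul_le_mul_of_nonneg_left (le_mx a x) (a.nonneg _)
      linarith
  unfold dl
  have e : a (x - y) / (mx a x * mx a y) + a (y - z) / (mx a y * mx a z) =
      (a (x - y) * mx a z + a (y - z) * mx a x) / (mx a x * mx a y * mx a z) := by
    field_simp
  have e2 : a (x - z) / (mx a x * mx a z) =
      (a (x - z) * mx a y) / (mx a x * mx a y * mx a z) := by
    field_simp
  rw [e, e2]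
  exact div_le_div_of_nonneg_right key (by positivity)

theorem poly_up {f : K[X]} {D : ℕ} (hf : f.natDegree ≤ D) :
    ∃ C : ℝ, 1 ≤ C ∧ ∀ x, a (f.eval x) ≤ C * mx a x ^ D := by
  refine ⟨1 + ∑ i ∈ Finset.range (f.natDegree + 1), a (f.coeff i), ?_, ?_⟩
  · have : 0 ≤ ∑ i ∈ Finset.range (f.natDegree + 1), a (f.coeff i) :=
      Finset.sum_nonneg fun i _ => a.nonneg _
    linarith
  · intro x
    have h0 : 0 ≤ mx a x ^ D := (pow_pos (mx_pos a x) D).le
    have h1 : a (f.eval x) ≤ (∑ i ∈ Finset.range (f.natDegree + 1), a (f.coeff i)) *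
        mx a x ^ D := by
      rw [eval_eq_sum_range, Finset.sum_mul]
      refine (a.sum_le _ _).trans (Finset.sum_le_sum fun i hi => ?_)
      rw [map_mul, map_pow]
      refine mul_le_mul_of_nonneg_left ?_ (a.nonneg _)
      have hi' : i ≤ D := by
        have := Finset.mem_range.1 hi
        omega
      exact (pow_le_pow_left₀ (a.nonneg _) (le_mx a x) i).trans
        (pow_le_pow_right₀ (one_le_mx a x) hi')
    linarith

end Pool.Agent.H42.RM
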