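/-
ROW ZAb. Lower bound for a coprime pair. PROOF. Let `D = natDegree p`. `p ≠ 0`? If `p = 0` then
`natDegree p = 0`, `natDegree q = 0` and `q` is a nonzero constant (coprime): take `c = a (q.coeff 0)`.
(To avoid the case, note it separately.) Let `p ≠ 0`. poly_low (AD/ZAa.lean) gives `R ≥ 1` with
`a x ≥ R → a (lc p)/2 * (a x)^D ≤ a (p.eval x)`; then `mx a x = a x`. Let `u p + v q = 1`. poly_bdd
(AD/ZAa.lean) gives `M ≥ 0` (enlarge to `M ≥ 1`) with `a (u x), a (v x) ≤ M` for `a x ≤ R`. For
`a x ≤ R`: `1 = a (u p + v q) ≤ M a (p x) + M a (q x) ≤ 2 M max`, and `(mx x)^D ≤ R^D` (`mx x ≤ R`).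
Take `c = min (a (lc p)/2) (1/(2 M R^D))`.
-/
import Pool.Agent.H42.RM.ZAa

set_option autoImplicit false

namespace Pool.Agent.H42.RM

open Polynomial

variable {K : Type} [Field K] (a : AbsoluteValue K ℝ)

theorem pair_low {p q : K[X]} (hcop : IsCoprime p q) (hqd : q.natDegree ≤ p.natDegree) :
    ∃ c : ℝ, 0 < c ∧ ∀ x, c * mx a x ^ p.natDegree ≤ max (a (p.eval x)) (a (q.eval x)) := by
  by_cases hp : p = 0
  · subst hp
    rw [isCoprime_zero_left] at hcop
    obtain ⟨r, hr, rfl⟩ := Polynomial.isUnit_iff.mp hcop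
    refine ⟨a r, a.pos hr.ne_zero, fun x => ?_⟩
    simp only [natDegree_zero, pow_zero, mul_one, eval_zero, eval_C, map_zero]
    exact le_max_right _ _
  · obtain ⟨R, hR1, hR⟩ := Pool.Agent.H42.PC.poly_low a hp
    obtain ⟨u, v, huv⟩ := hcop
    obtain ⟨M1, hM1, hu⟩ := Pool.Agent.H42.PC.poly_bdd a u R
    obtain ⟨M2, hM2, hv⟩ := Pool.Agent.H42.PC.poly_bdd a v R
    have hL : 0 < a p.leadingCoeff := a.pos (leadingCoeff_ne_zero.2 hp)
    set M : ℝ := max 1 (max M1 M2) with hM
    have hM0 : 1 ≤ M := le_max_left _ _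
    have hMpos : 0 < M := by linarith
    have hRD : 0 < R ^ p.natDegree := by positivity
    refine ⟨min (a p.leadingCoeff / 2) (1 / (2 * M * R ^ p.natDegree)), lt_min (by positivity)
      (by positivity), fun x => ?_⟩
    rcases le_total R (a x) with h | h
    · have hmx : mx a x = a x := max_eq_right (hR1.trans h)
      rw [hmx]
      refine le_trans ?_ ((hR x h).trans (le_max_left _ _))
      exact mul_le_mul_of_nonneg_right (min_le_left _ _) (pow_nonneg (a.nonneg _) _)
    · have hmx : mx a x ≤ R := max_le hR1 h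
      have hmx0 : 0 ≤ mx a x := by linarith [one_le_mx a x]
      have h1 : (1 : ℝ) ≤ M * a (p.eval x) + M * a (q.eval x) := by
        have e : u.eval x * p.eval x + v.eval x * q.eval x = 1 := by
          have := congrArg (fun f => f.eval x) huv
          simpa using this
        have h2 : a (u.eval x * p.eval x + v.eval x * q.eval x) = 1 := by rw [e, map_one]
        rw [← h2]
        refine (a.add_le _ _).trans ?_
        rw [map_mul, map_mul]
        have h3 : a (u.eval x) ≤ M := (hu x h).trans ((le_max_left _ _).trans (le_max_right _ _))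
        have h4 : a (v.eval x) ≤ M := (hv x h).trans ((le_max_right _ _).trans (le_max_right _ _))
        exact add_le_add (mul_le_mul_of_nonneg_right h3 (a.nonneg _))
          (mul_le_mul_of_nonneg_right h4 (a.nonneg _))
      have h5 : (1 : ℝ) ≤ 2 * M * max (a (p.eval x)) (a (q.eval x)) := by
        have h6 := mul_le_mul_of_nonneg_left (le_max_left (a (p.eval x)) (a (q.eval x))) hMpos.le
        have h7 := mul_le_mul_of_nonneg_left (le_max_right (a (p.eval x)) (a (q.eval x))) hMpos.le
        linarith
      calc min (a p.leadingCoeff / 2) (1 / (2 * M * R ^ p.natDegree)) * mx a x ^ p.natDegree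
          ≤ 1 / (2 * M * R ^ p.natDegree) * R ^ p.natDegree := by
            apply mul_le_mul (min_le_right _ _) (pow_le_pow_left₀ hmx0 hmx _) (pow_nonneg hmx0 _)
            positivity
        _ = 1 / (2 * M) := by field_simp
        _ ≤ max (a (p.eval x)) (a (q.eval x)) := by
            rw [div_le_iff₀ (by positivity)]
            linarith

end Pool.Agent.H42.RM
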