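/-
ROW ZAc. Two bounds. PROOFS.
* two_var: `p(x) q(y) - p(y) q(x) = ∑ i ∈ range (d+1), ∑ j ∈ range (d+1), p_i q_j (x^i y^j - y^i x^j)`
  (eval_eq_sum_range' with degrees `< d+1`). For `i ≥ j`, `x^i y^j - y^i x^j = (x y)^j (x^k - y^k)`
  with `k = i - j`, and `a (x^k - y^k) ≤ a (x-y) * k * (mx x)^(k-1) (mx y)^(k-1)` (geometric sum
  `(x-y) ∑ l < k, x^l y^(k-1-l)`; each term is at most `(mx x)^(k-1) (mx y)^(k-1)`; for `k = 0` it is
  `0`), so `a (..) ≤ d * a (x-y) * (mx x * mx y)^(j + k - 1) ≤ d * a (x-y) * (mx x * mx y)^(d-1)` if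
  `k ≥ 1` (`j + k - 1 = i - 1 ≤ d - 1`). The case `i < j` is symmetric.
  Take `C = 1 + d ∑ ∑ a (p_i) a (q_j)`.
* quad_crit: let `h = C (q.eval β) * p - C (p.eval β) * q`; `h.eval β = 0` and
  `h.derivative.eval β = (wr p q).eval β = 0`, so `(X - C β)^2 ∣ h`, `h = (X - C β)^2 * g` with
  `natDegree g ≤ d - 2` (`natDegree h ≤ d`, natDegree_mul; if `h = 0` take `g = 0`), and poly_up (row
  ZAa) for `g`.
-/
import Pool.Agent.H42.RM.ZAa
import Pool.Agent.H42.RM.Defs

set_option autoImplicit false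

namespace Pool.Agent.H42.RM

open Polynomial

variable {K : Type} [Field K] (a : AbsoluteValue K ℝ)

theorem ZAc_pow (x : K) {i n : ℕ} (h : i ≤ n) : a x ^ i ≤ mx a x ^ n :=
  (pow_le_pow_left₀ (a.nonneg x) (le_mx a x) i).trans (pow_le_pow_right₀ (one_le_mx a x) h)

theorem ZAc_geo (x y : K) (k : ℕ) :
    a (x ^ k - y ^ k) ≤ a (x - y) * (k * (mx a x * mx a y) ^ (k - 1)) := by
  have h1 : (x - y) * ∑ i ∈ Finset.range k, x ^ i * y ^ (k - 1 - i) = x ^ k - y ^ k :=
    Commute.mul_geom_sum₂ (Commute.all x y) k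
  rw [← h1, map_mul]
  refine mul_le_mul_of_nonneg_left ?_ (a.nonneg _)
  refine (a.sum_le _ _).trans ?_
  refine (Finset.sum_le_card_nsmul _ _ ((mx a x * mx a y) ^ (k - 1)) ?_).trans ?_
  · intro i hi
    rw [Finset.mem_range] at hi
    rw [map_mul, map_pow, map_pow, mul_pow]
    exact mul_le_mul (ZAc_pow a x (by omega)) (ZAc_pow a y (by omega)) (pow_nonneg (a.nonneg _) _)
      (pow_nonneg (zero_le_one.trans (one_le_mx a x)) _)
  · rw [Finset.card_range, nsmul_eq_mul]

theorem ZAc_mon1 (x y : K) {i j d : ℕ} (hji : j ≤ i) (hid : i ≤ d) :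
    a (x ^ i * y ^ j - y ^ i * x ^ j) ≤ d * (a (x - y) * (mx a x * mx a y) ^ (d - 1)) := by
  have hX := one_le_mx a x
  have hY := one_le_mx a y
  have hXY : 1 ≤ mx a x * mx a y := one_le_mul_of_one_le_of_one_le hX hY
  have hnn : 0 ≤ a (x - y) * (mx a x * mx a y) ^ (d - 1) :=
    mul_nonneg (a.nonneg _) (pow_nonneg (zero_le_one.trans hXY) _)
  obtain ⟨k, rfl⟩ := Nat.exists_eq_add_of_le hji
  have h1 : x ^ (j + k) * y ^ j - y ^ (j + k) * x ^ j = (x ^ j * y ^ j) * (x ^ k - y ^ k) := by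
    rw [pow_add, pow_add]
    ring
  rw [h1, map_mul]
  have h2 : a (x ^ j * y ^ j) ≤ (mx a x * mx a y) ^ j := by
    rw [map_mul, map_pow, map_pow, mul_pow]
    exact mul_le_mul (ZAc_pow a x le_rfl) (ZAc_pow a y le_rfl) (pow_nonneg (a.nonneg _) _)
      (pow_nonneg (zero_le_one.trans hX) _)
  rcases Nat.eq_zero_or_pos k with hk | hk
  · subst hk
    rw [pow_zero, pow_zero, sub_self, map_zero, mul_zero]
    exact mul_nonneg (Nat.cast_nonneg _) hnn
  · have h3 := mul_le_mul h2 (ZAc_geo a x y k) (a.nonneg _) (pow_nonneg (zero_le_one.trans hXY) _)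
    refine h3.trans ?_
    have h4 : (mx a x * mx a y) ^ j * (a (x - y) * (k * (mx a x * mx a y) ^ (k - 1))) =
        k * (a (x - y) * (mx a x * mx a y) ^ (j + (k - 1))) := by
      rw [pow_add]
      ring
    rw [h4]
    refine mul_le_mul ?_ ?_ ?_ (Nat.cast_nonneg _)
    · exact_mod_cast (by omega : k ≤ d)
    · exact mul_le_mul_of_nonneg_left (pow_le_pow_right₀ hXY (by omega)) (a.nonneg _)
    · exact mul_nonneg (a.nonneg _) (pow_nonneg (zero_le_one.trans hXY) _)

theorem ZAc_mon (x y : K) {i j d : ℕ} (hid : i ≤ d) (hjd : j ≤ d) :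
    a (x ^ i * y ^ j - y ^ i * x ^ j) ≤ d * (a (x - y) * (mx a x * mx a y) ^ (d - 1)) := by
  rcases le_total j i with h | h
  · exact ZAc_mon1 a x y h hid
  · have h1 := ZAc_mon1 a x y h hjd
    rw [a.map_sub] at h1
    have h2 : x ^ i * y ^ j - y ^ i * x ^ j = y ^ j * x ^ i - x ^ j * y ^ i := by ring
    rw [h2]
    exact h1

theorem two_var {p q : K[X]} {d : ℕ} (hp : p.natDegree ≤ d) (hq : q.natDegree ≤ d)
    (hd : 1 ≤ d) : ∃ C : ℝ, 1 ≤ C ∧ ∀ x y,
      a (p.eval x * q.eval y - p.eval y * q.eval x) ≤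
        C * a (x - y) * (mx a x ^ (d - 1) * mx a y ^ (d - 1)) := by
  have hsn : 0 ≤ ∑ i ∈ Finset.range (d + 1), ∑ j ∈ Finset.range (d + 1),
      a (p.coeff i) * a (q.coeff j) * d := by
    refine Finset.sum_nonneg fun i _ => Finset.sum_nonneg fun j _ => ?_
    exact mul_nonneg (mul_nonneg (a.nonneg _) (a.nonneg _)) (Nat.cast_nonneg _)
  refine ⟨1 + ∑ i ∈ Finset.range (d + 1), ∑ j ∈ Finset.range (d + 1),
    a (p.coeff i) * a (q.coeff j) * d, by linarith, fun x y => ?_⟩
  have hX := one_le_mx a x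
  have hY := one_le_mx a y
  have hXY : 1 ≤ mx a x * mx a y := one_le_mul_of_one_le_of_one_le hX hY
  have hnn : 0 ≤ a (x - y) * (mx a x * mx a y) ^ (d - 1) :=
    mul_nonneg (a.nonneg _) (pow_nonneg (zero_le_one.trans hXY) _)
  have h1 : p.eval x * q.eval y - p.eval y * q.eval x =
      ∑ i ∈ Finset.range (d + 1), ∑ j ∈ Finset.range (d + 1),
        p.coeff i * q.coeff j * (x ^ i * y ^ j - y ^ i * x ^ j) := by
    rw [eval_eq_sum_range' (Nat.lt_succ_of_le hp) x, eval_eq_sum_range' (Nat.lt_succ_of_le hp) y,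
      eval_eq_sum_range' (Nat.lt_succ_of_le hq) x, eval_eq_sum_range' (Nat.lt_succ_of_le hq) y,
      Finset.sum_mul_sum, Finset.sum_mul_sum, ← Finset.sum_sub_distrib]
    refine Finset.sum_congr rfl fun i _ => ?_
    rw [← Finset.sum_sub_distrib]
    refine Finset.sum_congr rfl fun j _ => ?_
    ring
  have h2 : a (p.eval x * q.eval y - p.eval y * q.eval x) ≤
      (∑ i ∈ Finset.range (d + 1), ∑ j ∈ Finset.range (d + 1), a (p.coeff i) * a (q.coeff j) * d) *
        (a (x - y) * (mx a x * mx a y) ^ (d - 1)) := by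
    rw [h1, Finset.sum_mul]
    refine (a.sum_le _ _).trans (Finset.sum_le_sum fun i hi => ?_)
    rw [Finset.sum_mul]
    refine (a.sum_le _ _).trans (Finset.sum_le_sum fun j hj => ?_)
    rw [Finset.mem_range] at hi hj
    rw [map_mul, map_mul, mul_assoc (a (p.coeff i) * a (q.coeff j))]
    exact mul_le_mul_of_nonneg_left (ZAc_mon a x y (by omega) (by omega))
      (mul_nonneg (a.nonneg _) (a.nonneg _))
  rw [← mul_pow, mul_assoc, add_mul, one_mul]
  linarith

theorem quad_crit {p q : K[X]} {d : ℕ} (hp : p.natDegree ≤ d) (hq : q.natDegree ≤ d)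
    (hd : 2 ≤ d) {β : K} (hw : (wr p q).eval β = 0) : ∃ C : ℝ, 1 ≤ C ∧ ∀ x,
      a (q.eval β * p.eval x - p.eval β * q.eval x) ≤ C * a (x - β) ^ 2 * mx a x ^ (d - 2) := by
  obtain ⟨h, hh⟩ : ∃ h, h = C (q.eval β) * p - C (p.eval β) * q := ⟨_, rfl⟩
  have hev : ∀ x, h.eval x = q.eval β * p.eval x - p.eval β * q.eval x := by
    intro x
    rw [hh]
    simp only [Polynomial.eval_sub, eval_mul, eval_C]
  have hg : ∃ g : K[X], h = (X - C β) ^ 2 * g ∧ g.natDegree ≤ d - 2 := by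
    by_cases h0 : h = 0
    · exact ⟨0, by rw [h0, mul_zero], by rw [natDegree_zero]; exact Nat.zero_le _⟩
    · have h1 : 1 < rootMultiplicity β h := by
        rw [one_lt_rootMultiplicity_iff_isRoot h0]
        constructor
        · rw [IsRoot, hev]
          ring
        · rw [IsRoot, hh]
          unfold wr at hw
          simp only [Polynomial.eval_sub, eval_mul] at hw
          simp only [derivative_sub, derivative_C_mul, Polynomial.eval_sub, eval_mul, eval_C]
          linear_combination hw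
      obtain ⟨g, hg⟩ := (le_rootMultiplicity_iff h0).1 h1
      refine ⟨g, hg, ?_⟩
      have hg0 : g ≠ 0 := by
        rintro rfl
        exact h0 (by rw [hg, mul_zero])
      have h2 : h.natDegree = 2 + g.natDegree := by
        rw [hg, natDegree_mul (pow_ne_zero _ (X_sub_C_ne_zero β)) hg0, natDegree_pow,
          natDegree_X_sub_C]
      have h3 : h.natDegree ≤ d := by
        rw [hh]
        refine (natDegree_sub_le _ _).trans (max_le ?_ ?_)
        · exact (natDegree_C_mul_le _ _).trans hp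
        · exact (natDegree_C_mul_le _ _).trans hq
      omega
  obtain ⟨g, hg1, hg2⟩ := hg
  obtain ⟨C', hC, hb⟩ := poly_up a hg2
  refine ⟨C', hC, fun x => ?_⟩
  rw [← hev, hg1, eval_mul, eval_pow, Polynomial.eval_sub, eval_X, eval_C, map_mul, map_pow]
  have h1 := mul_le_mul_of_nonneg_left (hb x) (pow_nonneg (a.nonneg (x - β)) 2)
  linarith

end Pool.Agent.H42.RM
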