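/-
ROW ZAd. The map is Lipschitz for the chordal metric and quadratically contracting at a critical point.
Let `F = fr p q o`, `d = natDegree p ≥ 2`. For `q x ≠ 0`: `F x = p x / q x`,
`mx (F x) = max (a (q x)) (a (p x)) / a (q x)`. So for `q x, q y ≠ 0`:
`dl (F x) (F y) = a (p x q y - p y q x) / (M x * M y)`, `M x = max (a (p x)) (a (q x))` (field
algebra). pair_low (row ZAb): `M x ≥ c (mx x)^d`, `c > 0`.
* dl_lip: by two_var (row ZAc) `dl (F x) (F y) ≤ C a (x-y) (mx x mx y)^(d-1) / (c^2 (mx x mx y)^d)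
  = (C/c^2) dl x y`.
* dl_quad: by quad_crit (row ZAc) `dl (F x) (F β) ≤ C a (x-β)^2 (mx x)^(d-2) / (c (mx x)^d * M β)
  = C' a (x-β)^2 / (mx x)^2 = C' (mx β)^2 (dl x β)^2`, `M β ≥ c (mx β)^d > 0`.
Take the constants `max 1 _`.
-/
import Pool.Agent.H42.RM.ZAb
import Pool.Agent.H42.RM.ZAc
import Pool.Agent.H42.RM.QAa

set_option autoImplicit false

namespace Pool.Agent.H42.RM

open Polynomial

variable {K : Type} [Field K] (a : AbsoluteValue K ℝ)

theorem ZAd_mx {u v : K} (hv : v ≠ 0) : mx a (u / v) = max (a u) (a v) / a v := by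
  have hv0 : 0 < a v := a.pos hv
  unfold mx
  have h := max_div_div_right hv0.le (a v) (a u)
  rw [div_self hv0.ne'] at h
  rw [map_div₀, max_comm (a u) (a v)]
  exact h

theorem ZAd_dl {p q : K[X]} {o x y : K} (hx : q.eval x ≠ 0) (hy : q.eval y ≠ 0) :
    dl a (fr p q o x) (fr p q o y) = a (p.eval x * q.eval y - p.eval y * q.eval x) /
      (max (a (p.eval x)) (a (q.eval x)) * max (a (p.eval y)) (a (q.eval y))) := by
  have hx0 : 0 < a (q.eval x) := a.pos hx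
  have hy0 : 0 < a (q.eval y) := a.pos hy
  unfold dl
  rw [fr_ne hx, fr_ne hy, ZAd_mx a hx, ZAd_mx a hy]
  have e : p.eval x / q.eval x - p.eval y / q.eval y =
      (p.eval x * q.eval y - p.eval y * q.eval x) / (q.eval x * q.eval y) := by
    field_simp
  rw [e, map_div₀, map_mul a (q.eval x) (q.eval y)]
  have hMx : 0 < max (a (p.eval x)) (a (q.eval x)) := lt_max_of_lt_right hx0
  have hMy : 0 < max (a (p.eval y)) (a (q.eval y)) := lt_max_of_lt_right hy0
  field_simp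

theorem dl_lip {p q : K[X]} {o : K} (hcop : IsCoprime p q) (hd : 2 ≤ p.natDegree)
    (hqd : q.natDegree < p.natDegree) : ∃ C : ℝ, 1 ≤ C ∧ ∀ x y, q.eval x ≠ 0 → q.eval y ≠ 0 →
      dl a (fr p q o x) (fr p q o y) ≤ C * dl a x y := by
  obtain ⟨c, hc, hlow⟩ := pair_low a hcop hqd.le
  obtain ⟨C, hC, htwo⟩ := two_var a (p := p) (q := q) le_rfl hqd.le (by omega)
  refine ⟨max 1 (C / c ^ 2), le_max_left _ _, fun x y hx hy => ?_⟩
  refine le_trans ?_ (mul_le_mul_of_nonneg_right (le_max_right 1 (C / c ^ 2)) (dl_nonneg a x y))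
  rw [ZAd_dl a hx hy]
  have hmx : 0 < mx a x := lt_of_lt_of_le one_pos (one_le_mx a x)
  have hmy : 0 < mx a y := lt_of_lt_of_le one_pos (one_le_mx a y)
  have h1 : 0 < c * mx a x ^ p.natDegree := mul_pos hc (pow_pos hmx _)
  have h2 : 0 < c * mx a y ^ p.natDegree := mul_pos hc (pow_pos hmy _)
  have h3 : (c * mx a x ^ p.natDegree) * (c * mx a y ^ p.natDegree) ≤
      max (a (p.eval x)) (a (q.eval x)) * max (a (p.eval y)) (a (q.eval y)) :=
    mul_le_mul (hlow x) (hlow y) h2.le (le_trans h1.le (hlow x))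
  have h4 := htwo x y
  have h5 : 0 ≤ C * a (x - y) * (mx a x ^ (p.natDegree - 1) * mx a y ^ (p.natDegree - 1)) :=
    le_trans (a.nonneg _) h4
  refine (div_le_div₀ h5 h4 (mul_pos h1 h2) h3).trans (le_of_eq ?_)
  obtain ⟨n, hn⟩ : ∃ n, p.natDegree = n + 1 := ⟨p.natDegree - 1, by omega⟩
  unfold dl
  rw [hn, Nat.add_sub_cancel, pow_succ, pow_succ]
  have h6 : 0 < mx a x ^ n := pow_pos hmx n
  have h7 : 0 < mx a y ^ n := pow_pos hmy n
  field_simp

theorem dl_quad {p q : K[X]} {o β : K} (hcop : IsCoprime p q) (hd : 2 ≤ p.natDegree)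
    (hqd : q.natDegree < p.natDegree) (hw : (wr p q).eval β = 0) (hβ : q.eval β ≠ 0) :
    ∃ C : ℝ, 1 ≤ C ∧ ∀ x, q.eval x ≠ 0 →
      dl a (fr p q o x) (fr p q o β) ≤ C * dl a x β ^ 2 := by
  obtain ⟨c, hc, hlow⟩ := pair_low a hcop hqd.le
  obtain ⟨C, hC, hquad⟩ := quad_crit a (p := p) (q := q) le_rfl hqd.le hd hw
  have hmb : 0 < mx a β := lt_of_lt_of_le one_pos (one_le_mx a β)
  obtain ⟨M, hM⟩ : ∃ M, M = max (a (p.eval β)) (a (q.eval β)) := ⟨_, rfl⟩
  have hM0 : 0 < M := by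
    rw [hM]
    exact lt_max_of_lt_right (a.pos hβ)
  refine ⟨max 1 (C * mx a β ^ 2 / (c * M)), le_max_left _ _, fun x hx => ?_⟩
  refine le_trans ?_ (mul_le_mul_of_nonneg_right (le_max_right 1 (C * mx a β ^ 2 / (c * M)))
    (sq_nonneg (dl a x β)))
  rw [ZAd_dl a hx hβ, ← hM]
  have hmx : 0 < mx a x := lt_of_lt_of_le one_pos (one_le_mx a x)
  have h1 : 0 < c * mx a x ^ p.natDegree := mul_pos hc (pow_pos hmx _)
  have h3 : (c * mx a x ^ p.natDegree) * M ≤ max (a (p.eval x)) (a (q.eval x)) * M :=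
    mul_le_mul_of_nonneg_right (hlow x) hM0.le
  have h4 := hquad x
  have e : p.eval x * q.eval β - p.eval β * q.eval x =
      q.eval β * p.eval x - p.eval β * q.eval x := by ring
  rw [e]
  have h5 : 0 ≤ C * a (x - β) ^ 2 * mx a x ^ (p.natDegree - 2) := le_trans (a.nonneg _) h4
  refine (div_le_div₀ h5 h4 (mul_pos h1 hM0) h3).trans (le_of_eq ?_)
  obtain ⟨n, hn⟩ : ∃ n, p.natDegree = n + 2 := ⟨p.natDegree - 2, by omega⟩
  unfold dl
  rw [hn, Nat.add_sub_cancel, pow_add]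
  have h6 : 0 < mx a x ^ n := pow_pos hmx n
  field_simp

end Pool.Agent.H42.RM
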