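/-
ROW ZAe. A critical orbit returns to the critical point at most exponentially closely.
PROOF of ret_abs. Put `δ n = D n 0 > 0` (n ≥ 1).
Case A: there is `n1 ≥ 1` with `8 * C^n1 * δ n1 ≤ 1` and `δ n1 ≤ δ j` for all `1 ≤ j ≤ n1`. Put
 `δ = δ n1`. (2) for all `q`, `D (q*n1) 0 ≤ 2δ`: induction; by h2 with `i = q*n1`, `m = n1`:
 `D (q*n1 + n1) n1 ≤ C^n1 * (2δ)^2 = 4 C^n1 δ * δ ≤ δ/2`, then the triangle inequality.
 For `n ≥ 1` write `n = q*n1 + r`, `r < n1`. If `r = 0` then `q ≥ 1` and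
 `δ n ≥ δ - D (q*n1) n1 ≥ δ - δ/2`. If `1 ≤ r < n1`: `D n r ≤ C^r (2δ)^2 ≤ C^n1 * 4 δ^2 ≤ δ/2`, so
 `δ n ≥ δ r - δ/2 ≥ δ/2`. So `c = δ/2` works (`C^n ≥ 1`).
Case B: no such `n1`. For `n ≥ 1` let `n1 ∈ [1,n]` minimise `δ` on `[1,n]` (Finset.exists_min_image).
 Then `8 C^n1 δ n1 > 1`, so `δ n ≥ δ n1 > 1/(8 C^n1) ≥ (1/8)/C^n`. (Compare orbit_lb, AD/ZAb.lean.)
PROOF of dl_orbit: `D i j = dl a (F^[i] β) (F^[j] β)`, `C` the maximum of the constants of dl_lip and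
 dl_quad (row ZAd). h2: induction on `m ≥ 1`: `m = 1`: `F^[i+1] β = F (F^[i] β)`, dl_quad;
 step: dl_lip. h0: hper and dl_pos.
-/
import Pool.Agent.H42.RM.ZAd

set_option autoImplicit false

namespace Pool.Agent.H42.RM

open Polynomial

theorem ZAe_caseA (D : ℕ → ℕ → ℝ) (hnn : ∀ i j, 0 ≤ D i j) (hsy : ∀ i j, D i j = D j i)
    (htr : ∀ i j k, D i k ≤ D i j + D j k) {C : ℝ} (hC : 1 ≤ C) (h0 : ∀ n, 1 ≤ n → 0 < D n 0)
    (h2 : ∀ i m, 1 ≤ m → D (i + m) m ≤ C ^ m * D i 0 ^ 2) (n1 : ℕ) (hn1 : 1 ≤ n1)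
    (h8 : 8 * C ^ n1 * D n1 0 ≤ 1) (hmin : ∀ j, 1 ≤ j → j ≤ n1 → D n1 0 ≤ D j 0) :
    ∀ n, 1 ≤ n → D n1 0 / 2 ≤ D n 0 := by
  have hd0 := h0 n1 hn1
  have hC0 : 0 ≤ C ^ n1 := pow_nonneg (zero_le_one.trans hC) _
  have hsq : ∀ t : ℝ, 0 ≤ t → t ≤ 2 * D n1 0 → ∀ r, r ≤ n1 → C ^ r * t ^ 2 ≤ D n1 0 / 2 := by
    intro t ht ht2 r hr
    have e1 : C ^ r ≤ C ^ n1 := pow_le_pow_right₀ hC hr
    have e2 : t ^ 2 ≤ (2 * D n1 0) ^ 2 := pow_le_pow_left₀ ht ht2 2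
    have e3 : C ^ r * t ^ 2 ≤ C ^ n1 * (2 * D n1 0) ^ 2 :=
      mul_le_mul e1 e2 (sq_nonneg _) hC0
    have e4 : C ^ n1 * (2 * D n1 0) ^ 2 = (8 * C ^ n1 * D n1 0) * D n1 0 / 2 := by ring
    have e5 : (8 * C ^ n1 * D n1 0) * D n1 0 ≤ 1 * D n1 0 := mul_le_mul_of_nonneg_right h8 hd0.le
    linarith
  have hq : ∀ q : ℕ, D (q * n1) 0 ≤ 2 * D n1 0 := by
    intro q
    induction q with
    | zero =>
      rw [zero_mul]
      have e1 := htr 0 n1 0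
      rw [hsy 0 n1] at e1
      linarith
    | succ q ih =>
      have e1 := h2 (q * n1) n1 hn1
      have e2 := hsq _ (hnn _ _) ih n1 le_rfl
      have e3 := htr (q * n1 + n1) n1 0
      rw [Nat.succ_mul]
      linarith
  intro n hn
  have hdiv : n / n1 * n1 + n % n1 = n := by
    rw [mul_comm]
    exact Nat.div_add_mod n n1
  rcases Nat.eq_zero_or_pos (n % n1) with hr | hr
  · rw [hr, add_zero] at hdiv
    have hq1 : 1 ≤ n / n1 := by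
      by_contra hc
      have : n / n1 = 0 := Nat.lt_one_iff.1 (not_le.1 hc)
      rw [this, zero_mul] at hdiv
      omega
    obtain ⟨q, hq2⟩ : ∃ q, n / n1 = q + 1 := ⟨n / n1 - 1, (Nat.sub_add_cancel hq1).symm⟩
    rw [hq2, Nat.succ_mul] at hdiv
    have e1 := h2 (q * n1) n1 hn1
    rw [hdiv] at e1
    have e2 := hsq _ (hnn _ _) (hq q) n1 le_rfl
    have e3 := htr n1 n 0
    rw [hsy n1 n] at e3
    linarith
  · have hlt : n % n1 < n1 := Nat.mod_lt _ hn1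
    have e1 := h2 (n / n1 * n1) (n % n1) hr
    rw [hdiv] at e1
    have e2 := hsq _ (hnn _ _) (hq (n / n1)) (n % n1) hlt.le
    have e3 := htr (n % n1) n 0
    rw [hsy (n % n1) n] at e3
    have e4 := hmin (n % n1) hr hlt.le
    linarith

theorem ret_abs (D : ℕ → ℕ → ℝ) (hnn : ∀ i j, 0 ≤ D i j) (hsy : ∀ i j, D i j = D j i)
    (htr : ∀ i j k, D i k ≤ D i j + D j k) {C : ℝ} (hC : 1 ≤ C) (h0 : ∀ n, 1 ≤ n → 0 < D n 0)
    (h2 : ∀ i m, 1 ≤ m → D (i + m) m ≤ C ^ m * D i 0 ^ 2) :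
    ∃ c : ℝ, 0 < c ∧ ∀ n, 1 ≤ n → c / C ^ n ≤ D n 0 := by
  have hpos : ∀ n : ℕ, 0 < C ^ n := fun n => pow_pos (zero_lt_one.trans_le hC) n
  by_cases hA : ∃ n1, 1 ≤ n1 ∧ 8 * C ^ n1 * D n1 0 ≤ 1 ∧ ∀ j, 1 ≤ j → j ≤ n1 → D n1 0 ≤ D j 0
  · obtain ⟨n1, hn1, h8, hmin⟩ := hA
    refine ⟨D n1 0 / 2, half_pos (h0 n1 hn1), fun n hn => ?_⟩
    have h3 := ZAe_caseA D hnn hsy htr hC h0 h2 n1 hn1 h8 hmin n hn
    refine le_trans ?_ h3
    exact div_le_self (half_pos (h0 n1 hn1)).le (one_le_pow₀ hC)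
  · refine ⟨1 / 8, by norm_num, fun n hn => ?_⟩
    obtain ⟨n1, hn1, hm⟩ := Finset.exists_min_image (Finset.Icc 1 n) (fun j => D j 0)
      ⟨n, Finset.mem_Icc.2 ⟨hn, le_rfl⟩⟩
    rw [Finset.mem_Icc] at hn1
    have h8 : 1 < 8 * C ^ n1 * D n1 0 := by
      by_contra hc
      push Not at hc
      exact hA ⟨n1, hn1.1, hc, fun j h1 h2 => hm j (Finset.mem_Icc.2 ⟨h1, h2.trans hn1.2⟩)⟩
    have h3 : D n1 0 ≤ D n 0 := hm n (Finset.mem_Icc.2 ⟨hn, le_rfl⟩)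
    have h4 : C ^ n1 ≤ C ^ n := pow_le_pow_right₀ hC hn1.2
    have h5 : C ^ n1 * D n1 0 ≤ C ^ n * D n 0 :=
      mul_le_mul h4 h3 (hnn _ _) (hpos n).le
    rw [div_le_iff₀ (hpos n)]
    linarith

variable {K : Type} [Field K] (a : AbsoluteValue K ℝ)

theorem dl_orbit {p q : K[X]} {o β : K} (hcop : IsCoprime p q) (hd : 2 ≤ p.natDegree)
    (hqd : q.natDegree < p.natDegree) (hw : (wr p q).eval β = 0)
    (hreg : ∀ n : ℕ, q.eval ((fr p q o)^[n] β) ≠ 0)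
    (hper : ∀ n, 1 ≤ n → (fr p q o)^[n] β ≠ β) :
    ∃ c C : ℝ, 0 < c ∧ 1 ≤ C ∧ ∀ n, 1 ≤ n → c / C ^ n ≤ dl a ((fr p q o)^[n] β) β := by
  obtain ⟨C1, hC1, h1⟩ := dl_lip a (o := o) hcop hd hqd
  obtain ⟨C2, hC2, h2⟩ := dl_quad a (o := o) hcop hd hqd hw (hreg 0)
  have hC : 1 ≤ max C1 C2 := hC1.trans (le_max_left _ _)
  have hC0 : 0 ≤ max C1 C2 := zero_le_one.trans hC
  obtain ⟨c, hc, hc1⟩ := ret_abs (fun i j => dl a ((fr p q o)^[i] β) ((fr p q o)^[j] β))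
    (fun i j => dl_nonneg a _ _) (fun i j => dl_symm a _ _) (fun i j k => dl_tri a _ _ _) hC
    (fun n hn => dl_pos a (hper n hn)) (by
      intro i m hm
      induction m, hm using Nat.le_induction with
      | base =>
        have e1 := h2 ((fr p q o)^[i] β) (hreg i)
        have e2 : C2 * dl a ((fr p q o)^[i] β) β ^ 2 ≤
            max C1 C2 * dl a ((fr p q o)^[i] β) β ^ 2 :=
          mul_le_mul_of_nonneg_right (le_max_right _ _) (sq_nonneg _)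
        show dl a ((fr p q o)^[i + 1] β) ((fr p q o)^[1] β) ≤
          max C1 C2 ^ 1 * dl a ((fr p q o)^[i] β) β ^ 2
        rw [pow_one, Function.iterate_succ_apply', Function.iterate_one]
        exact e1.trans e2
      | succ m hm ih =>
        have ih' : dl a ((fr p q o)^[i + m] β) ((fr p q o)^[m] β) ≤
          max C1 C2 ^ m * dl a ((fr p q o)^[i] β) β ^ 2 := ih
        have e1 := h1 _ _ (hreg (i + m)) (hreg m)
        have e2 : C1 * dl a ((fr p q o)^[i + m] β) ((fr p q o)^[m] β) ≤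
            max C1 C2 * dl a ((fr p q o)^[i + m] β) ((fr p q o)^[m] β) :=
          mul_le_mul_of_nonneg_right (le_max_left _ _) (dl_nonneg a _ _)
        have e3 := mul_le_mul_of_nonneg_left ih' hC0
        show dl a ((fr p q o)^[i + m + 1] β) ((fr p q o)^[m + 1] β) ≤
          max C1 C2 ^ (m + 1) * dl a ((fr p q o)^[i] β) β ^ 2
        rw [Function.iterate_succ_apply', Function.iterate_succ_apply', pow_succ']
        rw [mul_assoc]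
        exact e1.trans (e2.trans e3))
  exact ⟨c, max C1 C2, hc, hC, fun n hn => hc1 n hn⟩

end Pool.Agent.H42.RM
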